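import Pool.Agent.H67.NP.Gauss

/-!
# Almost orthogonal unit vectors (§4 (D), §7)

* `bessel_coh`: `∑_{π∈S} ⟨u_π,v⟩² ≤ (1 + |S| μ) |v|²`.  With `a_π = ⟨u_π,v⟩`, `τ = ∑ a_π u_π`:
  `∑ a_π² = ⟨τ,v⟩ ≤ |τ||v|` and `|τ|² ≤ ∑ a_π² + μ (∑|a_π|)² ≤ (1+|S|μ) ∑ a_π²`.
* `sum_cube_le` (D): `S = {π : ⟨u_π,v⟩² ≥ 2μ}`; `2μ|S| ≤ ∑_S ⟨u_π,v⟩² ≤ 1+|S|μ`, so `|S|μ ≤ 1` and
  `∑_S ⟨u_π,v⟩² ≤ 2`, `|⟨u_π,v⟩|³ ≤ ⟨u_π,v⟩²`; for the others `|⟨u_π,v⟩|³ ≤ 2μ|⟨u_π,v⟩|` and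
  Cauchy-Schwarz with `bessel_coh` for all of `Q`.
* `near_orth`: `|τ-τ'|² ≥ (1-2Kμ)(|c|²+|c'|²) ≥ (3/4)|c|²`, `|τ|² ≤ (1+Kμ)|c|² ≤ (9/8)|c|²`.
* `synth_le`: `|∑ c_j u_j|² ≤ B₀ |c|²` under the frame bound (§6).
-/

set_option autoImplicit false

open MeasureTheory ProbabilityTheory Finset BigOperators
open scoped ENNReal NNReal

namespace Pool.Agent.H67.NP

variable {I : Type} [Fintype I]

theorem l2_sq' (v : I → ℝ) : l2 v ^ 2 = dot v v := by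
  rw [l2_sq]; unfold dot
  exact Finset.sum_congr rfl fun i _ => by ring

theorem l2_smul (c : ℝ) (v : I → ℝ) : l2 (fun i => c * v i) = |c| * l2 v := by
  unfold l2
  have : ∑ i, (c * v i) ^ 2 = c ^ 2 * ∑ i, v i ^ 2 := by
    rw [Finset.mul_sum]
    exact Finset.sum_congr rfl fun i _ => by ring
  rw [this, Real.sqrt_mul (sq_nonneg c), Real.sqrt_sq_eq_abs]

theorem dot_sq_le (u v : I → ℝ) : dot u v ^ 2 ≤ l2 u ^ 2 * l2 v ^ 2 := by
  rw [l2_sq, l2_sq]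
  exact Finset.sum_mul_sq_le_sq_mul_sq _ _ _

theorem abs_dot_le (u v : I → ℝ) : |dot u v| ≤ l2 u * l2 v := by
  apply abs_le_of_sq_le_sq _ (mul_nonneg (l2_nonneg u) (l2_nonneg v))
  rw [mul_pow]
  exact dot_sq_le u v

theorem l2_add_le (u v : I → ℝ) : l2 (fun i => u i + v i) ≤ l2 u + l2 v := by
  apply le_of_sq_le_sq _ (add_nonneg (l2_nonneg u) (l2_nonneg v))
  have h1 : l2 (fun i => u i + v i) ^ 2 = l2 u ^ 2 + 2 * dot u v + l2 v ^ 2 := by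
    rw [l2_sq, l2_sq, l2_sq]
    unfold dot
    rw [Finset.mul_sum, ← Finset.sum_add_distrib, ← Finset.sum_add_distrib]
    exact Finset.sum_congr rfl fun i _ => by ring
  have h2 := (abs_le.mp (abs_dot_le u v)).2
  rw [h1]
  nlinarith [h2]

/-- `dot` is linear in the first variable. -/
theorem dot_sum_left {Q : Type} (S : Finset Q) (c : Q → ℝ) (u : Q → I → ℝ) (v : I → ℝ) :
    dot (fun i => ∑ π ∈ S, c π * u π i) v = ∑ π ∈ S, c π * dot (u π) v := by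
  unfold dot
  simp_rw [Finset.sum_mul, Finset.mul_sum]
  rw [Finset.sum_comm]
  exact Finset.sum_congr rfl fun π _ => Finset.sum_congr rfl fun i _ => by ring

theorem dot_comm' (u v : I → ℝ) : dot u v = dot v u := by
  unfold dot
  exact Finset.sum_congr rfl fun i _ => by ring

theorem dot_sum_sum {Q : Type} (S S' : Finset Q) (c c' : Q → ℝ) (u u' : Q → I → ℝ) :
    dot (fun i => ∑ π ∈ S, c π * u π i) (fun i => ∑ π ∈ S', c' π * u' π i)
      = ∑ π ∈ S, ∑ π' ∈ S', c π * c' π' * dot (u π) (u' π') := by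
  rw [dot_sum_left]
  refine Finset.sum_congr rfl fun π _ => ?_
  rw [dot_comm', dot_sum_left, Finset.mul_sum]
  refine Finset.sum_congr rfl fun π' _ => ?_
  rw [dot_comm']; ring

/-- the cross terms of two coherent families -/
theorem abs_dot_cross {Q : Type} (S S' : Finset Q) (u u' : Q → I → ℝ) (μ : ℝ)
    (h : ∀ π ∈ S, ∀ π' ∈ S', |dot (u π) (u' π')| ≤ μ) (c c' : Q → ℝ) :
    |dot (fun i => ∑ π ∈ S, c π * u π i) (fun i => ∑ π ∈ S', c' π * u' π i)|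
      ≤ μ * ((∑ π ∈ S, |c π|) * ∑ π ∈ S', |c' π|) := by
  rw [dot_sum_sum, Finset.sum_mul_sum, Finset.mul_sum]
  refine (Finset.abs_sum_le_sum_abs _ _).trans (Finset.sum_le_sum fun π hπ => ?_)
  rw [Finset.mul_sum]
  refine (Finset.abs_sum_le_sum_abs _ _).trans (Finset.sum_le_sum fun π' hπ' => ?_)
  rw [abs_mul, abs_mul, mul_comm μ]
  exact mul_le_mul_of_nonneg_left (h π hπ π' hπ') (mul_nonneg (abs_nonneg _) (abs_nonneg _))

/-- the norm of a combination of coherent unit vectors -/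
theorem abs_l2_sum_sq_sub {Q : Type} (S : Finset Q) (u : Q → I → ℝ)
    (hu : ∀ π ∈ S, l2 (u π) = 1) (μ : ℝ) (hμ0 : 0 ≤ μ)
    (hμ : ∀ π ∈ S, ∀ π' ∈ S, π ≠ π' → |dot (u π) (u π')| ≤ μ) (c : Q → ℝ) :
    |l2 (fun i => ∑ π ∈ S, c π * u π i) ^ 2 - ∑ π ∈ S, c π ^ 2|
      ≤ S.card * μ * ∑ π ∈ S, c π ^ 2 := by
  classical
  have h1 : l2 (fun i => ∑ π ∈ S, c π * u π i) ^ 2 - ∑ π ∈ S, c π ^ 2
      = ∑ π ∈ S, ∑ π' ∈ S, (c π * c π' * dot (u π) (u π') - if π = π' then c π ^ 2 else 0) := by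
    rw [l2_sq', dot_sum_sum]
    rw [← Finset.sum_sub_distrib]
    refine Finset.sum_congr rfl fun π hπ => ?_
    rw [Finset.sum_sub_distrib]
    congr 1
    rw [Finset.sum_ite_eq, if_pos hπ]
  have h2 : ∀ π ∈ S, ∀ π' ∈ S,
      |c π * c π' * dot (u π) (u π') - if π = π' then c π ^ 2 else 0| ≤ |c π| * |c π'| * μ := by
    intro π hπ π' hπ'
    by_cases h : π = π'
    · subst h
      have : dot (u π) (u π) = 1 := by rw [← l2_sq', hu π hπ]; norm_num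
      rw [if_pos rfl, this]
      have : c π * c π * 1 - c π ^ 2 = 0 := by ring
      rw [this, abs_zero]
      positivity
    · rw [if_neg h, sub_zero, abs_mul, abs_mul]
      exact mul_le_mul_of_nonneg_left (hμ π hπ π' hπ' h) (by positivity)
  have h3 : (∑ π ∈ S, |c π|) ^ 2 ≤ S.card * ∑ π ∈ S, c π ^ 2 := by
    have := sq_sum_le_card_mul_sum_sq (s := S) (f := fun π => |c π|)
    simpa [sq_abs] using this
  rw [h1]
  calc _ ≤ ∑ π ∈ S, ∑ π' ∈ S, |c π| * |c π'| * μ := by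
        refine (Finset.abs_sum_le_sum_abs _ _).trans (Finset.sum_le_sum fun π hπ => ?_)
        exact (Finset.abs_sum_le_sum_abs _ _).trans (Finset.sum_le_sum fun π' hπ' => h2 π hπ π' hπ')
    _ = (∑ π ∈ S, |c π|) ^ 2 * μ := by
        rw [pow_two, Finset.sum_mul_sum, Finset.sum_mul]
        exact Finset.sum_congr rfl fun π _ => by rw [Finset.sum_mul]
    _ ≤ (S.card * ∑ π ∈ S, c π ^ 2) * μ := mul_le_mul_of_nonneg_right h3 hμ0
    _ = _ := by ring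

theorem bessel_coh {Q : Type} (S : Finset Q) (u : Q → I → ℝ)
    (hu : ∀ π ∈ S, l2 (u π) = 1) (μ : ℝ) (hμ0 : 0 ≤ μ)
    (hμ : ∀ π ∈ S, ∀ π' ∈ S, π ≠ π' → |dot (u π) (u π')| ≤ μ) (v : I → ℝ) :
    ∑ π ∈ S, dot (u π) v ^ 2 ≤ (1 + S.card * μ) * l2 v ^ 2 := by
  set A := ∑ π ∈ S, dot (u π) v ^ 2 with hA
  have hA0 : 0 ≤ A := Finset.sum_nonneg fun _ _ => sq_nonneg _
  set τ : I → ℝ := fun i => ∑ π ∈ S, dot (u π) v * u π i with hτ
  have h1 : A = dot τ v := by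
    rw [hτ, dot_sum_left, hA]
    exact Finset.sum_congr rfl fun π _ => by ring
  have h2 : l2 τ ^ 2 ≤ (1 + S.card * μ) * A := by
    have := (abs_le.mp (abs_l2_sum_sq_sub S u hu μ hμ0 hμ (fun π => dot (u π) v))).2
    rw [← hτ] at this
    nlinarith [this]
  have h3 : A ^ 2 ≤ l2 τ ^ 2 * l2 v ^ 2 := by
    rw [h1]; exact dot_sq_le τ v
  have h4 : A * A ≤ A * ((1 + S.card * μ) * l2 v ^ 2) := by
    calc A * A = A ^ 2 := by ring
      _ ≤ l2 τ ^ 2 * l2 v ^ 2 := h3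
      _ ≤ ((1 + S.card * μ) * A) * l2 v ^ 2 := mul_le_mul_of_nonneg_right h2 (sq_nonneg _)
      _ = _ := by ring
  rcases hA0.eq_or_lt with h0 | h0
  · rw [← h0]
    positivity
  · exact le_of_mul_le_mul_left h4 h0

/-- (D) -/
theorem sum_cube_le {Q : Type} [Fintype Q] (u : Q → I → ℝ)
    (hu : ∀ π, l2 (u π) = 1) (μ : ℝ) (hμ0 : 0 ≤ μ)
    (hμ : ∀ π π', π ≠ π' → |dot (u π) (u π')| ≤ μ) (v : I → ℝ) (hv : l2 v = 1) (c : Q → ℝ)
    (e : ℝ) (he : ∀ π, |c π| ≤ e) (he0 : 0 ≤ e) :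
    ∑ π, |c π| * |dot (u π) v| ^ 3 ≤ 2 * e + 2 * μ * √(1 + Fintype.card Q * μ) * l2 c := by
  classical
  set S : Finset Q := Finset.univ.filter fun π => 2 * μ ≤ dot (u π) v ^ 2 with hS
  have hd1 : ∀ π, |dot (u π) v| ≤ 1 := by
    intro π
    have := abs_dot_le (u π) v
    rwa [hu π, hv, one_mul] at this
  have hbS := bessel_coh S u (fun π _ => hu π) μ hμ0 (fun π _ π' _ h => hμ π π' h) v
  have hbQ := bessel_coh Finset.univ u (fun π _ => hu π) μ hμ0 (fun π _ π' _ h => hμ π π' h) v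
  rw [hv] at hbS hbQ
  have hS1 : (S.card : ℝ) * (2 * μ) ≤ ∑ π ∈ S, dot (u π) v ^ 2 := by
    rw [← nsmul_eq_mul]
    exact Finset.card_nsmul_le_sum _ _ _ fun π hπ => (Finset.mem_filter.mp hπ).2
  have hS2 : (S.card : ℝ) * μ ≤ 1 := by nlinarith
  have hS3 : ∑ π ∈ S, dot (u π) v ^ 2 ≤ 2 := by nlinarith
  rw [← Finset.sum_filter_add_sum_filter_not Finset.univ (fun π => 2 * μ ≤ dot (u π) v ^ 2)]
  apply add_le_add
  · calc ∑ π ∈ S, |c π| * |dot (u π) v| ^ 3 ≤ ∑ π ∈ S, e * dot (u π) v ^ 2 := by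
          refine Finset.sum_le_sum fun π _ => mul_le_mul (he π) ?_ (by positivity) he0
          rw [← sq_abs (dot (u π) v)]
          exact pow_le_pow_of_le_one (abs_nonneg _) (hd1 π) (by norm_num)
      _ = e * ∑ π ∈ S, dot (u π) v ^ 2 := by rw [Finset.mul_sum]
      _ ≤ e * 2 := mul_le_mul_of_nonneg_left hS3 he0
      _ = 2 * e := by ring
  · calc ∑ π with ¬ 2 * μ ≤ dot (u π) v ^ 2, |c π| * |dot (u π) v| ^ 3
        ≤ ∑ π with ¬ 2 * μ ≤ dot (u π) v ^ 2, (2 * μ) * (|c π| * |dot (u π) v|) := by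
          refine Finset.sum_le_sum fun π hπ => ?_
          have h := (Finset.mem_filter.mp hπ).2
          push Not at h
          have h' : |dot (u π) v| ^ 2 ≤ 2 * μ := by rw [sq_abs]; exact h.le
          calc |c π| * |dot (u π) v| ^ 3 = |dot (u π) v| ^ 2 * (|c π| * |dot (u π) v|) := by ring
            _ ≤ (2 * μ) * (|c π| * |dot (u π) v|) :=
                mul_le_mul_of_nonneg_right h' (by positivity)
      _ ≤ ∑ π, (2 * μ) * (|c π| * |dot (u π) v|) := by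
          refine Finset.sum_le_sum_of_subset_of_nonneg (Finset.filter_subset _ _) ?_
          intro π _ _
          positivity
      _ = (2 * μ) * ∑ π, |c π| * |dot (u π) v| := by rw [Finset.mul_sum]
      _ ≤ (2 * μ) * (√(1 + Fintype.card Q * μ) * l2 c) := by
          refine mul_le_mul_of_nonneg_left ?_ (by positivity)
          apply le_of_sq_le_sq _ (mul_nonneg (Real.sqrt_nonneg _) (l2_nonneg _))
          rw [mul_pow, Real.sq_sqrt (by positivity), l2_sq]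
          have h := Finset.sum_mul_sq_le_sq_mul_sq Finset.univ (fun π => |c π|)
            (fun π => |dot (u π) v|)
          simp only [sq_abs] at h
          refine h.trans ?_
          rw [mul_comm]
          refine mul_le_mul_of_nonneg_right ?_ (Finset.sum_nonneg fun _ _ => sq_nonneg _)
          rw [Finset.card_univ] at hbQ
          linarith
      _ = _ := by ring

theorem near_orth {Q : Type} (S S' : Finset Q) (u u' : Q → I → ℝ)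
    (hu : ∀ π, l2 (u π) = 1) (hu' : ∀ π, l2 (u' π) = 1) (μ : ℝ) (hμ0 : 0 ≤ μ)
    (h1 : ∀ π π', π ≠ π' → |dot (u π) (u π')| ≤ μ)
    (h2 : ∀ π π', π ≠ π' → |dot (u' π) (u' π')| ≤ μ)
    (h3 : ∀ π π', |dot (u π) (u' π')| ≤ μ) (K : ℕ) (hS : S.card ≤ K) (hS' : S'.card ≤ K)
    (hK : 8 * K * μ ≤ 1) (c c' : Q → ℝ) :
    l2 (fun i => ∑ π ∈ S, c π * u π i)
      ≤ 2 * l2 (fun i => ∑ π ∈ S, c π * u π i - ∑ π ∈ S', c' π * u' π i) := by
  set τ : I → ℝ := fun i => ∑ π ∈ S, c π * u π i with hτ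
  set τ' : I → ℝ := fun i => ∑ π ∈ S', c' π * u' π i with hτ'
  set C := ∑ π ∈ S, c π ^ 2 with hC
  set C' := ∑ π ∈ S', c' π ^ 2 with hC'
  have hC0 : 0 ≤ C := Finset.sum_nonneg fun _ _ => sq_nonneg _
  have hC'0 : 0 ≤ C' := Finset.sum_nonneg fun _ _ => sq_nonneg _
  have hSr : (S.card : ℝ) ≤ K := by exact_mod_cast hS
  have hSr' : (S'.card : ℝ) ≤ K := by exact_mod_cast hS'
  have hK' : (K : ℝ) * μ ≤ 1 / 8 := by linarith
  have e1 := abs_le.mp (abs_l2_sum_sq_sub S u (fun π _ => hu π) μ hμ0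
    (fun π _ π' _ h => h1 π π' h) c)
  have e2 := abs_le.mp (abs_l2_sum_sq_sub S' u' (fun π _ => hu' π) μ hμ0
    (fun π _ π' _ h => h2 π π' h) c')
  rw [← hτ, ← hC] at e1
  rw [← hτ', ← hC'] at e2
  have b1 : (S.card : ℝ) * μ * C ≤ 1 / 8 * C := by
    refine mul_le_mul_of_nonneg_right ?_ hC0
    exact (mul_le_mul_of_nonneg_right hSr hμ0).trans hK'
  have b2 : (S'.card : ℝ) * μ * C' ≤ 1 / 8 * C' := by
    refine mul_le_mul_of_nonneg_right ?_ hC'0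
    exact (mul_le_mul_of_nonneg_right hSr' hμ0).trans hK'
  have e3 := (abs_le.mp (abs_dot_cross S S' u u' μ (fun π _ π' _ => h3 π π') c c')).2
  rw [← hτ, ← hτ'] at e3
  have f1 : (∑ π ∈ S, |c π|) ^ 2 ≤ S.card * C := by
    have := sq_sum_le_card_mul_sum_sq (s := S) (f := fun π => |c π|)
    simpa [sq_abs, hC] using this
  have f2 : (∑ π ∈ S', |c' π|) ^ 2 ≤ S'.card * C' := by
    have := sq_sum_le_card_mul_sum_sq (s := S') (f := fun π => |c' π|)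
    simpa [sq_abs, hC'] using this
  have e4 : 2 * dot τ τ' ≤ 1 / 8 * C + 1 / 8 * C' := by
    have h4 : 2 * ((∑ π ∈ S, |c π|) * ∑ π ∈ S', |c' π|)
        ≤ (∑ π ∈ S, |c π|) ^ 2 + (∑ π ∈ S', |c' π|) ^ 2 := by
      nlinarith [sq_nonneg ((∑ π ∈ S, |c π|) - ∑ π ∈ S', |c' π|)]
    have h5 : μ * (2 * ((∑ π ∈ S, |c π|) * ∑ π ∈ S', |c' π|)) ≤ μ * (S.card * C + S'.card * C') :=
      mul_le_mul_of_nonneg_left (h4.trans (add_le_add f1 f2)) hμ0
    nlinarith [h5, e3, b1, b2]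
  have e5 : l2 (fun i => τ i - τ' i) ^ 2 = l2 τ ^ 2 - 2 * dot τ τ' + l2 τ' ^ 2 := by
    rw [l2_sq, l2_sq, l2_sq]
    unfold dot
    rw [Finset.mul_sum, ← Finset.sum_sub_distrib, ← Finset.sum_add_distrib]
    exact Finset.sum_congr rfl fun i _ => by ring
  apply le_of_sq_le_sq _ (mul_nonneg (by norm_num) (l2_nonneg _))
  rw [mul_pow, e5]
  nlinarith [e1.1, e1.2, e2.1, e4, b1, b2]

theorem synth_le {Q : Type} [Fintype Q] (u : Q → I → ℝ) (B₀ : ℝ) (hB₀ : 0 ≤ B₀)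
    (hfr : ∀ v : I → ℝ, ∑ π, dot (u π) v ^ 2 ≤ B₀ * l2 v ^ 2) (c : Q → ℝ) :
    l2 (fun i => ∑ π, c π * u π i) ≤ √B₀ * l2 c := by
  set τ : I → ℝ := fun i => ∑ π, c π * u π i with hτ
  have h1 : l2 τ ^ 2 = ∑ π, c π * dot (u π) τ := by
    rw [l2_sq']; exact dot_sum_left Finset.univ c u τ
  have h2 : (l2 τ ^ 2) ^ 2 ≤ l2 c ^ 2 * (B₀ * l2 τ ^ 2) := by
    rw [h1]
    calc (∑ π, c π * dot (u π) τ) ^ 2 ≤ (∑ π, c π ^ 2) * ∑ π, dot (u π) τ ^ 2 :=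
          Finset.sum_mul_sq_le_sq_mul_sq _ _ _
      _ = l2 c ^ 2 * ∑ π, dot (u π) τ ^ 2 := by rw [l2_sq]
      _ ≤ l2 c ^ 2 * (B₀ * l2 τ ^ 2) := mul_le_mul_of_nonneg_left (hfr τ) (sq_nonneg _)
      _ = _ := by rw [h1]
  apply le_of_sq_le_sq _ (mul_nonneg (Real.sqrt_nonneg _) (l2_nonneg _))
  rw [mul_pow, Real.sq_sqrt hB₀]
  rcases (sq_nonneg (l2 τ)).eq_or_lt with h0 | h0
  · rw [← h0]; positivity
  · have h3 : l2 τ ^ 2 * l2 τ ^ 2 ≤ l2 τ ^ 2 * (B₀ * l2 c ^ 2) := by nlinarith [h2]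
    exact le_of_mul_le_mul_left h3 h0

end Pool.Agent.H67.NP
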