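import Pool.Agent.H67.NP.Defs

/-!
# Integrating out single blocks; the mixed norm `NN`

* `lintegral_update_pi`: `∫∫ f(update x l a) dμ_l(a) dμ(x) = ∫ f dμ` for a product of probability
  measures (use `lmarginal`: `lmarginal_singleton`, `lintegral_eq_lmarginal_univ`,
  `lmarginal_erase'`, `lmarginal_update_of_mem`; or `MeasurePreserving`).
* `lintegral_split`: factors depending on one coordinate each split off (induct on `S`, use
  `lintegral_update_pi`).
* `lintegral_prod_pi`: special case `f = 1` (Mathlib may have it as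
  `lintegral_fintype_prod_eq_prod`).
* `NN` lemmas: `NN_add_le` is Minkowski; use `ENNReal.lintegral_Lp_add_le` on the product measure
  `(Measure.count : Measure ℕ).prod μ` (`lintegral_count`, `lintegral_prod`), or first in `x`
  and then in `s`.
-/

set_option autoImplicit false

open MeasureTheory ProbabilityTheory Finset BigOperators
open scoped ENNReal NNReal

namespace Pool.Agent.H67.NP

section upd

variable {k : ℕ} {Y : Fin k → Type} [∀ i, MeasurableSpace (Y i)] (μ : ∀ i, Measure (Y i))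
  [∀ i, IsProbabilityMeasure (μ i)]

theorem lintegral_update_pi (f : (∀ i, Y i) → ℝ≥0∞) (hf : Measurable f) (l : Fin k) :
    ∫⁻ x, ∫⁻ a, f (Function.update x l a) ∂(μ l) ∂(Measure.pi μ) = ∫⁻ x, f x ∂(Measure.pi μ) := by
  have hne : ∀ i, Nonempty (Y i) := fun i => nonempty_of_isProbabilityMeasure (μ i)
  let x0 : ∀ i, Y i := fun i => (hne i).some
  set f' : (∀ i, Y i) → ℝ≥0∞ := fun x => ∫⁻ a, f (Function.update x l a) ∂(μ l) with hf'
  have hf'm : Measurable f' := by
    have := hf.lmarginal (s := {l}) (μ := μ)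
    rwa [lmarginal_singleton] at this
  rw [lintegral_eq_lmarginal_univ x0, lintegral_eq_lmarginal_univ x0,
    lmarginal_erase' f hf (Finset.mem_univ l), lmarginal_erase' f' hf'm (Finset.mem_univ l)]
  have h1 : (fun x : ∀ i, Y i => ∫⁻ a, f' (Function.update x l a) ∂(μ l)) = f' := by
    funext x
    have : ∀ a, f' (Function.update x l a) = f' x := by
      intro a
      simp only [hf', Function.update_idem]
    simp only [this, lintegral_const, measure_univ, mul_one]
  rw [h1]

theorem lintegral_split (S : Finset (Fin k)) (g : ∀ i, Y i → ℝ≥0∞) (hg : ∀ i, Measurable (g i))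
    (f : (∀ i, Y i) → ℝ≥0∞) (hf : Measurable f)
    (hind : ∀ i ∈ S, ∀ x a, f (Function.update x i a) = f x) :
    ∫⁻ x, (∏ i ∈ S, g i (x i)) * f x ∂(Measure.pi μ)
      = (∏ i ∈ S, ∫⁻ a, g i a ∂(μ i)) * ∫⁻ x, f x ∂(Measure.pi μ) := by
  classical
  induction S using Finset.induction_on with
  | empty => simp
  | insert i S hi ih =>
    have hm : Measurable fun x : ∀ i, Y i => (∏ j ∈ S, g j (x j)) * f x := by
      refine Measurable.mul ?_ hf
      exact Finset.measurable_prod _ fun j _ => (hg j).comp (measurable_pi_apply j)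
    have hm' : Measurable fun x : ∀ i, Y i => (∏ j ∈ insert i S, g j (x j)) * f x := by
      refine Measurable.mul ?_ hf
      exact Finset.measurable_prod _ fun j _ => (hg j).comp (measurable_pi_apply j)
    rw [← lintegral_update_pi μ _ hm' i]
    have h1 : ∀ x : ∀ i, Y i, ∫⁻ a, (∏ j ∈ insert i S, g j (Function.update x i a j)) *
        f (Function.update x i a) ∂(μ i) = (∫⁻ a, g i a ∂(μ i)) *
          ((∏ j ∈ S, g j (x j)) * f x) := by
      intro x
      rw [← lintegral_mul_const _ (hg i)]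
      refine lintegral_congr fun a => ?_
      rw [Finset.prod_insert hi, hind i (Finset.mem_insert_self _ _), Function.update_self]
      have : ∏ j ∈ S, g j (Function.update x i a j) = ∏ j ∈ S, g j (x j) := by
        refine Finset.prod_congr rfl fun j hj => ?_
        rw [Function.update_of_ne]
        rintro rfl
        exact hi hj
      rw [this, mul_assoc]
    simp_rw [h1]
    rw [lintegral_const_mul _ hm, ih fun j hj => hind j (Finset.mem_insert_of_mem hj),
      Finset.prod_insert hi, mul_assoc]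

theorem lintegral_prod_pi (S : Finset (Fin k)) (g : ∀ i, Y i → ℝ≥0∞)
    (hg : ∀ i, Measurable (g i)) :
    ∫⁻ x, ∏ i ∈ S, g i (x i) ∂(Measure.pi μ) = ∏ i ∈ S, ∫⁻ a, g i a ∂(μ i) := by
  have h := lintegral_split μ S g hg (fun _ => 1) measurable_const (fun _ _ _ _ => rfl)
  simpa using h

end upd

section nn

variable {X : Type} [MeasurableSpace X] {μ : Measure X}

theorem NN_mono {p : ℝ} (hp : 0 ≤ p) {F G : ℕ → X → ℝ≥0∞} (h : ∀ s x, F s x ≤ G s x) :
    NN p μ F ≤ NN p μ G := by
  unfold NN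
  refine ENNReal.rpow_le_rpow ?_ (by positivity)
  refine ENNReal.tsum_le_tsum fun s => ?_
  exact lintegral_mono fun x => ENNReal.rpow_le_rpow (h s x) hp

theorem NN_rpow {p : ℝ} (hp : 0 < p) (F : ℕ → X → ℝ≥0∞) :
    NN p μ F ^ p = ∑' s, ∫⁻ x, F s x ^ p ∂μ := by
  unfold NN
  rw [← ENNReal.rpow_mul, one_div_mul_cancel hp.ne', ENNReal.rpow_one]

theorem NN_add_le {p : ℝ} (hp : 1 ≤ p) {F G : ℕ → X → ℝ≥0∞} (hF : ∀ s, Measurable (F s))
    (hG : ∀ s, Measurable (G s)) : NN p μ (fun s x => F s x + G s x) ≤ NN p μ F + NN p μ G := by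
  have hp0 : 0 < p := by linarith
  set a : ℕ → ℝ≥0∞ := fun s => (∫⁻ x, F s x ^ p ∂μ) ^ (1 / p) with ha
  set b : ℕ → ℝ≥0∞ := fun s => (∫⁻ x, G s x ^ p ∂μ) ^ (1 / p) with hb
  have hap : ∀ s, a s ^ p = ∫⁻ x, F s x ^ p ∂μ := by
    intro s
    rw [ha]
    simp only
    rw [← ENNReal.rpow_mul, one_div_mul_cancel hp0.ne', ENNReal.rpow_one]
  have hbp : ∀ s, b s ^ p = ∫⁻ x, G s x ^ p ∂μ := by
    intro s
    rw [hb]
    simp only
    rw [← ENNReal.rpow_mul, one_div_mul_cancel hp0.ne', ENNReal.rpow_one]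
  have h1 : ∀ s, ∫⁻ x, (F s x + G s x) ^ p ∂μ ≤ (a s + b s) ^ p := by
    intro s
    have h := ENNReal.lintegral_Lp_add_le (μ := μ) (hF s).aemeasurable (hG s).aemeasurable hp
    have h' := ENNReal.rpow_le_rpow h hp0.le
    rw [← ENNReal.rpow_mul, one_div_mul_cancel hp0.ne', ENNReal.rpow_one] at h'
    exact h'
  have h2 := ENNReal.lintegral_Lp_add_le (μ := (Measure.count : Measure ℕ)) (f := a) (g := b)
    (measurable_of_countable _).aemeasurable (measurable_of_countable _).aemeasurable hp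
  rw [lintegral_count, lintegral_count, lintegral_count] at h2
  simp only [Pi.add_apply, hap, hbp] at h2
  unfold NN
  refine le_trans (ENNReal.rpow_le_rpow (ENNReal.tsum_le_tsum h1) (by positivity)) h2

theorem NN_const_mul {p : ℝ} (hp : 0 < p) (c : ℝ≥0∞) (hc : c ≠ ⊤) (F : ℕ → X → ℝ≥0∞)
    (hF : ∀ s, Measurable (F s)) : NN p μ (fun s x => c * F s x) = c * NN p μ F := by
  unfold NN
  have h1 : ∀ s, ∫⁻ x, (c * F s x) ^ p ∂μ = c ^ p * ∫⁻ x, F s x ^ p ∂μ := by
    intro s
    rw [← lintegral_const_mul _ ((hF s).pow_const p)]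
    refine lintegral_congr fun x => ?_
    rw [ENNReal.mul_rpow_of_nonneg _ _ hp.le]
  simp_rw [h1]
  rw [ENNReal.tsum_mul_left, ENNReal.mul_rpow_of_nonneg _ _ (by positivity), ← ENNReal.rpow_mul,
    mul_one_div_cancel hp.ne', ENNReal.rpow_one]

theorem NN_le_iff {p : ℝ} (hp : 0 < p) (F : ℕ → X → ℝ≥0∞) (C : ℝ) (hC : 0 ≤ C) :
    NN p μ F ≤ ENNReal.ofReal C ↔ ∑' s, ∫⁻ x, F s x ^ p ∂μ ≤ ENNReal.ofReal (C ^ p) := by
  unfold NN
  rw [one_div, ENNReal.rpow_inv_le_iff hp, ENNReal.ofReal_rpow_of_nonneg hC hp.le]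

end nn

end Pool.Agent.H67.NP
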