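import Pool.Agent.H67.NP.Gauss
import Pool.Agent.H67.NP.Cube
import Pool.Agent.H67.NP.Update

/-!
# The final step (§7)

`F = F^nb + F^b`, `F' = F'^nb + F'^b`.  `‖F^b - F'^b‖ ≤ ‖F-F'‖ + ‖F^nb‖ + ‖F'^nb‖ ≤ (3/20) g`.
For fixed `s` and fixed `x^i`, `i ≠ 0`, as functions of `a = x^0`: `F^b = ⟨τ,a⟩`,
`τ = ∑_{π∈Big s} c_π u_π`, `c_π = ∑_{cl_0 j = π} G_j(s) ∏_{i≠0} z^i_j`, and
`F^b - F'^b = ⟨τ-τ',a⟩`.  `near_orth` gives `|τ| ≤ 2|τ-τ'|`, so by (G1) (`lintegral_dot`)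
`∫|F^b|^p da ≤ 2^p ∫|F^b-F'^b|^p da`; integrate (`lintegral_update_pi`, `l = 0`) and sum over `s`:
`‖F^b‖ ≤ 2‖F^b-F'^b‖ ≤ (6/20) g`; `‖F‖ ≤ (7/20) g`.
-/

set_option autoImplicit false

open MeasureTheory ProbabilityTheory Finset BigOperators
open scoped ENNReal NNReal

namespace Pool.Agent.H67.NP

section fs

variable {k : ℕ} {I Q : Fin k → Type}
    [∀ i, Fintype (I i)] [∀ i, Fintype (Q i)] [∀ i, DecidableEq (Q i)] {J : Type} [Fintype J]

omit [∀ i, Fintype (Q i)] [∀ i, DecidableEq (Q i)] in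
theorem fs_measurable (cl : ∀ i, J → Q i) (u : ∀ i, Q i → I i → ℝ) (h : J → ℝ) :
    Measurable fun x : ∀ i, I i → ℝ => ∑ j, h j * ∏ i, zz cl u i j x := by
  refine Finset.measurable_sum _ fun j _ => Measurable.const_mul ?_ _
  refine Finset.measurable_prod _ fun i _ => ?_
  unfold zz dot
  fun_prop

omit [∀ i, Fintype (Q i)] in
/-- the big part as a linear function of the block `0` -/
theorem fs_update [NeZero k] (cl : ∀ i, J → Q i) (u : ∀ i, Q i → I i → ℝ) (h : J → ℝ)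
    (B : Finset (Q 0)) (x : ∀ i, I i → ℝ) (a : I 0 → ℝ) :
    ∑ j, (if cl 0 j ∈ B then h j else 0) * ∏ i, zz cl u i j (Function.update x 0 a)
      = dot (fun i => ∑ π ∈ B, (∑ j with cl 0 j = π,
          h j * ∏ i ∈ Finset.univ.erase 0, zz cl u i j x) * u 0 π i) a := by
  have h0 : ∀ j, ∏ i, zz cl u i j (Function.update x 0 a) =
      dot (u 0 (cl 0 j)) a * ∏ i ∈ Finset.univ.erase 0, zz cl u i j x := by
    intro j
    rw [← Finset.mul_prod_erase _ _ (Finset.mem_univ (0 : Fin k))]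
    have e1 : zz cl u 0 j (Function.update x 0 a) = dot (u 0 (cl 0 j)) a := by simp [zz]
    rw [e1]
    congr 1
    refine Finset.prod_congr rfl fun i hi => ?_
    simp only [zz]
    rw [Function.update_of_ne (Finset.ne_of_mem_erase hi)]
  simp only [h0]
  rw [dot_sum_left]
  have h1 : ∀ π ∈ B, (∑ j with cl 0 j = π,
        h j * ∏ i ∈ Finset.univ.erase 0, zz cl u i j x) * dot (u 0 π) a
      = ∑ j, if cl 0 j = π then
          h j * (dot (u 0 (cl 0 j)) a * ∏ i ∈ Finset.univ.erase 0, zz cl u i j x) else 0 := by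
    intro π _
    rw [Finset.sum_filter, Finset.sum_mul]
    refine Finset.sum_congr rfl fun j _ => ?_
    by_cases hj : cl 0 j = π
    · rw [if_pos hj, if_pos hj, hj]
      ring
    · rw [if_neg hj, if_neg hj, zero_mul]
  rw [Finset.sum_congr rfl h1, Finset.sum_comm]
  refine Finset.sum_congr rfl fun j _ => ?_
  rw [Finset.sum_ite_eq]
  by_cases hj : cl 0 j ∈ B
  · rw [if_pos hj, if_pos hj]
  · rw [if_neg hj, if_neg hj, zero_mul]

omit [∀ i, Fintype (Q i)] in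
theorem fs_big {p : ℝ} (hp : 1 ≤ p) [NeZero k]
    (cl : ∀ i, J → Q i) (u u' : ∀ i, Q i → I i → ℝ)
    (hu : ∀ π, l2 (u 0 π) = 1) (hu' : ∀ π, l2 (u' 0 π) = 1) (μ₀ : ℝ) (hμ₀ : 0 ≤ μ₀)
    (h1 : ∀ π π', π ≠ π' → |dot (u 0 π) (u 0 π')| ≤ μ₀)
    (h2 : ∀ π π', π ≠ π' → |dot (u' 0 π) (u' 0 π')| ≤ μ₀)
    (h3 : ∀ π π', |dot (u 0 π) (u' 0 π')| ≤ μ₀)
    (K : ℕ) (hK : 8 * K * μ₀ ≤ 1) (h h' : J → ℝ) (B B' : Finset (Q 0))
    (hB : B.card ≤ K) (hB' : B'.card ≤ K) :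
    ∫⁻ x, ‖∑ j, (if cl 0 j ∈ B then h j else 0) * ∏ i, zz cl u i j x‖ₑ ^ p ∂(gX I)
      ≤ ENNReal.ofReal (2 ^ p) *
        ∫⁻ x, ‖∑ j, (if cl 0 j ∈ B then h j else 0) * ∏ i, zz cl u i j x
          - ∑ j, (if cl 0 j ∈ B' then h' j else 0) * ∏ i, zz cl u' i j x‖ₑ ^ p ∂(gX I) := by
  have hp0 : 0 < p := by linarith
  have hm1 := fs_measurable cl u (fun j => if cl 0 j ∈ B then h j else 0)
  have hm2 := fs_measurable cl u' (fun j => if cl 0 j ∈ B' then h' j else 0)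
  have hm3 : Measurable fun x : ∀ i, I i → ℝ =>
      ‖∑ j, (if cl 0 j ∈ B then h j else 0) * ∏ i, zz cl u i j x‖ₑ ^ p :=
    (hm1.enorm).pow_const p
  have hm4 : Measurable fun x : ∀ i, I i → ℝ =>
      ‖∑ j, (if cl 0 j ∈ B then h j else 0) * ∏ i, zz cl u i j x
          - ∑ j, (if cl 0 j ∈ B' then h' j else 0) * ∏ i, zz cl u' i j x‖ₑ ^ p :=
    ((hm1.sub hm2).enorm).pow_const p
  unfold gX
  rw [← lintegral_update_pi (fun i => gI (I i)) _ hm3 0,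
    ← lintegral_update_pi (fun i => gI (I i)) _ hm4 0, ← lintegral_const_mul' _ _ ENNReal.ofReal_ne_top]
  refine lintegral_mono fun x => ?_
  simp only [fs_update]
  set τ : I 0 → ℝ := fun i => ∑ π ∈ B, (∑ j with cl 0 j = π,
          h j * ∏ i ∈ Finset.univ.erase 0, zz cl u i j x) * u 0 π i with hτ
  set τ' : I 0 → ℝ := fun i => ∑ π ∈ B', (∑ j with cl 0 j = π,
          h' j * ∏ i ∈ Finset.univ.erase 0, zz cl u' i j x) * u' 0 π i with hτ'
  have h5 : ∀ a, dot τ a - dot τ' a = dot (fun i => τ i - τ' i) a := by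
    intro a
    unfold dot
    rw [← Finset.sum_sub_distrib]
    exact Finset.sum_congr rfl fun i _ => by ring
  simp only [h5]
  rw [lintegral_dot τ hp0, lintegral_dot (fun i => τ i - τ' i) hp0,
    ← ENNReal.ofReal_mul (by positivity)]
  refine ENNReal.ofReal_le_ofReal ?_
  have hno : l2 τ ≤ 2 * l2 (fun i => τ i - τ' i) :=
    near_orth B B' (u 0) (u' 0) hu hu' μ₀ hμ₀ h1 h2 h3 K hB hB' hK _ _
  have hg := (gam_pos hp0).le
  rw [← Real.mul_rpow (by norm_num) (mul_nonneg hg (l2_nonneg _))]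
  refine Real.rpow_le_rpow (mul_nonneg hg (l2_nonneg _)) ?_ hp0.le
  nlinarith [mul_le_mul_of_nonneg_left hno hg]

end fs

theorem final_step {p : ℝ} (hp : 1 ≤ p) {k : ℕ} [NeZero k] {I Q : Fin k → Type}
    [∀ i, Fintype (I i)] [∀ i, Fintype (Q i)] [∀ i, DecidableEq (Q i)] {J : Type} [Fintype J]
    (cl : ∀ i, J → Q i) (u u' : ∀ i, Q i → I i → ℝ)
    (hu : ∀ π, l2 (u 0 π) = 1) (hu' : ∀ π, l2 (u' 0 π) = 1) (μ₀ : ℝ) (hμ₀ : 0 ≤ μ₀)
    (h1 : ∀ π π', π ≠ π' → |dot (u 0 π) (u 0 π')| ≤ μ₀)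
    (h2 : ∀ π π', π ≠ π' → |dot (u' 0 π) (u' 0 π')| ≤ μ₀)
    (h3 : ∀ π π', |dot (u 0 π) (u' 0 π')| ≤ μ₀)
    (K : ℕ) (hK : 8 * K * μ₀ ≤ 1) (G G' : J → ℕ → ℝ) (Big Big' : ℕ → Finset (Q 0))
    (hB : ∀ s, (Big s).card ≤ K) (hB' : ∀ s, (Big' s).card ≤ K) (g : ℝ) (hg : 0 ≤ g)
    (hnb : NN p (gX I) (fun s x =>
        ‖∑ j, (if cl 0 j ∈ Big s then 0 else G j s) * ∏ i, zz cl u i j x‖ₑ)
        ≤ ENNReal.ofReal (g / 20))
    (hnb' : NN p (gX I) (fun s x =>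
        ‖∑ j, (if cl 0 j ∈ Big' s then 0 else G' j s) * ∏ i, zz cl u' i j x‖ₑ)
        ≤ ENNReal.ofReal (g / 20))
    (hdiff : NN p (gX I) (fun s x =>
        ‖∑ j, G j s * ∏ i, zz cl u i j x - ∑ j, G' j s * ∏ i, zz cl u' i j x‖ₑ)
        ≤ ENNReal.ofReal (g / 20)) :
    NN p (gX I) (fun s x => ‖∑ j, G j s * ∏ i, zz cl u i j x‖ₑ) ≤ ENNReal.ofReal (7 * g / 20) := by
  have hp0 : 0 < p := by linarith
  -- abbreviations
  set Fn : ℕ → (∀ i, I i → ℝ) → ℝ := fun s x =>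
    ∑ j, (if cl 0 j ∈ Big s then 0 else G j s) * ∏ i, zz cl u i j x with hFn
  set Fn' : ℕ → (∀ i, I i → ℝ) → ℝ := fun s x =>
    ∑ j, (if cl 0 j ∈ Big' s then 0 else G' j s) * ∏ i, zz cl u' i j x with hFn'
  set Fb : ℕ → (∀ i, I i → ℝ) → ℝ := fun s x =>
    ∑ j, (if cl 0 j ∈ Big s then G j s else 0) * ∏ i, zz cl u i j x with hFb
  set Fb' : ℕ → (∀ i, I i → ℝ) → ℝ := fun s x =>
    ∑ j, (if cl 0 j ∈ Big' s then G' j s else 0) * ∏ i, zz cl u' i j x with hFb'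
  set F : ℕ → (∀ i, I i → ℝ) → ℝ := fun s x => ∑ j, G j s * ∏ i, zz cl u i j x with hF
  set F' : ℕ → (∀ i, I i → ℝ) → ℝ := fun s x => ∑ j, G' j s * ∏ i, zz cl u' i j x with hF'
  have mFn : ∀ s, Measurable (Fn s) := fun s => fs_measurable cl u _
  have mFn' : ∀ s, Measurable (Fn' s) := fun s => fs_measurable cl u' _
  have mFb : ∀ s, Measurable (Fb s) := fun s => fs_measurable cl u _
  have mFb' : ∀ s, Measurable (Fb' s) := fun s => fs_measurable cl u' _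
  have mF : ∀ s, Measurable (F s) := fun s => fs_measurable cl u _
  have mF' : ∀ s, Measurable (F' s) := fun s => fs_measurable cl u' _
  have dec : ∀ s x, F s x = Fb s x + Fn s x := by
    intro s x
    simp only [hF, hFb, hFn]
    rw [← Finset.sum_add_distrib]
    refine Finset.sum_congr rfl fun j _ => ?_
    by_cases hj : cl 0 j ∈ Big s
    · simp [hj]
    · simp [hj]
  have dec' : ∀ s x, F' s x = Fb' s x + Fn' s x := by
    intro s x
    simp only [hF', hFb', hFn']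
    rw [← Finset.sum_add_distrib]
    refine Finset.sum_congr rfl fun j _ => ?_
    by_cases hj : cl 0 j ∈ Big' s
    · simp [hj]
    · simp [hj]
  -- step 1
  have s1 : NN p (gX I) (fun s x => ‖Fb s x - Fb' s x‖ₑ) ≤ ENNReal.ofReal (3 * g / 20) := by
    have e1 : ∀ s x, ‖Fb s x - Fb' s x‖ₑ ≤ (‖F s x - F' s x‖ₑ + ‖Fn s x‖ₑ) + ‖Fn' s x‖ₑ := by
      intro s x
      have : Fb s x - Fb' s x = ((F s x - F' s x) - Fn s x) + Fn' s x := by
        rw [dec, dec']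
        ring
      rw [this]
      exact (enorm_add_le _ _).trans (add_le_add (enorm_sub_le) le_rfl)
    calc NN p (gX I) (fun s x => ‖Fb s x - Fb' s x‖ₑ)
        ≤ NN p (gX I) (fun s x => (‖F s x - F' s x‖ₑ + ‖Fn s x‖ₑ) + ‖Fn' s x‖ₑ) :=
          NN_mono hp0.le e1
      _ ≤ NN p (gX I) (fun s x => ‖F s x - F' s x‖ₑ + ‖Fn s x‖ₑ)
            + NN p (gX I) (fun s x => ‖Fn' s x‖ₑ) :=
          NN_add_le hp (fun s => (((mF s).sub (mF' s)).enorm).add (mFn s).enorm)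
            (fun s => (mFn' s).enorm)
      _ ≤ (NN p (gX I) (fun s x => ‖F s x - F' s x‖ₑ) + NN p (gX I) (fun s x => ‖Fn s x‖ₑ))
            + NN p (gX I) (fun s x => ‖Fn' s x‖ₑ) := by
          gcongr
          exact NN_add_le hp (fun s => ((mF s).sub (mF' s)).enorm) (fun s => (mFn s).enorm)
      _ ≤ (ENNReal.ofReal (g / 20) + ENNReal.ofReal (g / 20)) + ENNReal.ofReal (g / 20) :=
          add_le_add (add_le_add hdiff hnb) hnb'
      _ = ENNReal.ofReal (3 * g / 20) := by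
          rw [← ENNReal.ofReal_add (by positivity) (by positivity),
            ← ENNReal.ofReal_add (by positivity) (by positivity)]
          congr 1
          ring
  -- step 2
  have s2 : NN p (gX I) (fun s x => ‖Fb s x‖ₑ) ≤ ENNReal.ofReal (6 * g / 20) := by
    rw [NN_le_iff hp0 _ _ (by positivity)] at s1 ⊢
    calc ∑' s, ∫⁻ x, ‖Fb s x‖ₑ ^ p ∂(gX I)
        ≤ ∑' s, ENNReal.ofReal (2 ^ p) * ∫⁻ x, ‖Fb s x - Fb' s x‖ₑ ^ p ∂(gX I) :=
          ENNReal.tsum_le_tsum fun s => fs_big hp cl u u' hu hu' μ₀ hμ₀ h1 h2 h3 K hK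
            (fun j => G j s) (fun j => G' j s) (Big s) (Big' s) (hB s) (hB' s)
      _ = ENNReal.ofReal (2 ^ p) * ∑' s, ∫⁻ x, ‖Fb s x - Fb' s x‖ₑ ^ p ∂(gX I) :=
          ENNReal.tsum_mul_left
      _ ≤ ENNReal.ofReal (2 ^ p) * ENNReal.ofReal ((3 * g / 20) ^ p) := by gcongr
      _ = ENNReal.ofReal ((6 * g / 20) ^ p) := by
          rw [← ENNReal.ofReal_mul (by positivity), ← Real.mul_rpow (by norm_num) (by positivity)]
          congr 2
          ring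
  -- step 3
  calc NN p (gX I) (fun s x => ‖F s x‖ₑ)
      ≤ NN p (gX I) (fun s x => ‖Fb s x‖ₑ + ‖Fn s x‖ₑ) := by
        refine NN_mono hp0.le fun s x => ?_
        rw [dec]
        exact enorm_add_le _ _
    _ ≤ NN p (gX I) (fun s x => ‖Fb s x‖ₑ) + NN p (gX I) (fun s x => ‖Fn s x‖ₑ) :=
        NN_add_le hp (fun s => (mFb s).enorm) (fun s => (mFn s).enorm)
    _ ≤ ENNReal.ofReal (6 * g / 20) + ENNReal.ofReal (g / 20) := add_le_add s2 hnb
    _ = ENNReal.ofReal (7 * g / 20) := by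
        rw [← ENNReal.ofReal_add (by positivity) (by positivity)]
        congr 1
        ring

end Pool.Agent.H67.NP
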