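import Pool.Agent.H67.NP.Gauss

/-!
# (K): multilinear Gaussian forms (§4)

`‖∑_α T_α ∏_i x^i_{α_i}‖_{L_p} ≤ γ^k |T|₂` for `p ≥ 2`, by induction on the number `k` of blocks.
Split off block `0`: `MeasurableEquiv.piFinSuccAbove`, `measurePreserving_piFinSuccAbove`,
`Fin.consEquiv`/`Fin.insertNthEquiv` for the sum over `α`.  With `f_a(x') = ∑_{α'} T_{(a,α')}
∏_{i≥1} x^i_{α_i}`: for fixed `x'`, `E_{x^0}|∑_a x^0_a f_a(x')|^p = γ^p (∑_a f_a(x')²)^(p/2)` (G1);
then Minkowski in `L_{p/2}(x')` for the finite sum `∑_a f_a²` and the induction hypothesis for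
every `a`.  For `k = 0` both sides are `|T|^p`.
-/

set_option autoImplicit false

open MeasureTheory ProbabilityTheory Finset BigOperators
open scoped ENNReal NNReal

namespace Pool.Agent.H67.NP

/-- Minkowski for a finite sum. -/
theorem minkowski_sum {X ι : Type} [MeasurableSpace X] (μ : Measure X) {q : ℝ} (hq : 1 ≤ q)
    (s : Finset ι) (h : ι → X → ℝ≥0∞) (hm : ∀ i, Measurable (h i)) :
    (∫⁻ x, (∑ i ∈ s, h i x) ^ q ∂μ) ^ (1 / q) ≤ ∑ i ∈ s, (∫⁻ x, h i x ^ q ∂μ) ^ (1 / q) := by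
  classical
  have hq0 : 0 < q := by linarith
  induction s using Finset.induction_on with
  | empty =>
    simp only [Finset.sum_empty]
    rw [ENNReal.zero_rpow_of_pos hq0]
    simp [hq0]
  | insert a s ha ih =>
    simp only [Finset.sum_insert ha]
    have h1 := ENNReal.lintegral_Lp_add_le (μ := μ) (p := q) (hm a).aemeasurable
      (Finset.measurable_sum s (fun i _ => hm i)).aemeasurable hq
    simp only [Pi.add_apply] at h1
    calc (∫⁻ x, (h a x + ∑ i ∈ s, h i x) ^ q ∂μ) ^ (1 / q)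
        ≤ (∫⁻ x, h a x ^ q ∂μ) ^ (1 / q) + (∫⁻ x, (∑ i ∈ s, h i x) ^ q ∂μ) ^ (1 / q) := by
          simpa using h1
      _ ≤ _ := by gcongr

/-- splitting off block `0` and integrating it out -/
theorem tensor_step {p : ℝ} (hp : 0 < p) (k : ℕ) (I : Fin (k + 1) → Type) [∀ i, Fintype (I i)]
    (T : (∀ i, I i) → ℝ) :
    ∫⁻ x, ‖∑ α, T α * ∏ i, x i (α i)‖ₑ ^ p ∂(gX I)
      = ∫⁻ x', ENNReal.ofReal ((gam p * l2 (fun a : I 0 =>
          ∑ α' : (∀ j, I (Fin.succAbove 0 j)), T (Fin.insertNth 0 a α') * ∏ j, x' j (α' j))) ^ p)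
          ∂(gX fun j : Fin k => I (Fin.succAbove 0 j)) := by
  classical
  have hmeas : Measurable (fun x : (∀ i, I i → ℝ) => ‖∑ α, T α * ∏ i, x i (α i)‖ₑ ^ p) := by
    refine Measurable.pow_const ?_ _
    refine Measurable.enorm ?_
    refine Finset.measurable_sum _ fun α _ => ?_
    refine Measurable.const_mul ?_ _
    refine Finset.measurable_prod _ fun i _ => ?_
    exact (measurable_pi_apply (α i)).comp (measurable_pi_apply i)
  have hmp := (measurePreserving_piFinSuccAbove (fun i => gI (I i)) 0).symm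
  have h1 : ∫⁻ x, ‖∑ α, T α * ∏ i, x i (α i)‖ₑ ^ p ∂(gX I)
      = ∫⁻ y, (fun x : (∀ i, I i → ℝ) => ‖∑ α, T α * ∏ i, x i (α i)‖ₑ ^ p)
        ((MeasurableEquiv.piFinSuccAbove (fun i => I i → ℝ) 0).symm y)
        ∂((gI (I 0)).prod (gX fun j : Fin k => I (Fin.succAbove 0 j))) := by
    exact (hmp.lintegral_comp hmeas).symm
  rw [h1]
  have hmeas2 : Measurable (fun y => (fun x : (∀ i, I i → ℝ) => ‖∑ α, T α * ∏ i, x i (α i)‖ₑ ^ p)
        ((MeasurableEquiv.piFinSuccAbove (fun i => I i → ℝ) 0).symm y)) :=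
    hmeas.comp (MeasurableEquiv.measurable _)
  rw [lintegral_prod_symm' _ hmeas2]
  apply lintegral_congr
  intro x'
  rw [← lintegral_dot _ hp]
  apply lintegral_congr
  intro x0
  have hx : (MeasurableEquiv.piFinSuccAbove (fun i => I i → ℝ) 0).symm (x0, x')
      = Fin.insertNth 0 x0 x' := rfl
  have key : (∑ α, T α * ∏ i, (Fin.insertNth 0 x0 x' : ∀ i, I i → ℝ) i (α i))
      = dot (fun a : I 0 => ∑ α' : (∀ j, I (Fin.succAbove 0 j)),
          T (Fin.insertNth 0 a α') * ∏ j, x' j (α' j)) x0 := by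
    rw [← (Fin.insertNthEquiv (fun i => I i) 0).sum_comp, Fintype.sum_prod_type]
    unfold dot
    apply Finset.sum_congr rfl
    intro a _
    rw [Finset.sum_mul]
    apply Finset.sum_congr rfl
    intro α' _
    have he : (Fin.insertNthEquiv (fun i => I i) 0) (a, α') = Fin.insertNth 0 a α' := rfl
    rw [he, Fin.prod_univ_succAbove _ 0]
    simp only [Fin.insertNth_apply_same, Fin.insertNth_apply_succAbove]
    ring
  simp only [hx, key]

theorem tensor_zero {p : ℝ} (hp : 0 < p) (I : Fin 0 → Type) [∀ i, Fintype (I i)]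
    (T : (∀ i, I i) → ℝ) :
    ∫⁻ x, ‖∑ α, T α * ∏ i, x i (α i)‖ₑ ^ p ∂(gX I) ≤ ENNReal.ofReal ((gam p ^ 0 * l2 T) ^ p) := by
  classical
  have h1 : ∀ x : (∀ i : Fin 0, I i → ℝ), (∑ α, T α * ∏ i, x i (α i)) = T default := by
    intro x
    rw [Fintype.sum_unique]
    simp
  have h2 : l2 T = |T default| := by
    unfold l2
    rw [Fintype.sum_unique, Real.sqrt_sq_eq_abs]
  simp only [h1]
  rw [lintegral_const, measure_univ, mul_one, h2, pow_zero, one_mul,
    Real.enorm_eq_ofReal_abs, ENNReal.ofReal_rpow_of_nonneg (abs_nonneg _) hp.le]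

theorem tensor_K {p : ℝ} (hp : 2 ≤ p) (k : ℕ) (I : Fin k → Type) [∀ i, Fintype (I i)]
    (T : (∀ i, I i) → ℝ) :
    ∫⁻ x, ‖∑ α, T α * ∏ i, x i (α i)‖ₑ ^ p ∂(gX I)
      ≤ ENNReal.ofReal ((gam p ^ k * l2 T) ^ p) := by
  classical
  have hp0 : 0 < p := by linarith
  have hg := gam_pos hp0
  induction k with
  | zero => exact tensor_zero hp0 I T
  | succ k ih =>
    rw [tensor_step hp0]
    obtain ⟨f, hf⟩ : ∃ f : I 0 → (∀ j : Fin k, I (Fin.succAbove 0 j) → ℝ) → ℝ,
      f = fun a x' => ∑ α' : (∀ j, I (Fin.succAbove 0 j)),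
        T (Fin.insertNth 0 a α') * ∏ j, x' j (α' j) := ⟨_, rfl⟩
    have hfm : ∀ a, Measurable (f a) := by
      intro a
      rw [hf]
      refine Finset.measurable_sum _ fun α _ => ?_
      refine Measurable.const_mul ?_ _
      refine Finset.measurable_prod _ fun i _ => ?_
      exact (measurable_pi_apply (α i)).comp (measurable_pi_apply i)
    have hpt : ∀ x', ENNReal.ofReal ((gam p * l2 (fun a : I 0 =>
          ∑ α' : (∀ j, I (Fin.succAbove 0 j)), T (Fin.insertNth 0 a α') * ∏ j, x' j (α' j))) ^ p)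
        = ENNReal.ofReal (gam p ^ p) * (∑ a, ‖f a x'‖ₑ ^ (2 : ℝ)) ^ (p / 2) := by
      intro x'
      have h1 : (fun a : I 0 =>
          ∑ α' : (∀ j, I (Fin.succAbove 0 j)), T (Fin.insertNth 0 a α') * ∏ j, x' j (α' j))
          = fun a => f a x' := by rw [hf]
      rw [h1, Real.mul_rpow hg.le (l2_nonneg _), ENNReal.ofReal_mul (by positivity)]
      congr 1
      have h2 : (∑ a, ‖f a x'‖ₑ ^ (2 : ℝ)) = ENNReal.ofReal (∑ a, f a x' ^ 2) := by
        rw [ENNReal.ofReal_sum_of_nonneg (fun _ _ => sq_nonneg _)]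
        apply Finset.sum_congr rfl
        intro a _
        rw [Real.enorm_eq_ofReal_abs, ENNReal.ofReal_rpow_of_nonneg (abs_nonneg _) (by norm_num)]
        congr 1
        rw [Real.rpow_two, sq_abs]
      rw [h2, ENNReal.ofReal_rpow_of_nonneg (Finset.sum_nonneg fun _ _ => sq_nonneg _)
        (by positivity), ← l2_sq (fun a => f a x'), ← Real.rpow_two,
        ← Real.rpow_mul (l2_nonneg _)]
      congr 2
      ring
    simp only [hpt]
    have hhm : ∀ a : I 0, Measurable (fun x' => ‖f a x'‖ₑ ^ (2 : ℝ)) := fun a =>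
      ((hfm a).enorm).pow_const _
    rw [lintegral_const_mul' _ _ ENNReal.ofReal_ne_top]
    have hq : 1 ≤ p / 2 := by linarith
    have hmink := minkowski_sum (gX fun j : Fin k => I (Fin.succAbove 0 j)) hq
      (Finset.univ : Finset (I 0)) (fun a x' => ‖f a x'‖ₑ ^ (2 : ℝ)) hhm
    -- each term
    have hterm : ∀ a : I 0, (∫⁻ x', (‖f a x'‖ₑ ^ (2 : ℝ)) ^ (p / 2)
        ∂(gX fun j : Fin k => I (Fin.succAbove 0 j))) ^ (1 / (p / 2))
        ≤ ENNReal.ofReal ((gam p ^ k * l2 fun α' => T (Fin.insertNth 0 a α')) ^ 2) := by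
      intro a
      have h1 : ∀ x', (‖f a x'‖ₑ ^ (2 : ℝ)) ^ (p / 2) = ‖f a x'‖ₑ ^ p := by
        intro x'
        rw [← ENNReal.rpow_mul]
        congr 1
        ring
      simp only [h1]
      have h2 := ih (fun j => I (Fin.succAbove 0 j)) (fun α' => T (Fin.insertNth 0 a α'))
      have h3 : ∫⁻ x', ‖f a x'‖ₑ ^ p ∂(gX fun j : Fin k => I (Fin.succAbove 0 j))
          ≤ ENNReal.ofReal ((gam p ^ k * l2 fun α' => T (Fin.insertNth 0 a α')) ^ p) := by
        rw [hf]
        exact h2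
      refine (ENNReal.rpow_le_rpow h3 (by positivity)).trans ?_
      have h4 : 0 ≤ gam p ^ k * l2 fun α' => T (Fin.insertNth 0 a α') :=
        mul_nonneg (by positivity) (l2_nonneg _)
      rw [ENNReal.ofReal_rpow_of_nonneg (by positivity) (by positivity), ← Real.rpow_mul h4]
      apply le_of_eq
      congr 1
      rw [← Real.rpow_two]
      congr 1
      field_simp
    have hsum : ∑ a : I 0, (gam p ^ k * l2 fun α' => T (Fin.insertNth 0 a α')) ^ 2
        = (gam p ^ k * l2 T) ^ 2 := by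
      simp only [mul_pow, l2_sq]
      rw [← Finset.mul_sum]
      congr 1
      rw [← (Fin.insertNthEquiv (fun i => I i) 0).sum_comp, Fintype.sum_prod_type]
      rfl
    have hall : (∫⁻ x', (∑ a : I 0, ‖f a x'‖ₑ ^ (2 : ℝ)) ^ (p / 2)
        ∂(gX fun j : Fin k => I (Fin.succAbove 0 j))) ^ (1 / (p / 2))
        ≤ ENNReal.ofReal ((gam p ^ k * l2 T) ^ 2) := by
      refine hmink.trans ?_
      refine (Finset.sum_le_sum fun a _ => hterm a).trans ?_
      rw [← ENNReal.ofReal_sum_of_nonneg (fun _ _ => sq_nonneg _), hsum]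
    have hnn : 0 ≤ gam p ^ k * l2 T := mul_nonneg (by positivity) (l2_nonneg _)
    have hall2 : (∫⁻ x', (∑ a : I 0, ‖f a x'‖ₑ ^ (2 : ℝ)) ^ (p / 2)
        ∂(gX fun j : Fin k => I (Fin.succAbove 0 j)))
        ≤ ENNReal.ofReal ((gam p ^ k * l2 T) ^ p) := by
      have h5 := ENNReal.rpow_le_rpow hall (z := p / 2) (by positivity)
      rw [← ENNReal.rpow_mul, ENNReal.ofReal_rpow_of_nonneg (by positivity) (by positivity)] at h5
      have h6 : 1 / (p / 2) * (p / 2) = 1 := by field_simp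
      rw [h6, ENNReal.rpow_one] at h5
      refine h5.trans (le_of_eq ?_)
      congr 1
      rw [← Real.rpow_two, ← Real.rpow_mul hnn]
      congr 1
      ring
    calc ENNReal.ofReal (gam p ^ p) * _
        ≤ ENNReal.ofReal (gam p ^ p) * ENNReal.ofReal ((gam p ^ k * l2 T) ^ p) := by gcongr
      _ = ENNReal.ofReal ((gam p ^ (k + 1) * l2 T) ^ p) := by
          rw [← ENNReal.ofReal_mul (by positivity), ← Real.mul_rpow hg.le hnn]
          congr 2
          ring

/-- For one block there is equality for every exponent; we only need this form. -/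
theorem tensor_K_one {p : ℝ} (hp : 0 < p) (I : Fin 1 → Type) [∀ i, Fintype (I i)]
    (T : (∀ i, I i) → ℝ) :
    ∫⁻ x, ‖∑ α, T α * ∏ i, x i (α i)‖ₑ ^ p ∂(gX I)
      ≤ ENNReal.ofReal ((gam p ^ 1 * l2 T) ^ p) := by
  classical
  rw [tensor_step hp]
  have h1 : ∀ x' : (∀ j : Fin 0, I (Fin.succAbove 0 j) → ℝ), (fun a : I 0 =>
          ∑ α' : (∀ j, I (Fin.succAbove 0 j)), T (Fin.insertNth 0 a α') * ∏ j, x' j (α' j))
        = fun a => T (Fin.insertNth 0 a default) := by
    intro x'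
    funext a
    rw [Fintype.sum_unique]
    simp
  have h2 : l2 (fun a : I 0 => T (Fin.insertNth 0 a default)) = l2 T := by
    unfold l2
    congr 1
    rw [← (Fin.insertNthEquiv (fun i => I i) 0).sum_comp, Fintype.sum_prod_type]
    apply Finset.sum_congr rfl
    intro a _
    rw [Fintype.sum_unique]
    rfl
  simp only [h1, h2]
  rw [lintegral_const, measure_univ, mul_one, pow_one]

end Pool.Agent.H67.NP
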