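import Pool.Agent.H67.NP.Defs

/-!
# The base point (§3, 3.5)

For a fixed `w = V x`: telescoping and convexity,
`(m/H)^p ≤ (H⁻¹ ‖Ξ(v+Hw) - Ξ(v)‖)^p ≤ H⁻¹ ∑_{h<H} ‖Ξ(v+(h+1)w) - Ξ(v+hw)‖^p`; average over the residues
`v ∈ (ℤ/q)^𝒜` (representatives `fun α => ((v̄ α).val : ℤ)`); since `Ξ` is `q`-periodic, the average of
`‖Ξ(v+hw+w) - Ξ(v+hw)‖^p` does not depend on `h` (translation by `h w` on `(ℤ/q)^𝒜`).  So
`(m x/H)^p ≤ avg_v ‖Ξ(v+V x) - Ξ(v)‖^p`; integrate in `x` and choose the best `v`.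
(`x ↦ ‖Ξ(v+V x)-Ξ(v)‖ₑ` is measurable because `V` is measurable into a countable discrete space.)
-/

set_option autoImplicit false

open MeasureTheory ProbabilityTheory Finset BigOperators
open scoped ENNReal NNReal

namespace Pool.Agent.H67.NP

/-- averaging over the residues -/
theorem base_avg {𝒜 : Type} [Fintype 𝒜] [DecidableEq 𝒜] {E : Type} [NormedAddCommGroup E]
    [NormedSpace ℝ E] (q : ℕ) [NeZero q] (Ξ : (𝒜 → ℤ) → E)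
    (hper : ∀ v w : 𝒜 → ℤ, Ξ (v + (q : ℤ) • w) = Ξ v) {p : ℝ} (hp : 1 ≤ p) (H : ℕ) (hH : 0 < H)
    (w : 𝒜 → ℤ) (m : ℝ) (hm0 : 0 ≤ m) (hm : ∀ v, m ≤ ‖Ξ (v + (H : ℤ) • w) - Ξ v‖) :
    (Fintype.card (𝒜 → ZMod q) : ℝ) * (m / H) ^ p
      ≤ ∑ r : 𝒜 → ZMod q, ‖Ξ ((fun α => ((r α).val : ℤ)) + w) - Ξ (fun α => ((r α).val : ℤ))‖ ^ p := by
  have hp0 : 0 < p := by linarith
  have hH0 : (0 : ℝ) < H := by exact_mod_cast hH
  -- reduction modulo `q`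
  set pr : (𝒜 → ℤ) → 𝒜 → ZMod q := fun v α => ((v α : ℤ) : ZMod q) with hpr
  set rep : (𝒜 → ZMod q) → 𝒜 → ℤ := fun r α => ((r α).val : ℤ) with hrep
  have hfac : ∀ v, Ξ v = Ξ (rep (pr v)) := by
    intro v
    have h1 : v = rep (pr v) + (q : ℤ) • (fun α => v α / q) := by
      funext α
      simp only [hrep, hpr, Pi.add_apply, Pi.smul_apply, smul_eq_mul, ZMod.val_intCast]
      exact (Int.emod_add_mul_ediv (v α) q).symm
    conv_lhs => rw [h1]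
    exact hper _ _
  have hprrep : ∀ r, pr (rep r) = r := by
    intro r
    funext α
    simp [hrep, hpr]
  have hpradd : ∀ v v', pr (v + v') = pr v + pr v' := by
    intro v v'
    funext α
    simp [hpr]
  have hprsmul : ∀ (h : ℕ), pr ((h : ℤ) • w) = h • pr w := by
    intro h
    funext α
    simp [hpr]
  set f : (𝒜 → ZMod q) → ℝ := fun r => ‖Ξ (rep r + w) - Ξ (rep r)‖ ^ p with hf
  have hstep : ∀ r (h : ℕ), ‖Ξ (rep r + ((h + 1 : ℕ) : ℤ) • w) - Ξ (rep r + (h : ℤ) • w)‖ ^ p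
      = f (r + h • pr w) := by
    intro r h
    have e1 : Ξ (rep r + ((h + 1 : ℕ) : ℤ) • w) = Ξ (rep (r + h • pr w) + w) := by
      rw [hfac, hfac (rep (r + h • pr w) + w)]
      congr 2
      rw [hpradd, hprsmul, hprrep, hpradd, hprrep, succ_nsmul, add_assoc]
    have e2 : Ξ (rep r + (h : ℤ) • w) = Ξ (rep (r + h • pr w)) := by
      rw [hfac]
      congr 2
      rw [hpradd, hprsmul, hprrep]
    rw [e1, e2]
  have hmain : ∀ r, (m / H) ^ p ≤ ∑ h ∈ Finset.range H, (H : ℝ)⁻¹ * f (r + h • pr w) := by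
    intro r
    have h1 : m ≤ ∑ h ∈ Finset.range H,
        ‖Ξ (rep r + ((h + 1 : ℕ) : ℤ) • w) - Ξ (rep r + (h : ℤ) • w)‖ := by
      refine (hm (rep r)).trans ?_
      have h2 := Finset.sum_range_sub (fun h : ℕ => Ξ (rep r + (h : ℤ) • w)) H
      simp only [Nat.cast_zero, zero_smul, add_zero] at h2
      rw [← h2]
      exact norm_sum_le _ _
    have h3 : m / H ≤ ∑ h ∈ Finset.range H, (H : ℝ)⁻¹ *
        ‖Ξ (rep r + ((h + 1 : ℕ) : ℤ) • w) - Ξ (rep r + (h : ℤ) • w)‖ := by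
      rw [← Finset.mul_sum, div_eq_inv_mul]
      exact mul_le_mul_of_nonneg_left h1 (by positivity)
    calc (m / H) ^ p ≤ (∑ h ∈ Finset.range H, (H : ℝ)⁻¹ *
          ‖Ξ (rep r + ((h + 1 : ℕ) : ℤ) • w) - Ξ (rep r + (h : ℤ) • w)‖) ^ p :=
          Real.rpow_le_rpow (by positivity) h3 hp0.le
      _ ≤ ∑ h ∈ Finset.range H, (H : ℝ)⁻¹ *
          ‖Ξ (rep r + ((h + 1 : ℕ) : ℤ) • w) - Ξ (rep r + (h : ℤ) • w)‖ ^ p := by
          refine Real.rpow_arith_mean_le_arith_mean_rpow _ _ _ (fun _ _ => by positivity) ?_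
            (fun _ _ => norm_nonneg _) hp
          simp [hH0.ne']
      _ = _ := Finset.sum_congr rfl fun h _ => by rw [hstep]
  calc (Fintype.card (𝒜 → ZMod q) : ℝ) * (m / H) ^ p
      = ∑ _r : 𝒜 → ZMod q, (m / H) ^ p := by simp
    _ ≤ ∑ r : 𝒜 → ZMod q, ∑ h ∈ Finset.range H, (H : ℝ)⁻¹ * f (r + h • pr w) :=
        Finset.sum_le_sum fun r _ => hmain r
    _ = ∑ h ∈ Finset.range H, (H : ℝ)⁻¹ * ∑ r : 𝒜 → ZMod q, f (r + h • pr w) := by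
        rw [Finset.sum_comm]
        exact Finset.sum_congr rfl fun h _ => by rw [Finset.mul_sum]
    _ = ∑ h ∈ Finset.range H, (H : ℝ)⁻¹ * ∑ r : 𝒜 → ZMod q, f r := by
        refine Finset.sum_congr rfl fun h _ => ?_
        rw [← Equiv.sum_comp (Equiv.addRight (h • pr w)) f]
        rfl
    _ = ∑ r : 𝒜 → ZMod q, f r := by
        rw [Finset.sum_const, Finset.card_range, nsmul_eq_mul, ← mul_assoc,
          mul_inv_cancel₀ hH0.ne', one_mul]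

theorem exists_base {𝒜 : Type} [Fintype 𝒜] [DecidableEq 𝒜] {E : Type} [NormedAddCommGroup E]
    [NormedSpace ℝ E] (q : ℕ) [NeZero q] (Ξ : (𝒜 → ℤ) → E)
    (hper : ∀ v w : 𝒜 → ℤ, Ξ (v + (q : ℤ) • w) = Ξ v) {p : ℝ} (hp : 1 ≤ p) (H : ℕ) (hH : 0 < H)
    {Ω : Type} [MeasurableSpace Ω] (Pm : Measure Ω) [IsProbabilityMeasure Pm]
    (V : Ω → 𝒜 → ℤ) (hV : Measurable V) (m : Ω → ℝ) (hm0 : ∀ x, 0 ≤ m x)
    (hm : ∀ x v, m x ≤ ‖Ξ (v + (H : ℤ) • V x) - Ξ v‖) :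
    ∃ v₀ : 𝒜 → ℤ, ∫⁻ x, ENNReal.ofReal (m x / H) ^ p ∂Pm
      ≤ ∫⁻ x, ‖Ξ (v₀ + V x) - Ξ v₀‖ₑ ^ p ∂Pm := by
  have hp0 : 0 < p := by linarith
  obtain ⟨r₀, hr₀⟩ := Finite.exists_max fun r : 𝒜 → ZMod q =>
    ∫⁻ x, ‖Ξ ((fun α => ((r α).val : ℤ)) + V x) - Ξ (fun α => ((r α).val : ℤ))‖ₑ ^ p ∂Pm
  refine ⟨fun α => ((r₀ α).val : ℤ), ?_⟩
  have hc0 : ((Fintype.card (𝒜 → ZMod q) : ℕ) : ℝ≥0∞) ≠ 0 := by
    exact_mod_cast Fintype.card_ne_zero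
  have hct : ((Fintype.card (𝒜 → ZMod q) : ℕ) : ℝ≥0∞) ≠ ⊤ := ENNReal.natCast_ne_top _
  rw [← ENNReal.mul_le_mul_iff_right hc0 hct]
  calc ((Fintype.card (𝒜 → ZMod q) : ℕ) : ℝ≥0∞) * ∫⁻ x, ENNReal.ofReal (m x / H) ^ p ∂Pm
      = ∫⁻ x, ((Fintype.card (𝒜 → ZMod q) : ℕ) : ℝ≥0∞) * ENNReal.ofReal (m x / H) ^ p ∂Pm :=
        (lintegral_const_mul' _ _ hct).symm
    _ ≤ ∫⁻ x, ∑ r : 𝒜 → ZMod q, ‖Ξ ((fun α => ((r α).val : ℤ)) + V x)
          - Ξ (fun α => ((r α).val : ℤ))‖ₑ ^ p ∂Pm := by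
        refine lintegral_mono fun x => ?_
        have h1 := ENNReal.ofReal_le_ofReal
          (base_avg q Ξ hper hp H hH (V x) (m x) (hm0 x) (hm x))
        rw [ENNReal.ofReal_mul (by positivity), ENNReal.ofReal_natCast,
          ENNReal.ofReal_sum_of_nonneg (fun _ _ => by positivity),
          ← ENNReal.ofReal_rpow_of_nonneg (div_nonneg (hm0 x) (by positivity)) hp0.le] at h1
        refine h1.trans_eq (Finset.sum_congr rfl fun r _ => ?_)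
        rw [← ENNReal.ofReal_rpow_of_nonneg (norm_nonneg _) hp0.le, ofReal_norm]
    _ = ∑ r : 𝒜 → ZMod q, ∫⁻ x, ‖Ξ ((fun α => ((r α).val : ℤ)) + V x)
          - Ξ (fun α => ((r α).val : ℤ))‖ₑ ^ p ∂Pm := by
        refine lintegral_finsetSum _ fun r _ => ?_
        exact (measurable_of_countable (f := fun v : 𝒜 → ℤ =>
          ‖Ξ ((fun α => ((r α).val : ℤ)) + v) - Ξ (fun α => ((r α).val : ℤ))‖ₑ ^ p)).comp hV
    _ ≤ ∑ _r : 𝒜 → ZMod q, ∫⁻ x, ‖Ξ ((fun α => ((r₀ α).val : ℤ)) + V x)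
          - Ξ (fun α => ((r₀ α).val : ℤ))‖ₑ ^ p ∂Pm := Finset.sum_le_sum fun r _ => hr₀ r
    _ = _ := by
        rw [Finset.sum_const, Finset.card_univ, nsmul_eq_mul]

end Pool.Agent.H67.NP
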