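import Pool.Agent.H67.NP.Defs

/-!
# The lower bound for the random direction (§3, 3.6)

`V x α = ⌊Λ W x α⌋`, `t_j(x) = H ⟨ω_j, V x⟩`, `n = |𝒜|`.
`|t_j - H Λ √n Z_j| ≤ H n ≤ H Λ √n g₀/8` with `Z_j = zW ω j (W x)` (`|⌊y⌋ - y| ≤ 1`).  Minkowski in
`L_p` and in `L_{p+1}`: `‖t_j‖_p ≥ HΛ√n (7g₀/8)`, `‖t_j‖_{p+1} ≤ HΛ√n (b + g₀/8)`, `b = M₂^(1/(p+1))`.
`r^p ≥ N⁻¹ ∑_j (|t_j|^p - (2/q)|t_j|^(p+1))` pointwise, so (move the second term to the left side in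
`ℝ≥0∞`, or use integrals: everything is integrable)
`∫ r^p ≥ (HΛ√n)^p [(7g₀/8)^p - (2HΛ√n/q)(b+g₀/8)^(p+1)] ≥ (HΛ√n)^p (3g₀/4)^p` by the choice of `q`.
-/

set_option autoImplicit false

open MeasureTheory ProbabilityTheory Finset BigOperators
open scoped ENNReal NNReal

namespace Pool.Agent.H67.NP

/-- The constant `ν` of §3. -/
noncomputable def nuC (p g₀ M₂ : ℝ) : ℝ :=
  2 * (M₂ ^ (1 / (p + 1)) + g₀ / 8) ^ (p + 1) / ((7 * g₀ / 8) ^ p - (3 * g₀ / 4) ^ p)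

theorem direct_gap_pos {p g₀ : ℝ} (hp : 1 ≤ p) (hg₀ : 0 < g₀) :
    0 < (7 * g₀ / 8) ^ p - (3 * g₀ / 4) ^ p := by
  rw [sub_pos]
  exact Real.rpow_lt_rpow (by positivity) (by linarith) (by linarith)

theorem nuC_pos {p g₀ M₂ : ℝ} (hp : 1 ≤ p) (hg₀ : 0 < g₀) (hM₂ : 0 ≤ M₂) : 0 < nuC p g₀ M₂ := by
  unfold nuC
  have h1 := direct_gap_pos hp hg₀
  have h2 : 0 < M₂ ^ (1 / (p + 1)) + g₀ / 8 := by positivity
  positivity

theorem direct_enorm_rpow {p : ℝ} (hp : 0 ≤ p) (x : ℝ) : ‖x‖ₑ ^ p = ENNReal.ofReal (|x| ^ p) := by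
  rw [← ENNReal.ofReal_rpow_of_nonneg (abs_nonneg x) hp, Real.enorm_eq_ofReal_abs]

/-- Minkowski with a constant. -/
theorem direct_minkowski {Ω : Type} [MeasurableSpace Ω] (Pm : Measure Ω) [IsProbabilityMeasure Pm]
    {s : ℝ} (hs : 1 ≤ s) (F G : Ω → ℝ) (hF : Measurable F) {c : ℝ} (hc : 0 ≤ c)
    (h : ∀ x, |G x| ≤ |F x| + c) :
    (∫⁻ x, ‖G x‖ₑ ^ s ∂Pm) ^ (1 / s) ≤ (∫⁻ x, ‖F x‖ₑ ^ s ∂Pm) ^ (1 / s) + ENNReal.ofReal c := by
  have hs0 : 0 < s := by linarith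
  have h1 : ∀ x, ‖G x‖ₑ ≤ ((fun x => ‖F x‖ₑ) + (fun _ => ENNReal.ofReal c) : Ω → ℝ≥0∞) x := by
    intro x
    simp only [Pi.add_apply]
    rw [Real.enorm_eq_ofReal_abs, Real.enorm_eq_ofReal_abs, ← ENNReal.ofReal_add (abs_nonneg _) hc]
    exact ENNReal.ofReal_le_ofReal (h x)
  calc (∫⁻ x, ‖G x‖ₑ ^ s ∂Pm) ^ (1 / s)
      ≤ (∫⁻ x, ((fun x => ‖F x‖ₑ) + (fun _ => ENNReal.ofReal c) : Ω → ℝ≥0∞) x ^ s ∂Pm) ^ (1 / s) := by
        refine ENNReal.rpow_le_rpow (lintegral_mono fun x => ?_) (by positivity)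
        exact ENNReal.rpow_le_rpow (h1 x) hs0.le
    _ ≤ (∫⁻ x, ‖F x‖ₑ ^ s ∂Pm) ^ (1 / s) + (∫⁻ _x, ENNReal.ofReal c ^ s ∂Pm) ^ (1 / s) :=
        ENNReal.lintegral_Lp_add_le hF.enorm.aemeasurable aemeasurable_const hs
    _ = _ := by
        rw [lintegral_const, measure_univ, mul_one, ← ENNReal.rpow_mul,
          mul_one_div_cancel hs0.ne', ENNReal.rpow_one]

theorem direct_const_mul {Ω : Type} [MeasurableSpace Ω] (Pm : Measure Ω)
    {s : ℝ} (hs : 1 ≤ s) (Z : Ω → ℝ) (hZ : Measurable Z) {L : ℝ} (hL : 0 ≤ L) :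
    (∫⁻ x, ‖L * Z x‖ₑ ^ s ∂Pm) ^ (1 / s)
      = ENNReal.ofReal L * (∫⁻ x, ‖Z x‖ₑ ^ s ∂Pm) ^ (1 / s) := by
  have hs0 : 0 < s := by linarith
  have h1 : ∀ x, ‖L * Z x‖ₑ ^ s = ENNReal.ofReal L ^ s * ‖Z x‖ₑ ^ s := by
    intro x
    rw [enorm_mul, ENNReal.mul_rpow_of_nonneg _ _ hs0.le, Real.enorm_eq_ofReal hL]
  simp_rw [h1]
  rw [lintegral_const_mul _ (hZ.enorm.pow_const s), ENNReal.mul_rpow_of_nonneg _ _ (by positivity),
    ← ENNReal.rpow_mul, mul_one_div_cancel hs0.ne', ENNReal.rpow_one]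

theorem direct_rpow_iff_le {s : ℝ} (hs : 0 < s) {A : ℝ≥0∞} {c : ℝ} (hc : 0 ≤ c) :
    ENNReal.ofReal c ≤ A ^ (1 / s) ↔ ENNReal.ofReal (c ^ s) ≤ A := by
  rw [← ENNReal.ofReal_rpow_of_nonneg hc hs.le]
  constructor
  · intro h
    have := ENNReal.rpow_le_rpow h hs.le
    rwa [← ENNReal.rpow_mul, one_div_mul_cancel hs.ne', ENNReal.rpow_one] at this
  · intro h
    have := ENNReal.rpow_le_rpow h (z := 1 / s) (by positivity)
    rwa [← ENNReal.rpow_mul, mul_one_div_cancel hs.ne', ENNReal.rpow_one] at this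

theorem direct_le_rpow_iff {s : ℝ} (hs : 0 < s) {A : ℝ≥0∞} {c : ℝ} (hc : 0 ≤ c)
    (h : A ^ (1 / s) ≤ ENNReal.ofReal c) : A ≤ ENNReal.ofReal (c ^ s) := by
  rw [← ENNReal.ofReal_rpow_of_nonneg hc hs.le]
  have := ENNReal.rpow_le_rpow h hs.le
  rwa [← ENNReal.rpow_mul, one_div_mul_cancel hs.ne', ENNReal.rpow_one] at this

/-- The rounding error. -/
theorem direct_round {J 𝒜 : Type} [Fintype 𝒜] [Nonempty 𝒜] (ω : J → 𝒜 → ℤˣ) (j : J)
    (W : 𝒜 → ℝ) (Λ : ℝ) (H : ℕ) :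
    |(((H : ℤ) * iota ω (fun α => ⌊Λ * W α⌋) j : ℤ) : ℝ)
      - H * Λ * √(Fintype.card 𝒜 : ℝ) * zW ω j W| ≤ H * Fintype.card 𝒜 := by
  have hn : (0 : ℝ) < Fintype.card 𝒜 := by exact_mod_cast Fintype.card_pos
  have hsq : √(Fintype.card 𝒜 : ℝ) ≠ 0 := (Real.sqrt_pos.mpr hn).ne'
  have h1 : (H : ℝ) * Λ * √(Fintype.card 𝒜 : ℝ) * zW ω j W
      = H * ∑ α, ((ω j α : ℤ) : ℝ) * (Λ * W α) := by
    unfold zW
    have h2 : ∑ α, ((ω j α : ℤ) : ℝ) * (Λ * W α) = Λ * ∑ α, ((ω j α : ℤ) : ℝ) * W α := by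
      rw [Finset.mul_sum]
      exact Finset.sum_congr rfl fun α _ => by ring
    rw [h2]
    field_simp
  have h2 : (((H : ℤ) * iota ω (fun α => ⌊Λ * W α⌋) j : ℤ) : ℝ)
      = H * ∑ α, ((ω j α : ℤ) : ℝ) * ((⌊Λ * W α⌋ : ℤ) : ℝ) := by
    unfold iota
    push_cast
    rfl
  rw [h1, h2, ← mul_sub, abs_mul, Nat.abs_cast, ← Finset.sum_sub_distrib]
  refine mul_le_mul_of_nonneg_left ?_ (Nat.cast_nonneg _)
  refine (Finset.abs_sum_le_sum_abs _ _).trans ?_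
  have h3 : ∀ α ∈ (Finset.univ : Finset 𝒜), |((ω j α : ℤ) : ℝ) * ((⌊Λ * W α⌋ : ℤ) : ℝ)
      - ((ω j α : ℤ) : ℝ) * (Λ * W α)| ≤ 1 := by
    intro α _
    rw [← mul_sub, abs_mul]
    have h4 : |((ω j α : ℤ) : ℝ)| = 1 := by
      rcases Int.units_eq_one_or (ω j α) with h | h <;> simp [h]
    rw [h4, one_mul, abs_le]
    have h5 := Int.floor_le (Λ * W α)
    have h6 := Int.lt_floor_add_one (Λ * W α)
    constructor <;> linarith
  calc _ ≤ ∑ _α : 𝒜, (1 : ℝ) := Finset.sum_le_sum h3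
    _ = _ := by simp

theorem direct_lower {p g₀ M₂ : ℝ} (hp : 1 ≤ p) (hg₀ : 0 < g₀) (hM₂ : 0 ≤ M₂)
    {J 𝒜 : Type} [Fintype J] [Nonempty J] [Fintype 𝒜] [Nonempty 𝒜]
    {Ω : Type} [MeasurableSpace Ω] (Pm : Measure Ω) [IsProbabilityMeasure Pm]
    (W : Ω → 𝒜 → ℝ) (hW : Measurable W) (ω : J → 𝒜 → ℤˣ)
    (hZ1 : ∀ j, ENNReal.ofReal (g₀ ^ p) ≤ ∫⁻ x, ‖zW ω j (W x)‖ₑ ^ p ∂Pm)
    (hZ2 : ∀ j, ∫⁻ x, ‖zW ω j (W x)‖ₑ ^ (p + 1) ∂Pm ≤ ENNReal.ofReal M₂)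
    (Λ : ℝ) (hΛ : 8 * √(Fintype.card 𝒜 : ℝ) / g₀ ≤ Λ) (H q : ℕ) (hH : 0 < H) (hq0 : 0 < q)
    (hq : nuC p g₀ M₂ * (H * Λ * √(Fintype.card 𝒜 : ℝ)) ≤ q)
    (r : Ω → ℝ) (hr0 : ∀ x, 0 ≤ r x)
    (hr : ∀ x, (Fintype.card J : ℝ)⁻¹ * ∑ j,
        |(((H : ℤ) * iota ω (fun α => ⌊Λ * W x α⌋) j : ℤ) : ℝ)| ^ p
          * (1 - 2 * |(((H : ℤ) * iota ω (fun α => ⌊Λ * W x α⌋) j : ℤ) : ℝ)| / q) ≤ r x ^ p) :
    ENNReal.ofReal (H * Λ * √(Fintype.card 𝒜 : ℝ) * (3 * g₀ / 4))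
      ≤ (∫⁻ x, ENNReal.ofReal (r x) ^ p ∂Pm) ^ (1 / p) := by
  have hp0 : 0 < p := by linarith
  have hn : (0 : ℝ) < Fintype.card 𝒜 := by exact_mod_cast Fintype.card_pos
  have hsq : 0 < √(Fintype.card 𝒜 : ℝ) := Real.sqrt_pos.mpr hn
  have hΛ0 : 0 < Λ := lt_of_lt_of_le (by positivity) hΛ
  have hHr : (0 : ℝ) < H := by exact_mod_cast hH
  have hqr : (0 : ℝ) < q := by exact_mod_cast hq0
  have hN : (0 : ℝ) < Fintype.card J := by exact_mod_cast Fintype.card_pos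
  set L : ℝ := H * Λ * √(Fintype.card 𝒜 : ℝ) with hL
  have hL0 : 0 < L := by positivity
  set b : ℝ := M₂ ^ (1 / (p + 1)) with hb
  have hb0 : 0 ≤ b := by positivity
  set T : J → Ω → ℝ := fun j x => (((H : ℤ) * iota ω (fun α => ⌊Λ * W x α⌋) j : ℤ) : ℝ) with hT
  have hTm : ∀ j, Measurable (T j) := by
    intro j
    have h2 : T j = fun x => (H : ℝ) * ∑ α, ((ω j α : ℤ) : ℝ) * ((⌊Λ * W x α⌋ : ℤ) : ℝ) := by
      funext x
      simp only [hT, iota]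
      push_cast
      rfl
    rw [h2]
    refine Measurable.const_mul (Finset.measurable_sum _ fun α _ => Measurable.const_mul ?_ _) _
    have h3 : Measurable fun x => Λ * W x α := ((measurable_pi_apply α).comp hW).const_mul _
    exact measurable_from_top.comp h3.floor
  have hZm : ∀ j, Measurable fun x => zW ω j (W x) := by
    intro j
    unfold zW
    refine Measurable.const_mul (Finset.measurable_sum _ fun α _ => Measurable.const_mul ?_ _) _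
    exact (measurable_pi_apply α).comp hW
  have herr : ∀ j x, |T j x - L * zW ω j (W x)| ≤ L * g₀ / 8 := by
    intro j x
    refine (direct_round ω j (W x) Λ H).trans ?_
    have h1 : √(Fintype.card 𝒜 : ℝ) * √(Fintype.card 𝒜 : ℝ) = Fintype.card 𝒜 :=
      Real.mul_self_sqrt hn.le
    have h2 : 8 * √(Fintype.card 𝒜 : ℝ) ≤ Λ * g₀ := (div_le_iff₀ hg₀).mp hΛ
    have h3 : L * g₀ / 8 = H * √(Fintype.card 𝒜 : ℝ) * (Λ * g₀ / 8) := by rw [hL]; ring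
    have h4 : (H : ℝ) * Fintype.card 𝒜
        = H * √(Fintype.card 𝒜 : ℝ) * √(Fintype.card 𝒜 : ℝ) := by rw [mul_assoc, h1]
    rw [h3, h4]
    exact mul_le_mul_of_nonneg_left (by linarith) (by positivity)
  have hc0 : 0 ≤ L * g₀ / 8 := by positivity
  -- lower bound in `L_p`
  have hlow : ∀ j, ENNReal.ofReal ((7 * L * g₀ / 8) ^ p) ≤ ∫⁻ x, ‖T j x‖ₑ ^ p ∂Pm := by
    intro j
    rw [← direct_rpow_iff_le hp0 (by positivity)]
    have h1 := direct_minkowski Pm hp (T j) (fun x => L * zW ω j (W x)) (hTm j) hc0 (by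
      intro x
      have := herr j x
      have h2 := abs_sub_abs_le_abs_sub (L * zW ω j (W x)) (T j x)
      rw [abs_sub_comm] at h2
      linarith)
    rw [direct_const_mul Pm hp _ (hZm j) hL0.le] at h1
    have h2 : ENNReal.ofReal g₀ ≤ (∫⁻ x, ‖zW ω j (W x)‖ₑ ^ p ∂Pm) ^ (1 / p) :=
      (direct_rpow_iff_le hp0 hg₀.le).mpr (hZ1 j)
    have h3 : ENNReal.ofReal (7 * L * g₀ / 8) + ENNReal.ofReal (L * g₀ / 8)
        ≤ (∫⁻ x, ‖T j x‖ₑ ^ p ∂Pm) ^ (1 / p) + ENNReal.ofReal (L * g₀ / 8) := by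
      refine le_trans ?_ h1
      rw [← ENNReal.ofReal_add (by positivity) hc0]
      have h4 : 7 * L * g₀ / 8 + L * g₀ / 8 = L * g₀ := by ring
      rw [h4, ENNReal.ofReal_mul hL0.le]
      gcongr
    exact (ENNReal.add_le_add_iff_right ENNReal.ofReal_ne_top).mp h3
  -- upper bound in `L_{p+1}`
  have hup : ∀ j, ∫⁻ x, ‖T j x‖ₑ ^ (p + 1) ∂Pm
      ≤ ENNReal.ofReal ((L * (b + g₀ / 8)) ^ (p + 1)) := by
    intro j
    refine direct_le_rpow_iff (by linarith) (by positivity) ?_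
    have h1 := direct_minkowski Pm (s := p + 1) (by linarith) (fun x => L * zW ω j (W x)) (T j)
      ((hZm j).const_mul L) hc0 (by
      intro x
      have := herr j x
      have h2 := abs_sub_abs_le_abs_sub (T j x) (L * zW ω j (W x))
      linarith)
    rw [direct_const_mul Pm (by linarith) _ (hZm j) hL0.le] at h1
    refine h1.trans ?_
    have h2 : (∫⁻ x, ‖zW ω j (W x)‖ₑ ^ (p + 1) ∂Pm) ^ (1 / (p + 1)) ≤ ENNReal.ofReal b := by
      rw [hb, ← ENNReal.ofReal_rpow_of_nonneg hM₂ (by positivity)]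
      exact ENNReal.rpow_le_rpow (hZ2 j) (by positivity)
    calc ENNReal.ofReal L * (∫⁻ x, ‖zW ω j (W x)‖ₑ ^ (p + 1) ∂Pm) ^ (1 / (p + 1))
          + ENNReal.ofReal (L * g₀ / 8)
        ≤ ENNReal.ofReal L * ENNReal.ofReal b + ENNReal.ofReal (L * g₀ / 8) := by gcongr
      _ = ENNReal.ofReal (L * (b + g₀ / 8)) := by
          rw [← ENNReal.ofReal_mul hL0.le, ← ENNReal.ofReal_add (by positivity) hc0]
          congr 1; ring
  -- pointwise inequality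
  have hpt : ∀ x, ENNReal.ofReal (Fintype.card J : ℝ)⁻¹ * ∑ j, ‖T j x‖ₑ ^ p
      ≤ ENNReal.ofReal (r x) ^ p
        + ENNReal.ofReal (2 / q * (Fintype.card J : ℝ)⁻¹) * ∑ j, ‖T j x‖ₑ ^ (p + 1) := by
    intro x
    simp only [direct_enorm_rpow hp0.le, direct_enorm_rpow (by linarith : (0 : ℝ) ≤ p + 1)]
    rw [← ENNReal.ofReal_sum_of_nonneg fun j _ => by positivity,
      ← ENNReal.ofReal_sum_of_nonneg fun j _ => by positivity,
      ← ENNReal.ofReal_mul (by positivity), ← ENNReal.ofReal_mul (by positivity),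
      ENNReal.ofReal_rpow_of_nonneg (hr0 x) hp0.le, ← ENNReal.ofReal_add
        (Real.rpow_nonneg (hr0 x) _) (by positivity)]
    refine ENNReal.ofReal_le_ofReal ?_
    have h1 := hr x
    have h2 : (Fintype.card J : ℝ)⁻¹ * ∑ j, |T j x| ^ p * (1 - 2 * |T j x| / q)
        = (Fintype.card J : ℝ)⁻¹ * ∑ j, |T j x| ^ p
          - 2 / q * (Fintype.card J : ℝ)⁻¹ * ∑ j, |T j x| ^ (p + 1) := by
      have h3 : ∀ j, |T j x| ^ p * (1 - 2 * |T j x| / q)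
          = |T j x| ^ p - 2 / q * |T j x| ^ (p + 1) := by
        intro j
        rw [Real.rpow_add' (abs_nonneg _) (by linarith), Real.rpow_one]
        ring
      simp_rw [h3]
      rw [Finset.sum_sub_distrib, ← Finset.mul_sum]
      ring
    have h4 : (Fintype.card J : ℝ)⁻¹ * ∑ j, |T j x| ^ p
          - 2 / q * (Fintype.card J : ℝ)⁻¹ * ∑ j, |T j x| ^ (p + 1) ≤ r x ^ p := by
      rw [← h2]; exact h1
    linarith
  have hNinv : ENNReal.ofReal (Fintype.card J : ℝ)⁻¹ * (Fintype.card J : ℝ≥0∞) = 1 := by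
    rw [← ENNReal.ofReal_natCast, ← ENNReal.ofReal_mul (by positivity),
      inv_mul_cancel₀ hN.ne', ENNReal.ofReal_one]
  have hint : ENNReal.ofReal ((7 * L * g₀ / 8) ^ p)
      ≤ (∫⁻ x, ENNReal.ofReal (r x) ^ p ∂Pm)
        + ENNReal.ofReal (2 / q * (L * (b + g₀ / 8)) ^ (p + 1)) := by
    have hA : ENNReal.ofReal ((7 * L * g₀ / 8) ^ p)
        ≤ ∫⁻ x, ENNReal.ofReal (Fintype.card J : ℝ)⁻¹ * ∑ j, ‖T j x‖ₑ ^ p ∂Pm := by
      rw [lintegral_const_mul _ (Finset.measurable_sum _ fun j _ => (hTm j).enorm.pow_const p),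
        lintegral_finsetSum _ fun j _ => (hTm j).enorm.pow_const p]
      calc ENNReal.ofReal ((7 * L * g₀ / 8) ^ p)
          = ENNReal.ofReal (Fintype.card J : ℝ)⁻¹
            * ∑ _j : J, ENNReal.ofReal ((7 * L * g₀ / 8) ^ p) := by
            rw [Finset.sum_const, Finset.card_univ, nsmul_eq_mul,
              ← mul_assoc (ENNReal.ofReal (Fintype.card J : ℝ)⁻¹), hNinv, one_mul]
        _ ≤ _ := by
            gcongr with j _
            exact hlow j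
    have hB : ∫⁻ x, ENNReal.ofReal (2 / q * (Fintype.card J : ℝ)⁻¹)
          * ∑ j, ‖T j x‖ₑ ^ (p + 1) ∂Pm ≤ ENNReal.ofReal (2 / q * (L * (b + g₀ / 8)) ^ (p + 1)) := by
      rw [lintegral_const_mul _ (Finset.measurable_sum _ fun j _ => (hTm j).enorm.pow_const _),
        lintegral_finsetSum _ fun j _ => (hTm j).enorm.pow_const _]
      calc _ ≤ ENNReal.ofReal (2 / q * (Fintype.card J : ℝ)⁻¹)
            * ∑ _j : J, ENNReal.ofReal ((L * (b + g₀ / 8)) ^ (p + 1)) := by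
            gcongr with j _
            exact hup j
        _ = _ := by
            rw [Finset.sum_const, Finset.card_univ, nsmul_eq_mul, ENNReal.ofReal_mul (by positivity),
              mul_assoc, ← mul_assoc (ENNReal.ofReal (Fintype.card J : ℝ)⁻¹), hNinv, one_mul,
              ← ENNReal.ofReal_mul (by positivity)]
    calc _ ≤ _ := hA
      _ ≤ ∫⁻ x, (ENNReal.ofReal (r x) ^ p
        + ENNReal.ofReal (2 / q * (Fintype.card J : ℝ)⁻¹) * ∑ j, ‖T j x‖ₑ ^ (p + 1)) ∂Pm :=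
          lintegral_mono hpt
      _ = (∫⁻ x, ENNReal.ofReal (r x) ^ p ∂Pm)
        + ∫⁻ x, ENNReal.ofReal (2 / q * (Fintype.card J : ℝ)⁻¹)
          * ∑ j, ‖T j x‖ₑ ^ (p + 1) ∂Pm := by
          rw [lintegral_add_right]
          exact (Finset.measurable_sum _ fun j _ => (hTm j).enorm.pow_const _).const_mul _
      _ ≤ _ := by gcongr
  -- arithmetic
  have hgap := direct_gap_pos hp hg₀
  have hreal : (L * (3 * g₀ / 4)) ^ p + 2 / q * (L * (b + g₀ / 8)) ^ (p + 1)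
      ≤ (7 * L * g₀ / 8) ^ p := by
    have hbg : 0 < b + g₀ / 8 := by positivity
    have e1 : (L * (3 * g₀ / 4)) ^ p = L ^ p * (3 * g₀ / 4) ^ p :=
      Real.mul_rpow hL0.le (by positivity)
    have e2 : (L * (b + g₀ / 8)) ^ (p + 1) = L ^ p * L * (b + g₀ / 8) ^ (p + 1) := by
      rw [Real.mul_rpow hL0.le hbg.le, Real.rpow_add hL0, Real.rpow_one]
    have e3 : (7 * L * g₀ / 8) ^ p = L ^ p * (7 * g₀ / 8) ^ p := by
      rw [← Real.mul_rpow hL0.le (by positivity)]; congr 1; ring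
    have h1 : 2 * (b + g₀ / 8) ^ (p + 1) * L
        ≤ q * ((7 * g₀ / 8) ^ p - (3 * g₀ / 4) ^ p) := by
      have h2 := hq
      unfold nuC at h2
      rw [← hb, div_mul_eq_mul_div, div_le_iff₀ hgap] at h2
      exact h2
    have h3 : 2 / q * (L * (b + g₀ / 8) ^ (p + 1))
        ≤ (7 * g₀ / 8) ^ p - (3 * g₀ / 4) ^ p := by
      have h4 : 2 / q * (L * (b + g₀ / 8) ^ (p + 1))
          = (2 * (b + g₀ / 8) ^ (p + 1) * L) / q := by ring
      rw [h4, div_le_iff₀ hqr]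
      linarith
    have hLp : 0 < L ^ p := Real.rpow_pos_of_pos hL0 _
    rw [e1, e2, e3]
    have h5 := mul_le_mul_of_nonneg_left h3 hLp.le
    linarith
  have hfin : ENNReal.ofReal ((L * (3 * g₀ / 4)) ^ p) ≤ ∫⁻ x, ENNReal.ofReal (r x) ^ p ∂Pm := by
    have h1 : ENNReal.ofReal ((L * (3 * g₀ / 4)) ^ p)
        + ENNReal.ofReal (2 / q * (L * (b + g₀ / 8)) ^ (p + 1))
        ≤ (∫⁻ x, ENNReal.ofReal (r x) ^ p ∂Pm)
          + ENNReal.ofReal (2 / q * (L * (b + g₀ / 8)) ^ (p + 1)) := by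
      rw [← ENNReal.ofReal_add (by positivity) (by positivity)]
      exact (ENNReal.ofReal_le_ofReal hreal).trans hint
    exact (ENNReal.add_le_add_iff_right ENNReal.ofReal_ne_top).mp h1
  exact (direct_rpow_iff_le hp0 (by positivity)).mpr hfin

end Pool.Agent.H67.NP
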