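import Pool.Agent.H67.NP.Defs

/-!
# (L1) for the box averaged slopes (§3, 3.1)

`nrm p` is the normalised `ℓ_p` norm (triangle inequality: `Real.Lp_add_le`;
`N⁻¹ ∑|a_j| ≤ nrm p a`: Hölder / `inner_le_nnorm_mul_nnorm`, `Real.pow_arith_mean_le_arith_mean_pow`,
`Real.arith_mean_le_rpow_mean`).

`slope_L1`.  By homogeneity let `nrm p a = 1`.  `T = 4N`, `a'_j = ⌊T a_j⌋`.  `linearise` (Box.lean,
`κ = D` from `unit_step`): `‖∑ a'_j G_j‖ ≤ ‖F^P(x+a')-F^P(x)‖ + (2D/P)|a'|₁²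
≤ D nrm p a' + (2D/P)|a'|₁² ≤ D(T+1) + (2D/P)(N(T+1))²`.  `‖∑ (T a_j - a'_j) G_j‖ ≤ N D`.  Divide by
`T`: `‖∑ a_j G_j‖ ≤ D(1+1/T) + (2D/P)N²(T+1)²/T + DN/T ≤ 2D`.
-/

set_option autoImplicit false

open MeasureTheory ProbabilityTheory Finset BigOperators
open scoped ENNReal NNReal

namespace Pool.Agent.H67.NP

section nrm

variable {J : Type} [Fintype J]

theorem nrm_nonneg (p : ℝ) (a : J → ℝ) : 0 ≤ nrm p a := by
  unfold nrm
  exact Real.rpow_nonneg (mul_nonneg (by positivity)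
    (Finset.sum_nonneg fun j _ => Real.rpow_nonneg (abs_nonneg _) _)) _

theorem nrm_eq (p : ℝ) (a : J → ℝ) :
    nrm p a = ((Fintype.card J : ℝ)⁻¹) ^ (1 / p) * (∑ j, |a j| ^ p) ^ (1 / p) := by
  unfold nrm
  exact Real.mul_rpow (by positivity)
    (Finset.sum_nonneg fun j _ => Real.rpow_nonneg (abs_nonneg _) _)

theorem nrm_add_le {p : ℝ} (hp : 1 ≤ p) (a b : J → ℝ) :
    nrm p (fun j => a j + b j) ≤ nrm p a + nrm p b := by
  rw [nrm_eq, nrm_eq, nrm_eq, ← mul_add]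
  exact mul_le_mul_of_nonneg_left (Real.Lp_add_le Finset.univ a b hp)
    (Real.rpow_nonneg (by positivity) _)

theorem nrm_smul {p : ℝ} (hp : 1 ≤ p) (c : ℝ) (a : J → ℝ) :
    nrm p (fun j => c * a j) = |c| * nrm p a := by
  have hp0 : p ≠ 0 := by linarith
  rw [nrm_eq, nrm_eq]
  have h1 : ∑ j, |c * a j| ^ p = |c| ^ p * ∑ j, |a j| ^ p := by
    rw [Finset.mul_sum]
    refine Finset.sum_congr rfl fun j _ => ?_
    rw [abs_mul, Real.mul_rpow (abs_nonneg _) (abs_nonneg _)]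
  rw [h1, Real.mul_rpow (Real.rpow_nonneg (abs_nonneg _) _)
    (Finset.sum_nonneg fun j _ => Real.rpow_nonneg (abs_nonneg _) _), ← Real.rpow_mul (abs_nonneg _),
    mul_one_div_cancel hp0, Real.rpow_one]
  ring

theorem nrm_mono {p : ℝ} (hp : 1 ≤ p) {a b : J → ℝ} (h : ∀ j, |a j| ≤ |b j|) :
    nrm p a ≤ nrm p b := by
  unfold nrm
  refine Real.rpow_le_rpow (mul_nonneg (by positivity)
    (Finset.sum_nonneg fun j _ => Real.rpow_nonneg (abs_nonneg _) _)) ?_ (by positivity)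
  refine mul_le_mul_of_nonneg_left (Finset.sum_le_sum fun j _ => ?_) (by positivity)
  exact Real.rpow_le_rpow (abs_nonneg _) (h j) (by linarith)

/-- bounded vectors -/
theorem nrm_le {p : ℝ} (hp : 1 ≤ p) [Nonempty J] {a : J → ℝ} {C : ℝ} (h : ∀ j, |a j| ≤ C) :
    nrm p a ≤ C := by
  have hp0 : p ≠ 0 := by linarith
  have hC : 0 ≤ C := (abs_nonneg _).trans (h (Classical.arbitrary J))
  have hN : (0 : ℝ) < Fintype.card J := by exact_mod_cast Fintype.card_pos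
  unfold nrm
  have h1 : ∑ j, |a j| ^ p ≤ Fintype.card J * C ^ p := by
    calc ∑ j, |a j| ^ p ≤ ∑ _j : J, C ^ p :=
          Finset.sum_le_sum fun j _ => Real.rpow_le_rpow (abs_nonneg _) (h j) (by linarith)
      _ = Fintype.card J * C ^ p := by rw [Finset.sum_const, nsmul_eq_mul, Finset.card_univ]
  have h2 : (Fintype.card J : ℝ)⁻¹ * ∑ j, |a j| ^ p ≤ C ^ p := by
    rw [inv_mul_le_iff₀ hN]
    exact h1
  calc ((Fintype.card J : ℝ)⁻¹ * ∑ j, |a j| ^ p) ^ (1 / p) ≤ (C ^ p) ^ (1 / p) :=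
        Real.rpow_le_rpow (mul_nonneg (by positivity)
          (Finset.sum_nonneg fun j _ => Real.rpow_nonneg (abs_nonneg _) _)) h2 (by positivity)
    _ = C := by rw [← Real.rpow_mul hC, mul_one_div_cancel hp0, Real.rpow_one]

/-- mean of the absolute values -/
theorem sum_abs_le_nrm {p : ℝ} (hp : 1 ≤ p) [Nonempty J] (a : J → ℝ) :
    ∑ j, |a j| ≤ Fintype.card J * nrm p a := by
  have hN : (0 : ℝ) < Fintype.card J := by exact_mod_cast Fintype.card_pos
  have h1 := Real.arith_mean_le_rpow_mean (Finset.univ : Finset J)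
    (fun _ => (Fintype.card J : ℝ)⁻¹) (fun j => |a j|) (fun _ _ => by positivity)
    (by rw [Finset.sum_const, nsmul_eq_mul, Finset.card_univ, mul_inv_cancel₀ hN.ne'])
    (fun _ _ => abs_nonneg _) hp
  rw [← Finset.mul_sum, ← Finset.mul_sum] at h1
  have h2 : (Fintype.card J : ℝ)⁻¹ * ∑ j, |a j| ≤ nrm p a := h1
  rwa [inv_mul_le_iff₀ hN] at h2

end nrm

variable {J : Type} [Fintype J] [DecidableEq J] [Nonempty J]
variable {E : Type} [NormedAddCommGroup E] [NormedSpace ℝ E]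

theorem unit_step {p : ℝ} (hp : 1 ≤ p) {D : ℝ} (hD : 0 ≤ D) (F : (J → ℤ) → E)
    (hF : ∀ z z' : J → ℤ, ‖F z - F z'‖ ≤ D * nrm p (fun j => ((z j - z' j : ℤ) : ℝ)))
    (z : J → ℤ) (i : J) : ‖F (z + Pi.single i 1) - F z‖ ≤ D := by
  refine (hF _ _).trans ?_
  have h1 : nrm p (fun j => (((z + Pi.single i 1 : J → ℤ) j - z j : ℤ) : ℝ)) ≤ 1 := by
    refine nrm_le hp fun j => ?_
    by_cases hj : j = i
    · subst hj; simp
    · simp [hj]
  calc D * nrm p (fun j => (((z + Pi.single i 1 : J → ℤ) j - z j : ℤ) : ℝ)) ≤ D * 1 :=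
        mul_le_mul_of_nonneg_left h1 hD
    _ = D := mul_one D

theorem slope_L1_aux {p : ℝ} (hp : 1 ≤ p) {D : ℝ} (hD : 0 ≤ D) (F : (J → ℤ) → E)
    (hF : ∀ z z' : J → ℤ, ‖F z - F z'‖ ≤ D * nrm p (fun j => ((z j - z' j : ℤ) : ℝ)))
    (P : ℕ) (hP : 8 * (Fintype.card J : ℝ) ^ 2 * (4 * Fintype.card J + 1) ^ 2 ≤ P)
    (x : J → ℤ) (b : J → ℝ) (hb : nrm p b = 1) :
    ‖∑ j, b j • slp P F x j‖ ≤ 2 * D := by
  have hN : (1 : ℝ) ≤ Fintype.card J := by exact_mod_cast (Fintype.card_pos : 0 < Fintype.card J)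
  set N : ℝ := (Fintype.card J : ℝ) with hNdef
  have hPR : (0 : ℝ) < P := lt_of_lt_of_le (by positivity) hP
  have hP0 : 0 < P := by exact_mod_cast hPR
  have hus := unit_step hp hD F hF
  set c : J → ℤ := fun j => ⌊4 * N * b j⌋ with hc
  -- the norm of `c`
  have hcn : nrm p (fun j => ((c j : ℤ) : ℝ)) ≤ 4 * N + 1 := by
    have h1 : (fun j => ((c j : ℤ) : ℝ)) = fun j => 4 * N * b j + (((c j : ℤ) : ℝ) - 4 * N * b j) := by
      funext j; ring
    rw [h1]
    refine (nrm_add_le hp _ _).trans (add_le_add ?_ ?_)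
    · rw [nrm_smul hp, hb, mul_one, abs_of_nonneg (by positivity)]
    · refine nrm_le hp fun j => ?_
      have h2 := Int.floor_le (4 * N * b j)
      have h3 := Int.lt_floor_add_one (4 * N * b j)
      rw [abs_le]
      constructor <;> simp only [hc] <;> linarith
  have hl1 : (H67.l1 c : ℝ) ≤ N * (4 * N + 1) := by
    have h1 : (H67.l1 c : ℝ) = ∑ j, |((c j : ℤ) : ℝ)| := by
      unfold H67.l1
      push_cast
      refine Finset.sum_congr rfl fun j _ => ?_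
      rw [← Int.cast_abs, Int.abs_eq_natAbs]
      simp
    rw [h1]
    exact (sum_abs_le_nrm hp _).trans (mul_le_mul_of_nonneg_left hcn (by positivity))
  -- linearisation
  have hlin := H67.linearise hP0 F D hus x c
  have hdiff : ‖H67.boxAvg P F (x + c) - H67.boxAvg P F x‖ ≤ D * (4 * N + 1) := by
    rw [← H67.boxAvg_shift_eq, ← H67.boxAvg_sub]
    refine H67.norm_boxAvg_le hP0 _ _ _ fun z => ?_
    refine (hF _ _).trans (mul_le_mul_of_nonneg_left ?_ hD)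
    have h1 : (fun j => ((((x + fun i => ((z i : ℕ) : ℤ)) + c) j -
        (x + fun i => ((z i : ℕ) : ℤ)) j : ℤ) : ℝ)) = fun j => ((c j : ℤ) : ℝ) := by
      funext j
      simp
    rw [h1]
    exact hcn
  have hslp : ∀ j, ‖slp P F x j‖ ≤ D := fun j =>
    H67.norm_boxAvg_le hP0 _ _ _ fun z => hus _ _
  have herr : ‖∑ j, (4 * N * b j - ((c j : ℤ) : ℝ)) • slp P F x j‖ ≤ N * D := by
    refine (norm_sum_le _ _).trans ?_
    calc ∑ j, ‖(4 * N * b j - ((c j : ℤ) : ℝ)) • slp P F x j‖ ≤ ∑ _j : J, D := by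
          refine Finset.sum_le_sum fun j _ => ?_
          rw [norm_smul]
          have h2 := Int.floor_le (4 * N * b j)
          have h3 := Int.lt_floor_add_one (4 * N * b j)
          have h4 : ‖4 * N * b j - ((c j : ℤ) : ℝ)‖ ≤ 1 := by
            rw [Real.norm_eq_abs, abs_le]
            constructor <;> simp only [hc] <;> linarith
          calc ‖4 * N * b j - ((c j : ℤ) : ℝ)‖ * ‖slp P F x j‖ ≤ 1 * D :=
                mul_le_mul h4 (hslp j) (norm_nonneg _) (by norm_num)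
            _ = D := one_mul D
      _ = N * D := by rw [Finset.sum_const, nsmul_eq_mul, Finset.card_univ]
  have hquad' : 2 * D / P * (H67.l1 c : ℝ) ^ 2 ≤ D / 4 := by
    have h1 : (H67.l1 c : ℝ) ^ 2 ≤ (N * (4 * N + 1)) ^ 2 :=
      pow_le_pow_left₀ (Nat.cast_nonneg _) hl1 2
    have h2 : 8 * (N * (4 * N + 1)) ^ 2 ≤ P := by
      calc 8 * (N * (4 * N + 1)) ^ 2 = 8 * N ^ 2 * (4 * N + 1) ^ 2 := by ring
        _ ≤ (P : ℝ) := hP
    calc 2 * D / P * (H67.l1 c : ℝ) ^ 2 ≤ 2 * D / P * (N * (4 * N + 1)) ^ 2 :=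
          mul_le_mul_of_nonneg_left h1 (by positivity)
      _ = D / 4 * (8 * (N * (4 * N + 1)) ^ 2 / P) := by ring
      _ ≤ D / 4 * 1 :=
        mul_le_mul_of_nonneg_left ((div_le_one hPR).2 h2) (by positivity)
      _ = D / 4 := mul_one _
  have hmain : ‖∑ j, ((c j : ℤ) : ℝ) • slp P F x j‖ ≤ D * (4 * N + 1) + D / 4 := by
    have h1 : ∑ j, ((c j : ℤ) : ℝ) • slp P F x j =
        (H67.boxAvg P F (x + c) - H67.boxAvg P F x) -
        (H67.boxAvg P F (x + c) - H67.boxAvg P F x - ∑ j, ((c j : ℤ) : ℝ) •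
          H67.boxAvg P (fun z => F (z + Pi.single j 1) - F z) x) := by
      rw [sub_sub_cancel]
      rfl
    rw [h1]
    exact (norm_sub_le _ _).trans (add_le_add hdiff (hlin.trans hquad'))
  have htot : (4 * N) * ‖∑ j, b j • slp P F x j‖ ≤ D * (4 * N + 1) + D / 4 + N * D := by
    have h1 : (4 * N) * ‖∑ j, b j • slp P F x j‖ = ‖(4 * N) • ∑ j, b j • slp P F x j‖ := by
      rw [norm_smul, Real.norm_of_nonneg (by positivity)]
    have h2 : (4 * N) • ∑ j, b j • slp P F x j = ∑ j, ((c j : ℤ) : ℝ) • slp P F x j +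
        ∑ j, (4 * N * b j - ((c j : ℤ) : ℝ)) • slp P F x j := by
      rw [Finset.smul_sum, ← Finset.sum_add_distrib]
      refine Finset.sum_congr rfl fun j _ => ?_
      rw [smul_smul, ← add_smul]
      congr 1
      ring
    rw [h1, h2]
    exact (norm_add_le _ _).trans (add_le_add hmain herr)
  have hfin : (4 * N) * ‖∑ j, b j • slp P F x j‖ ≤ (4 * N) * (2 * D) := by
    refine htot.trans ?_
    nlinarith [mul_nonneg hD (sub_nonneg.2 hN)]
  exact le_of_mul_le_mul_left hfin (by positivity)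

theorem slope_L1 {p : ℝ} (hp : 1 ≤ p) {D : ℝ} (hD : 0 ≤ D) (F : (J → ℤ) → E)
    (hF : ∀ z z' : J → ℤ, ‖F z - F z'‖ ≤ D * nrm p (fun j => ((z j - z' j : ℤ) : ℝ)))
    (P : ℕ) (hP : 8 * (Fintype.card J : ℝ) ^ 2 * (4 * Fintype.card J + 1) ^ 2 ≤ P)
    (x : J → ℤ) (a : J → ℝ) :
    ‖∑ j, a j • slp P F x j‖ ≤ 2 * D * nrm p a := by
  rcases (nrm_nonneg p a).eq_or_lt with h0 | h0
  · have h1 := sum_abs_le_nrm hp a
    rw [← h0, mul_zero] at h1
    have h2 : ∀ j, a j = 0 := by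
      intro j
      have h3 := Finset.single_le_sum (f := fun j => |a j|) (fun j _ => abs_nonneg _)
        (Finset.mem_univ j)
      have h4 : |a j| ≤ 0 := h3.trans h1
      exact abs_nonpos_iff.1 h4
    rw [← h0]
    simp [h2]
  · have h1 : nrm p (fun j => (nrm p a)⁻¹ * a j) = 1 := by
      rw [nrm_smul hp, abs_of_nonneg (by positivity), inv_mul_cancel₀ h0.ne']
    have h2 := slope_L1_aux hp hD F hF P hP x _ h1
    have h3 : ∑ j, ((nrm p a)⁻¹ * a j) • slp P F x j = (nrm p a)⁻¹ • ∑ j, a j • slp P F x j := by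
      rw [Finset.smul_sum]
      exact Finset.sum_congr rfl fun j _ => by rw [smul_smul]
    rw [h3, norm_smul, norm_inv, Real.norm_of_nonneg h0.le, inv_mul_le_iff₀ h0] at h2
    linarith

end Pool.Agent.H67.NP
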