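import Pool.Agent.H67.NP.Khin
import Pool.Agent.H67.NP.Slope

/-!
# Smoothing cost (§3, 3.3 end, 3.4)

`box_cost`: the box `x + [0,P)^J`: `nrm p z ≤ P`, so `‖boxAvg P F x - F x‖ ≤ D P`
(`norm_boxAvg_le`, `boxAvg_sub`, `boxAvg_const`).

`smooth_cost`: `‖F(iota(v+Y)) - F(iota v)‖ ≤ D nrm p (⟨ω_j,Y⟩)_j`;
`avg nrm p (…) ≤ (avg N⁻¹ ∑_j |⟨ω_j,Y⟩|^p)^(1/p)` (power mean) `≤ (K (√(nL))^p)^(1/p)` by `khinchine`
with `n L` signs, coefficients `ω_j(α) = ±1`.
-/

set_option autoImplicit false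

open MeasureTheory ProbabilityTheory Finset BigOperators
open scoped ENNReal NNReal

namespace Pool.Agent.H67.NP

theorem box_cost {J : Type} [Fintype J] [DecidableEq J] [Nonempty J]
    {E : Type} [NormedAddCommGroup E] [NormedSpace ℝ E] {p : ℝ} (hp : 1 ≤ p) {D : ℝ} (hD : 0 ≤ D)
    (F : (J → ℤ) → E)
    (hF : ∀ z z' : J → ℤ, ‖F z - F z'‖ ≤ D * nrm p (fun j => ((z j - z' j : ℤ) : ℝ)))
    (P : ℕ) (hP : 0 < P) (x : J → ℤ) : ‖boxAvg P F x - F x‖ ≤ D * P := by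
  have h1 : boxAvg P F x - F x = boxAvg P (fun z => F z - F x) x := by
    rw [boxAvg_sub P F (fun _ => F x) x, boxAvg_const hP]
  rw [h1]
  refine norm_boxAvg_le hP _ x (D * P) fun z => ?_
  refine (hF _ _).trans (mul_le_mul_of_nonneg_left ?_ hD)
  refine nrm_le hp fun j => ?_
  have h2 : (((x + fun i => ((z i : ℕ) : ℤ)) j - x j : ℤ) : ℝ) = ((z j : ℕ) : ℝ) := by
    simp
  rw [h2, abs_of_nonneg (by positivity)]
  exact_mod_cast (z j).2.le

/-- average of norms -/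
theorem norm_avg_le {S : Type} [Fintype S] {E : Type} [NormedAddCommGroup E] [NormedSpace ℝ E]
    (f : S → E) : ‖avg f‖ ≤ avg fun s => ‖f s‖ := by
  unfold avg
  rw [norm_smul, norm_inv, Real.norm_of_nonneg (Nat.cast_nonneg _), smul_eq_mul]
  exact mul_le_mul_of_nonneg_left (norm_sum_le _ _) (by positivity)

theorem avg_mono' {S : Type} [Fintype S] {f g : S → ℝ} (h : ∀ s, f s ≤ g s) : avg f ≤ avg g := by
  unfold avg
  rw [smul_eq_mul, smul_eq_mul]
  exact mul_le_mul_of_nonneg_left (Finset.sum_le_sum fun s _ => h s) (by positivity)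

theorem avg_const' {S : Type} [Fintype S] [Nonempty S] {E : Type} [AddCommGroup E] [Module ℝ E]
    (c : E) : avg (fun _ : S => c) = c := by
  unfold avg
  have : (Fintype.card S : ℝ) ≠ 0 := by exact_mod_cast Fintype.card_ne_zero
  rw [Finset.sum_const, Finset.card_univ, ← Nat.cast_smul_eq_nsmul ℝ, smul_smul,
    inv_mul_cancel₀ this, one_smul]

theorem avg_sub' {S : Type} [Fintype S] {E : Type} [AddCommGroup E] [Module ℝ E]
    (f g : S → E) : avg (fun s => f s - g s) = avg f - avg g := by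
  unfold avg
  rw [Finset.sum_sub_distrib, smul_sub]

theorem avg_add' {S : Type} [Fintype S] {E : Type} [AddCommGroup E] [Module ℝ E]
    (f g : S → E) : avg (fun s => f s + g s) = avg f + avg g := by
  unfold avg
  rw [Finset.sum_add_distrib, smul_add]

theorem avg_const_mul {S : Type} [Fintype S] (c : ℝ) (f : S → ℝ) :
    avg (fun s => c * f s) = c * avg f := by
  unfold avg
  rw [smul_eq_mul, smul_eq_mul, ← Finset.mul_sum]; ring

theorem avg_equiv {S T : Type} [Fintype S] [Fintype T] {E : Type} [AddCommGroup E] [Module ℝ E]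
    (e : S ≃ T) (f : T → E) : avg (fun s => f (e s)) = avg f := by
  unfold avg
  rw [Fintype.card_congr e, Equiv.sum_comp e f]

theorem avg_sum' {S J : Type} [Fintype S] [Fintype J] (f : S → J → ℝ) :
    avg (fun s => ∑ j, f s j) = ∑ j, avg fun s => f s j := by
  unfold avg
  rw [Finset.sum_comm, Finset.smul_sum]

/-- power mean inequality -/
theorem avg_le_rpow {S : Type} [Fintype S] [Nonempty S] {p : ℝ} (hp : 1 ≤ p) (f : S → ℝ)
    (hf : ∀ s, 0 ≤ f s) : avg f ≤ (avg fun s => f s ^ p) ^ (1 / p) := by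
  have hc : (Fintype.card S : ℝ) ≠ 0 := by exact_mod_cast Fintype.card_ne_zero
  have := Real.arith_mean_le_rpow_mean (Finset.univ : Finset S)
    (fun _ => (Fintype.card S : ℝ)⁻¹) f (fun _ _ => by positivity)
    (by rw [Finset.sum_const, Finset.card_univ, nsmul_eq_mul, mul_inv_cancel₀ hc])
    (fun s _ => hf s) hp
  simp only [← Finset.mul_sum] at this
  exact this

/-- Khinchine for `⟨ω_j, Y⟩` -/
theorem khin_Y {p K : ℝ}
    (hK : ∀ (I : Type) [Fintype I] [DecidableEq I] (u : I → ℝ),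
      avg (fun ε : I → ℤˣ => |∑ i, u i * (((ε i : ℤˣ) : ℤ) : ℝ)| ^ p) ≤ K * l2 u ^ p)
    (𝒜 : Type) [Fintype 𝒜] [DecidableEq 𝒜] (L : ℕ) (s : 𝒜 → ℤˣ) :
    avg (fun ε : Fin L → 𝒜 → ℤˣ => |((∑ α, ((s α : ℤ) * Ysum ε α) : ℤ) : ℝ)| ^ p)
      ≤ K * (√(Fintype.card 𝒜 * L)) ^ p := by
  have h := hK (Fin L × 𝒜) (fun i => ((s i.2 : ℤ) : ℝ))
  have hl : l2 (fun i : Fin L × 𝒜 => ((s i.2 : ℤ) : ℝ)) = √(Fintype.card 𝒜 * L) := by
    unfold l2
    congr 1
    have : ∀ i : Fin L × 𝒜, (((s i.2 : ℤ) : ℝ)) ^ 2 = 1 := by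
      intro i
      rcases Int.units_eq_one_or (s i.2) with h | h <;> simp [h]
    simp only [this, Finset.sum_const, Finset.card_univ, Fintype.card_prod, Fintype.card_fin]
    simp
    ring
  rw [hl] at h
  refine le_trans (le_of_eq ?_) h
  rw [← avg_equiv (Equiv.curry (Fin L) 𝒜 ℤˣ)]
  congr 1
  funext ε
  congr 2
  unfold Ysum
  push_cast
  rw [Fintype.sum_prod_type_right]
  refine Finset.sum_congr rfl fun α _ => ?_
  rw [Finset.mul_sum]
  refine Finset.sum_congr rfl fun l _ => ?_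
  rfl

theorem smooth_cost {p : ℝ} (hp : 1 ≤ p) : ∃ K : ℝ, 0 < K ∧
    ∀ (J 𝒜 : Type) [Fintype J] [DecidableEq J] [Nonempty J] [Fintype 𝒜] [DecidableEq 𝒜]
      (E : Type) [NormedAddCommGroup E] [NormedSpace ℝ E] (D : ℝ) (_ : 0 ≤ D)
      (F : (J → ℤ) → E)
      (_ : ∀ z z' : J → ℤ, ‖F z - F z'‖ ≤ D * nrm p (fun j => ((z j - z' j : ℤ) : ℝ)))
      (P L : ℕ) (_ : 0 < P) (_ : 0 < L) (ω : J → 𝒜 → ℤˣ) (v : 𝒜 → ℤ),
      ‖avg (fun ε : Fin L → 𝒜 → ℤˣ => boxAvg P F (iota ω (v + Ysum ε))) - F (iota ω v)‖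
        ≤ D * P + D * K * √(Fintype.card 𝒜 * L) := by
  have hp0 : 0 < p := by linarith
  obtain ⟨K, hK0, hK⟩ := khinchine hp0
  refine ⟨K ^ (1 / p), by positivity, ?_⟩
  intro J 𝒜 _ _ _ _ _ E _ _ D hD F hF P L hP hL ω v
  have e1 : avg (fun ε : Fin L → 𝒜 → ℤˣ => boxAvg P F (iota ω (v + Ysum ε))) - F (iota ω v)
      = avg (fun ε : Fin L → 𝒜 → ℤˣ => boxAvg P F (iota ω (v + Ysum ε)) - F (iota ω v)) := by
    rw [avg_sub', avg_const']
  rw [e1]
  refine (norm_avg_le _).trans ?_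
  have e2 : ∀ ε : Fin L → 𝒜 → ℤˣ, ‖boxAvg P F (iota ω (v + Ysum ε)) - F (iota ω v)‖
      ≤ D * P + D * nrm p (fun j => ((∑ α, ((ω j α : ℤ) * Ysum ε α) : ℤ) : ℝ)) := by
    intro ε
    have h1 : boxAvg P F (iota ω (v + Ysum ε)) - F (iota ω v)
        = (boxAvg P F (iota ω (v + Ysum ε)) - F (iota ω (v + Ysum ε)))
          + (F (iota ω (v + Ysum ε)) - F (iota ω v)) := by abel
    rw [h1]
    refine (norm_add_le _ _).trans (add_le_add (box_cost hp hD F hF P hP _) ?_)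
    refine (hF _ _).trans (le_of_eq ?_)
    congr 2
    funext j
    congr 1
    unfold iota
    rw [← Finset.sum_sub_distrib]
    refine Finset.sum_congr rfl fun α _ => ?_
    rw [Pi.add_apply]; ring
  refine (avg_mono' e2).trans ?_
  rw [avg_add', avg_const', avg_const_mul]
  refine add_le_add le_rfl ?_
  rw [mul_assoc]
  refine mul_le_mul_of_nonneg_left ?_ hD
  refine (avg_le_rpow hp _ fun ε => nrm_nonneg _ _).trans ?_
  have hN : (0:ℝ) < Fintype.card J := by exact_mod_cast Fintype.card_pos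
  have hs0 : 0 ≤ √((Fintype.card 𝒜 : ℝ) * L) := Real.sqrt_nonneg _
  have e3 : (avg fun ε : Fin L → 𝒜 → ℤˣ =>
      nrm p (fun j => ((∑ α, ((ω j α : ℤ) * Ysum ε α) : ℤ) : ℝ)) ^ p)
      ≤ K * (√(Fintype.card 𝒜 * L)) ^ p := by
    have h1 : ∀ ε : Fin L → 𝒜 → ℤˣ,
        nrm p (fun j => ((∑ α, ((ω j α : ℤ) * Ysum ε α) : ℤ) : ℝ)) ^ p
          = (Fintype.card J : ℝ)⁻¹ * ∑ j, |((∑ α, ((ω j α : ℤ) * Ysum ε α) : ℤ) : ℝ)| ^ p := by
      intro ε
      unfold nrm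
      rw [← Real.rpow_mul (by positivity), one_div_mul_cancel hp0.ne', Real.rpow_one]
    simp_rw [h1]
    rw [avg_const_mul, avg_sum']
    have h2 : ∑ j : J, avg (fun ε : Fin L → 𝒜 → ℤˣ =>
        |((∑ α, ((ω j α : ℤ) * Ysum ε α) : ℤ) : ℝ)| ^ p)
        ≤ ∑ _j : J, K * (√(Fintype.card 𝒜 * L)) ^ p :=
      Finset.sum_le_sum fun j _ => khin_Y hK 𝒜 L (ω j)
    rw [Finset.sum_const, Finset.card_univ, nsmul_eq_mul] at h2
    calc _ ≤ (Fintype.card J : ℝ)⁻¹ * (Fintype.card J * (K * (√(Fintype.card 𝒜 * L)) ^ p)) :=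
          mul_le_mul_of_nonneg_left h2 (by positivity)
      _ = _ := by field_simp
  refine (Real.rpow_le_rpow ?_ e3 (by positivity)).trans (le_of_eq ?_)
  · unfold avg
    rw [smul_eq_mul]
    refine mul_nonneg (by positivity) (Finset.sum_nonneg fun ε _ => ?_)
    exact Real.rpow_nonneg (nrm_nonneg _ _) _
  · rw [Real.mul_rpow hK0.le (by positivity), ← Real.rpow_mul hs0, mul_one_div_cancel hp0.ne',
      Real.rpow_one]

end Pool.Agent.H67.NP
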