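import Pool.Agent.H67.NP.ICore
import Pool.Agent.H67.NP.Smooth
import Pool.Agent.H67.NP.BasePt
import Pool.Agent.H67.NP.Direct
import Pool.Agent.H67.NP.Update

/-!
# Theorem I, (L3) (§3, 3.5-3.7)

`Ξ = XiA P L F ω` is `q`-periodic (`XiA_periodic`), `‖Ξ v - F(iota ω v)‖ ≤ c0` (`hsm`).
`V x α = ⌊Λ W x α⌋`, `t_j = H ι(V x)_j`, `r x = (max 0 (N⁻¹ ∑_j |t_j|^p (1-2|t_j|/q)))^(1/p)`; by
`hlow`, `r x ≤ ‖F(iota ω (v + H V x)) - F(iota ω v)‖` for all `v`, so with `m x = max (r x - 2c0) 0`: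
`m x ≤ ‖Ξ(v+H V x) - Ξ v‖`.  `exists_base` gives `v₀` with
`(∫ (m/H)^p)^(1/p) ≤ (∫ ‖Ξ(v₀+V x)-Ξ v₀‖^p)^(1/p)`; `r ≤ m + 2c0`, `direct_lower` and `hc0` give
`(∫ m^p)^(1/p) ≥ HΛ√n (3g₀/4 - g₀/16)`.  `XiA_linearise`, `norm_tau_le`:
`‖Ξ(v₀+V x)-Ξ v₀‖ ≤ Λ ‖∑_α W_α tau_α‖ + 2 D n + (2D/P)(N ∑_α|V_α|)²` (rounding `|V_α - ΛW_α| ≤ 1`);
Minkowski in `L_p(Pm)`, `hV`, `hΛ2`: `(∫ ‖∑_α W_α tau_α‖^p)^(1/p) ≥ √n (11/16-1/16-1/16) g₀ ≥ √n g₀/2`.
Finally `∑_j Gb_j(s) zW ω j w = n^(-1/2) (∑_α w_α tau_α)(s)` and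
`∑' s, ∫ |(∑_α W_α tau_α)(s)|^p = ∫ ‖∑_α W_α tau_α‖^p` (`lintegral_tsum`, `lp_enorm_rpow`).
-/

set_option autoImplicit false

open MeasureTheory ProbabilityTheory Finset BigOperators
open scoped ENNReal NNReal

namespace Pool.Agent.H67.NP

/-- Minkowski with a constant. -/
theorem il3_mink {Ω : Type} [MeasurableSpace Ω] (Pm : Measure Ω) [IsProbabilityMeasure Pm]
    {s : ℝ} (hs : 1 ≤ s) (f g : Ω → ℝ≥0∞) (hg : Measurable g) (c : ℝ≥0∞)
    (h : ∀ x, f x ≤ g x + c) :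
    (∫⁻ x, f x ^ s ∂Pm) ^ (1 / s) ≤ (∫⁻ x, g x ^ s ∂Pm) ^ (1 / s) + c := by
  have hs0 : 0 < s := by linarith
  calc (∫⁻ x, f x ^ s ∂Pm) ^ (1 / s)
      ≤ (∫⁻ x, (g + fun _ => c : Ω → ℝ≥0∞) x ^ s ∂Pm) ^ (1 / s) := by
        refine ENNReal.rpow_le_rpow (lintegral_mono fun x => ?_) (by positivity)
        exact ENNReal.rpow_le_rpow (h x) hs0.le
    _ ≤ (∫⁻ x, g x ^ s ∂Pm) ^ (1 / s) + (∫⁻ _x, c ^ s ∂Pm) ^ (1 / s) :=
        ENNReal.lintegral_Lp_add_le hg.aemeasurable aemeasurable_const hs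
    _ = _ := by
        rw [lintegral_const, measure_univ, mul_one, ← ENNReal.rpow_mul,
          mul_one_div_cancel hs0.ne', ENNReal.rpow_one]

theorem il3_const_mul {Ω : Type} [MeasurableSpace Ω] (Pm : Measure Ω)
    {s : ℝ} (hs : 1 ≤ s) (f : Ω → ℝ≥0∞) (hf : Measurable f) (c : ℝ≥0∞) :
    (∫⁻ x, (c * f x) ^ s ∂Pm) ^ (1 / s) = c * (∫⁻ x, f x ^ s ∂Pm) ^ (1 / s) := by
  have hs0 : 0 < s := by linarith
  have h1 : ∀ x, (c * f x) ^ s = c ^ s * f x ^ s := fun x =>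
    ENNReal.mul_rpow_of_nonneg _ _ hs0.le
  simp_rw [h1]
  rw [lintegral_const_mul _ (hf.pow_const s), ENNReal.mul_rpow_of_nonneg _ _ (by positivity),
    ← ENNReal.rpow_mul, mul_one_div_cancel hs0.ne', ENNReal.rpow_one]

theorem il3_iota_add {J 𝒜 : Type} [Fintype 𝒜] (ω : J → 𝒜 → ℤˣ) (v w : 𝒜 → ℤ) (H : ℕ) (j : J) :
    iota ω (v + (H : ℤ) • w) j - iota ω v j = (H : ℤ) * iota ω w j := by
  unfold iota
  rw [← Finset.sum_sub_distrib, Finset.mul_sum]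
  refine Finset.sum_congr rfl fun α _ => ?_
  simp only [Pi.add_apply, Pi.smul_apply, smul_eq_mul]
  ring

/-- Coordinates of the combination of the gradients. -/
theorem il3_coord (p : ℝ≥0∞) [Fact (1 ≤ p)]
    {J 𝒜 : Type} [Fintype J] [DecidableEq J] [Fintype 𝒜] [DecidableEq 𝒜]
    (P L : ℕ) (F : (J → ℤ) → lp (fun _ : ℕ => ℝ) p) (ω : J → 𝒜 → ℤˣ) (v₀ : 𝒜 → ℤ)
    (w : 𝒜 → ℝ) (s : ℕ) :
    ∑ j, (Gb P L F ω v₀ j : lp (fun _ : ℕ => ℝ) p) s * zW ω j w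
      = (√(Fintype.card 𝒜 : ℝ))⁻¹ * (∑ α, w α • tau P L F ω v₀ α : lp (fun _ : ℕ => ℝ) p) s := by
  have h1 : (∑ α, w α • tau P L F ω v₀ α : lp (fun _ : ℕ => ℝ) p) s
      = ∑ α, w α * ∑ j, ((ω j α : ℤ) : ℝ) * (Gb P L F ω v₀ j : lp (fun _ : ℕ => ℝ) p) s := by
    rw [lp.coeFn_sum, Finset.sum_apply]
    refine Finset.sum_congr rfl fun α _ => ?_
    rw [lp.coeFn_smul, Pi.smul_apply, smul_eq_mul]
    congr 1
    unfold tau
    rw [lp.coeFn_sum, Finset.sum_apply]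
    refine Finset.sum_congr rfl fun j _ => ?_
    rw [lp.coeFn_smul, Pi.smul_apply, smul_eq_mul]
  rw [h1]
  unfold zW
  simp_rw [Finset.mul_sum]
  rw [Finset.sum_comm]
  refine Finset.sum_congr rfl fun α _ => Finset.sum_congr rfl fun j _ => ?_
  ring

theorem L3_bound (p : ℝ≥0∞) [Fact (1 ≤ p)] (hp : p ≠ ⊤) {D g₀ M₂ c0 Vb Λ : ℝ} (hD : 0 ≤ D)
    (hg₀ : 0 < g₀) (hM₂ : 0 ≤ M₂)
    {J 𝒜 : Type} [Fintype J] [DecidableEq J] [Nonempty J] [Fintype 𝒜] [DecidableEq 𝒜]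
    [Nonempty 𝒜] {Ω : Type} [MeasurableSpace Ω] (Pm : Measure Ω) [IsProbabilityMeasure Pm]
    (W : Ω → 𝒜 → ℝ) (hW : Measurable W)
    (P L H q : ℕ) [NeZero q] (hP0 : 0 < P) (hL : 0 < L) (hH : 0 < H)
    (hP : 8 * (Fintype.card J : ℝ) ^ 2 * (4 * Fintype.card J + 1) ^ 2 ≤ P)
    (hΛ : 8 * √(Fintype.card 𝒜 : ℝ) / g₀ ≤ Λ)
    (hΛ2 : 2 * D * Fintype.card 𝒜 ≤ Λ * √(Fintype.card 𝒜 : ℝ) * g₀ / 16)
    (hq : nuC p.toReal g₀ M₂ * (H * Λ * √(Fintype.card 𝒜 : ℝ)) ≤ q)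
    (hc00 : 0 ≤ c0) (hc0 : 2 * c0 ≤ H * Λ * √(Fintype.card 𝒜 : ℝ) * g₀ / 16)
    (hVb0 : 0 ≤ Vb)
    (hVb : ∫⁻ x, ENNReal.ofReal (∑ α, |((⌊Λ * W x α⌋ : ℤ) : ℝ)|) ^ (2 * p.toReal) ∂Pm
      ≤ ENNReal.ofReal (Vb ^ (2 * p.toReal)))
    (hPV : 2 * D / P * (Fintype.card J * Vb) ^ 2 ≤ Λ * √(Fintype.card 𝒜 : ℝ) * g₀ / 16)
    (ω : J → 𝒜 → ℤˣ)
    (hZ1 : ∀ j, ENNReal.ofReal (g₀ ^ p.toReal) ≤ ∫⁻ x, ‖zW ω j (W x)‖ₑ ^ p.toReal ∂Pm)
    (hZ2 : ∀ j, ∫⁻ x, ‖zW ω j (W x)‖ₑ ^ (p.toReal + 1) ∂Pm ≤ ENNReal.ofReal M₂)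
    (F : (J → ℤ) → lp (fun _ : ℕ => ℝ) p)
    (hper : ∀ z w : J → ℤ, F (z + (q : ℤ) • w) = F z)
    (hF : ∀ z z' : J → ℤ, ‖F z - F z'‖ ≤ D * nrm p.toReal (fun j => ((z j - z' j : ℤ) : ℝ)))
    (hlow : ∀ z z' : J → ℤ, (Fintype.card J : ℝ)⁻¹ * ∑ j, |((z j - z' j : ℤ) : ℝ)| ^ p.toReal
          * (1 - 2 * |((z j - z' j : ℤ) : ℝ)| / q) ≤ ‖F z - F z'‖ ^ p.toReal)
    (hsm : ∀ v : 𝒜 → ℤ, ‖XiA P L F ω v - F (iota ω v)‖ ≤ c0) :
    ∃ v₀ : 𝒜 → ℤ, ENNReal.ofReal (g₀ / 2) ≤ NN p.toReal Pm (fun s x =>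
        ‖∑ j, (Gb P L F ω v₀ j : lp (fun _ : ℕ => ℝ) p) s * zW ω j (W x)‖ₑ) := by
  have hp1 : 1 ≤ p.toReal := by
    have h := ENNReal.toReal_mono hp (Fact.out : 1 ≤ p)
    simpa using h
  set s : ℝ := p.toReal with hs
  have hs0 : 0 < s := by linarith
  have hn : (0 : ℝ) < Fintype.card 𝒜 := by exact_mod_cast Fintype.card_pos
  have hsq : 0 < √(Fintype.card 𝒜 : ℝ) := Real.sqrt_pos.mpr hn
  have hΛ0 : 0 < Λ := lt_of_lt_of_le (by positivity) hΛ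
  have hHr : (0 : ℝ) < H := by exact_mod_cast hH
  have hPr : (0 : ℝ) < P := by exact_mod_cast hP0
  set K : ℝ := Λ * √(Fintype.card 𝒜 : ℝ) with hK
  have hK0 : 0 < K := by positivity
  set V : Ω → 𝒜 → ℤ := fun x α => ⌊Λ * W x α⌋ with hVdef
  have hV : Measurable V := by
    refine measurable_pi_lambda _ fun α => ?_
    exact (((measurable_pi_apply α).comp hW).const_mul Λ).floor
  -- the lower bound for the step
  set ρ : (𝒜 → ℤ) → ℝ := fun w => (max 0 ((Fintype.card J : ℝ)⁻¹ * ∑ j,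
    |(((H : ℤ) * iota ω w j : ℤ) : ℝ)| ^ s
      * (1 - 2 * |(((H : ℤ) * iota ω w j : ℤ) : ℝ)| / q))) ^ (1 / s) with hρ
  have hρ0 : ∀ w, 0 ≤ ρ w := fun w => Real.rpow_nonneg (le_max_left _ _) _
  have hρpow : ∀ w, ρ w ^ s = max 0 ((Fintype.card J : ℝ)⁻¹ * ∑ j,
    |(((H : ℤ) * iota ω w j : ℤ) : ℝ)| ^ s
      * (1 - 2 * |(((H : ℤ) * iota ω w j : ℤ) : ℝ)| / q)) := by
    intro w
    rw [hρ]
    simp only
    rw [← Real.rpow_mul (le_max_left _ _), one_div_mul_cancel hs0.ne', Real.rpow_one]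
  have hρF : ∀ w v, ρ w ≤ ‖F (iota ω (v + (H : ℤ) • w)) - F (iota ω v)‖ := by
    intro w v
    have h1 := hlow (iota ω (v + (H : ℤ) • w)) (iota ω v)
    simp_rw [il3_iota_add] at h1
    have h2 : ρ w ^ s ≤ ‖F (iota ω (v + (H : ℤ) • w)) - F (iota ω v)‖ ^ s := by
      rw [hρpow]
      exact max_le (by positivity) h1
    exact (Real.rpow_le_rpow_iff (hρ0 w) (norm_nonneg _) hs0).mp h2
  have hdl := direct_lower hp1 hg₀ hM₂ Pm W hW ω hZ1 hZ2 Λ hΛ H q hH (NeZero.pos q) hq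
    (fun x => ρ (V x)) (fun x => hρ0 _) (fun x => by
      rw [hρpow]
      exact le_max_right _ _)
  -- the base point
  set m : Ω → ℝ := fun x => max (ρ (V x) - 2 * c0) 0 with hm
  have hmeasm : Measurable m := by
    have h1 : Measurable fun w : 𝒜 → ℤ => max (ρ w - 2 * c0) 0 := measurable_of_countable _
    exact h1.comp hV
  have hmΞ : ∀ x v, m x ≤ ‖XiA P L F ω (v + (H : ℤ) • V x) - XiA P L F ω v‖ := by
    intro x v
    refine max_le ?_ (norm_nonneg _)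
    have h1 := hρF (V x) v
    have h2 := hsm (v + (H : ℤ) • V x)
    have h3 := hsm v
    have h4 : ‖F (iota ω (v + (H : ℤ) • V x)) - F (iota ω v)‖
        ≤ ‖XiA P L F ω (v + (H : ℤ) • V x) - XiA P L F ω v‖ + c0 + c0 := by
      have e : F (iota ω (v + (H : ℤ) • V x)) - F (iota ω v)
          = (XiA P L F ω (v + (H : ℤ) • V x) - XiA P L F ω v)
            - (XiA P L F ω (v + (H : ℤ) • V x) - F (iota ω (v + (H : ℤ) • V x)))
            + (XiA P L F ω v - F (iota ω v)) := by abel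
      rw [e]
      refine (norm_add_le _ _).trans ?_
      refine add_le_add ((norm_sub_le _ _).trans ?_) h3
      exact add_le_add le_rfl h2
    linarith
  obtain ⟨v₀, hv₀⟩ := exists_base q (XiA P L F ω) (XiA_periodic q F hper P L ω) hp1 H hH Pm V hV m
    (fun x => le_max_right _ _) hmΞ
  refine ⟨v₀, ?_⟩
  -- step A : lower bound for the increment
  have hA : ENNReal.ofReal (K * (11 / 16 * g₀))
      ≤ (∫⁻ x, ‖XiA P L F ω (v₀ + V x) - XiA P L F ω v₀‖ₑ ^ s ∂Pm) ^ (1 / s) := by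
    have h1 := il3_mink Pm hp1 (fun x => ENNReal.ofReal (ρ (V x)))
      (fun x => ENNReal.ofReal (m x)) hmeasm.ennreal_ofReal (ENNReal.ofReal (2 * c0)) (by
        intro x
        rw [← ENNReal.ofReal_add (le_max_right _ _) (by positivity)]
        refine ENNReal.ofReal_le_ofReal ?_
        have h9 : ρ (V x) - 2 * c0 ≤ m x := le_max_left (ρ (V x) - 2 * c0) 0
        linarith)
    have h2 := hdl.trans h1
    have h3 : ENNReal.ofReal (H * (K * (11 / 16 * g₀)))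
        ≤ (∫⁻ x, ENNReal.ofReal (m x) ^ s ∂Pm) ^ (1 / s) := by
      have h4 : ENNReal.ofReal (H * (K * (11 / 16 * g₀))) + ENNReal.ofReal (2 * c0)
          ≤ (∫⁻ x, ENNReal.ofReal (m x) ^ s ∂Pm) ^ (1 / s) + ENNReal.ofReal (2 * c0) := by
        refine le_trans ?_ h2
        rw [← ENNReal.ofReal_add (by positivity) (by positivity)]
        refine ENNReal.ofReal_le_ofReal ?_
        have e1 : H * Λ * √(Fintype.card 𝒜 : ℝ) * g₀ / 16 = H * (K * (1 / 16 * g₀)) := by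
          rw [hK]; ring
        have e2 : H * Λ * √(Fintype.card 𝒜 : ℝ) * (3 * g₀ / 4) = H * (K * (3 / 4 * g₀)) := by
          rw [hK]; ring
        rw [e1] at hc0
        rw [e2]
        have e3 : (H : ℝ) * (K * (11 / 16 * g₀)) + H * (K * (1 / 16 * g₀))
          = H * (K * (3 / 4 * g₀)) := by ring
        linarith
      exact (ENNReal.add_le_add_iff_right ENNReal.ofReal_ne_top).mp h4
    have h5 : (∫⁻ x, ENNReal.ofReal (m x) ^ s ∂Pm) ^ (1 / s)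
        = ENNReal.ofReal H * (∫⁻ x, ENNReal.ofReal (m x / H) ^ s ∂Pm) ^ (1 / s) := by
      rw [← il3_const_mul Pm hp1 _ ((hmeasm.div_const _).ennreal_ofReal)]
      congr 1
      refine lintegral_congr fun x => ?_
      rw [← ENNReal.ofReal_mul hHr.le]
      congr 2
      field_simp
    rw [h5, ENNReal.ofReal_mul hHr.le] at h3
    have h6 : ENNReal.ofReal (K * (11 / 16 * g₀))
        ≤ (∫⁻ x, ENNReal.ofReal (m x / H) ^ s ∂Pm) ^ (1 / s) :=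
      (ENNReal.mul_le_mul_iff_right (by simpa using hH.ne') ENNReal.ofReal_ne_top).mp h3
    exact h6.trans (ENNReal.rpow_le_rpow hv₀ (by positivity))
  -- step B : linearisation
  set Φ : (𝒜 → ℝ) → lp (fun _ : ℕ => ℝ) p := fun w => ∑ α, w α • tau P L F ω v₀ α with hΦ
  have hΦc : Continuous Φ := by
    rw [hΦ]
    fun_prop
  have hΦm : Measurable fun x => ‖Φ (W x)‖ₑ := by
    have h1 : Measurable fun w : 𝒜 → ℝ => ‖Φ w‖ₑ := hΦc.enorm.measurable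
    exact h1.comp hW
  have hlin : ∀ x, ‖XiA P L F ω (v₀ + V x) - XiA P L F ω v₀‖
      ≤ Λ * ‖Φ (W x)‖ + 2 * D / P * (Fintype.card J * ∑ α, |((V x α : ℤ) : ℝ)|) ^ 2
        + 2 * D * Fintype.card 𝒜 := by
    intro x
    have h1 := XiA_linearise hp1 hD F hF P L hP0 hL ω v₀ (V x)
    have h2 : ‖(∑ α, ((V x α : ℤ) : ℝ) • tau P L F ω v₀ α) - Λ • Φ (W x)‖
        ≤ 2 * D * Fintype.card 𝒜 := by
      have e : (∑ α, ((V x α : ℤ) : ℝ) • tau P L F ω v₀ α) - Λ • Φ (W x)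
          = ∑ α, (((V x α : ℤ) : ℝ) - Λ * W x α) • tau P L F ω v₀ α := by
        rw [hΦ]
        simp only
        rw [Finset.smul_sum, ← Finset.sum_sub_distrib]
        refine Finset.sum_congr rfl fun α _ => ?_
        rw [smul_smul, sub_smul]
      rw [e]
      refine (norm_sum_le _ _).trans ?_
      have h3 : ∀ α ∈ (Finset.univ : Finset 𝒜),
          ‖(((V x α : ℤ) : ℝ) - Λ * W x α) • tau P L F ω v₀ α‖ ≤ 2 * D := by
        intro α _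
        rw [norm_smul, Real.norm_eq_abs]
        have h4 : |((V x α : ℤ) : ℝ) - Λ * W x α| ≤ 1 := by
          rw [abs_le]
          have h5 := Int.floor_le (Λ * W x α)
          have h6 := Int.lt_floor_add_one (Λ * W x α)
          simp only [hVdef]
          constructor <;> linarith
        have h7 := norm_tau_le hp1 hD F hF P L hP hL ω v₀ α
        calc _ ≤ 1 * (2 * D) := mul_le_mul h4 h7 (norm_nonneg _) (by norm_num)
          _ = _ := one_mul _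
      calc _ ≤ ∑ _α : 𝒜, 2 * D := Finset.sum_le_sum h3
        _ = _ := by
          rw [Finset.sum_const, Finset.card_univ, nsmul_eq_mul]; ring
    have e : XiA P L F ω (v₀ + V x) - XiA P L F ω v₀
        = (Λ • Φ (W x)) + (XiA P L F ω (v₀ + V x) - XiA P L F ω v₀
            - ∑ α, ((V x α : ℤ) : ℝ) • tau P L F ω v₀ α)
          + ((∑ α, ((V x α : ℤ) : ℝ) • tau P L F ω v₀ α) - Λ • Φ (W x)) := by abel
    rw [e]
    refine (norm_add_le _ _).trans (add_le_add ((norm_add_le _ _).trans ?_) h2)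
    refine add_le_add ?_ h1
    rw [norm_smul, Real.norm_eq_abs, abs_of_pos hΛ0]
  have hB : (∫⁻ x, ‖XiA P L F ω (v₀ + V x) - XiA P L F ω v₀‖ₑ ^ s ∂Pm) ^ (1 / s)
      ≤ ENNReal.ofReal Λ * (∫⁻ x, ‖Φ (W x)‖ₑ ^ s ∂Pm) ^ (1 / s)
        + ENNReal.ofReal (K * g₀ / 16) + ENNReal.ofReal (K * g₀ / 16) := by
    set g2 : Ω → ℝ≥0∞ := fun x => ENNReal.ofReal (2 * D / P * (Fintype.card J : ℝ) ^ 2)
      * ENNReal.ofReal (∑ α, |((V x α : ℤ) : ℝ)|) ^ (2 : ℝ) with hg2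
    have hsumm : Measurable fun x => ENNReal.ofReal (∑ α, |((V x α : ℤ) : ℝ)|) := by
      have h1 : Measurable fun w : 𝒜 → ℤ => ENNReal.ofReal (∑ α, |((w α : ℤ) : ℝ)|) :=
        measurable_of_countable _
      exact h1.comp hV
    have hg2m : Measurable g2 := (hsumm.pow_const _).const_mul _
    have hsum0 : ∀ x, 0 ≤ ∑ α, |((V x α : ℤ) : ℝ)| := fun x =>
      Finset.sum_nonneg fun _ _ => abs_nonneg _
    have h1 := il3_mink Pm hp1 (fun x => ‖XiA P L F ω (v₀ + V x) - XiA P L F ω v₀‖ₑ)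
      ((fun x => ENNReal.ofReal Λ * ‖Φ (W x)‖ₑ) + g2) ((hΦm.const_mul _).add hg2m)
      (ENNReal.ofReal (2 * D * Fintype.card 𝒜)) (by
        intro x
        rw [← ofReal_norm, Pi.add_apply, ← ofReal_norm, ← ENNReal.ofReal_mul hΛ0.le, hg2]
        simp only
        rw [ENNReal.ofReal_rpow_of_nonneg (hsum0 x) (by norm_num),
          ← ENNReal.ofReal_mul (by positivity), ← ENNReal.ofReal_add (by positivity)
          (by positivity), ← ENNReal.ofReal_add (by positivity) (by positivity)]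
        refine ENNReal.ofReal_le_ofReal ((hlin x).trans (le_of_eq ?_))
        rw [Real.rpow_two]
        ring)
    have h2 := ENNReal.lintegral_Lp_add_le (μ := Pm) (hΦm.const_mul (ENNReal.ofReal Λ)).aemeasurable
      hg2m.aemeasurable hp1
    rw [il3_const_mul Pm hp1 _ hΦm] at h2
    have h3 : (∫⁻ x, g2 x ^ s ∂Pm) ^ (1 / s) ≤ ENNReal.ofReal (K * g₀ / 16) := by
      rw [hg2, il3_const_mul Pm hp1 _ (hsumm.pow_const _)]
      have h4 : (∫⁻ x, (ENNReal.ofReal (∑ α, |((V x α : ℤ) : ℝ)|) ^ (2 : ℝ)) ^ s ∂Pm) ^ (1 / s)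
          ≤ ENNReal.ofReal (Vb ^ 2) := by
        have h5 : ∀ x, (ENNReal.ofReal (∑ α, |((V x α : ℤ) : ℝ)|) ^ (2 : ℝ)) ^ s
            = ENNReal.ofReal (∑ α, |((V x α : ℤ) : ℝ)|) ^ (2 * s) := by
          intro x
          rw [← ENNReal.rpow_mul]
        simp_rw [h5]
        refine (ENNReal.rpow_le_rpow hVb (by positivity)).trans (le_of_eq ?_)
        rw [ENNReal.ofReal_rpow_of_nonneg (by positivity) (by positivity),
          ← Real.rpow_mul hVb0]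
        congr 1
        rw [← Real.rpow_two]
        congr 1
        field_simp
      calc _ ≤ ENNReal.ofReal (2 * D / P * (Fintype.card J : ℝ) ^ 2) * ENNReal.ofReal (Vb ^ 2) := by
            gcongr
        _ = ENNReal.ofReal (2 * D / P * (Fintype.card J * Vb) ^ 2) := by
            rw [← ENNReal.ofReal_mul (by positivity)]
            congr 1
            ring
        _ ≤ _ := ENNReal.ofReal_le_ofReal hPV
    calc _ ≤ _ := h1
      _ ≤ (ENNReal.ofReal Λ * (∫⁻ x, ‖Φ (W x)‖ₑ ^ s ∂Pm) ^ (1 / s)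
          + (∫⁻ x, g2 x ^ s ∂Pm) ^ (1 / s)) + ENNReal.ofReal (2 * D * Fintype.card 𝒜) := by
          gcongr
      _ ≤ _ := by
          gcongr
  -- conclusion
  have hC : ENNReal.ofReal (√(Fintype.card 𝒜 : ℝ) * (9 / 16 * g₀))
      ≤ (∫⁻ x, ‖Φ (W x)‖ₑ ^ s ∂Pm) ^ (1 / s) := by
    have h1 := hA.trans hB
    have h2 : ENNReal.ofReal (Λ * (√(Fintype.card 𝒜 : ℝ) * (9 / 16 * g₀)))
        ≤ ENNReal.ofReal Λ * (∫⁻ x, ‖Φ (W x)‖ₑ ^ s ∂Pm) ^ (1 / s) := by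
      have h3 : (ENNReal.ofReal (Λ * (√(Fintype.card 𝒜 : ℝ) * (9 / 16 * g₀)))
          + ENNReal.ofReal (K * g₀ / 16)) + ENNReal.ofReal (K * g₀ / 16)
          ≤ (ENNReal.ofReal Λ * (∫⁻ x, ‖Φ (W x)‖ₑ ^ s ∂Pm) ^ (1 / s)
            + ENNReal.ofReal (K * g₀ / 16)) + ENNReal.ofReal (K * g₀ / 16) := by
        refine le_trans (le_of_eq ?_) h1
        rw [← ENNReal.ofReal_add (by positivity) (by positivity),
          ← ENNReal.ofReal_add (by positivity) (by positivity)]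
        congr 1
        rw [hK]; ring
      exact (ENNReal.add_le_add_iff_right ENNReal.ofReal_ne_top).mp
        ((ENNReal.add_le_add_iff_right ENNReal.ofReal_ne_top).mp h3)
    rw [ENNReal.ofReal_mul hΛ0.le] at h2
    exact (ENNReal.mul_le_mul_iff_right (by simpa using hΛ0) ENNReal.ofReal_ne_top).mp h2
  have hNN : NN s Pm (fun t x =>
        ‖∑ j, (Gb P L F ω v₀ j : lp (fun _ : ℕ => ℝ) p) t * zW ω j (W x)‖ₑ)
      = ENNReal.ofReal (√(Fintype.card 𝒜 : ℝ))⁻¹ * (∫⁻ x, ‖Φ (W x)‖ₑ ^ s ∂Pm) ^ (1 / s) := by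
    rw [← il3_const_mul Pm hp1 _ hΦm]
    unfold NN
    congr 1
    have h1 : ∀ t x, ‖∑ j, (Gb P L F ω v₀ j : lp (fun _ : ℕ => ℝ) p) t * zW ω j (W x)‖ₑ ^ s
        = ENNReal.ofReal (√(Fintype.card 𝒜 : ℝ))⁻¹ ^ s * ‖(Φ (W x) : lp (fun _ : ℕ => ℝ) p) t‖ₑ ^ s := by
      intro t x
      rw [il3_coord, enorm_mul, ENNReal.mul_rpow_of_nonneg _ _ hs0.le,
        Real.enorm_eq_ofReal (by positivity)]
    simp_rw [h1]
    rw [← lintegral_tsum]
    · refine lintegral_congr fun x => ?_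
      rw [ENNReal.tsum_mul_left, lp_enorm_rpow p hp, ENNReal.mul_rpow_of_nonneg _ _ hs0.le]
    · intro t
      refine Measurable.aemeasurable (Measurable.const_mul (Measurable.pow_const ?_ _) _)
      have h2 : Continuous fun w : 𝒜 → ℝ => (Φ w : lp (fun _ : ℕ => ℝ) p) t := by
        have h3 : ∀ w : 𝒜 → ℝ, (Φ w : lp (fun _ : ℕ => ℝ) p) t
            = ∑ α, w α * (tau P L F ω v₀ α : lp (fun _ : ℕ => ℝ) p) t := by
          intro w
          rw [hΦ]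
          simp only
          rw [lp.coeFn_sum, Finset.sum_apply]
          refine Finset.sum_congr rfl fun α _ => ?_
          rw [lp.coeFn_smul, Pi.smul_apply, smul_eq_mul]
        simp_rw [h3]
        fun_prop
      exact (h2.enorm.measurable).comp hW
  rw [hNN]
  calc ENNReal.ofReal (g₀ / 2)
      ≤ ENNReal.ofReal ((√(Fintype.card 𝒜 : ℝ))⁻¹ * (√(Fintype.card 𝒜 : ℝ) * (9 / 16 * g₀))) := by
        refine ENNReal.ofReal_le_ofReal ?_
        rw [← mul_assoc, inv_mul_cancel₀ hsq.ne', one_mul]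
        linarith
    _ = ENNReal.ofReal (√(Fintype.card 𝒜 : ℝ))⁻¹
        * ENNReal.ofReal (√(Fintype.card 𝒜 : ℝ) * (9 / 16 * g₀)) :=
        ENNReal.ofReal_mul (by positivity)
    _ ≤ _ := by gcongr

end Pool.Agent.H67.NP
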