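import Pool.Agent.H67.NP.IL2
import Pool.Agent.H67.NP.IL3

/-!
# Theorem I: choice of the parameters (§3, order of parameters)

Constants: `K'` from `bessel_lp`, `K''` from `smooth_cost`, `ν = nuC p g₀ M₂`,
`ε' = g₀/(5120 K' K'' D² ν)`.  Given `J, 𝒜, W` (`n = |𝒜|`, `N = |J|`):
* `Λ = max (8√n/g₀) (32 D √n/g₀)`; `Vb` with `(∫ (∑_α |⌊ΛW_α⌋|)^(2p))^(1/(2p)) ≤ Vb` (finite by
  `hmom`; Minkowski / `ENNReal.lintegral_Lp_add_le`, `|⌊ΛW⌋| ≤ Λ|W| + 1`);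
* `P` large: `8N²(4N+1)² ≤ P`, `8 n D N²/P ≤ √n/40`, `(2D/P)(N Vb)² ≤ Λ√n g₀/16`, `0 < P`;
* `H` large (see below) with `ν H Λ √n ≥ 1`, `q = ⌈ν H Λ √n⌉`, so `ν H Λ√n ≤ q ≤ 2 ν H Λ√n`,
  `r = ε' q`, `L = ⌈(40 K' (D r + 2 D P))²/n⌉` (so `0 < L`, `K'/√L (D r + 2DP) ≤ √n/40` and
  `√(nL) ≤ 40 K' (D r + 2DP) + √n`);
* `c0 = D P + D K'' √(n L)`:  `2c0 ≤ 2DP + 2DK''(40K'(D r + 2DP) + √n)`; the term
  `80 D² K' K'' r ≤ 80 D² K'K'' ε' 2νHΛ√n = HΛ√n g₀/32` and the rest is a constant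
  `≤ HΛ√n g₀/32` for large `H`.
Then `L1bd_Gb` (twice), `L2_bound`, `L3_bound`, with `G j s = Gb P L F ω v₀ j s`.
-/

set_option autoImplicit false

open MeasureTheory ProbabilityTheory Finset BigOperators
open scoped ENNReal NNReal

namespace Pool.Agent.H67.NP

/-- the bound `Vb` exists -/
theorem thmI_Vb {𝒜 : Type} [Fintype 𝒜] {Ω : Type} [MeasurableSpace Ω] (Pm : Measure Ω)
    [IsProbabilityMeasure Pm] (W : Ω → 𝒜 → ℝ) (hW : Measurable W) {p Λ : ℝ} (hp : 1 ≤ p)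
    (hΛ : 0 ≤ Λ) (hmom : ∀ α, ∫⁻ x, ‖W x α‖ₑ ^ (2 * p) ∂Pm < ⊤) :
    ∃ Vb : ℝ, 0 ≤ Vb ∧ ∫⁻ x, ENNReal.ofReal (∑ α, |((⌊Λ * W x α⌋ : ℤ) : ℝ)|) ^ (2 * p) ∂Pm
      ≤ ENNReal.ofReal (Vb ^ (2 * p)) := by
  have hs : 1 ≤ 2 * p := by linarith
  have hs0 : 0 < 2 * p := by linarith
  have hpt : ∀ x, ENNReal.ofReal (∑ α, |((⌊Λ * W x α⌋ : ℤ) : ℝ)|) ^ (2 * p)
      ≤ (Fintype.card 𝒜 : ℝ≥0∞) ^ (2 * p - 1) * ∑ α, (2 : ℝ≥0∞) ^ (2 * p - 1) *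
        (ENNReal.ofReal Λ ^ (2 * p) * ‖W x α‖ₑ ^ (2 * p) + 1) := by
    intro x
    rw [ENNReal.ofReal_sum_of_nonneg fun α _ => abs_nonneg _]
    refine (ENNReal.rpow_sum_le_const_mul_sum_rpow Finset.univ _ hs).trans ?_
    rw [Finset.card_univ]
    refine mul_le_mul_right (Finset.sum_le_sum fun α _ => ?_) _
    have h1 : ENNReal.ofReal |((⌊Λ * W x α⌋ : ℤ) : ℝ)| ≤ ENNReal.ofReal Λ * ‖W x α‖ₑ + 1 := by
      rw [Real.enorm_eq_ofReal_abs, ← ENNReal.ofReal_mul hΛ, ← ENNReal.ofReal_one,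
        ← ENNReal.ofReal_add (mul_nonneg hΛ (abs_nonneg _)) zero_le_one]
      refine ENNReal.ofReal_le_ofReal ?_
      have h2 : Λ * |W x α| = |Λ * W x α| := by rw [abs_mul, abs_of_nonneg hΛ]
      rw [h2]
      have h3 := Int.floor_le (Λ * W x α)
      have h4 := Int.lt_floor_add_one (Λ * W x α)
      rw [abs_le]
      constructor
      · have := neg_abs_le (Λ * W x α)
        linarith
      · have := le_abs_self (Λ * W x α)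
        linarith
    refine (ENNReal.rpow_le_rpow h1 hs0.le).trans ?_
    refine (ENNReal.rpow_add_le_mul_rpow_add_rpow _ _ hs).trans ?_
    rw [ENNReal.mul_rpow_of_nonneg _ _ hs0.le, ENNReal.one_rpow]
  have hWm : ∀ α, Measurable fun x => ‖W x α‖ₑ ^ (2 * p) := fun α =>
    ((measurable_pi_apply α).comp hW).enorm.pow_const _
  have hfin : ∫⁻ x, ENNReal.ofReal (∑ α, |((⌊Λ * W x α⌋ : ℤ) : ℝ)|) ^ (2 * p) ∂Pm ≠ ⊤ := by
    refine ne_top_of_le_ne_top ?_ (lintegral_mono hpt)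
    rw [lintegral_const_mul _ (Finset.measurable_fun_sum _ fun α _ =>
      (((hWm α).const_mul _).add_const _).const_mul _)]
    refine ENNReal.mul_ne_top (ENNReal.rpow_ne_top_of_nonneg (by linarith)
      (ENNReal.natCast_ne_top _)) ?_
    rw [lintegral_finsetSum _ fun α _ => (((hWm α).const_mul _).add_const _).const_mul _]
    refine (ENNReal.sum_lt_top.2 fun α _ => ?_).ne
    rw [lintegral_const_mul _ (((hWm α).const_mul _).add_const _),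
      lintegral_add_right _ measurable_const, lintegral_const_mul _ (hWm α), lintegral_const,
      measure_univ, mul_one]
    refine ENNReal.mul_lt_top (ENNReal.rpow_lt_top_of_nonneg (by linarith) ENNReal.ofNat_ne_top) ?_
    refine ENNReal.add_lt_top.2 ⟨ENNReal.mul_lt_top
      (ENNReal.rpow_lt_top_of_nonneg hs0.le ENNReal.ofReal_ne_top) (hmom α), ENNReal.one_lt_top⟩
  refine ⟨(∫⁻ x, ENNReal.ofReal (∑ α, |((⌊Λ * W x α⌋ : ℤ) : ℝ)|) ^ (2 * p) ∂Pm).toReal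
    ^ (1 / (2 * p)), Real.rpow_nonneg ENNReal.toReal_nonneg _, ?_⟩
  rw [← Real.rpow_mul ENNReal.toReal_nonneg, one_div_mul_cancel hs0.ne', Real.rpow_one,
    ENNReal.ofReal_toReal hfin]

/-- the arithmetic of the parameters -/
theorem thmI_params {D g₀ K₁ K₂ ν ε' n N Vb : ℝ} (hD : 1 ≤ D) (hg₀ : 0 < g₀) (hK₁ : 0 < K₁)
    (hK₂ : 0 < K₂) (hν : 0 < ν) (hε : ε' = g₀ / (5120 * K₁ * K₂ * D ^ 2 * ν)) (hn : 1 ≤ n)
    (hN : 1 ≤ N) (hVb : 0 ≤ Vb) (Λ : ℝ) (hΛ : Λ = 32 * D * √n / g₀) :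
    ∃ P H q L : ℕ, 0 < P ∧ 0 < H ∧ 0 < q ∧ 0 < L ∧
      8 * N ^ 2 * (4 * N + 1) ^ 2 ≤ P ∧
      8 * n * D * N ^ 2 / P ≤ √n / 40 ∧
      2 * D / P * (N * Vb) ^ 2 ≤ Λ * √n * g₀ / 16 ∧
      ν * (H * Λ * √n) ≤ q ∧
      K₁ / √(L : ℝ) * (D * (ε' * q) + 2 * D * P) ≤ √n / 40 ∧
      2 * (D * P + D * K₂ * √(n * L)) ≤ H * Λ * √n * g₀ / 16 := by
  have hD0 : 0 < D := by linarith
  have hn0 : 0 < n := by linarith
  have hsn : 0 < √n := Real.sqrt_pos.2 hn0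
  have hsq : √n * √n = n := Real.mul_self_sqrt hn0.le
  have hΛ0 : 0 < Λ := by rw [hΛ]; positivity
  have hε0 : 0 < ε' := by rw [hε]; positivity
  obtain ⟨P, hP⟩ := exists_nat_ge (8 * N ^ 2 * (4 * N + 1) ^ 2 + 8 * n * D * N ^ 2 * 40 / √n +
    2 * D * (N * Vb) ^ 2 * 16 / (Λ * √n * g₀) + 1)
  have hN0 : 0 < N := by linarith
  have t1 : 0 ≤ 8 * N ^ 2 * (4 * N + 1) ^ 2 := by positivity
  have t2 : 0 ≤ 8 * n * D * N ^ 2 * 40 / √n := by positivity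
  have t3 : 0 ≤ 2 * D * (N * Vb) ^ 2 * 16 / (Λ * √n * g₀) := by positivity
  have hP0 : (0 : ℝ) < P := by linarith
  have hP0' : 0 < P := by exact_mod_cast hP0
  have hP1 : 8 * N ^ 2 * (4 * N + 1) ^ 2 ≤ (P : ℝ) := by linarith
  have hP2 : 8 * n * D * N ^ 2 / P ≤ √n / 40 := by
    rw [div_le_iff₀ hP0]
    have : 8 * n * D * N ^ 2 * 40 / √n ≤ P := by linarith
    rw [div_le_iff₀ hsn] at this
    linarith
  have hP3 : 2 * D / P * (N * Vb) ^ 2 ≤ Λ * √n * g₀ / 16 := by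
    have h : 2 * D * (N * Vb) ^ 2 * 16 / (Λ * √n * g₀) ≤ P := by linarith
    rw [div_le_iff₀ (by positivity)] at h
    rw [div_mul_eq_mul_div, div_le_iff₀ hP0]
    linarith
  -- the constant part
  set B0 : ℝ := 2 * D * P + 160 * D ^ 2 * K₁ * K₂ * P + 2 * D * K₂ * √n with hB0
  have hB00 : 0 ≤ B0 := by positivity
  have hx0 : 0 < Λ * √n := by positivity
  obtain ⟨H, hH⟩ := exists_nat_ge (1 / (ν * (Λ * √n)) + B0 * 32 / (Λ * √n * g₀) + 1)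
  have u1 : 0 ≤ 1 / (ν * (Λ * √n)) := by positivity
  have u2 : 0 ≤ B0 * 32 / (Λ * √n * g₀) := by positivity
  have hH0 : (0 : ℝ) < H := by linarith
  have hH0' : 0 < H := by exact_mod_cast hH0
  set x : ℝ := H * Λ * √n with hx
  have hxpos : 0 < x := by positivity
  have hx1 : 1 ≤ ν * x := by
    have h : 1 / (ν * (Λ * √n)) ≤ H := by linarith
    rw [div_le_iff₀ (by positivity)] at h
    rw [hx]; linarith
  have hx2 : B0 ≤ x * g₀ / 32 := by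
    have h : B0 * 32 / (Λ * √n * g₀) ≤ H := by linarith
    rw [div_le_iff₀ (by positivity)] at h
    rw [hx]; linarith
  set q : ℕ := ⌈ν * x⌉₊ with hq
  have hq1 : ν * x ≤ q := Nat.le_ceil _
  have hq2 : (q : ℝ) ≤ 2 * (ν * x) := by
    have := (Nat.ceil_lt_add_one (by positivity : 0 ≤ ν * x)).le
    linarith
  have hq0 : (0 : ℝ) < q := by linarith
  have hq0' : 0 < q := by exact_mod_cast hq0
  set y : ℝ := D * (ε' * q) + 2 * D * P with hy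
  have hy0 : 0 < y := by positivity
  set L : ℕ := ⌈(40 * K₁ * y) ^ 2 / n⌉₊ with hL
  have hLpos' : 0 < L := Nat.ceil_pos.2 (by positivity)
  have hLpos : (0 : ℝ) < L := by exact_mod_cast hLpos'
  have hL1 : (40 * K₁ * y) ^ 2 / n ≤ L := Nat.le_ceil _
  have hL2 : (L : ℝ) ≤ (40 * K₁ * y) ^ 2 / n + 1 :=
    (Nat.ceil_lt_add_one (by positivity : 0 ≤ (40 * K₁ * y) ^ 2 / n)).le
  have hsL : 0 < √(L : ℝ) := Real.sqrt_pos.2 hLpos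
  have hLsqrt : 40 * K₁ * y ≤ √n * √(L : ℝ) := by
    rw [← Real.sqrt_mul hn0.le]
    refine Real.le_sqrt_of_sq_le ?_
    rw [div_le_iff₀ hn0] at hL1
    linarith
  have hnL : √(n * L) ≤ 40 * K₁ * y + √n := by
    refine Real.sqrt_le_iff.2 ⟨by positivity, ?_⟩
    have h1 : n * L ≤ (40 * K₁ * y) ^ 2 + n := by
      have := mul_le_mul_of_nonneg_left hL2 hn0.le
      have e : n * ((40 * K₁ * y) ^ 2 / n + 1) = (40 * K₁ * y) ^ 2 + n := by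
        field_simp
      linarith
    have h2 : 0 ≤ 2 * (40 * K₁ * y) * √n := by positivity
    have h3 : (40 * K₁ * y + √n) ^ 2 = (40 * K₁ * y) ^ 2 + 2 * (40 * K₁ * y) * √n + √n * √n := by
      ring
    rw [h3, hsq]
    linarith only [h1, h2]
  refine ⟨P, H, q, L, hP0', hH0', hq0', hLpos', hP1, hP2, hP3, hq1, ?_, ?_⟩
  · rw [div_mul_eq_mul_div, div_le_iff₀ hsL]
    have e1 : K₁ * y = (40 * K₁ * y) / 40 := by ring
    have e2 : √n / 40 * √(L : ℝ) = (√n * √(L : ℝ)) / 40 := by ring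
    rw [e1, e2]
    exact div_le_div_of_nonneg_right hLsqrt (by norm_num)
  · have h1 : 2 * (D * P + D * K₂ * √(n * L)) ≤ 2 * (D * P + D * K₂ * (40 * K₁ * y + √n)) := by
      have : D * K₂ * √(n * L) ≤ D * K₂ * (40 * K₁ * y + √n) :=
        mul_le_mul_of_nonneg_left hnL (by positivity)
      linarith
    have h2 : 2 * (D * P + D * K₂ * (40 * K₁ * y + √n)) =
        B0 + 80 * D ^ 2 * K₁ * K₂ * ε' * q := by
      rw [hB0, hy]; ring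
    have h3 : 80 * D ^ 2 * K₁ * K₂ * ε' * q ≤ x * g₀ / 32 := by
      calc 80 * D ^ 2 * K₁ * K₂ * ε' * q ≤ 80 * D ^ 2 * K₁ * K₂ * ε' * (2 * (ν * x)) :=
            mul_le_mul_of_nonneg_left hq2 (by positivity)
        _ = x * g₀ / 32 := by
            rw [hε]
            field_simp
            ring
    have h4 : H * Λ * √n * g₀ / 16 = x * g₀ / 32 + x * g₀ / 32 := by rw [hx]; ring
    rw [h4]
    linarith

theorem thmI (p : ℝ≥0∞) [Fact (1 ≤ p)] (hp1 : 1 < p) (hp : p ≠ ⊤) (D : ℝ) (hD : 1 ≤ D)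
    (g₀ M₂ : ℝ) (hg₀ : 0 < g₀) (hM₂ : 0 ≤ M₂) :
    ∃ ε' : ℝ, 0 < ε' ∧ ∀ (J 𝒜 : Type) [Fintype J] [DecidableEq J] [Nonempty J] [Fintype 𝒜]
      [DecidableEq 𝒜] [Nonempty 𝒜] (Ω : Type) [MeasurableSpace Ω] (Pm : Measure Ω)
      [IsProbabilityMeasure Pm] (W : Ω → 𝒜 → ℝ) (_ : Measurable W)
      (_ : ∀ α, ∫⁻ x, ‖W x α‖ₑ ^ (2 * p.toReal) ∂Pm < ⊤)
      (_ : ∀ T : 𝒜 → ℝ, ∫⁻ x, ‖dot T (W x)‖ₑ ^ p.toReal ∂Pm
        ≤ ENNReal.ofReal ((g₀ * l2 T) ^ p.toReal)),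
      ∃ (q : ℕ) (_ : NeZero q), ∀ (ω ω' : J → 𝒜 → ℤˣ)
        (_ : ∀ j, ENNReal.ofReal (g₀ ^ p.toReal) ≤ ∫⁻ x, ‖zW ω j (W x)‖ₑ ^ p.toReal ∂Pm)
        (_ : ∀ j, ∫⁻ x, ‖zW ω j (W x)‖ₑ ^ (p.toReal + 1) ∂Pm ≤ ENNReal.ofReal M₂)
        (F F' : (J → ℤ) → lp (fun _ : ℕ => ℝ) p)
        (_ : ∀ z w : J → ℤ, F (z + (q : ℤ) • w) = F z)
        (_ : ∀ z w : J → ℤ, F' (z + (q : ℤ) • w) = F' z)
        (_ : ∀ z z' : J → ℤ, ‖F z - F z'‖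
          ≤ D * nrm p.toReal (fun j => ((z j - z' j : ℤ) : ℝ)))
        (_ : ∀ z z' : J → ℤ, ‖F' z - F' z'‖
          ≤ D * nrm p.toReal (fun j => ((z j - z' j : ℤ) : ℝ)))
        (_ : ∀ z z' : J → ℤ, (Fintype.card J : ℝ)⁻¹ * ∑ j, |((z j - z' j : ℤ) : ℝ)| ^ p.toReal
          * (1 - 2 * |((z j - z' j : ℤ) : ℝ)| / q) ≤ ‖F z - F z'‖ ^ p.toReal)
        (_ : ∀ v : 𝒜 → ℤ, ‖F (iota ω v) - F' (iota ω' v)‖ ≤ D * (ε' * q)),
        ∃ G G' : J → ℕ → ℝ, L1bd p.toReal (2 * D) G ∧ L1bd p.toReal (2 * D) G' ∧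
          NN p.toReal Pm (fun s x => ‖∑ j, G j s * zW ω j (W x) - ∑ j, G' j s * zW ω' j (W x)‖ₑ)
            ≤ ENNReal.ofReal (g₀ / 20) ∧
          ENNReal.ofReal (g₀ / 2)
            ≤ NN p.toReal Pm (fun s x => ‖∑ j, G j s * zW ω j (W x)‖ₑ) := by
  have hr1 : 1 < p.toReal := by
    rw [← ENNReal.toReal_one]
    exact (ENNReal.toReal_lt_toReal ENNReal.one_ne_top hp).mpr hp1
  have hD0 : 0 ≤ D := by linarith
  obtain ⟨K₁, hK₁, hbes⟩ := bessel_lp p hp1 hp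
  obtain ⟨K₂, hK₂, hsmooth⟩ := smooth_cost hr1.le
  have hν : 0 < nuC p.toReal g₀ M₂ := nuC_pos hr1.le hg₀ hM₂
  have hDpos : 0 < D := by linarith
  refine ⟨g₀ / (5120 * K₁ * K₂ * D ^ 2 * nuC p.toReal g₀ M₂), by positivity, ?_⟩
  intro J 𝒜 _ _ _ _ _ _ Ω _ Pm _ W hW hmom hWK
  have hn : (1 : ℝ) ≤ Fintype.card 𝒜 := by exact_mod_cast Fintype.card_pos
  have hN : (1 : ℝ) ≤ Fintype.card J := by exact_mod_cast Fintype.card_pos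
  set Λ : ℝ := 32 * D * √(Fintype.card 𝒜 : ℝ) / g₀ with hΛ
  have hΛ0 : 0 ≤ Λ := by rw [hΛ]; positivity
  obtain ⟨Vb, hVb0, hVb⟩ := thmI_Vb Pm W hW hr1.le hΛ0 hmom
  obtain ⟨P, H, q, L, hP0, hH0, hq0, hL0, hP1, hP2, hP3, hq, hKL, hc0⟩ :=
    thmI_params hD hg₀ hK₁ hK₂ hν rfl hn hN hVb0 Λ hΛ
  have hne : NeZero q := ⟨hq0.ne'⟩
  refine ⟨q, hne, ?_⟩
  intro ω ω' hZ1 hZ2 F F' hper hper' hF hF' hlow hglue
  have hsqrt : √(Fintype.card 𝒜 : ℝ) * √(Fintype.card 𝒜 : ℝ) = Fintype.card 𝒜 :=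
    Real.mul_self_sqrt (by positivity)
  have hΛ1 : 8 * √(Fintype.card 𝒜 : ℝ) / g₀ ≤ Λ := by
    rw [hΛ]
    refine div_le_div_of_nonneg_right ?_ hg₀.le
    have : 0 ≤ √(Fintype.card 𝒜 : ℝ) := Real.sqrt_nonneg _
    nlinarith
  have hΛ2 : 2 * D * Fintype.card 𝒜 ≤ Λ * √(Fintype.card 𝒜 : ℝ) * g₀ / 16 := by
    have : Λ * √(Fintype.card 𝒜 : ℝ) * g₀ / 16
        = 2 * D * (√(Fintype.card 𝒜 : ℝ) * √(Fintype.card 𝒜 : ℝ)) := by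
      rw [hΛ]
      field_simp
      ring
    rw [this, hsqrt]
  obtain ⟨v₀, hv₀⟩ := L3_bound p hp hD0 hg₀ hM₂ Pm W hW P L H q hP0 hL0 hH0 hP1 hΛ1 hΛ2 hq
    (by positivity) hc0 hVb0 hVb hP3 ω hZ1 hZ2 F hper hF hlow
    (fun v => hsmooth J 𝒜 _ D hD0 F hF P L hP0 hL0 ω v)
  refine ⟨fun j s => (Gb P L F ω v₀ j : lp (fun _ : ℕ => ℝ) p) s,
    fun j s => (Gb P L F' ω' v₀ j : lp (fun _ : ℕ => ℝ) p) s,
    L1bd_Gb p hp hD0 F hF P L hP1 hL0 ω v₀, L1bd_Gb p hp hD0 F' hF' P L hP1 hL0 ω' v₀, ?_, hv₀⟩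
  exact L2_bound p hp hD0 hg₀ hK₁ (by positivity) hbes Pm W hW hWK P L hP0 hL0 hP2 hKL ω ω' F F'
    hF hF' hglue v₀

end Pool.Agent.H67.NP
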