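import Pool.Agent.H67.NP.Torus

/-!
# Isometric embedding of the torus into `ℓ_p`, and the gluing (§1, §2)

* `exists_torus_emb`: coordinates `(j,u) ∈ J × ZMod q` (transport to `ℕ` with `Fintype.equivFin`, and
  `lp.single`; compare `emb` in `Pool/Agent/H67/Glue.lean`):
  `E(z)_{(j,u)} = (N q)^(-1/p) |z_j - u|_q`;
  `‖E z - E z'‖^p = N⁻¹ ∑_j q⁻¹ ∑_u ||z_j-u| - |z'_j-u||^p = ρ(z-z')^p` after the substitution
  `u ↦ u + z'_j` and `|−u| = |u|`.
* `torus_reduction`: copy `reduction` of `Pool/Agent/H67/Glue.lean`: the piece is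
  `A = range E ⊆ ℓ_p`, the glued points are `E (modq q (iota ω v)) ∼ E (modq q (iota ω' v))`,
  `v : 𝒜 → ℤ` (`Metric.glueMetricApprox`), and for a hypothetical embedding `h` with scale `s` put
  `F z = s⁻¹ • h (inl (E (modq q z)))`, `F' z = s⁻¹ • h (inr (E (modq q z)))`.
  `ρ(modq (z-z')) ≤ nrm p (z-z')` by `kap_intCast_le`, lower bound by `le_kap`.
-/

set_option autoImplicit false

open MeasureTheory ProbabilityTheory Finset BigOperators
open scoped ENNReal NNReal

namespace Pool.Agent.H67.NP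

section aux

variable {J 𝒜 : Type} [Fintype J] [Fintype 𝒜]

private theorem iota_sub (ω : J → 𝒜 → ℤˣ) (v w : 𝒜 → ℤ) :
    iota ω v - iota ω w = iota ω (v - w) := by
  funext j
  simp only [iota, Pi.sub_apply]
  rw [← Finset.sum_sub_distrib]
  refine Finset.sum_congr rfl fun α _ => ?_
  ring

private theorem modq_sub (q : ℕ) (z w : J → ℤ) : modq q z - modq q w = modq q (z - w) := by
  funext j
  simp [modq]

private theorem modq_add_smul (q : ℕ) (z w : J → ℤ) : modq q (z + (q : ℤ) • w) = modq q z := by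
  funext j
  simp [modq]

private theorem rho_rpow {p : ℝ} (hp : 0 < p) (q : ℕ) [NeZero q] (z : J → ZMod q) :
    rho p q z ^ p = (Fintype.card J : ℝ)⁻¹ * ∑ j, kap p q (z j) := by
  unfold rho
  have h0 : 0 ≤ (Fintype.card J : ℝ)⁻¹ * ∑ j, kap p q (z j) :=
    mul_nonneg (by positivity) (Finset.sum_nonneg fun j _ => kap_nonneg p _)
  rw [← Real.rpow_mul h0, one_div_mul_cancel hp.ne', Real.rpow_one]

private theorem rho_nonneg (p : ℝ) (q : ℕ) [NeZero q] (z : J → ZMod q) : 0 ≤ rho p q z :=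
  Real.rpow_nonneg (mul_nonneg (by positivity) (Finset.sum_nonneg fun j _ => kap_nonneg p _)) _

private theorem rho_modq_le {p : ℝ} (hp : 0 < p) (q : ℕ) [NeZero q] (z : J → ℤ) :
    rho p q (modq q z) ≤ nrm p (fun j => (z j : ℝ)) := by
  unfold rho nrm
  refine Real.rpow_le_rpow (mul_nonneg (by positivity)
    (Finset.sum_nonneg fun j _ => kap_nonneg p _)) ?_ (by positivity)
  refine mul_le_mul_of_nonneg_left ?_ (by positivity)
  exact Finset.sum_le_sum fun j _ => kap_intCast_le hp (z j)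

private theorem sum_shift {q : ℕ} [NeZero q] (p : ℝ) (x y : ZMod q) :
    ∑ u : ZMod q, |cyc (x - u) - cyc (y - u)| ^ p = ∑ u : ZMod q, |cyc (x - y - u) - cyc u| ^ p := by
  rw [← Equiv.sum_comp (Equiv.addRight y) (fun u : ZMod q => |cyc (x - u) - cyc (y - u)| ^ p)]
  refine Finset.sum_congr rfl fun u _ => ?_
  have h1 : x - (Equiv.addRight y) u = x - y - u := by
    simp only [Equiv.coe_addRight]; ring
  have h2 : y - (Equiv.addRight y) u = -u := by
    simp only [Equiv.coe_addRight]; ring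
  rw [h1, h2, cyc_neg]

end aux

theorem exists_torus_emb (p : ℝ≥0∞) [Fact (1 ≤ p)] (hp : p ≠ ⊤) (q : ℕ) [NeZero q] (J : Type)
    [Fintype J] [DecidableEq J] [Nonempty J] :
    ∃ E : (J → ZMod q) → lp (fun _ : ℕ => ℝ) p, Function.Injective E ∧
      ∀ z z', ‖E z - E z'‖ = rho p.toReal q (z - z') := by
  have hp1 : 1 ≤ p.toReal := by
    have h1 : (1 : ℝ≥0∞) ≤ p := Fact.out
    have := ENNReal.toReal_mono hp h1
    simpa using this
  have hp0 : 0 < p.toReal := by linarith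
  let M := Fintype.card (J × ZMod q)
  let e : J × ZMod q ≃ Fin M := Fintype.equivFin _
  set a : ℝ := ((Fintype.card J : ℝ)⁻¹ * (q : ℝ)⁻¹) ^ (1 / p.toReal) with ha
  have hbase : 0 ≤ (Fintype.card J : ℝ)⁻¹ * (q : ℝ)⁻¹ := by positivity
  have ha0 : 0 ≤ a := Real.rpow_nonneg hbase _
  have hap : a ^ p.toReal = (Fintype.card J : ℝ)⁻¹ * (q : ℝ)⁻¹ := by
    rw [ha, ← Real.rpow_mul hbase, one_div_mul_cancel hp0.ne', Real.rpow_one]
  let g : (J → ZMod q) → ℕ → ℝ := fun z i =>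
    if h : i < M then a * cyc (z (e.symm ⟨i, h⟩).1 - (e.symm ⟨i, h⟩).2) else 0
  let E : (J → ZMod q) → lp (fun _ : ℕ => ℝ) p := fun z =>
    ∑ i ∈ Finset.range M, lp.single p i (g z i)
  have hE : ∀ z z', ‖E z - E z'‖ = rho p.toReal q (z - z') := by
    intro z z'
    have h1 : E z - E z' = ∑ i ∈ Finset.range M, lp.single p i (g z i - g z' i) := by
      simp only [E]
      rw [← Finset.sum_sub_distrib]
      refine Finset.sum_congr rfl fun i _ => ?_
      rw [← lp.single_sub]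
    have h2 : ‖E z - E z'‖ ^ p.toReal = rho p.toReal q (z - z') ^ p.toReal := by
      rw [h1, lp.norm_sum_single hp0 (E := fun _ : ℕ => ℝ) (fun i => g z i - g z' i),
        Finset.sum_range, rho_rpow hp0]
      have h3 : ∀ x : Fin M, ‖g z (x : ℕ) - g z' (x : ℕ)‖ ^ p.toReal =
          (Fintype.card J : ℝ)⁻¹ * (q : ℝ)⁻¹ *
            |cyc (z (e.symm x).1 - (e.symm x).2) - cyc (z' (e.symm x).1 - (e.symm x).2)| ^
              p.toReal := by
        intro x
        have hx : (x : ℕ) < M := x.2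
        simp only [g, hx, dif_pos, Fin.eta]
        rw [← mul_sub, Real.norm_eq_abs, abs_mul, abs_of_nonneg ha0,
          Real.mul_rpow ha0 (abs_nonneg _), hap]
      rw [Finset.sum_congr rfl fun x _ => h3 x]
      rw [← Finset.mul_sum, Equiv.sum_comp e.symm (fun y : J × ZMod q =>
        |cyc (z y.1 - y.2) - cyc (z' y.1 - y.2)| ^ p.toReal), Fintype.sum_prod_type, mul_assoc,
        Finset.mul_sum]
      congr 1
      refine Finset.sum_congr rfl fun j _ => ?_
      simp only [kap, Pi.sub_apply]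
      rw [sum_shift]
    exact (Real.rpow_left_inj (norm_nonneg _) (rho_nonneg _ _ _) hp0.ne').1 h2
  refine ⟨E, ?_, hE⟩
  intro z z' h
  have h1 := hE z z'
  rw [h, sub_self, norm_zero] at h1
  have h2 := rho_rpow hp0 q (z - z')
  rw [← h1, Real.zero_rpow hp0.ne'] at h2
  have hJ : (0 : ℝ) < (Fintype.card J : ℝ)⁻¹ := by
    have : 0 < Fintype.card J := Fintype.card_pos
    positivity
  have h3 : ∑ j, kap p.toReal q ((z - z') j) = 0 := by
    rcases mul_eq_zero.1 h2.symm with h | h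
    · exact absurd h hJ.ne'
    · exact h
  rw [Finset.sum_eq_zero_iff_of_nonneg (fun j _ => kap_nonneg _ _)] at h3
  funext j
  by_contra hne
  have h4 := h3 j (Finset.mem_univ j)
  have h5 : (z - z') j ≠ 0 := by
    rw [Pi.sub_apply]
    exact sub_ne_zero.2 hne
  exact absurd h4 (kap_pos h5).ne'

theorem torus_reduction (p : ℝ≥0∞) [Fact (1 ≤ p)] (hp : p ≠ ⊤) (C D : ℝ) (hCD : C ≤ D)
    (q : ℕ) [NeZero q] (J 𝒜 : Type) [Fintype J] [DecidableEq J] [Nonempty J] [Fintype 𝒜]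
    (ω ω' : J → 𝒜 → ℤˣ) (r : ℝ) (hr : 0 < r)
    (hNI : ∀ v : 𝒜 → ℤ, |rho p.toReal q (modq q (iota ω v)) - rho p.toReal q (modq q (iota ω' v))|
      ≤ 2 * r)
    (hFalse : ∀ F F' : (J → ℤ) → lp (fun _ : ℕ => ℝ) p,
      (∀ z w : J → ℤ, F (z + (q : ℤ) • w) = F z) →
      (∀ z w : J → ℤ, F' (z + (q : ℤ) • w) = F' z) →
      (∀ z z' : J → ℤ, ‖F z - F z'‖ ≤ D * nrm p.toReal (fun j => ((z j - z' j : ℤ) : ℝ))) →
      (∀ z z' : J → ℤ, ‖F' z - F' z'‖ ≤ D * nrm p.toReal (fun j => ((z j - z' j : ℤ) : ℝ))) →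
      (∀ z z' : J → ℤ, (Fintype.card J : ℝ)⁻¹ * ∑ j, |((z j - z' j : ℤ) : ℝ)| ^ p.toReal
          * (1 - 2 * |((z j - z' j : ℤ) : ℝ)| / q) ≤ ‖F z - F z'‖ ^ p.toReal) →
      (∀ v : 𝒜 → ℤ, ‖F (iota ω v) - F' (iota ω' v)‖ ≤ D * r) → False) :
    Bad p C := by
  classical
  have hp1 : 1 ≤ p.toReal := by
    have h1 : (1 : ℝ≥0∞) ≤ p := Fact.out
    have := ENNReal.toReal_mono hp h1
    simpa using this
  have hp0 : 0 < p.toReal := by linarith
  obtain ⟨E, -, hE⟩ := exists_torus_emb p hp q J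
  let A : Set (lp (fun _ : ℕ => ℝ) p) := Set.range E
  let pt : (J → ℤ) → A := fun z => ⟨E (modq q z), ⟨modq q z, rfl⟩⟩
  have dpt : ∀ z z' : J → ℤ, dist (pt z) (pt z') = rho p.toReal q (modq q (z - z')) := by
    intro z z'
    rw [Subtype.dist_eq, dist_eq_norm]
    change ‖E (modq q z) - E (modq q z')‖ = _
    rw [hE, modq_sub]
  let Φ : (𝒜 → ℤ) → A := fun v => pt (iota ω v)
  let Ψ : (𝒜 → ℤ) → A := fun v => pt (iota ω' v)
  have Hglue : ∀ v v' : 𝒜 → ℤ, |dist (Φ v) (Φ v') - dist (Ψ v) (Ψ v')| ≤ 2 * r := by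
    intro v v'
    have h := hNI (v - v')
    have e1 : dist (Φ v) (Φ v') = rho p.toReal q (modq q (iota ω (v - v'))) := by
      rw [← iota_sub]; exact dpt _ _
    have e2 : dist (Ψ v) (Ψ v') = rho p.toReal q (modq q (iota ω' (v - v'))) := by
      rw [← iota_sub]; exact dpt _ _
    rw [e1, e2]; exact h
  let inst : MetricSpace (A ⊕ A) := Metric.glueMetricApprox Φ Ψ r hr Hglue
  have dll : ∀ a a' : A, dist (Sum.inl a : A ⊕ A) (Sum.inl a') = dist a a' := fun _ _ => rfl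
  have drr : ∀ a a' : A, dist (Sum.inr a : A ⊕ A) (Sum.inr a') = dist a a' := fun _ _ => rfl
  have dlr : ∀ v : 𝒜 → ℤ, dist (Sum.inl (Φ v) : A ⊕ A) (Sum.inr (Ψ v)) = r := fun v =>
    Metric.glueDist_glued_points Φ Ψ r v
  have hfinA : Finite A := Set.finite_range E
  refine ⟨A ⊕ A, inst, inferInstance, Set.range Sum.inl, Set.range Sum.inr, ?_, ?_, ?_, ?_⟩
  · exact Set.range_inl_union_range_inr
  · refine ⟨fun x => Sum.elim (fun a : A => (a : lp (fun _ : ℕ => ℝ) p)) (fun _ => 0) x.1, ?_⟩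
    apply Isometry.of_dist_eq
    rintro ⟨_, a, rfl⟩ ⟨_, a', rfl⟩
    rfl
  · refine ⟨fun x => Sum.elim (fun _ => 0) (fun a : A => (a : lp (fun _ : ℕ => ℝ) p)) x.1, ?_⟩
    apply Isometry.of_dist_eq
    rintro ⟨_, a, rfl⟩ ⟨_, a', rfl⟩
    rfl
  · rintro ⟨h, s, hs, hh⟩
    let F : (J → ℤ) → lp (fun _ : ℕ => ℝ) p := fun z => s⁻¹ • h (Sum.inl (pt z))
    let F' : (J → ℤ) → lp (fun _ : ℕ => ℝ) p := fun z => s⁻¹ • h (Sum.inr (pt z))
    have hsinv : 0 < s⁻¹ := inv_pos.mpr hs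
    have upper : ∀ x y : A ⊕ A, ‖s⁻¹ • h x - s⁻¹ • h y‖ ≤ D * dist x y := by
      intro x y
      rw [← smul_sub, norm_smul, Real.norm_of_nonneg hsinv.le, ← dist_eq_norm]
      have h1 := (hh x y).2
      calc s⁻¹ * dist (h x) (h y) ≤ s⁻¹ * (s * C * dist x y) := by gcongr
        _ = C * dist x y := by field_simp
        _ ≤ D * dist x y := by gcongr
    have lower : ∀ x y : A ⊕ A, dist x y ≤ ‖s⁻¹ • h x - s⁻¹ • h y‖ := by
      intro x y
      rw [← smul_sub, norm_smul, Real.norm_of_nonneg hsinv.le, ← dist_eq_norm]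
      have h1 := (hh x y).1
      calc dist x y = s⁻¹ * (s * dist x y) := by field_simp
        _ ≤ s⁻¹ * dist (h x) (h y) := by gcongr
    have hDpos : 0 ≤ D := by
      by_contra hneg
      push Not at hneg
      have h1 := upper (Sum.inl (Φ 0)) (Sum.inr (Ψ 0))
      rw [dlr 0] at h1
      have h2 := norm_nonneg (s⁻¹ • h (Sum.inl (Φ 0)) - s⁻¹ • h (Sum.inr (Ψ 0)))
      nlinarith
    have ptper : ∀ z w : J → ℤ, pt (z + (q : ℤ) • w) = pt z := by
      intro z w
      apply Subtype.ext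
      change E (modq q (z + (q : ℤ) • w)) = E (modq q z)
      rw [modq_add_smul]
    refine hFalse F F' ?_ ?_ ?_ ?_ ?_ ?_
    · intro z w
      simp only [F, ptper]
    · intro z w
      simp only [F', ptper]
    · intro z z'
      refine (upper _ _).trans ?_
      rw [dll, dpt]
      exact mul_le_mul_of_nonneg_left (rho_modq_le hp0 q (z - z')) hDpos
    · intro z z'
      refine (upper _ _).trans ?_
      rw [drr, dpt]
      exact mul_le_mul_of_nonneg_left (rho_modq_le hp0 q (z - z')) hDpos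
    · intro z z'
      have h1 := lower (Sum.inl (pt z)) (Sum.inl (pt z'))
      rw [dll, dpt] at h1
      have h2 := Real.rpow_le_rpow (rho_nonneg _ _ _) h1 hp0.le
      rw [rho_rpow hp0] at h2
      refine le_trans ?_ h2
      refine mul_le_mul_of_nonneg_left ?_ (by positivity)
      exact Finset.sum_le_sum fun j _ => le_kap hp0 (z j - z' j)
    · intro v
      have h1 := upper (Sum.inl (pt (iota ω v))) (Sum.inr (pt (iota ω' v)))
      have h2 : dist (Sum.inl (pt (iota ω v)) : A ⊕ A) (Sum.inr (pt (iota ω' v))) = r := dlr v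
      rw [h2] at h1
      exact h1

end Pool.Agent.H67.NP
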