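import Pool.Agent.H67.NP.AsmDefs
import Pool.Agent.H67.NP.ThmI
import Pool.Agent.H67.NP.TorusGlue
import Pool.Agent.H67.NP.FinalStep
import Pool.Agent.H67.NP.TensorK

/-!
# Assembly (§9)

`D = max C 1`, `P = p.toReal`, `g₀ = gam P ^ k`, `M₂ = (gam (P+1) ^ k) ^ (P+1)`; `ε'` from `thmI`;
`ε = (2ε')^P/(2k)` (so `(2kε)^(1/P) = 2ε'`).  Given the data: `J = Leaf N`, `𝒜 = ∏ Fin (m i)`,
`Ω = ∏ (Fin (m i) → ℝ)`, `Pm = gX`, `W = WT`.  `hmom`: `tensor_K` with exponent `2P` and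
`T = Pi.single α 1`.  `hWK`: `hKW`.  `thmI` gives `q`.  `hlev` for `f(t) = kap P q t/q^P` (`kap_nonneg`,
`kap_le`, periodic, `abs_kap_sub_le`: `|f x - f y| ≤ P |x-y|/q`) gives `Y`.  `torus_reduction` with
`ω = omT Y true`, `ω' = omT Y false`, `r = ε' q`, `hNI` from `rho_near`.  For `F, F'`: `thmI` gives
`G, G'`; `hLin` for `true`, `false` gives `Big, Big'`; rewrite `zW` with `zW_eq_prod`;
`final_step` with `g = g₀`, `μ₀`, gives `‖F‖ ≤ 7g₀/20 < g₀/2`, contradiction.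
-/

set_option autoImplicit false

open MeasureTheory ProbabilityTheory Finset BigOperators
open scoped ENNReal NNReal

namespace Pool.Agent.H67.NP

theorem assemble (p : ℝ≥0∞) [Fact (1 ≤ p)] (hp1 : 1 < p) (hp : p ≠ ⊤) (C : ℝ) (k : ℕ) [NeZero k]
    (hKW : ∀ (I : Fin k → Type) [∀ i, Fintype (I i)] (T : (∀ i, I i) → ℝ),
      ∫⁻ x, ‖∑ α, T α * ∏ i, x i (α i)‖ₑ ^ p.toReal ∂(gX I)
        ≤ ENNReal.ofReal ((gam p.toReal ^ k * l2 T) ^ p.toReal)) :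
    ∃ ε : ℝ, 0 < ε ∧ ∀ (K : ℕ) (m N : Fin k → ℕ) (_ : ∀ i, 0 < m i) (_ : ∀ i, 0 < N i)
      (μ₀ : ℝ) (_ : 0 ≤ μ₀) (_ : 8 * K * μ₀ ≤ 1)
      (Good : ∀ i, (Bool × Par N i → Fin (N i) → Fin (m i) → ℤˣ) → Prop)
      (_ : ∀ Y0, Good 0 Y0 → ∀ a j a' j', (a, j) ≠ (a', j') →
        |∑ x, (((Y0 a j x : ℤˣ) : ℤ) : ℝ) * (((Y0 a' j' x : ℤˣ) : ℤ) : ℝ)| ≤ m 0 * μ₀)
      (_ : ∀ (i : Fin k) (q : ℕ) (_ : 0 < q) (f : ℤ → ℝ), (∀ x, 0 ≤ f x) → (∀ x, f x ≤ 1) →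
        (∀ x, f (x + q) = f x) → (∀ x y : ℤ, |f x - f y| ≤ p.toReal * |(x : ℝ) - y| / q) →
        ∃ Yi : Bool × Par N i → Fin (N i) → Fin (m i) → ℤˣ, Good i Yi ∧
          ∀ (a : Bool × Par N i) (u : Fin (m i) → ℤ), |avg (fun j => f (sdot (Yi a j) u))
            - avg (fun s : Fin (m i) → ℤˣ => f (sdot s u))| ≤ ε)
      (_ : ∀ (Y : Fam m N) (_ : ∀ i, Good i (Y i)) (bb : Bool) (G : Leaf N → ℕ → ℝ)
        (_ : L1bd p.toReal (2 * max C 1) G),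
        ∃ Big : ℕ → Finset (Qc N 0), (∀ s, (Big s).card ≤ K) ∧
          NN p.toReal (gX fun i => Fin (m i)) (fun s x =>
            ‖∑ j, (if clT N 0 j ∈ Big s then 0 else G j s) * ∏ i, zz (clT N) (uT Y bb) i j x‖ₑ)
            ≤ ENNReal.ofReal (gam p.toReal ^ k / 20)),
      Bad p C := by
  classical
  set P : ℝ := p.toReal with hP
  have hP1 : 1 < P := by
    have := (ENNReal.toReal_lt_toReal (by simp) hp).mpr hp1
    simpa [hP] using this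
  have hP0 : 0 < P := by linarith
  set D : ℝ := max C 1 with hDdef
  have hD1 : 1 ≤ D := le_max_right _ _
  have hCD : C ≤ D := le_max_left _ _
  have hgP : 0 < gam P := gam_pos hP0
  have hgP1 : 0 < gam (P + 1) := gam_pos (by linarith)
  have hg₀ : 0 < gam P ^ k := pow_pos hgP k
  have hM₂ : 0 ≤ (gam (P + 1) ^ k) ^ (P + 1) := Real.rpow_nonneg (pow_nonneg hgP1.le k) _
  obtain ⟨ε', hε', hI⟩ := thmI p hp1 hp D hD1 (gam P ^ k) ((gam (P + 1) ^ k) ^ (P + 1)) hg₀ hM₂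
  have hk : (0 : ℝ) < k := by exact_mod_cast NeZero.pos k
  refine ⟨(2 * ε') ^ P / (2 * k), by positivity, ?_⟩
  intro K m N hm hN μ₀ hμ₀ h8 Good hroot hlev hLin
  have hneJ : Nonempty (Leaf N) := ⟨fun i => ⟨0, hN i⟩⟩
  have hneA : Nonempty (∀ i, Fin (m i)) := ⟨fun i => ⟨0, hm i⟩⟩
  have hWK : ∀ T : (∀ i, Fin (m i)) → ℝ,
      ∫⁻ x, ‖dot T (WT x)‖ₑ ^ p.toReal ∂(gX fun i => Fin (m i))
        ≤ ENNReal.ofReal ((gam P ^ k * l2 T) ^ p.toReal) := fun T =>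
    hKW (fun i => Fin (m i)) T
  have hmom : ∀ α : (∀ i, Fin (m i)),
      ∫⁻ x, ‖WT x α‖ₑ ^ (2 * p.toReal) ∂(gX fun i => Fin (m i)) < ⊤ := by
    intro α
    have h1 := tensor_K (p := 2 * P) (by linarith) k (fun i => Fin (m i))
      (fun β => if β = α then 1 else 0)
    refine lt_of_le_of_lt (le_of_eq ?_) (lt_of_le_of_lt h1 ENNReal.ofReal_lt_top)
    refine lintegral_congr fun x => ?_
    congr 2
    simp [WT]
  obtain ⟨q, hq, hIq⟩ := hI (Leaf N) (∀ i, Fin (m i)) (∀ i, Fin (m i) → ℝ)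
    (gX fun i => Fin (m i)) (fun x => WT x) measurable_WT hmom hWK
  have hq0 : 0 < q := NeZero.pos q
  have hqR : (0 : ℝ) < q := by exact_mod_cast hq0
  have hqP : (0 : ℝ) < (q : ℝ) ^ P := Real.rpow_pos_of_pos hqR P
  -- the sign families
  have hfam : ∀ i, ∃ Yi : Bool × Par N i → Fin (N i) → Fin (m i) → ℤˣ, Good i Yi ∧
      ∀ (a : Bool × Par N i) (u : Fin (m i) → ℤ),
        |avg (fun j : Fin (N i) => kap P q ((sdot (Yi a j) u : ℤ) : ZMod q) / (q : ℝ) ^ P)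
          - avg (fun s : Fin (m i) → ℤˣ => kap P q ((sdot s u : ℤ) : ZMod q) / (q : ℝ) ^ P)|
          ≤ (2 * ε') ^ P / (2 * k) := by
    intro i
    refine hlev i q hq0 (fun t => kap P q ((t : ℤ) : ZMod q) / (q : ℝ) ^ P) ?_ ?_ ?_ ?_
    · intro x; exact div_nonneg (kap_nonneg P _) hqP.le
    · intro x; rw [div_le_one hqP]; exact kap_le hP0 _
    · intro x
      simp
    · intro x y
      rw [← sub_div, abs_div, abs_of_pos hqP, div_le_div_iff₀ hqP hqR]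
      have h1 := abs_kap_sub_le (q := q) hP1.le x y
      have h2 : (q : ℝ) ^ (P - 1) * q = (q : ℝ) ^ P := by
        rw [Real.rpow_sub_one hqR.ne']; field_simp
      calc _ ≤ (P * (q : ℝ) ^ (P - 1) * |(x : ℝ) - y|) * q := by gcongr
        _ = P * |(x : ℝ) - y| * ((q : ℝ) ^ (P - 1) * q) := by ring
        _ = _ := by rw [h2]
  choose Y hGood hN1 using hfam
  have hεpos : 0 ≤ (2 * ε') ^ P / (2 * k) := by positivity
  refine torus_reduction p hp C D hCD q (Leaf N) (∀ i, Fin (m i)) (omT Y true) (omT Y false)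
    (ε' * q) (by positivity) ?_ ?_
  · intro v
    refine (rho_near hP1.le q hN Y _ hεpos hN1 v).trans (le_of_eq ?_)
    have h1 : 2 * (k : ℝ) * ((2 * ε') ^ P / (2 * k)) = (2 * ε') ^ P := by field_simp
    rw [h1, ← Real.rpow_mul (by positivity), mul_one_div_cancel hP0.ne', Real.rpow_one]
    ring
  · intro F F' h1 h2 h3 h4 h5 h6
    obtain ⟨G, G', hL, hL', hd, hlow⟩ := hIq (omT Y true) (omT Y false)
      (fun j => le_of_eq (lintegral_zW hP0 hm Y true j).symm)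
      (fun j => le_of_eq (lintegral_zW (by linarith) hm Y true j)) F F' h1 h2 h3 h4 h5 h6
    obtain ⟨Big, hB, hnb⟩ := hLin Y hGood true G hL
    obtain ⟨Big', hB', hnb'⟩ := hLin Y hGood false G' hL'
    have hroot0 := hroot (Y 0) (hGood 0)
    simp only [zW_eq_prod hm] at hd hlow
    have hfin := final_step hP1.le (clT N) (uT Y true) (uT Y false)
      (fun π => l2_uT hm Y true 0 π) (fun π => l2_uT hm Y false 0 π) μ₀ hμ₀
      (fun π π' hne => dot_uT_le Y 0 (hm 0) μ₀ hroot0 true true π π' (Or.inr hne))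
      (fun π π' hne => dot_uT_le Y 0 (hm 0) μ₀ hroot0 false false π π' (Or.inr hne))
      (fun π π' => dot_uT_le Y 0 (hm 0) μ₀ hroot0 true false π π' (Or.inl (by decide)))
      K h8 G G' Big Big' hB hB' (gam P ^ k) hg₀.le hnb hnb' hd
    have h7 := hlow.trans hfin
    rw [ENNReal.ofReal_le_ofReal_iff (by positivity)] at h7
    linarith

end Pool.Agent.H67.NP
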