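import Pool.Agent.H67.NP.HVec
import Pool.Agent.H67.NP.Update
import Pool.Agent.H67.NP.Cube

/-!
# (C3) (§5)

* `lintegral_chi`: `∫ |χ_i(⟨v,x⟩)|^p = τs^p` for `i < l` and `gam^p` for `i ≥ l`, `v` a unit vector
  (`lintegral_comp_dot`, `lintegral_enorm_rpow`).
* `lintegral_prod_chi`: for fixed `j`,
  `∫ |∏_{i≠l} χ_i(z^i_j)|^p = (τs^l gam^(k-1-l))^p` (`lintegral_prod_pi`).
* `l2_cc_nb_le`: restricting to the classes outside `S` only replaces some `c_π` by `0` (every class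
  of level `l` lies in one root class), so `|c^nb|₂ ≤ |c|₂`.
* `C3`: `H_vec` with `a_j(x) = e_{cl_l j} ∏_{i≠l} χ_i(z^i_j(x)) ∈ ℝ^{Q l}`, so
  `∑_s ∫ |c|₂^p ≤ D₁^p N⁻¹ ∑_j ∫ |∏_{i≠l} χ_i(z^i_j)|^p`.
-/

set_option autoImplicit false

open MeasureTheory ProbabilityTheory Finset BigOperators
open scoped ENNReal NNReal

namespace Pool.Agent.H67.NP

variable {k : ℕ} {I Q : Fin k → Type} [∀ i, Fintype (I i)] [∀ i, Fintype (Q i)]
  [∀ i, DecidableEq (Q i)] {J : Type} [Fintype J] {R : Type} [Fintype R] [DecidableEq R]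

theorem measurable_psi (w : ℝ) : Measurable (psi w) := by
  unfold psi H3
  fun_prop

theorem measurable_chi (w : ℝ) (l : ℕ) (i : Fin k) : Measurable (chi w l i) := by
  unfold chi
  by_cases h : (i : ℕ) < l
  · simp only [h, if_true]
    exact measurable_psi w
  · simp only [h, if_false]
    exact measurable_id

theorem measurable_zz (cl : ∀ i, J → Q i) (u : ∀ i, Q i → I i → ℝ) (i : Fin k) (j : J) :
    Measurable (zz cl u i j) := by
  unfold zz
  exact (measurable_dot _).comp (measurable_pi_apply i)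

theorem lintegral_chi {p w τs : ℝ} (hp : 0 < p)
    (hw : ∫⁻ x, ‖psi w x‖ₑ ^ p ∂(gaussianReal 0 1) = ENNReal.ofReal (τs ^ p)) (l : ℕ) (i : Fin k)
    (v : I i → ℝ) (hv : l2 v = 1) :
    ∫⁻ a, ‖chi w l i (dot v a)‖ₑ ^ p ∂(gI (I i))
      = ENNReal.ofReal ((if (i : ℕ) < l then τs else gam p) ^ p) := by
  rw [lintegral_comp_dot v hv (fun z => ‖chi w l i z‖ₑ ^ p)
    ((measurable_chi w l i).enorm.pow_const p)]
  unfold chi
  by_cases h : (i : ℕ) < l
  · simp only [h, if_true]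
    exact hw
  · simp only [h, if_false]
    exact lintegral_enorm_rpow hp

theorem lintegral_prod_chi_set {p w τs : ℝ} (hp : 0 < p) (hτ : 0 < τs)
    (hw : ∫⁻ x, ‖psi w x‖ₑ ^ p ∂(gaussianReal 0 1) = ENNReal.ofReal (τs ^ p))
    (cl : ∀ i, J → Q i) (u : ∀ i, Q i → I i → ℝ) (hu : ∀ i π, l2 (u i π) = 1)
    (S : Finset (Fin k)) (l : ℕ) (j : J) :
    ∫⁻ x, ‖∏ i ∈ S, chi w l i (zz cl u i j x)‖ₑ ^ p ∂(gX I)
      = ENNReal.ofReal ((∏ i ∈ S, if (i : ℕ) < l then τs else gam p) ^ p) := by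
  have h1 : ∀ x : (∀ i, I i → ℝ), ‖∏ i ∈ S, chi w l i (zz cl u i j x)‖ₑ ^ p
      = ∏ i ∈ S, ‖chi w l i (dot (u i (cl i j)) (x i))‖ₑ ^ p := by
    intro x
    have h0 : ‖∏ i ∈ S, chi w l i (zz cl u i j x)‖ₑ = ∏ i ∈ S, ‖chi w l i (zz cl u i j x)‖ₑ := by
      simp [enorm_eq_nnnorm, nnnorm_prod]
    rw [h0, ← ENNReal.prod_rpow_of_nonneg hp.le]
    rfl
  simp_rw [h1]
  unfold gX
  rw [lintegral_prod_pi (fun i => gI (I i)) S
    (fun i a => ‖chi w l i (dot (u i (cl i j)) a)‖ₑ ^ p)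
    (fun i => (((measurable_chi w l i).comp (measurable_dot _)).enorm.pow_const p))]
  simp_rw [lintegral_chi hp hw l _ _ (hu _ _)]
  rw [← ENNReal.ofReal_prod_of_nonneg]
  · congr 1
    rw [Real.finsetProd_rpow]
    intro i _
    split_ifs
    · exact hτ.le
    · exact (gam_pos hp).le
  · intro i _
    refine Real.rpow_nonneg ?_ _
    split_ifs
    · exact hτ.le
    · exact (gam_pos hp).le

theorem prod_ite_univ (a b : ℝ) (l : ℕ) (hl : l ≤ k) :
    (∏ i : Fin k, if (i : ℕ) < l then a else b) = a ^ l * b ^ (k - l) := by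
  rw [Fin.prod_univ_eq_prod_range (fun i => if i < l then a else b) k,
    ← Finset.prod_range_mul_prod_Ico _ hl]
  congr 1
  · rw [Finset.prod_congr rfl (g := fun _ => a), Finset.prod_const, Finset.card_range]
    intro i hi
    simp [Finset.mem_range.mp hi]
  · rw [Finset.prod_congr rfl (g := fun _ => b), Finset.prod_const, Nat.card_Ico]
    intro i hi
    simp [(Finset.mem_Ico.mp hi).1]

theorem prod_ite_erase (a b : ℝ) (hb : b ≠ 0) (l : Fin k) :
    (∏ i ∈ Finset.univ.erase l, if (i : ℕ) < (l : ℕ) then a else b)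
      = a ^ (l : ℕ) * b ^ (k - 1 - l) := by
  have h1 := Finset.mul_prod_erase Finset.univ
    (fun i : Fin k => if (i : ℕ) < (l : ℕ) then a else b) (Finset.mem_univ l)
  rw [prod_ite_univ a b l l.isLt.le] at h1
  simp only [lt_irrefl, if_false] at h1
  have h2 : k - (l : ℕ) = (k - 1 - l) + 1 := by
    have := l.isLt
    omega
  rw [h2, pow_succ] at h1
  apply mul_left_cancel₀ hb
  rw [h1]
  ring

theorem lintegral_prod_chi {p w τs : ℝ} (hp : 0 < p) (hτ : 0 < τs)
    (hw : ∫⁻ x, ‖psi w x‖ₑ ^ p ∂(gaussianReal 0 1) = ENNReal.ofReal (τs ^ p))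
    (cl : ∀ i, J → Q i) (u : ∀ i, Q i → I i → ℝ) (hu : ∀ i π, l2 (u i π) = 1) (l : Fin k) (j : J) :
    ∫⁻ x, ‖∏ i ∈ Finset.univ.erase l, chi w l i (zz cl u i j x)‖ₑ ^ p ∂(gX I)
      = ENNReal.ofReal ((τs ^ (l : ℕ) * gam p ^ (k - 1 - l)) ^ p) := by
  rw [lintegral_prod_chi_set hp hτ hw cl u hu, prod_ite_erase _ _ (gam_pos hp).ne']

/-- All blocks: `∫ |∏_i χ^(l)_i(z^i_j)|^p = (τs^l gam^(k-l))^p` for `l ≤ k`. -/
theorem lintegral_prod_chi_all {p w τs : ℝ} (hp : 0 < p) (hτ : 0 < τs)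
    (hw : ∫⁻ x, ‖psi w x‖ₑ ^ p ∂(gaussianReal 0 1) = ENNReal.ofReal (τs ^ p))
    (cl : ∀ i, J → Q i) (u : ∀ i, Q i → I i → ℝ) (hu : ∀ i π, l2 (u i π) = 1) (l : ℕ) (hl : l ≤ k)
    (j : J) :
    ∫⁻ x, ‖∏ i, chi w l i (zz cl u i j x)‖ₑ ^ p ∂(gX I)
      = ENNReal.ofReal ((τs ^ l * gam p ^ (k - l)) ^ p) := by
  rw [lintegral_prod_chi_set hp hτ hw cl u hu, prod_ite_univ _ _ l hl]

theorem measurable_prod_chi (cl : ∀ i, J → Q i) (u : ∀ i, Q i → I i → ℝ) (w : ℝ)
    (S : Finset (Fin k)) (l : ℕ) (j : J) :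
    Measurable fun x : (∀ i, I i → ℝ) => ∏ i ∈ S, chi w l i (zz cl u i j x) :=
  Finset.measurable_fun_prod _ fun i _ => (measurable_chi w l i).comp (measurable_zz cl u i j)

theorem measurable_cc (cl : ∀ i, J → Q i) (u : ∀ i, Q i → I i → ℝ) (w : ℝ) (l : Fin k) (g : J → ℝ)
    (π : Q l) : Measurable (cc cl u w l g π) := by
  unfold cc
  exact Finset.measurable_fun_sum _ fun j _ =>
    (measurable_prod_chi cl u w (Finset.univ.erase l) l j).const_mul _

theorem measurable_FF (cl : ∀ i, J → Q i) (u : ∀ i, Q i → I i → ℝ) (w : ℝ) (l : ℕ) (g : J → ℝ) :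
    Measurable (FF cl u w l g) := by
  unfold FF
  exact Finset.measurable_fun_sum _ fun j _ =>
    (measurable_prod_chi cl u w Finset.univ l j).const_mul _

theorem l2_cc_nb_le (cl : ∀ i, J → Q i) (u : ∀ i, Q i → I i → ℝ) (w : ℝ) (rt : J → R) (l : Fin k)
    (hrt : ∀ j j', cl l j = cl l j' → rt j = rt j') (S : Finset R) (g : J → ℝ)
    (x : ∀ i, I i → ℝ) :
    (l2 fun π => cc cl u w l (nb rt S g) π x) ≤ l2 fun π => cc cl u w l g π x := by
  unfold l2
  refine Real.sqrt_le_sqrt (Finset.sum_le_sum fun π _ => ?_)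
  have h : cc cl u w l (nb rt S g) π x = cc cl u w l g π x ∨
      cc cl u w l (nb rt S g) π x = 0 := by
    by_cases hex : ∃ j₀, cl l j₀ = π ∧ rt j₀ ∈ S
    · obtain ⟨j₀, h1, h2⟩ := hex
      right
      unfold cc
      refine Finset.sum_eq_zero fun j hj => ?_
      have hj' : cl l j = π := (Finset.mem_filter.mp hj).2
      have : rt j ∈ S := by rw [hrt j j₀ (hj'.trans h1.symm)]; exact h2
      simp [nb, this]
    · left
      unfold cc
      refine Finset.sum_congr rfl fun j hj => ?_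
      have hj' : cl l j = π := (Finset.mem_filter.mp hj).2
      have : rt j ∉ S := fun hS => hex ⟨j, hj', hS⟩
      simp [nb, this]
  show cc cl u w l (nb rt S g) π x ^ 2 ≤ cc cl u w l g π x ^ 2
  rcases h with h | h
  · rw [h]
  · rw [h]
    have := sq_nonneg (cc cl u w l g π x)
    simpa using this

theorem C3 {p w τs D₁ : ℝ} (hp : 1 ≤ p) (hτ : 0 < τs) (hD₁ : 0 ≤ D₁) [Nonempty J]
    (hw : ∫⁻ x, ‖psi w x‖ₑ ^ p ∂(gaussianReal 0 1) = ENNReal.ofReal (τs ^ p))
    (cl : ∀ i, J → Q i) (u : ∀ i, Q i → I i → ℝ) (hu : ∀ i π, l2 (u i π) = 1) (rt : J → R)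
    (l : Fin k) (hrt : ∀ j j', cl l j = cl l j' → rt j = rt j') {G : J → ℕ → ℝ}
    (hG : L1bd p D₁ G) (S : ℕ → Finset R) :
    NN p (gX I) (fun s x => ENNReal.ofReal
        (l2 fun π => cc cl u w l (nb rt (S s) fun j => G j s) π x))
      ≤ ENNReal.ofReal (D₁ * (τs ^ (l : ℕ) * gam p ^ (k - 1 - l))) := by
  have hp0 : 0 < p := by linarith
  have hg := gam_pos hp0
  set c : ℝ := τs ^ (l : ℕ) * gam p ^ (k - 1 - l) with hc
  have hc0 : 0 ≤ c := by positivity
  rw [NN_le_iff hp0 _ _ (mul_nonneg hD₁ hc0)]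
  set a : J → (∀ i, I i → ℝ) → Q l → ℝ := fun j x π =>
    if cl l j = π then ∏ i ∈ Finset.univ.erase l, chi w l i (zz cl u i j x) else 0 with ha
  have h1 : ∀ s x, (fun π => cc cl u w l (fun j => G j s) π x)
      = fun π => ∑ j, G j s * a j x π := by
    intro s x
    ext π
    unfold cc
    rw [Finset.sum_filter]
    refine Finset.sum_congr rfl fun j _ => ?_
    simp only [ha]
    split_ifs <;> simp
  calc ∑' s, ∫⁻ x, ENNReal.ofReal
          (l2 fun π => cc cl u w l (nb rt (S s) fun j => G j s) π x) ^ p ∂(gX I)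
      ≤ ∑' s, ∫⁻ x, ENNReal.ofReal (l2 fun π => ∑ j, G j s * a j x π) ^ p ∂(gX I) := by
        refine ENNReal.tsum_le_tsum fun s => lintegral_mono fun x => ?_
        refine ENNReal.rpow_le_rpow (ENNReal.ofReal_le_ofReal ?_) hp0.le
        rw [← h1]
        exact l2_cc_nb_le cl u w rt l hrt (S s) _ x
    _ ≤ ENNReal.ofReal (D₁ ^ p / Fintype.card J)
        * ∑ j, ∫⁻ x, ENNReal.ofReal (l2 (a j x)) ^ p ∂(gX I) := by
        refine H_vec hp hG (gX I) a fun j π => ?_
        simp only [ha]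
        by_cases h : cl l j = π
        · simp only [h, if_true]
          exact measurable_prod_chi cl u w (Finset.univ.erase l) l j
        · simp only [h, if_false]
          exact measurable_const
    _ = ENNReal.ofReal ((D₁ * c) ^ p) := by
        have h2 : ∀ j, ∫⁻ x, ENNReal.ofReal (l2 (a j x)) ^ p ∂(gX I) = ENNReal.ofReal (c ^ p) := by
          intro j
          rw [hc, ← lintegral_prod_chi hp0 hτ hw cl u hu l j]
          refine lintegral_congr fun x => ?_
          congr 1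
          rw [Real.enorm_eq_ofReal_abs]
          congr 1
          unfold l2
          rw [← Real.sqrt_sq_eq_abs]
          congr 1
          rw [Finset.sum_eq_single (cl l j)]
          · simp [ha]
          · intro π _ hπ
            simp [ha, Ne.symm hπ]
          · simp
        simp_rw [h2]
        rw [Finset.sum_const, Finset.card_univ, nsmul_eq_mul, ← ENNReal.ofReal_natCast,
          ← ENNReal.ofReal_mul (by positivity), ← ENNReal.ofReal_mul (by positivity),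
          Real.mul_rpow hD₁ hc0]
        congr 1
        have : (Fintype.card J : ℝ) ≠ 0 := by
          exact_mod_cast Fintype.card_ne_zero
        field_simp

end Pool.Agent.H67.NP
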