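import Pool.Agent.H67.NP.TensorK
import Pool.Agent.H67.NP.C3

/-!
# (C4), one class (§5)

`∫ |c_π|^p ≤ (τs^l gam^(k-1-l) h_π)^p`.

Proof.  If the class `π` is empty both sides are `0`.  Otherwise fix `j₀` with `cl_l j₀ = π`.  For
`i ≤ l` and `j ∈ π` we have `cl_i j = cl_i j₀` (`hcl`), so
`c_π(x) = (∏_{i<l} ψ(z^i_{j₀})) · f(x)`, `f = ∑_{j∈π} g_j ∏_{i>l} z^i_j`, and `f` does not depend on
`x^i`, `i ≤ l`.  `lintegral_split` (S = {i < l}) gives `∫|c_π|^p = τs^(lp) ∫|f|^p`; again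
`lintegral_split` (S = {i ≤ l}): `∫ |∏_{i≤l} z^i_{j₀} · f|^p = gam^((l+1)p) ∫|f|^p`, and
`∏_{i≤l} z^i_{j₀} · f = ∑_{j∈π} g_j ∏_i z^i_j = ∑_α T_α ∏_i x^i_{α_i}` with
`T_α = ∑_{j∈π} g_j ω̂_j(α)` (`Finset.prod_univ_sum`), whose `p`-th moment is at most
`(gam^k h_π)^p` by `tensor_K`.  Hence `∫|f|^p ≤ (gam^(k-1-l) h_π)^p`.
-/

set_option autoImplicit false

open MeasureTheory ProbabilityTheory Finset BigOperators
open scoped ENNReal NNReal

namespace Pool.Agent.H67.NP

variable {k : ℕ} {I Q : Fin k → Type} [∀ i, Fintype (I i)] [∀ i, Fintype (Q i)]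
  [∀ i, DecidableEq (Q i)] {J : Type} [Fintype J] {R : Type} [Fintype R] [DecidableEq R]

/-- `∏_i z^i_j(x) = ∑_α ω̂_j(α) ∏_i x^i_{α_i}`. -/
theorem prod_zz (cl : ∀ i, J → Q i) (u : ∀ i, Q i → I i → ℝ) (j : J) (x : ∀ i, I i → ℝ) :
    ∏ i, zz cl u i j x = ∑ α, om cl u j α * ∏ i, x i (α i) := by
  unfold zz dot om
  rw [Finset.prod_univ_sum, Fintype.piFinset_univ]
  refine Finset.sum_congr rfl fun α _ => ?_
  rw [Finset.prod_mul_distrib]

theorem enorm_prod_rpow {p : ℝ} (hp : 0 ≤ p) {ι : Type} (S : Finset ι) (f : ι → ℝ) :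
    ‖∏ i ∈ S, f i‖ₑ ^ p = ∏ i ∈ S, ‖f i‖ₑ ^ p := by
  have h0 : ‖∏ i ∈ S, f i‖ₑ = ∏ i ∈ S, ‖f i‖ₑ := by
    simp [enorm_eq_nnnorm, nnnorm_prod]
  rw [h0, ← ENNReal.prod_rpow_of_nonneg hp]

theorem prod_ofReal_const {p a : ℝ} (ha : 0 ≤ a) {ι : Type} (S : Finset ι) :
    ∏ _i ∈ S, ENNReal.ofReal (a ^ p) = ENNReal.ofReal ((a ^ S.card) ^ p) := by
  rw [Finset.prod_const, ← ENNReal.ofReal_pow (Real.rpow_nonneg ha p)]
  congr 1
  rw [← Real.rpow_natCast, ← Real.rpow_mul ha, ← Real.rpow_natCast, ← Real.rpow_mul ha, mul_comm]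

theorem C4 {p w τs : ℝ} (hp : 2 ≤ p) (hτ : 0 < τs)
    (hw : ∫⁻ x, ‖psi w x‖ₑ ^ p ∂(gaussianReal 0 1) = ENNReal.ofReal (τs ^ p))
    (cl : ∀ i, J → Q i) (hcl : ∀ i i', i ≤ i' → ∀ j j', cl i' j = cl i' j' → cl i j = cl i j')
    (u : ∀ i, Q i → I i → ℝ) (hu : ∀ i π, l2 (u i π) = 1) (l : Fin k) (g : J → ℝ) (π : Q l) :
    ∫⁻ x, ‖cc cl u w l g π x‖ₑ ^ p ∂(gX I)
      ≤ ENNReal.ofReal ((τs ^ (l : ℕ) * gam p ^ (k - 1 - l) * hh cl u l g π) ^ p) := by
  have hp0 : 0 < p := by linarith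
  have hg := gam_pos hp0
  by_cases hex : ∃ j₀, cl l j₀ = π
  swap
  · have h0 : ∀ x, cc cl u w l g π x = 0 := by
      intro x
      unfold cc
      refine Finset.sum_eq_zero fun j hj => ?_
      exact absurd ⟨j, (Finset.mem_filter.mp hj).2⟩ hex
    simp_rw [h0]
    simp [hp0]
  obtain ⟨j₀, hj₀⟩ := hex
  set P : Finset J := Finset.univ.filter fun j => cl l j = π with hP
  have hcl' : ∀ i ≤ l, ∀ j ∈ P, cl i j = cl i j₀ := by
    intro i hi j hj
    exact hcl i l hi j j₀ ((Finset.mem_filter.mp hj).2.trans hj₀.symm)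
  set A : Finset (Fin k) := Finset.univ.filter fun i => i < l with hA
  set A' : Finset (Fin k) := Finset.univ.filter fun i => i ≤ l with hA'
  set B : Finset (Fin k) := Finset.univ.filter fun i => l < i with hB
  have hAB : Disjoint A B := by
    rw [Finset.disjoint_left]
    intro i hi hi'
    exact lt_asymm (Finset.mem_filter.mp hi).2 (Finset.mem_filter.mp hi').2
  have hA'B : Disjoint A' B := by
    rw [Finset.disjoint_left]
    intro i hi hi'
    exact not_lt_of_ge (Finset.mem_filter.mp hi).2 (Finset.mem_filter.mp hi').2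
  have hU1 : Finset.univ.erase l = A ∪ B := by
    ext i
    simp only [Finset.mem_erase, Finset.mem_univ, and_true, Finset.mem_union, hA, hB,
      Finset.mem_filter, true_and]
    exact lt_or_lt_iff_ne.symm
  have hU2 : (Finset.univ : Finset (Fin k)) = A' ∪ B := by
    ext i
    simp only [Finset.mem_univ, Finset.mem_union, hA', hB, Finset.mem_filter, true_and, true_iff]
    exact le_or_gt i l
  have hcA : A.card = l := by
    rw [hA]
    have : (Finset.univ.filter fun i : Fin k => i < l) = Finset.Iio l := by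
      ext i; simp
    rw [this, Fin.card_Iio]
  have hcA' : A'.card = l + 1 := by
    rw [hA']
    have : (Finset.univ.filter fun i : Fin k => i ≤ l) = Finset.Iic l := by
      ext i; simp
    rw [this, Fin.card_Iic]
  set f : (∀ i, I i → ℝ) → ℝ := fun x => ∑ j ∈ P, g j * ∏ i ∈ B, zz cl u i j x with hf
  have hfm : Measurable f := by
    refine Finset.measurable_fun_sum _ fun j _ => Measurable.const_mul ?_ _
    exact Finset.measurable_fun_prod _ fun i _ => measurable_zz cl u i j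
  have hfB : ∀ i ∉ B, ∀ x a, f (Function.update x i a) = f x := by
    intro i hi x a
    simp only [hf]
    refine Finset.sum_congr rfl fun j _ => ?_
    congr 1
    refine Finset.prod_congr rfl fun i' hi' => ?_
    unfold zz
    rw [Function.update_of_ne]
    rintro rfl
    exact hi hi'
  -- first formula
  have hc1 : ∀ x, ‖cc cl u w l g π x‖ₑ ^ p
      = (∏ i ∈ A, ‖psi w (dot (u i (cl i j₀)) (x i))‖ₑ ^ p) * ‖f x‖ₑ ^ p := by
    intro x
    have h1 : cc cl u w l g π x = (∏ i ∈ A, psi w (dot (u i (cl i j₀)) (x i))) * f x := by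
      unfold cc
      simp only [hf]
      rw [Finset.mul_sum]
      refine Finset.sum_congr rfl fun j hj => ?_
      rw [hU1, Finset.prod_union hAB]
      have h2 : ∏ i ∈ A, chi w l i (zz cl u i j x)
          = ∏ i ∈ A, psi w (dot (u i (cl i j₀)) (x i)) := by
        refine Finset.prod_congr rfl fun i hi => ?_
        have hil : i < l := (Finset.mem_filter.mp hi).2
        have : (i : ℕ) < (l : ℕ) := hil
        unfold chi zz
        rw [if_pos this, hcl' i hil.le j hj]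
      have h3 : ∏ i ∈ B, chi w l i (zz cl u i j x) = ∏ i ∈ B, zz cl u i j x := by
        refine Finset.prod_congr rfl fun i hi => ?_
        have hil : l < i := (Finset.mem_filter.mp hi).2
        have : ¬ (i : ℕ) < (l : ℕ) := not_lt.mpr (le_of_lt hil)
        unfold chi
        rw [if_neg this]
      rw [h2, h3]
      ring
    rw [h1, enorm_mul, ENNReal.mul_rpow_of_nonneg _ _ hp0.le, enorm_prod_rpow hp0.le]
  have e1 : ∫⁻ x, ‖cc cl u w l g π x‖ₑ ^ p ∂(gX I)
      = ENNReal.ofReal ((τs ^ (l : ℕ)) ^ p) * ∫⁻ x, ‖f x‖ₑ ^ p ∂(gX I) := by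
    simp_rw [hc1]
    unfold gX
    rw [lintegral_split (fun i => gI (I i)) A
      (fun i a => ‖psi w (dot (u i (cl i j₀)) a)‖ₑ ^ p)
      (fun i => ((measurable_psi w).comp (measurable_dot _)).enorm.pow_const p)
      (fun x => ‖f x‖ₑ ^ p) (hfm.enorm.pow_const p)]
    · congr 1
      rw [← hcA, ← prod_ofReal_const hτ.le A]
      refine Finset.prod_congr rfl fun i _ => ?_
      rw [lintegral_comp_dot _ (hu _ _) (fun z => ‖psi w z‖ₑ ^ p)
        ((measurable_psi w).enorm.pow_const p), hw]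
    · intro i hi x a
      rw [hfB i (fun h => Finset.disjoint_left.mp hAB hi h)]
  -- second formula
  have hc2 : ∀ x, (∏ i ∈ A', ‖dot (u i (cl i j₀)) (x i)‖ₑ ^ p) * ‖f x‖ₑ ^ p
      = ‖∑ α, (∑ j ∈ P, g j * om cl u j α) * ∏ i, x i (α i)‖ₑ ^ p := by
    intro x
    have h1 : (∏ i ∈ A', dot (u i (cl i j₀)) (x i)) * f x
        = ∑ α, (∑ j ∈ P, g j * om cl u j α) * ∏ i, x i (α i) := by
      simp only [hf]
      have h2 : ∀ j ∈ P, (∏ i ∈ A', dot (u i (cl i j₀)) (x i)) * (g j * ∏ i ∈ B, zz cl u i j x)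
          = ∑ α, g j * om cl u j α * ∏ i, x i (α i) := by
        intro j hj
        have h3 : ∏ i ∈ A', dot (u i (cl i j₀)) (x i) = ∏ i ∈ A', zz cl u i j x := by
          refine Finset.prod_congr rfl fun i hi => ?_
          unfold zz
          rw [hcl' i (Finset.mem_filter.mp hi).2 j hj]
        rw [h3]
        have h4 := prod_zz cl u j x
        rw [hU2, Finset.prod_union hA'B] at h4
        calc (∏ i ∈ A', zz cl u i j x) * (g j * ∏ i ∈ B, zz cl u i j x)
            = g j * ((∏ i ∈ A', zz cl u i j x) * ∏ i ∈ B, zz cl u i j x) := by ring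
          _ = g j * ∑ α, om cl u j α * ∏ i, x i (α i) := by rw [h4, ← hU2]
          _ = _ := by
              rw [Finset.mul_sum]
              exact Finset.sum_congr rfl fun α _ => by ring
      rw [Finset.mul_sum, Finset.sum_congr rfl h2, Finset.sum_comm]
      refine Finset.sum_congr rfl fun α _ => ?_
      rw [Finset.sum_mul]
    rw [← h1, enorm_mul, ENNReal.mul_rpow_of_nonneg _ _ hp0.le, enorm_prod_rpow hp0.le]
  have e2 : ENNReal.ofReal ((gam p ^ ((l : ℕ) + 1)) ^ p) * ∫⁻ x, ‖f x‖ₑ ^ p ∂(gX I)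
      = ∫⁻ x, ‖∑ α, (∑ j ∈ P, g j * om cl u j α) * ∏ i, x i (α i)‖ₑ ^ p ∂(gX I) := by
    simp_rw [← hc2]
    unfold gX
    rw [lintegral_split (fun i => gI (I i)) A'
      (fun i a => ‖dot (u i (cl i j₀)) a‖ₑ ^ p)
      (fun i => ((measurable_dot _)).enorm.pow_const p)
      (fun x => ‖f x‖ₑ ^ p) (hfm.enorm.pow_const p)]
    · congr 1
      rw [← hcA', ← prod_ofReal_const hg.le A']
      refine Finset.prod_congr rfl fun i _ => ?_
      rw [lintegral_comp_dot _ (hu _ _) (fun z => ‖z‖ₑ ^ p) (measurable_id.enorm.pow_const p),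
        lintegral_enorm_rpow hp0]
    · intro i hi x a
      rw [hfB i (fun h => Finset.disjoint_left.mp hA'B hi h)]
  have e3 := tensor_K hp k I (fun α => ∑ j ∈ P, g j * om cl u j α)
  have hhdef : l2 (fun α : ∀ i, I i => ∑ j ∈ P, g j * om cl u j α) = hh cl u l g π := rfl
  rw [hhdef, ← e2] at e3
  have hh0 : 0 ≤ hh cl u l g π := l2_nonneg _
  have e4 : ∫⁻ x, ‖f x‖ₑ ^ p ∂(gX I)
      ≤ ENNReal.ofReal ((gam p ^ (k - 1 - l) * hh cl u l g π) ^ p) := by
    have hpos : 0 < (gam p ^ ((l : ℕ) + 1)) ^ p := by positivity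
    rw [← ENNReal.mul_le_mul_iff_right (ENNReal.ofReal_pos.mpr hpos).ne' ENNReal.ofReal_ne_top]
    refine e3.trans (le_of_eq ?_)
    rw [← ENNReal.ofReal_mul hpos.le, ← Real.mul_rpow (by positivity) (by positivity)]
    congr 2
    have hk : gam p ^ k = gam p ^ ((l : ℕ) + 1) * gam p ^ (k - 1 - l) := by
      rw [← pow_add]
      congr 1
      have := l.isLt
      omega
    rw [hk, mul_assoc]
  rw [e1]
  calc ENNReal.ofReal ((τs ^ (l : ℕ)) ^ p) * ∫⁻ x, ‖f x‖ₑ ^ p ∂(gX I)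
      ≤ ENNReal.ofReal ((τs ^ (l : ℕ)) ^ p)
        * ENNReal.ofReal ((gam p ^ (k - 1 - l) * hh cl u l g π) ^ p) := by gcongr
    _ = _ := by
        rw [← ENNReal.ofReal_mul (by positivity), ← Real.mul_rpow (by positivity) (by positivity),
          mul_assoc]

end Pool.Agent.H67.NP
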