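import Pool.Agent.H67.NP.Defs

/-!
# Near isometry of the two grids (§8)

For `l = 0, …, k` let `H_l = avg_j avg_σ f(∑_α v_α ∏_{i<l} y^i_j(α_i) ∏_{i≥l} σ_i(α_i))`.  `H_k` is the
first average and `H_0` the second.  `|H_{l+1} - H_l| ≤ ε`: by `avg_update`
`H_{l+1} = avg_j avg_σ avg_b f(… y^l_{update j l b}(α_l) …)` because `y^i_{update j l b} = y^i_j` for
`i < l` (`hpre`), and for fixed `j, σ` this is within `ε` of `avg_{s} f(… s(α_l) …)` by `hN1` for the
integer vector `u(a) = ∑_{α : α_l = a} v_α ∏_{i<l} y^i_j(α_i) ∏_{i>l} σ_i(α_i)`; finally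
`avg_σ avg_s g(update σ l s) = avg_σ g(σ)`.
-/

set_option autoImplicit false

open MeasureTheory ProbabilityTheory Finset BigOperators
open scoped ENNReal NNReal

namespace Pool.Agent.H67.NP

namespace NearIsoAux

theorem sum_update {κ : Type} [Fintype κ] [DecidableEq κ] {Y : κ → Type} [∀ i, Fintype (Y i)]
    (l : κ) (g : (∀ i, Y i) → ℝ) :
    ∑ x, ∑ a : Y l, g (Function.update x l a) = Fintype.card (Y l) * ∑ x, g x := by
  have h1 : ∑ x, ∑ a : Y l, g (Function.update x l a) =
      ∑ q : (∀ i, Y i) × Y l, g (Function.update q.1 l q.2) := by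
    rw [Fintype.sum_prod_type]
  have h2 : ∑ q : (∀ i, Y i) × Y l, g q.1 = Fintype.card (Y l) * ∑ x, g x := by
    rw [Fintype.sum_prod_type, Finset.mul_sum]
    refine Finset.sum_congr rfl fun x _ => ?_
    change ∑ _a : Y l, g x = _
    rw [Finset.sum_const, Finset.card_univ, nsmul_eq_mul]
  rw [h1, ← h2]
  let e : (∀ i, Y i) × Y l ≃ (∀ i, Y i) × Y l :=
    { toFun := fun q => (Function.update q.1 l q.2, q.1 l)
      invFun := fun q => (Function.update q.1 l q.2, q.1 l)
      left_inv := by
        rintro ⟨x, a⟩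
        simp
      right_inv := by
        rintro ⟨x, a⟩
        simp }
  exact Fintype.sum_equiv e _ _ fun q => rfl

theorem avg_const {S : Type} [Fintype S] [Nonempty S] (c : ℝ) : avg (fun _ : S => c) = c := by
  unfold avg
  rw [Finset.sum_const, Finset.card_univ, nsmul_eq_mul, smul_eq_mul, ← mul_assoc,
    inv_mul_cancel₀, one_mul]
  exact_mod_cast Fintype.card_ne_zero

theorem abs_avg_sub_le {S : Type} [Fintype S] [Nonempty S] {f g : S → ℝ} {ε : ℝ}
    (h : ∀ s, |f s - g s| ≤ ε) : |avg f - avg g| ≤ ε := by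
  have hc : (0 : ℝ) < Fintype.card S := by exact_mod_cast Fintype.card_pos
  unfold avg
  rw [smul_eq_mul, smul_eq_mul, ← mul_sub, ← Finset.sum_sub_distrib, abs_mul,
    abs_of_pos (inv_pos.2 hc), inv_mul_le_iff₀ hc]
  refine (Finset.abs_sum_le_sum_abs _ _).trans ?_
  refine (Finset.sum_le_sum fun s _ => h s).trans ?_
  rw [Finset.sum_const, Finset.card_univ, nsmul_eq_mul]

theorem avg_comm {S S' : Type} [Fintype S] [Fintype S'] (f : S → S' → ℝ) :
    avg (fun s => avg (fun s' => f s s')) = avg (fun s' => avg (fun s => f s s')) := by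
  unfold avg
  simp only [smul_eq_mul, Finset.mul_sum]
  rw [Finset.sum_comm]
  refine Finset.sum_congr rfl fun s' _ => Finset.sum_congr rfl fun s _ => ?_
  ring

end NearIsoAux

open NearIsoAux

theorem avg_update {k : ℕ} {Y : Fin k → Type} [∀ i, Fintype (Y i)] [∀ i, Nonempty (Y i)]
    (l : Fin k) (g : (∀ i, Y i) → ℝ) :
    avg (fun x => avg (fun a : Y l => g (Function.update x l a))) = avg g := by
  have hc : (Fintype.card (Y l) : ℝ) ≠ 0 := by exact_mod_cast Fintype.card_ne_zero
  unfold avg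
  simp only [smul_eq_mul]
  rw [← Finset.mul_sum, sum_update, ← mul_assoc (Fintype.card (Y l) : ℝ)⁻¹, inv_mul_cancel₀ hc,
    one_mul]

namespace NearIsoAux

/-- evaluation of the product tensor -/
def TT {k : ℕ} {m : Fin k → ℕ} (v : (∀ i, Fin (m i)) → ℤ) (τ : ∀ i, Fin (m i) → ℤˣ) : ℤ :=
  ∑ α, (∏ i, ((τ i (α i) : ℤˣ) : ℤ)) * v α

theorem TT_update {k : ℕ} {m : Fin k → ℕ} (v : (∀ i, Fin (m i)) → ℤ)
    (τ : ∀ i, Fin (m i) → ℤˣ) (l : Fin k) (t : Fin (m l) → ℤˣ) :
    TT v (Function.update τ l t) =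
      sdot t (fun a => ∑ α with α l = a,
        (∏ i ∈ Finset.univ.erase l, ((τ i (α i) : ℤˣ) : ℤ)) * v α) := by
  unfold TT sdot
  simp only [Finset.mul_sum]
  rw [← Finset.sum_fiberwise (s := Finset.univ) (g := fun α : (∀ i, Fin (m i)) => α l)]
  refine Finset.sum_congr rfl fun a _ => Finset.sum_congr rfl fun α hα => ?_
  rw [Finset.mem_filter] at hα
  rw [← Finset.mul_prod_erase Finset.univ _ (Finset.mem_univ l), Function.update_self, hα.2]
  have h : ∏ i ∈ Finset.univ.erase l, ((Function.update τ l t i (α i) : ℤˣ) : ℤ) =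
      ∏ i ∈ Finset.univ.erase l, ((τ i (α i) : ℤˣ) : ℤ) := by
    refine Finset.prod_congr rfl fun i hi => ?_
    rw [Function.update_of_ne (Finset.ne_of_mem_erase hi)]
  rw [h, mul_assoc]

end NearIsoAux

theorem near_isometry {k : ℕ} (m N : Fin k → ℕ) (hN : ∀ i, 0 < N i)
    (y : ∀ i, (∀ i', Fin (N i')) → Fin (m i) → ℤˣ)
    (hpre : ∀ i l, i < l → ∀ (j : ∀ i', Fin (N i')) (b : Fin (N l)),
      y i (Function.update j l b) = y i j)
    (f : ℤ → ℝ) (ε : ℝ)
    (hN1 : ∀ (l : Fin k) (j : ∀ i', Fin (N i')) (u : Fin (m l) → ℤ),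
      |avg (fun b : Fin (N l) => f (sdot (y l (Function.update j l b)) u))
        - avg (fun s : Fin (m l) → ℤˣ => f (sdot s u))| ≤ ε)
    (v : (∀ i, Fin (m i)) → ℤ) :
    |avg (fun j : (∀ i, Fin (N i)) => f (∑ α, (∏ i, ((y i j (α i) : ℤˣ) : ℤ)) * v α))
      - avg (fun σ : (∀ i, Fin (m i) → ℤˣ) => f (∑ α, (∏ i, ((σ i (α i) : ℤˣ) : ℤ)) * v α))|
      ≤ k * ε := by
  have hne : ∀ i, Nonempty (Fin (N i)) := fun i => ⟨⟨0, hN i⟩⟩
  let bs : ℕ → (∀ i, Fin (N i)) → (∀ i, Fin (m i) → ℤˣ) → ∀ i, Fin (m i) → ℤˣ :=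
    fun l j σ i => if (i : ℕ) < l then y i j else σ i
  let H : ℕ → ℝ := fun l => avg (fun j : (∀ i, Fin (N i)) =>
    avg (fun σ : (∀ i, Fin (m i) → ℤˣ) => f (TT v (bs l j σ))))
  have hH0 : H 0 = avg (fun σ : (∀ i, Fin (m i) → ℤˣ) =>
      f (∑ α, (∏ i, ((σ i (α i) : ℤˣ) : ℤ)) * v α)) := by
    have h1 : ∀ j σ, bs 0 j σ = σ := by
      intro j σ
      funext i
      simp [bs]
    simp only [H, h1]
    rw [avg_const]
    rfl
  have hHk : H k = avg (fun j : (∀ i, Fin (N i)) =>
      f (∑ α, (∏ i, ((y i j (α i) : ℤˣ) : ℤ)) * v α)) := by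
    have h1 : ∀ j σ, bs k j σ = fun i => y i j := by
      intro j σ
      funext i
      simp [bs]
    simp only [H, h1, avg_const]
    rfl
  have hstep : ∀ l : ℕ, l < k → |H (l + 1) - H l| ≤ ε := by
    intro l hl
    let l' : Fin k := ⟨l, hl⟩
    have e1 : H (l + 1) = avg (fun j : (∀ i, Fin (N i)) =>
        avg (fun σ : (∀ i, Fin (m i) → ℤˣ) =>
          avg (fun b : Fin (N l') => f (TT v (bs (l + 1) (Function.update j l' b) σ))))) := by
      have := avg_update l' (fun j : (∀ i, Fin (N i)) =>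
        avg (fun σ : (∀ i, Fin (m i) → ℤˣ) => f (TT v (bs (l + 1) j σ))))
      simp only [H]
      rw [← this]
      refine congrArg avg (funext fun j => ?_)
      rw [avg_comm]
    have e2 : H l = avg (fun j : (∀ i, Fin (N i)) =>
        avg (fun σ : (∀ i, Fin (m i) → ℤˣ) =>
          avg (fun t : Fin (m l') → ℤˣ => f (TT v (bs l j (Function.update σ l' t)))))) := by
      simp only [H]
      refine congrArg avg (funext fun j => ?_)
      exact (avg_update l' (fun σ : (∀ i, Fin (m i) → ℤˣ) => f (TT v (bs l j σ)))).symm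
    rw [e1, e2]
    refine abs_avg_sub_le fun j => abs_avg_sub_le fun σ => ?_
    have h1 : ∀ b : Fin (N l'), bs (l + 1) (Function.update j l' b) σ =
        Function.update (bs l j σ) l' (y l' (Function.update j l' b)) := by
      intro b
      funext i
      rcases lt_trichotomy (i : ℕ) l with hi | hi | hi
      · have hne' : i ≠ l' := fun h => by
          rw [h] at hi
          exact lt_irrefl _ hi
        rw [Function.update_of_ne hne']
        simp only [bs]
        rw [if_pos (by omega), if_pos hi]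
        exact hpre i l' hi j b
      · have he : i = l' := Fin.ext hi
        subst he
        rw [Function.update_self]
        simp only [bs]
        rw [if_pos (by omega)]
      · have hne' : i ≠ l' := fun h => by
          rw [h] at hi
          exact lt_irrefl _ hi
        rw [Function.update_of_ne hne']
        simp only [bs]
        rw [if_neg (by omega), if_neg (by omega)]
    have h2 : ∀ t : Fin (m l') → ℤˣ, bs l j (Function.update σ l' t) =
        Function.update (bs l j σ) l' t := by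
      intro t
      funext i
      by_cases he : i = l'
      · subst he
        rw [Function.update_self]
        simp only [bs]
        rw [if_neg (by simp [l']), Function.update_self]
      · rw [Function.update_of_ne he]
        simp only [bs]
        rw [Function.update_of_ne he]
    simp only [h1, h2, TT_update]
    exact hN1 l' j _
  have hall : ∀ l : ℕ, l ≤ k → |H l - H 0| ≤ l * ε := by
    intro l
    induction l with
    | zero => intro _; simp
    | succ l ih =>
      intro hl
      have h1 := ih (by omega)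
      have h2 := hstep l (by omega)
      have h3 : H (l + 1) - H 0 = (H (l + 1) - H l) + (H l - H 0) := by ring
      rw [h3]
      refine (abs_add_le _ _).trans ?_
      push_cast
      linarith
  rw [← hHk, ← hH0]
  exact hall k le_rfl

end Pool.Agent.H67.NP
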