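import Pool.Agent.H67.NP.Defs

/-!
# The cyclic cost `κ_q` (§1)

`cyc x` is the distance of `x ∈ ℤ/q` to `0` (`ZMod.valMinAbs`; useful: `ZMod.natAbs_valMinAbs_neg`,
`ZMod.natAbs_valMinAbs_le`, `ZMod.natAbs_valMinAbs_add_le`, `ZMod.valMinAbs_spec`,
`ZMod.valMinAbs_natAbs_eq_min`).

`le_kap` (1b): trivial if `2|t| ≥ q`; by evenness of `κ` assume `0 < t < q/2`; the residues
`u ∈ {t, …, ⌊q/2⌋}` (where `|u| = u`, `|t-u| = u-t`) and `u ∈ {⌈q/2⌉+t, …, q}` (where `|u| = q-u`,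
`|t-u| = q-(u-t)`) give terms equal to `t^p`; there are at least `q - 2t` of them.

`abs_kap_sub_le` (1c): termwise, `||a|^p - |b|^p| ≤ p max(|a|,|b|)^(p-1) |a-b|`.
-/

set_option autoImplicit false
set_option linter.unusedSectionVars false

open MeasureTheory ProbabilityTheory Finset BigOperators
open scoped ENNReal NNReal

namespace Pool.Agent.H67.NP

variable {q : ℕ} [NeZero q]

theorem cyc_nonneg (x : ZMod q) : 0 ≤ cyc x := Nat.cast_nonneg _

theorem cyc_neg (x : ZMod q) : cyc (-x) = cyc x := by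
  unfold cyc
  rw [ZMod.natAbs_valMinAbs_neg]

theorem cyc_le_half (x : ZMod q) : cyc x ≤ (q : ℝ) / 2 := by
  unfold cyc
  have h := ZMod.natAbs_valMinAbs_le x
  calc (x.valMinAbs.natAbs : ℝ) ≤ ((q / 2 : ℕ) : ℝ) := by exact_mod_cast h
    _ ≤ (q : ℝ) / 2 := by exact_mod_cast Nat.cast_div_le (α := ℝ) (m := q) (n := 2)

theorem cyc_intCast_le (t : ℤ) : cyc ((t : ℤ) : ZMod q) ≤ |(t : ℝ)| := by
  unfold cyc
  have h := ZMod.natAbs_min_of_le_div_two q ((t : ZMod q).valMinAbs) t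
    (ZMod.coe_valMinAbs _) (ZMod.natAbs_valMinAbs_le _)
  rw [← Int.cast_abs, Int.abs_eq_natAbs, Int.cast_natCast]
  exact_mod_cast h

theorem cyc_add_le (x y : ZMod q) : cyc (x + y) ≤ cyc x + cyc y := by
  unfold cyc
  have h := (ZMod.natAbs_valMinAbs_add_le x y).trans (Int.natAbs_add_le _ _)
  exact_mod_cast h

theorem abs_cyc_sub_le (x y : ZMod q) : |cyc x - cyc y| ≤ cyc (x - y) := by
  have h1 := cyc_add_le (x - y) y
  rw [sub_add_cancel] at h1
  have h2 := cyc_add_le (y - x) x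
  rw [sub_add_cancel] at h2
  have h3 : cyc (y - x) = cyc (x - y) := by rw [← cyc_neg, neg_sub]
  rw [abs_le]
  constructor <;> linarith

theorem cyc_eq_zero (x : ZMod q) : cyc x = 0 ↔ x = 0 := by
  unfold cyc
  rw [Nat.cast_eq_zero, Int.natAbs_eq_zero, ZMod.valMinAbs_eq_zero]

theorem q_pos : (0 : ℝ) < q := by exact_mod_cast NeZero.pos q

theorem kap_term_le (x u : ZMod q) : |cyc (x - u) - cyc u| ≤ cyc x := by
  have h := abs_cyc_sub_le (x - u) (-u)
  rw [cyc_neg, sub_neg_eq_add, sub_add_cancel] at h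
  exact h

theorem kap_nonneg (p : ℝ) (x : ZMod q) : 0 ≤ kap p q x := by
  unfold kap
  exact mul_nonneg (inv_nonneg.mpr (Nat.cast_nonneg _))
    (Finset.sum_nonneg fun u _ => Real.rpow_nonneg (abs_nonneg _) _)

theorem kap_le_cyc {p : ℝ} (hp : 0 < p) (x : ZMod q) : kap p q x ≤ cyc x ^ p := by
  unfold kap
  have hq := q_pos (q := q)
  rw [inv_mul_le_iff₀ hq]
  calc ∑ u : ZMod q, |cyc (x - u) - cyc u| ^ p ≤ ∑ _u : ZMod q, cyc x ^ p :=
        Finset.sum_le_sum fun u _ =>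
          Real.rpow_le_rpow (abs_nonneg _) (kap_term_le x u) hp.le
    _ = (q : ℝ) * cyc x ^ p := by
        rw [Finset.sum_const, Finset.card_univ, ZMod.card, nsmul_eq_mul]

theorem kap_intCast_le {p : ℝ} (hp : 0 < p) (t : ℤ) : kap p q ((t : ℤ) : ZMod q) ≤ |(t : ℝ)| ^ p :=
  (kap_le_cyc hp _).trans (Real.rpow_le_rpow (cyc_nonneg _) (cyc_intCast_le t) hp.le)

theorem kap_le {p : ℝ} (hp : 0 < p) (x : ZMod q) : kap p q x ≤ (q : ℝ) ^ p := by
  refine (kap_le_cyc hp _).trans (Real.rpow_le_rpow (cyc_nonneg _) ?_ hp.le)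
  have hq := q_pos (q := q)
  linarith [cyc_le_half x]

theorem kap_pos {p : ℝ} {x : ZMod q} (hx : x ≠ 0) : 0 < kap p q x := by
  unfold kap
  have hq := q_pos (q := q)
  refine mul_pos (inv_pos.mpr hq) ?_
  have h0 : 0 < cyc x := lt_of_le_of_ne (cyc_nonneg x) fun h => hx ((cyc_eq_zero x).mp h.symm)
  refine Finset.sum_pos' (fun u _ => Real.rpow_nonneg (abs_nonneg _) _)
    ⟨0, Finset.mem_univ _, ?_⟩
  have h1 : cyc (0 : ZMod q) = 0 := (cyc_eq_zero 0).mpr rfl
  rw [sub_zero, h1, sub_zero, abs_of_pos h0]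
  exact Real.rpow_pos_of_pos h0 _

theorem kap_zero {p : ℝ} (hp : 0 < p) : kap p q 0 = 0 := by
  apply le_antisymm _ (kap_nonneg p 0)
  have h := kap_le_cyc hp (0 : ZMod q)
  rwa [(cyc_eq_zero 0).mpr rfl, Real.zero_rpow hp.ne'] at h

theorem kap_neg (p : ℝ) (x : ZMod q) : kap p q (-x) = kap p q x := by
  unfold kap
  congr 1
  refine Fintype.sum_equiv (Equiv.neg _) _ _ fun u => ?_
  rw [Equiv.neg_apply, sub_neg_eq_add, cyc_neg u]
  have : cyc (-x - u) = cyc (x + u) := by rw [← cyc_neg (x + u)]; congr 1; ring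
  rw [this]

/-- the distance of a small natural number -/
theorem cyc_natCast {k : ℕ} (hk : k < q) : cyc ((k : ℕ) : ZMod q) = min (k : ℝ) (q - k) := by
  unfold cyc
  rw [ZMod.valMinAbs_natAbs_eq_min, ZMod.val_natCast_of_lt hk, Nat.cast_min, Nat.cast_sub hk.le]

theorem le_kap_nat {p : ℝ} (t : ℕ) (ht : 0 < t) (htq : 2 * t < q) :
    (t : ℝ) ^ p * (1 - 2 * (t : ℝ) / q) ≤ kap p q ((t : ℕ) : ZMod q) := by
  classical
  have hq := q_pos (q := q)
  set N : Finset ℕ := Finset.Icc t (q / 2) ∪ Finset.Ico ((q + 1) / 2 + t) q with hN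
  have hdisj : Disjoint (Finset.Icc t (q / 2)) (Finset.Ico ((q + 1) / 2 + t) q) := by
    rw [Finset.disjoint_left]
    intro k hk hk2
    rw [Finset.mem_Icc] at hk
    rw [Finset.mem_Ico] at hk2
    omega
  have hcard : q ≤ N.card + 2 * t := by
    rw [hN, Finset.card_union_of_disjoint hdisj, Nat.card_Icc, Nat.card_Ico]
    omega
  have hlt : ∀ k ∈ N, k < q := by
    intro k hk
    rw [hN, Finset.mem_union, Finset.mem_Icc, Finset.mem_Ico] at hk
    omega
  have hterm : ∀ k ∈ N, |cyc (((t : ℕ) : ZMod q) - (k : ZMod q)) - cyc (k : ZMod q)| = (t : ℝ) := by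
    intro k hk
    have hkq := hlt k hk
    have hkt : t ≤ k := by
      rw [hN, Finset.mem_union, Finset.mem_Icc, Finset.mem_Ico] at hk
      omega
    have e : cyc (((t : ℕ) : ZMod q) - (k : ZMod q)) = cyc (((k - t : ℕ) : ℕ) : ZMod q) := by
      rw [← cyc_neg, neg_sub, Nat.cast_sub hkt]
    rw [e, cyc_natCast (by omega : k - t < q), cyc_natCast hkq, Nat.cast_sub hkt]
    have htr : (t : ℝ) ≤ k := by exact_mod_cast hkt
    have ht0 : (0 : ℝ) ≤ t := Nat.cast_nonneg _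
    rw [hN, Finset.mem_union, Finset.mem_Icc, Finset.mem_Ico] at hk
    rcases hk with hk | hk
    · have h2 : 2 * k ≤ q := by omega
      have h2r : 2 * (k : ℝ) ≤ q := by exact_mod_cast h2
      rw [min_eq_left (by linarith), min_eq_left (by linarith)]
      rw [show (k : ℝ) - t - k = -t by ring, abs_neg, abs_of_nonneg ht0]
    · have h2 : q ≤ 2 * (k - t) := by omega
      have h2r : (q : ℝ) ≤ 2 * ((k : ℝ) - t) := by
        have : ((q : ℕ) : ℝ) ≤ ((2 * (k - t) : ℕ) : ℝ) := by exact_mod_cast h2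
        rwa [Nat.cast_mul, Nat.cast_sub hkt, Nat.cast_ofNat] at this
      rw [min_eq_right (by linarith), min_eq_right (by linarith)]
      rw [show (q : ℝ) - (k - t) - (q - k) = t by ring, abs_of_nonneg ht0]
  have hinj : Set.InjOn (fun k : ℕ => (k : ZMod q)) N := by
    intro a ha b hb hab
    have h := (ZMod.natCast_eq_natCast_iff' a b q).mp hab
    rwa [Nat.mod_eq_of_lt (hlt a ha), Nat.mod_eq_of_lt (hlt b hb)] at h
  have hsum : (N.card : ℝ) * (t : ℝ) ^ p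
      ≤ ∑ u : ZMod q, |cyc (((t : ℕ) : ZMod q) - u) - cyc u| ^ p := by
    calc (N.card : ℝ) * (t : ℝ) ^ p
        = ∑ k ∈ N, |cyc (((t : ℕ) : ZMod q) - (k : ZMod q)) - cyc (k : ZMod q)| ^ p := by
          rw [Finset.sum_congr rfl fun k hk => by rw [hterm k hk], Finset.sum_const,
            nsmul_eq_mul]
      _ = ∑ u ∈ N.image (fun k : ℕ => (k : ZMod q)),
            |cyc (((t : ℕ) : ZMod q) - u) - cyc u| ^ p := by
          rw [Finset.sum_image hinj]
      _ ≤ _ := Finset.sum_le_sum_of_subset_of_nonneg (Finset.subset_univ _)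
          fun u _ _ => Real.rpow_nonneg (abs_nonneg _) _
  unfold kap
  rw [le_inv_mul_iff₀ hq]
  refine le_trans ?_ hsum
  have hcr : (q : ℝ) - 2 * t ≤ N.card := by
    have : (q : ℝ) ≤ N.card + 2 * t := by exact_mod_cast hcard
    linarith
  have htp : 0 ≤ (t : ℝ) ^ p := Real.rpow_nonneg (Nat.cast_nonneg _) _
  calc (q : ℝ) * ((t : ℝ) ^ p * (1 - 2 * (t : ℝ) / q)) = (q - 2 * t) * (t : ℝ) ^ p := by
        field_simp
    _ ≤ (N.card : ℝ) * (t : ℝ) ^ p := mul_le_mul_of_nonneg_right hcr htp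

/-- (1b) -/
theorem le_kap {p : ℝ} (hp : 0 < p) (t : ℤ) :
    |(t : ℝ)| ^ p * (1 - 2 * |(t : ℝ)| / q) ≤ kap p q ((t : ℤ) : ZMod q) := by
  have hq := q_pos (q := q)
  have habs : |(t : ℝ)| = ((t.natAbs : ℕ) : ℝ) := by
    rw [← Int.cast_abs, Int.abs_eq_natAbs, Int.cast_natCast]
  have hk : kap p q ((t : ℤ) : ZMod q) = kap p q ((t.natAbs : ℕ) : ZMod q) := by
    rcases Int.natAbs_eq t with h | h
    · conv_lhs => rw [h]
      rw [Int.cast_natCast]
    · conv_lhs => rw [h]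
      rw [Int.cast_neg, Int.cast_natCast, kap_neg]
  rw [habs, hk]
  rcases Nat.eq_zero_or_pos t.natAbs with h0 | h0
  · rw [h0]
    simp only [Nat.cast_zero]
    rw [Real.zero_rpow hp.ne', zero_mul]
    exact kap_nonneg _ _
  · by_cases h2 : 2 * t.natAbs < q
    · exact le_kap_nat _ h0 h2
    · have h3 : (q : ℝ) ≤ 2 * (t.natAbs : ℝ) := by exact_mod_cast not_lt.mp h2
      have h4 : 1 - 2 * (t.natAbs : ℝ) / q ≤ 0 := by
        rw [sub_nonpos, le_div_iff₀ hq]; linarith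
      exact (mul_nonpos_of_nonneg_of_nonpos (Real.rpow_nonneg (Nat.cast_nonneg _) _) h4).trans
        (kap_nonneg _ _)

/-- tangent inequality for powers on `[0, M]` -/
theorem rpow_sub_rpow_le {p : ℝ} (hp : 1 ≤ p) {x y M : ℝ} (hy : 0 ≤ y) (hyx : y ≤ x) (hx : x ≤ M) :
    x ^ p - y ^ p ≤ p * M ^ (p - 1) * (x - y) := by
  rcases (hy.trans hyx).eq_or_lt with h0 | h0
  · have hy0 : y = 0 := le_antisymm (h0 ▸ hyx) hy
    rw [← h0, hy0]; simp
  · have h1 := one_add_mul_self_le_rpow_one_add (s := (y - x) / x)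
      (by rw [le_div_iff₀ h0]; linarith) hp
    have h2 : 1 + (y - x) / x = y / x := by field_simp; ring
    rw [h2, Real.div_rpow hy h0.le] at h1
    have hxp : 0 < x ^ p := Real.rpow_pos_of_pos h0 _
    have h3 : x ^ p * (1 + p * ((y - x) / x)) ≤ y ^ p := by
      calc x ^ p * (1 + p * ((y - x) / x)) ≤ x ^ p * (y ^ p / x ^ p) :=
            mul_le_mul_of_nonneg_left h1 hxp.le
        _ = y ^ p := by field_simp
    have h4 : x ^ p = x ^ (p - 1) * x := by
      rw [← Real.rpow_add_one h0.ne']; congr 1; ring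
    have h5 : x ^ p * (1 + p * ((y - x) / x)) = x ^ p - p * x ^ (p - 1) * (x - y) := by
      rw [h4]; field_simp; ring
    have h6 : x ^ (p - 1) ≤ M ^ (p - 1) := Real.rpow_le_rpow h0.le hx (by linarith)
    have h7 : p * x ^ (p - 1) * (x - y) ≤ p * M ^ (p - 1) * (x - y) :=
      mul_le_mul_of_nonneg_right (mul_le_mul_of_nonneg_left h6 (by linarith)) (by linarith)
    linarith

theorem abs_rpow_sub_rpow_le {p : ℝ} (hp : 1 ≤ p) {x y M : ℝ} (hx0 : 0 ≤ x) (hy0 : 0 ≤ y)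
    (hx : x ≤ M) (hy : y ≤ M) : |x ^ p - y ^ p| ≤ p * M ^ (p - 1) * |x - y| := by
  rcases le_total y x with h | h
  · rw [abs_of_nonneg (sub_nonneg.mpr h),
      abs_of_nonneg (sub_nonneg.mpr (Real.rpow_le_rpow hy0 h (by linarith)))]
    exact rpow_sub_rpow_le hp hy0 h hx
  · rw [abs_sub_comm, abs_sub_comm x y, abs_of_nonneg (sub_nonneg.mpr h),
      abs_of_nonneg (sub_nonneg.mpr (Real.rpow_le_rpow hx0 h (by linarith)))]
    exact rpow_sub_rpow_le hp hx0 h hy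

/-- (1c) -/
theorem abs_kap_sub_le {p : ℝ} (hp : 1 ≤ p) (t t' : ℤ) :
    |kap p q ((t : ℤ) : ZMod q) - kap p q ((t' : ℤ) : ZMod q)|
      ≤ p * (q : ℝ) ^ (p - 1) * |(t : ℝ) - t'| := by
  have hq := q_pos (q := q)
  set C := p * (q : ℝ) ^ (p - 1) * |(t : ℝ) - t'| with hC
  have hle : ∀ x u : ZMod q, |cyc (x - u) - cyc u| ≤ (q : ℝ) := fun x u =>
    (kap_term_le x u).trans (by linarith [cyc_le_half x])
  have hterm : ∀ u : ZMod q, |(|cyc ((t : ZMod q) - u) - cyc u| ^ p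
      - |cyc ((t' : ZMod q) - u) - cyc u| ^ p)| ≤ C := by
    intro u
    refine (abs_rpow_sub_rpow_le hp (abs_nonneg _) (abs_nonneg _) (hle _ u) (hle _ u)).trans ?_
    refine mul_le_mul_of_nonneg_left ?_
      (mul_nonneg (by linarith) (Real.rpow_nonneg hq.le _))
    refine (abs_abs_sub_abs_le_abs_sub _ _).trans ?_
    have e : cyc ((t : ZMod q) - u) - cyc u - (cyc ((t' : ZMod q) - u) - cyc u)
        = cyc ((t : ZMod q) - u) - cyc ((t' : ZMod q) - u) := by ring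
    rw [e]
    refine (abs_cyc_sub_le _ _).trans ?_
    have e2 : (t : ZMod q) - u - ((t' : ZMod q) - u) = ((t - t' : ℤ) : ZMod q) := by
      push_cast; ring
    rw [e2]
    refine (cyc_intCast_le (q := q) (t - t')).trans (le_of_eq ?_)
    rw [Int.cast_sub]
  unfold kap
  rw [← mul_sub, ← Finset.sum_sub_distrib, abs_mul, abs_of_pos (inv_pos.mpr hq),
    inv_mul_le_iff₀ hq]
  calc |∑ u : ZMod q, (|cyc ((t : ZMod q) - u) - cyc u| ^ p
          - |cyc ((t' : ZMod q) - u) - cyc u| ^ p)|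
      ≤ ∑ u : ZMod q, |(|cyc ((t : ZMod q) - u) - cyc u| ^ p
          - |cyc ((t' : ZMod q) - u) - cyc u| ^ p)| := Finset.abs_sum_le_sum_abs _ _
    _ ≤ ∑ _u : ZMod q, C := Finset.sum_le_sum fun u _ => hterm u
    _ = (q : ℝ) * C := by rw [Finset.sum_const, Finset.card_univ, ZMod.card, nsmul_eq_mul]

end Pool.Agent.H67.NP
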