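import Pool.Agent.H67.NP.Cube
import Pool.Agent.H67.NP.C3
import Pool.Agent.H67.NP.C4
import Pool.Agent.H67.NP.NearIso
import Pool.Agent.H67.NP.Torus

/-!
# The tree of sign vectors (§8): definitions and translation lemmas

`Leaf N = ∏ Fin (N i)`, `Par N i` = prefixes `(j_0,…,j_{i-1})`, `Qc N i = Par N i × Fin (N i)` the
classes of level `i`, `cl i j = (prefix, j_i)`.  `Y i : Bool × Par N i → Fin (N i) → signs` are the
two systems (`true`/`false`), `yv`, `omT` (the sign tensor `ω_j(α) = ∏_i y^i_j(α_i)`), `uT` (the unit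
vectors `y/√m`), `WT x α = ∏_i x^i_{α_i}`.

* `zW_eq_prod`: `n^(-1/2)⟨ω_j, W x⟩ = ∏_i z^i_j(x)` (`Finset.prod_univ_sum`, `√n = ∏ √m_i`).
* `lintegral_zW`: `lintegral_prod_chi_all` with `w = 0`, `τs = gam s`, `l = 0`.
* `rho_near`: `near_isometry` for `f(t) = kap P q t / q^P` and the two systems,
  `ρ^P = N⁻¹∑ kap = q^P avg f`, and `|a-b|^P ≤ |a^P-b^P|` (`Real.add_rpow_le_rpow_add`).
-/

set_option autoImplicit false

open MeasureTheory ProbabilityTheory Finset BigOperators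
open scoped ENNReal NNReal

namespace Pool.Agent.H67.NP

variable {k : ℕ}

abbrev Leaf (N : Fin k → ℕ) : Type := ∀ i, Fin (N i)

abbrev Par (N : Fin k → ℕ) (i : Fin k) : Type := ∀ i' : {i' : Fin k // i' < i}, Fin (N i'.1)

abbrev Qc (N : Fin k → ℕ) (i : Fin k) : Type := Par N i × Fin (N i)

/-- prefix of a leaf -/
def par (N : Fin k → ℕ) (i : Fin k) (j : Leaf N) : Par N i := fun i' => j i'.1

/-- class of a leaf -/
def clT (N : Fin k → ℕ) (i : Fin k) (j : Leaf N) : Qc N i := (par N i j, j i)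

/-- type of the sign families -/
abbrev Fam (m N : Fin k → ℕ) : Type :=
  ∀ i, Bool × Par N i → Fin (N i) → Fin (m i) → ℤˣ

variable {m N : Fin k → ℕ}

/-- `y^i_j` -/
def yv (Y : Fam m N) (bb : Bool) (i : Fin k) (j : Leaf N) : Fin (m i) → ℤˣ :=
  Y i (bb, par N i j) (j i)

/-- the sign tensor -/
def omT (Y : Fam m N) (bb : Bool) (j : Leaf N) (α : ∀ i, Fin (m i)) : ℤˣ :=
  ∏ i, yv Y bb i j (α i)

/-- the unit vectors -/
noncomputable def uT (Y : Fam m N) (bb : Bool) (i : Fin k) (π : Qc N i) (a : Fin (m i)) : ℝ :=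
  (√(m i : ℝ))⁻¹ * (((Y i (bb, π.1) π.2 a : ℤˣ) : ℤ) : ℝ)

/-- `W_α(x) = ∏_i x^i_{α_i}` -/
noncomputable def WT (x : ∀ i, Fin (m i) → ℝ) (α : ∀ i, Fin (m i)) : ℝ := ∏ i, x i (α i)

theorem clT_refine (N : Fin k → ℕ) (i i' : Fin k) (h : i ≤ i') (j j' : Leaf N)
    (hj : clT N i' j = clT N i' j') : clT N i j = clT N i j' := by
  have h1 : par N i' j = par N i' j' := congrArg Prod.fst hj
  have h2 : j i' = j' i' := congrArg Prod.snd hj
  have h3 : ∀ l, l ≤ i' → j l = j' l := by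
    intro l hl
    rcases hl.lt_or_eq with hlt | heq
    · exact congrFun h1 ⟨l, hlt⟩
    · subst heq
      exact h2
  refine Prod.ext ?_ (h3 i h)
  funext l
  exact h3 l.1 (le_trans l.2.le h)

theorem card_Leaf (N : Fin k → ℕ) : Fintype.card (Leaf N) = ∏ i, N i := by
  rw [Fintype.card_pi]
  exact Finset.prod_congr rfl fun i _ => Fintype.card_fin _

theorem card_Qc (N : Fin k → ℕ) (i : Fin k) :
    Fintype.card (Qc N i) = (∏ i' : {i' : Fin k // i' < i}, N i'.1) * N i := by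
  rw [Fintype.card_prod, Fintype.card_fin, Fintype.card_pi]
  congr 1
  exact Finset.prod_congr rfl fun i _ => Fintype.card_fin _

theorem units_cast_sq (u : ℤˣ) : (((u : ℤˣ) : ℤ) : ℝ) ^ 2 = 1 := by
  rcases Int.units_eq_one_or u with h | h <;> rw [h] <;> norm_num

theorem inv_sqrt_sq {n : ℕ} (hn : 0 < n) : ((√(n : ℝ))⁻¹) ^ 2 = (n : ℝ)⁻¹ := by
  rw [inv_pow, Real.sq_sqrt (Nat.cast_nonneg n)]

theorem l2_uT (hm : ∀ i, 0 < m i) (Y : Fam m N) (bb : Bool) (i : Fin k) (π : Qc N i) :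
    l2 (uT Y bb i π) = 1 := by
  have hmi : (m i : ℝ) ≠ 0 := by exact_mod_cast (hm i).ne'
  unfold l2 uT
  have h1 : ∀ a : Fin (m i), ((√(m i : ℝ))⁻¹ * (((Y i (bb, π.1) π.2 a : ℤˣ) : ℤ) : ℝ)) ^ 2
      = (m i : ℝ)⁻¹ := by
    intro a
    rw [mul_pow, units_cast_sq, inv_sqrt_sq (hm i), mul_one]
  simp_rw [h1]
  rw [Finset.sum_const, Finset.card_univ, Fintype.card_fin, nsmul_eq_mul, mul_inv_cancel₀ hmi,
    Real.sqrt_one]

theorem dot_uT_le (Y : Fam m N) (i : Fin k) (hmi : 0 < m i) (μ : ℝ)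
    (h : ∀ a j a' j', (a, j) ≠ (a', j') →
      |∑ x, (((Y i a j x : ℤˣ) : ℤ) : ℝ) * (((Y i a' j' x : ℤˣ) : ℤ) : ℝ)| ≤ m i * μ)
    (bb bb' : Bool) (π π' : Qc N i) (hne : bb ≠ bb' ∨ π ≠ π') :
    |dot (uT Y bb i π) (uT Y bb' i π')| ≤ μ := by
  have hm0 : (0 : ℝ) < m i := by exact_mod_cast hmi
  have h1 : dot (uT Y bb i π) (uT Y bb' i π') = (m i : ℝ)⁻¹ *
      ∑ x, (((Y i (bb, π.1) π.2 x : ℤˣ) : ℤ) : ℝ) * (((Y i (bb', π'.1) π'.2 x : ℤˣ) : ℤ) : ℝ) := by
    unfold dot uT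
    rw [Finset.mul_sum, ← inv_sqrt_sq hmi]
    exact Finset.sum_congr rfl fun a _ => by ring
  have hne' : (((bb, π.1), π.2) : (Bool × Par N i) × Fin (N i)) ≠ ((bb', π'.1), π'.2) := by
    intro he
    have e1 : bb = bb' := congrArg (fun q => q.1.1) he
    have e2 : π.1 = π'.1 := congrArg (fun q => q.1.2) he
    have e3 : π.2 = π'.2 := congrArg (fun q => q.2) he
    rcases hne with hb | hp
    · exact hb e1
    · exact hp (Prod.ext e2 e3)
  rw [h1, abs_mul, abs_of_pos (inv_pos.2 hm0), inv_mul_le_iff₀ hm0]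
  exact h _ _ _ _ hne'

theorem sqrt_card (m : Fin k → ℕ) :
    (√(Fintype.card (∀ i, Fin (m i)) : ℝ))⁻¹ = ∏ i, (√(m i : ℝ))⁻¹ := by
  rw [Fintype.card_pi, Nat.cast_prod]
  simp_rw [Fintype.card_fin]
  rw [Real.sqrt_prod _ fun i _ => Nat.cast_nonneg (m i), Finset.prod_inv_distrib]

theorem zW_eq_prod (hm : ∀ i, 0 < m i) (Y : Fam m N) (bb : Bool) (j : Leaf N)
    (x : ∀ i, Fin (m i) → ℝ) :
    zW (omT Y bb) j (WT x) = ∏ i, zz (clT N) (uT Y bb) i j x := by
  have _ := hm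
  unfold zW zz dot uT clT omT WT yv
  rw [Finset.prod_univ_sum, Fintype.piFinset_univ, sqrt_card, Finset.mul_sum]
  refine Finset.sum_congr rfl fun α _ => ?_
  rw [Finset.prod_mul_distrib, Finset.prod_mul_distrib, Units.coe_prod, Int.cast_prod, mul_assoc]

theorem lintegral_zW {s : ℝ} (hs : 0 < s) (hm : ∀ i, 0 < m i) (Y : Fam m N) (bb : Bool)
    (j : Leaf N) :
    ∫⁻ x, ‖zW (omT Y bb) j (WT x)‖ₑ ^ s ∂(gX fun i => Fin (m i))
      = ENNReal.ofReal ((gam s ^ k) ^ s) := by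
  have hw : ∫⁻ x, ‖psi 0 x‖ₑ ^ s ∂(gaussianReal 0 1) = ENNReal.ofReal (gam s ^ s) := by
    have h0 : ∀ x : ℝ, psi 0 x = x := by
      intro x
      unfold psi
      ring
    simp_rw [h0]
    exact lintegral_enorm_rpow hs
  have h1 := lintegral_prod_chi_all hs (gam_pos hs) hw (clT N) (uT Y bb) (l2_uT hm Y bb) 0
    (Nat.zero_le k) j
  rw [pow_zero, one_mul, Nat.sub_zero] at h1
  rw [← h1]
  refine lintegral_congr fun x => ?_
  rw [zW_eq_prod hm]
  rfl

theorem measurable_WT : Measurable (fun (x : ∀ i, Fin (m i) → ℝ) => WT x) := by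
  refine measurable_pi_iff.2 fun α => ?_
  unfold WT
  exact Finset.measurable_fun_prod _ fun i _ =>
    (measurable_pi_apply (α i)).comp (measurable_pi_apply i)

theorem abs_rpow_sub_le {P a b : ℝ} (hP : 1 ≤ P) (ha : 0 ≤ a) (hb : 0 ≤ b) :
    |a ^ (1 / P) - b ^ (1 / P)| ≤ |a - b| ^ (1 / P) := by
  have hP0 : 0 < P := by linarith
  have h1P : 0 ≤ 1 / P := by positivity
  have h1P' : 1 / P ≤ 1 := by
    rw [div_le_one hP0]
    exact hP
  have key : ∀ a b : ℝ, 0 ≤ b → b ≤ a → |a ^ (1 / P) - b ^ (1 / P)| ≤ |a - b| ^ (1 / P) := by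
    intro a b hb hab
    have h1 : b ^ (1 / P) ≤ a ^ (1 / P) := Real.rpow_le_rpow hb hab h1P
    rw [abs_of_nonneg (by linarith), abs_of_nonneg (by linarith)]
    have h2 := Real.rpow_add_le_add_rpow (a := a - b) (b := b) (by linarith) hb h1P h1P'
    rw [sub_add_cancel] at h2
    linarith
  rcases le_total b a with h | h
  · exact key a b hb h
  · rw [abs_sub_comm, abs_sub_comm a b]
    exact key b a ha h

theorem rho_near {P : ℝ} (hP : 1 ≤ P) (q : ℕ) [NeZero q] (hN : ∀ i, 0 < N i) (Y : Fam m N) (ε : ℝ)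
    (hε : 0 ≤ ε)
    (hN1 : ∀ (i : Fin k) (a : Bool × Par N i) (u : Fin (m i) → ℤ),
      |avg (fun j : Fin (N i) => kap P q ((sdot (Y i a j) u : ℤ) : ZMod q) / (q : ℝ) ^ P)
        - avg (fun s : Fin (m i) → ℤˣ => kap P q ((sdot s u : ℤ) : ZMod q) / (q : ℝ) ^ P)| ≤ ε)
    (v : (∀ i, Fin (m i)) → ℤ) :
    |rho P q (modq q (iota (omT Y true) v)) - rho P q (modq q (iota (omT Y false) v))|
      ≤ (2 * k * ε) ^ (1 / P) * q := by
  have hP0 : 0 < P := by linarith
  have hq : (0 : ℝ) < q := by exact_mod_cast NeZero.pos q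
  have hqP : (0 : ℝ) < (q : ℝ) ^ P := Real.rpow_pos_of_pos hq P
  set f : ℤ → ℝ := fun t => kap P q ((t : ℤ) : ZMod q) / (q : ℝ) ^ P with hf
  set A : Bool → ℝ := fun bb => avg (fun j : Leaf N => f (iota (omT Y bb) v j)) with hA
  have hA0 : ∀ bb, 0 ≤ A bb := by
    intro bb
    simp only [hA, avg, smul_eq_mul]
    refine mul_nonneg (inv_nonneg.2 (Nat.cast_nonneg _)) (Finset.sum_nonneg fun j _ => ?_)
    exact div_nonneg (kap_nonneg P _) hqP.le
  have hrho : ∀ bb, rho P q (modq q (iota (omT Y bb) v)) = q * A bb ^ (1 / P) := by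
    intro bb
    have h1 : (Fintype.card (Leaf N) : ℝ)⁻¹ * ∑ j, kap P q (modq q (iota (omT Y bb) v) j)
        = (q : ℝ) ^ P * A bb := by
      simp only [hA, avg, smul_eq_mul, hf, modq]
      rw [← Finset.sum_div]
      field_simp
    unfold rho
    rw [h1, Real.mul_rpow hqP.le (hA0 bb), ← Real.rpow_mul hq.le, mul_one_div_cancel hP0.ne',
      Real.rpow_one]
  have hni : ∀ bb, |A bb - avg (fun σ : (∀ i, Fin (m i) → ℤˣ) =>
      f (∑ α, (∏ i, ((σ i (α i) : ℤˣ) : ℤ)) * v α))| ≤ k * ε := by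
    intro bb
    have h1 := near_isometry m N hN (fun i j => yv Y bb i j) ?_ f ε ?_ v
    · have h2 : (fun j : Leaf N => f (iota (omT Y bb) v j)) =
          fun j : (∀ i, Fin (N i)) => f (∑ α, (∏ i, ((yv Y bb i j (α i) : ℤˣ) : ℤ)) * v α) := by
        funext j
        unfold iota omT
        congr 1
        refine Finset.sum_congr rfl fun α _ => ?_
        rw [Units.coe_prod]
      simp only [hA]
      rw [h2]
      exact h1
    · intro i l hil j b
      unfold yv par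
      have e1 : (fun i' : {i' : Fin k // i' < i} => Function.update j l b i'.1) =
          fun i' : {i' : Fin k // i' < i} => j i'.1 := by
        funext i'
        exact Function.update_of_ne (ne_of_lt (lt_trans i'.2 hil)) _ _
      have e2 : Function.update j l b i = j i := Function.update_of_ne (ne_of_lt hil) _ _
      simp only [e1, e2]
    · intro l j u
      have h3 := hN1 l (bb, par N l j) u
      have h4 : ∀ b : Fin (N l), yv Y bb l (Function.update j l b) = Y l (bb, par N l j) b := by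
        intro b
        unfold yv par
        have e1 : (fun i' : {i' : Fin k // i' < l} => Function.update j l b i'.1) =
            fun i' : {i' : Fin k // i' < l} => j i'.1 := by
          funext i'
          exact Function.update_of_ne (ne_of_lt i'.2) _ _
        simp only [e1, Function.update_self]
      simp only [h4]
      exact h3
  have hdiff : |A true - A false| ≤ 2 * k * ε := by
    have h1 := hni true
    have h2 := hni false
    rw [abs_le] at h1 h2 ⊢
    constructor <;> nlinarith [h1.1, h1.2, h2.1, h2.2]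
  rw [hrho, hrho, ← mul_sub, abs_mul, abs_of_pos hq, mul_comm]
  refine mul_le_mul_of_nonneg_right ?_ hq.le
  refine (abs_rpow_sub_le hP (hA0 _) (hA0 _)).trans ?_
  exact Real.rpow_le_rpow (abs_nonneg _) hdiff (by positivity)

end Pool.Agent.H67.NP
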