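import Pool.Agent.H67.NP.HVec
import Pool.Agent.H67.NP.Cube

/-!
# The big root classes (§5)

`rt : J → R` is a class map coarser than every `cl l` (`hrt`).
* `l2_om`: the tensors are unit vectors: `∑_α ∏_i u_i(α_i)² = ∏_i ∑_a u_i(a)²`
  (`Finset.prod_univ_sum`).
* `sum_bet`: every nonempty class `π` of level `l` lies in exactly one root class, so
  `∑_r bet_{l,r} = ∑_π h_π² = B_l²`.
* `card_BigS`: for every `l` at most `a⁻²` classes `r` have `bet_{l,r} > a² B_l²`.
* `hh_nb_le`: if the root class of `π` is not big then `h_π² ≤ bet_{l,r} ≤ a² B_l²`; otherwise the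
  restricted sum vanishes.
* `sum_hh_nb`: `∑ (h^nb_π)^p ≤ (a B_l)^(p-2) ∑ h_π² = a^(p-2) B_l^p`.
* `tsum_BB`: `H_const` with index set `Q l × ∏ I i`, `a_j(π,α) = 1[cl_l j = π] ω̂_j(α)`, `|a_j|₂ = 1`.
-/

set_option autoImplicit false

open MeasureTheory ProbabilityTheory Finset BigOperators
open scoped ENNReal NNReal

namespace Pool.Agent.H67.NP

variable {k : ℕ} {I Q : Fin k → Type} [∀ i, Fintype (I i)] [∀ i, Fintype (Q i)]
  [∀ i, DecidableEq (Q i)] {J : Type} [Fintype J] {R : Type} [Fintype R] [DecidableEq R]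

theorem bs_l2_zero {I' : Type} [Fintype I'] : l2 (fun _ : I' => (0 : ℝ)) = 0 := by
  unfold l2
  simp

theorem l2_om (cl : ∀ i, J → Q i) (u : ∀ i, Q i → I i → ℝ) (hu : ∀ i π, l2 (u i π) = 1) (j : J) :
    l2 (om cl u j) = 1 := by
  have h1 : l2 (om cl u j) ^ 2 = 1 := by
    rw [l2_sq]
    have h2 : ∑ α : ∀ i, I i, om cl u j α ^ 2 = ∏ i, ∑ a : I i, u i (cl i j) a ^ 2 := by
      rw [Finset.prod_univ_sum, Fintype.piFinset_univ]
      refine Finset.sum_congr rfl fun α _ => ?_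
      unfold om
      rw [Finset.prod_pow]
    rw [h2]
    refine Finset.prod_eq_one fun i _ => ?_
    rw [← l2_sq, hu, one_pow]
  have h0 := l2_nonneg (om cl u j)
  nlinarith [h1, h0]

/-- a class lies in one root class -/
theorem bs_rt_const {rt : J → R} {l : Fin k} {cl : ∀ i, J → Q i}
    (hrt : ∀ j j', cl l j = cl l j' → rt j = rt j') {π : Q l} {j0 : J} (h0 : cl l j0 = π) {j : J}
    (hj : cl l j = π) : rt j = rt j0 := hrt _ _ (hj.trans h0.symm)

theorem bs_restr_eq (cl : ∀ i, J → Q i) (u : ∀ i, Q i → I i → ℝ) (rt : J → R) (l : Fin k)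
    (hrt : ∀ j j', cl l j = cl l j' → rt j = rt j') (g : J → ℝ) {π : Q l} {j0 : J}
    (h0 : cl l j0 = π) :
    (l2 fun α : ∀ i, I i => ∑ j with (cl l j = π ∧ rt j = rt j0), g j * om cl u j α) =
      hh cl u l g π := by
  unfold hh
  congr 1
  funext α
  refine Finset.sum_congr ?_ fun _ _ => rfl
  ext j
  simp only [Finset.mem_filter, Finset.mem_univ, true_and]
  exact ⟨fun h => h.1, fun h => ⟨h, bs_rt_const hrt h0 h⟩⟩

theorem bs_hh_empty (cl : ∀ i, J → Q i) (u : ∀ i, Q i → I i → ℝ) (l : Fin k) (g : J → ℝ) {π : Q l}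
    (h : ∀ j, cl l j ≠ π) : hh cl u l g π = 0 := by
  unfold hh
  have : (fun α : ∀ i, I i => ∑ j with cl l j = π, g j * om cl u j α) = fun _ => 0 := by
    funext α
    refine Finset.sum_eq_zero fun j hj => ?_
    exact absurd (Finset.mem_filter.1 hj).2 (h j)
  rw [this, bs_l2_zero]

theorem bs_sum_bet (cl : ∀ i, J → Q i) (u : ∀ i, Q i → I i → ℝ) (rt : J → R) (l : Fin k)
    (hrt : ∀ j j', cl l j = cl l j' → rt j = rt j') (g : J → ℝ) (π : Q l) :
    ∑ r, (l2 fun α : ∀ i, I i => ∑ j with (cl l j = π ∧ rt j = r), g j * om cl u j α) ^ 2 =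
      hh cl u l g π ^ 2 := by
  by_cases hex : ∃ j0, cl l j0 = π
  · obtain ⟨j0, h0⟩ := hex
    rw [Finset.sum_eq_single (rt j0), bs_restr_eq cl u rt l hrt g h0]
    · intro r _ hr
      have : (fun α : ∀ i, I i => ∑ j with (cl l j = π ∧ rt j = r), g j * om cl u j α) =
          fun _ => 0 := by
        funext α
        refine Finset.sum_eq_zero fun j hj => ?_
        have hj' := (Finset.mem_filter.1 hj).2
        exact absurd ((hj'.2.symm.trans (bs_rt_const hrt h0 hj'.1))) hr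
      rw [this, bs_l2_zero]
      norm_num
    · intro h
      exact absurd (Finset.mem_univ _) h
  · push Not at hex
    rw [bs_hh_empty cl u l g hex]
    rw [Finset.sum_eq_zero]
    · norm_num
    · intro r _
      have : (fun α : ∀ i, I i => ∑ j with (cl l j = π ∧ rt j = r), g j * om cl u j α) =
          fun _ => 0 := by
        funext α
        refine Finset.sum_eq_zero fun j hj => ?_
        have hj' := (Finset.mem_filter.1 hj).2
        exact absurd hj'.1 (hex j)
      rw [this, bs_l2_zero]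
      norm_num

theorem bs_BB_sq (cl : ∀ i, J → Q i) (u : ∀ i, Q i → I i → ℝ) (l : Fin k) (g : J → ℝ) :
    BB cl u l g ^ 2 = ∑ π, hh cl u l g π ^ 2 := by
  unfold BB
  exact Real.sq_sqrt (Finset.sum_nonneg fun _ _ => sq_nonneg _)

theorem bs_BB_nonneg (cl : ∀ i, J → Q i) (u : ∀ i, Q i → I i → ℝ) (l : Fin k) (g : J → ℝ) :
    0 ≤ BB cl u l g := Real.sqrt_nonneg _

theorem bs_bet_nonneg (cl : ∀ i, J → Q i) (u : ∀ i, Q i → I i → ℝ) (rt : J → R) (l : Fin k)
    (g : J → ℝ) (r : R) : 0 ≤ bet cl u rt l g r := Finset.sum_nonneg fun _ _ => sq_nonneg _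

theorem bs_hh_nonneg (cl : ∀ i, J → Q i) (u : ∀ i, Q i → I i → ℝ) (l : Fin k) (g : J → ℝ)
    (π : Q l) : 0 ≤ hh cl u l g π := l2_nonneg _

theorem sum_bet (cl : ∀ i, J → Q i) (u : ∀ i, Q i → I i → ℝ) (rt : J → R) (l : Fin k)
    (hrt : ∀ j j', cl l j = cl l j' → rt j = rt j') (g : J → ℝ) :
    ∑ r, bet cl u rt l g r = BB cl u l g ^ 2 := by
  unfold bet
  rw [Finset.sum_comm, bs_BB_sq]
  exact Finset.sum_congr rfl fun π _ => bs_sum_bet cl u rt l hrt g π

theorem card_BigS (cl : ∀ i, J → Q i) (u : ∀ i, Q i → I i → ℝ) (rt : J → R)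
    (hrt : ∀ l j j', cl l j = cl l j' → rt j = rt j') (a : ℝ) (ha : 0 < a) (g : J → ℝ) :
    ((BigS cl u rt a g).card : ℝ) ≤ k / a ^ 2 := by
  classical
  have ha2 : 0 < a ^ 2 := by positivity
  let T : Fin k → Finset R := fun l =>
    Finset.univ.filter fun r => a ^ 2 * BB cl u l g ^ 2 < bet cl u rt l g r
  have hT : ∀ l, ((T l).card : ℝ) ≤ 1 / a ^ 2 := by
    intro l
    rcases (T l).eq_empty_or_nonempty with he | ⟨r0, hr0⟩
    · rw [he]
      simp only [Finset.card_empty, Nat.cast_zero]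
      positivity
    · have hsum : ((T l).card : ℝ) * (a ^ 2 * BB cl u l g ^ 2) ≤ BB cl u l g ^ 2 := by
        rw [← nsmul_eq_mul, ← sum_bet cl u rt l (hrt l) g]
        calc (T l).card • (a ^ 2 * ∑ r, bet cl u rt l g r) ≤ ∑ r ∈ T l, bet cl u rt l g r := by
              refine Finset.card_nsmul_le_sum _ _ _ fun r hr => ?_
              rw [sum_bet cl u rt l (hrt l) g]
              exact (Finset.mem_filter.1 hr).2.le
          _ ≤ ∑ r, bet cl u rt l g r :=
              Finset.sum_le_sum_of_subset_of_nonneg (Finset.subset_univ _)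
                fun r _ _ => bs_bet_nonneg cl u rt l g r
      have hpos : 0 < BB cl u l g ^ 2 := by
        rcases (sq_nonneg (BB cl u l g)).eq_or_lt with h0 | h0
        · exfalso
          have h1 := (Finset.mem_filter.1 hr0).2
          rw [← h0, mul_zero] at h1
          have h2 : bet cl u rt l g r0 ≤ ∑ r, bet cl u rt l g r :=
            Finset.single_le_sum (fun r _ => bs_bet_nonneg cl u rt l g r) (Finset.mem_univ r0)
          rw [sum_bet cl u rt l (hrt l) g, ← h0] at h2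
          linarith
        · exact h0
      rw [le_div_iff₀ ha2]
      have h3 : ((T l).card : ℝ) * a ^ 2 * BB cl u l g ^ 2 ≤ 1 * BB cl u l g ^ 2 := by
        rw [one_mul]
        calc _ = ((T l).card : ℝ) * (a ^ 2 * BB cl u l g ^ 2) := by ring
          _ ≤ _ := hsum
      exact le_of_mul_le_mul_right h3 hpos
  have hsub : BigS cl u rt a g ⊆ Finset.univ.biUnion T := by
    intro r hr
    unfold BigS at hr
    obtain ⟨l, hl⟩ := (Finset.mem_filter.1 hr).2
    exact Finset.mem_biUnion.2 ⟨l, Finset.mem_univ _, Finset.mem_filter.2 ⟨Finset.mem_univ _, hl⟩⟩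
  calc ((BigS cl u rt a g).card : ℝ) ≤ ((Finset.univ.biUnion T).card : ℝ) := by
        exact_mod_cast Finset.card_le_card hsub
    _ ≤ ∑ l, ((T l).card : ℝ) := by exact_mod_cast Finset.card_biUnion_le
    _ ≤ ∑ _l : Fin k, 1 / a ^ 2 := Finset.sum_le_sum fun l _ => hT l
    _ = k / a ^ 2 := by
        rw [Finset.sum_const, Finset.card_univ, Fintype.card_fin, nsmul_eq_mul]
        ring

theorem bs_hh_nb_mem (cl : ∀ i, J → Q i) (u : ∀ i, Q i → I i → ℝ) (rt : J → R) (l : Fin k)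
    (hrt : ∀ j j', cl l j = cl l j' → rt j = rt j') (S : Finset R) (g : J → ℝ) {π : Q l} {j0 : J}
    (h0 : cl l j0 = π) (hS : rt j0 ∈ S) : hh cl u l (nb rt S g) π = 0 := by
  unfold hh
  have : (fun α : ∀ i, I i => ∑ j with cl l j = π, nb rt S g j * om cl u j α) = fun _ => 0 := by
    funext α
    refine Finset.sum_eq_zero fun j hj => ?_
    have hj' := bs_rt_const hrt h0 (Finset.mem_filter.1 hj).2
    unfold nb
    rw [if_pos (by rw [hj']; exact hS), zero_mul]
  rw [this, bs_l2_zero]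

theorem bs_hh_nb_notMem (cl : ∀ i, J → Q i) (u : ∀ i, Q i → I i → ℝ) (rt : J → R) (l : Fin k)
    (hrt : ∀ j j', cl l j = cl l j' → rt j = rt j') (S : Finset R) (g : J → ℝ) {π : Q l} {j0 : J}
    (h0 : cl l j0 = π) (hS : rt j0 ∉ S) : hh cl u l (nb rt S g) π = hh cl u l g π := by
  unfold hh
  congr 1
  funext α
  refine Finset.sum_congr rfl fun j hj => ?_
  have hj' := bs_rt_const hrt h0 (Finset.mem_filter.1 hj).2
  unfold nb
  rw [if_neg (by rw [hj']; exact hS)]

theorem hh_nb_le_self (cl : ∀ i, J → Q i) (u : ∀ i, Q i → I i → ℝ) (rt : J → R) (l : Fin k)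
    (hrt : ∀ j j', cl l j = cl l j' → rt j = rt j') (S : Finset R) (g : J → ℝ) (π : Q l) :
    hh cl u l (nb rt S g) π ≤ hh cl u l g π := by
  by_cases hex : ∃ j0, cl l j0 = π
  · obtain ⟨j0, h0⟩ := hex
    by_cases hS : rt j0 ∈ S
    · rw [bs_hh_nb_mem cl u rt l hrt S g h0 hS]
      exact bs_hh_nonneg cl u l g π
    · rw [bs_hh_nb_notMem cl u rt l hrt S g h0 hS]
  · push Not at hex
    rw [bs_hh_empty cl u l _ hex]
    exact bs_hh_nonneg cl u l g π

theorem hh_nb_le (cl : ∀ i, J → Q i) (u : ∀ i, Q i → I i → ℝ) (rt : J → R)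
    (hrt : ∀ l j j', cl l j = cl l j' → rt j = rt j') (a : ℝ) (ha : 0 < a) (g : J → ℝ)
    (l : Fin k) (π : Q l) :
    hh cl u l (nb rt (BigS cl u rt a g) g) π ≤ a * BB cl u l g := by
  have hnn : 0 ≤ a * BB cl u l g := mul_nonneg ha.le (bs_BB_nonneg cl u l g)
  by_cases hex : ∃ j0, cl l j0 = π
  · obtain ⟨j0, h0⟩ := hex
    by_cases hS : rt j0 ∈ BigS cl u rt a g
    · rw [bs_hh_nb_mem cl u rt l (hrt l) _ g h0 hS]
      exact hnn
    · rw [bs_hh_nb_notMem cl u rt l (hrt l) _ g h0 hS]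
      have h1 : bet cl u rt l g (rt j0) ≤ a ^ 2 * BB cl u l g ^ 2 := by
        by_contra hlt
        push Not at hlt
        apply hS
        unfold BigS
        exact Finset.mem_filter.2 ⟨Finset.mem_univ _, l, hlt⟩
      have h2 : hh cl u l g π ^ 2 ≤ bet cl u rt l g (rt j0) := by
        rw [← bs_restr_eq cl u rt l (hrt l) g h0]
        unfold bet
        exact Finset.single_le_sum (f := fun π : Q l => (l2 fun α : ∀ i, I i =>
          ∑ j with (cl l j = π ∧ rt j = rt j0), g j * om cl u j α) ^ 2)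
          (fun _ _ => sq_nonneg _) (Finset.mem_univ π)
      refine le_of_sq_le_sq ?_ hnn
      rw [mul_pow]
      exact h2.trans h1
  · push Not at hex
    rw [bs_hh_empty cl u l _ hex]
    exact hnn

theorem sum_hh_nb {p : ℝ} (hp : 2 < p) (cl : ∀ i, J → Q i) (u : ∀ i, Q i → I i → ℝ) (rt : J → R)
    (hrt : ∀ l j j', cl l j = cl l j' → rt j = rt j') (a : ℝ) (ha : 0 < a) (g : J → ℝ)
    (l : Fin k) :
    ∑ π, hh cl u l (nb rt (BigS cl u rt a g) g) π ^ p ≤ a ^ (p - 2) * BB cl u l g ^ p := by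
  have hB := bs_BB_nonneg cl u l g
  have hsplit : ∀ x : ℝ, 0 ≤ x → x ^ p = x ^ (p - 2) * x ^ 2 := by
    intro x hx
    rw [← Real.rpow_two, ← Real.rpow_add' hx (by linarith)]
    congr 1
    ring
  calc ∑ π, hh cl u l (nb rt (BigS cl u rt a g) g) π ^ p
      ≤ ∑ π, (a * BB cl u l g) ^ (p - 2) * hh cl u l g π ^ 2 := by
        refine Finset.sum_le_sum fun π _ => ?_
        rw [hsplit _ (bs_hh_nonneg cl u l _ π)]
        refine mul_le_mul ?_ ?_ (sq_nonneg _) (Real.rpow_nonneg (mul_nonneg ha.le hB) _)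
        · exact Real.rpow_le_rpow (bs_hh_nonneg cl u l _ π) (hh_nb_le cl u rt hrt a ha g l π)
            (by linarith)
        · exact pow_le_pow_left₀ (bs_hh_nonneg cl u l _ π)
            (hh_nb_le_self cl u rt l (hrt l) _ g π) 2
    _ = (a * BB cl u l g) ^ (p - 2) * BB cl u l g ^ 2 := by rw [← Finset.mul_sum, bs_BB_sq]
    _ = a ^ (p - 2) * BB cl u l g ^ p := by
        rw [Real.mul_rpow ha.le hB, hsplit _ hB]
        ring

theorem tsum_BB {p D₁ : ℝ} (hp : 1 ≤ p) (hD₁ : 0 ≤ D₁) [Nonempty J] (cl : ∀ i, J → Q i)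
    (u : ∀ i, Q i → I i → ℝ) (hu : ∀ i π, l2 (u i π) = 1) {G : J → ℕ → ℝ} (hG : L1bd p D₁ G)
    (l : Fin k) :
    ∑' s, ENNReal.ofReal (BB cl u l (fun j => G j s)) ^ p ≤ ENNReal.ofReal (D₁ ^ p) := by
  have hp0 : 0 < p := by linarith
  let A : J → (Q l × ∀ i, I i) → ℝ := fun j x => if cl l j = x.1 then om cl u j x.2 else 0
  have hA : ∀ j, l2 (A j) = 1 := by
    intro j
    have h1 : l2 (A j) ^ 2 = 1 := by
      rw [l2_sq, Fintype.sum_prod_type]
      have h2 : ∀ π : Q l, ∑ α : ∀ i, I i, A j (π, α) ^ 2 = if cl l j = π then 1 else 0 := by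
        intro π
        by_cases h : cl l j = π
        · simp only [A, h, if_true]
          rw [← l2_sq, l2_om cl u hu, one_pow]
        · simp [A, h]
      simp only [h2]
      rw [Finset.sum_ite_eq, if_pos (Finset.mem_univ _)]
    have h0 := l2_nonneg (A j)
    nlinarith [h1, h0]
  have hBB : ∀ s, BB cl u l (fun j => G j s) = l2 fun x => ∑ j, G j s * A j x := by
    intro s
    have h1 : BB cl u l (fun j => G j s) ^ 2 = (l2 fun x => ∑ j, G j s * A j x) ^ 2 := by
      rw [bs_BB_sq, l2_sq, Fintype.sum_prod_type]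
      refine Finset.sum_congr rfl fun π _ => ?_
      unfold hh
      rw [l2_sq]
      refine Finset.sum_congr rfl fun α _ => ?_
      congr 1
      rw [Finset.sum_filter]
      refine Finset.sum_congr rfl fun j _ => ?_
      simp only [A, mul_ite, mul_zero]
    exact (pow_left_inj₀ (bs_BB_nonneg cl u l _) (l2_nonneg _) (by norm_num)).1 h1
  simp_rw [hBB]
  refine (H_const hp hG A).trans ?_
  have h3 : ∑ j, ENNReal.ofReal (l2 (A j)) ^ p = (Fintype.card J : ℝ≥0∞) := by
    simp [hA]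
  rw [h3]
  have hN : (0 : ℝ) < Fintype.card J := by exact_mod_cast Fintype.card_pos
  rw [← ENNReal.ofReal_natCast, ← ENNReal.ofReal_mul (div_nonneg (Real.rpow_nonneg hD₁ _) hN.le),
    div_mul_cancel₀ _ hN.ne']

end Pool.Agent.H67.NP
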