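import Pool.Agent.H67.NP.C4
import Pool.Agent.H67.NP.BigSets

/-!
# (C4), summed (§5)

`‖ (∑_π |c^nb_π|^p)^(1/p) ‖_{L_p(s,x)} ≤ a^((p-2)/p) D₁ τs^l gam^(k-1-l)`:
`∑_s ∫ ∑_π |c_π|^p ≤ (τs^l gam^(k-1-l))^p ∑_s ∑_π (h^nb_π(s))^p` (`C4`),
`≤ (..)^p a^(p-2) ∑_s B_l(s)^p` (`sum_hh_nb`) `≤ (..)^p a^(p-2) D₁^p` (`tsum_BB`).
-/

set_option autoImplicit false

open MeasureTheory ProbabilityTheory Finset BigOperators
open scoped ENNReal NNReal

namespace Pool.Agent.H67.NP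

variable {k : ℕ} {I Q : Fin k → Type} [∀ i, Fintype (I i)] [∀ i, Fintype (Q i)]
  [∀ i, DecidableEq (Q i)] {J : Type} [Fintype J] {R : Type} [Fintype R] [DecidableEq R]

theorem C4sum {p w τs D₁ : ℝ} (hp : 2 < p) (hτ : 0 < τs) (hD₁ : 0 ≤ D₁) [Nonempty J]
    (hw : ∫⁻ x, ‖psi w x‖ₑ ^ p ∂(gaussianReal 0 1) = ENNReal.ofReal (τs ^ p))
    (cl : ∀ i, J → Q i) (hcl : ∀ i i', i ≤ i' → ∀ j j', cl i' j = cl i' j' → cl i j = cl i j')
    (u : ∀ i, Q i → I i → ℝ) (hu : ∀ i π, l2 (u i π) = 1) (rt : J → R)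
    (hrt : ∀ l j j', cl l j = cl l j' → rt j = rt j') {G : J → ℕ → ℝ}
    (hG : L1bd p D₁ G) (a : ℝ) (ha : 0 < a) (l : Fin k) :
    NN p (gX I) (fun s x => ENNReal.ofReal
        ((∑ π, |cc cl u w l (nb rt (BigS cl u rt a fun j => G j s) fun j => G j s) π x| ^ p)
          ^ (1 / p)))
      ≤ ENNReal.ofReal (a ^ ((p - 2) / p) * D₁ * (τs ^ (l : ℕ) * gam p ^ (k - 1 - l))) := by
  have hp0 : 0 < p := by linarith
  set T : ℝ := τs ^ (l : ℕ) * gam p ^ (k - 1 - l) with hT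
  have hT0 : 0 ≤ T := by
    have := gam_pos hp0
    positivity
  have hC : 0 ≤ a ^ ((p - 2) / p) * D₁ * T := by positivity
  rw [NN_le_iff hp0 _ _ hC]
  set g : ℕ → J → ℝ := fun s => nb rt (BigS cl u rt a fun j => G j s) fun j => G j s with hg
  have h1 : ∀ (s : ℕ) (x : ∀ i, I i → ℝ),
      ENNReal.ofReal ((∑ π, |cc cl u w l (g s) π x| ^ p) ^ (1 / p)) ^ p
        = ∑ π, ‖cc cl u w l (g s) π x‖ₑ ^ p := by
    intro s x
    have hnn : ∀ π, 0 ≤ |cc cl u w l (g s) π x| ^ p := fun π => by positivity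
    have hsum : 0 ≤ ∑ π, |cc cl u w l (g s) π x| ^ p := Finset.sum_nonneg fun π _ => hnn π
    rw [ENNReal.ofReal_rpow_of_nonneg (by positivity) hp0.le, ← Real.rpow_mul hsum,
      one_div_mul_cancel hp0.ne', Real.rpow_one, ENNReal.ofReal_sum_of_nonneg fun π _ => hnn π]
    refine Finset.sum_congr rfl fun π _ => ?_
    rw [← ENNReal.ofReal_rpow_of_nonneg (abs_nonneg _) hp0.le, Real.enorm_eq_ofReal_abs]
  have h2 : ∀ s, ∫⁻ x, ENNReal.ofReal ((∑ π, |cc cl u w l (g s) π x| ^ p) ^ (1 / p)) ^ p ∂(gX I)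
      ≤ ENNReal.ofReal (T ^ p * a ^ (p - 2)) * ENNReal.ofReal (BB cl u l fun j => G j s) ^ p := by
    intro s
    simp_rw [h1]
    rw [lintegral_finsetSum _ fun π _ => ((measurable_cc cl u w l (g s) π).enorm.pow_const p)]
    have hhn : ∀ π, 0 ≤ hh cl u l (g s) π := fun π => l2_nonneg _
    have hBn : 0 ≤ BB cl u l fun j => G j s := Real.sqrt_nonneg _
    calc ∑ π, ∫⁻ x, ‖cc cl u w l (g s) π x‖ₑ ^ p ∂(gX I)
        ≤ ∑ π, ENNReal.ofReal ((T * hh cl u l (g s) π) ^ p) :=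
          Finset.sum_le_sum fun π _ => C4 hp.le hτ hw cl hcl u hu l (g s) π
      _ = ENNReal.ofReal (∑ π, (T * hh cl u l (g s) π) ^ p) := by
          rw [ENNReal.ofReal_sum_of_nonneg fun π _ => Real.rpow_nonneg (mul_nonneg hT0 (hhn π)) _]
      _ ≤ ENNReal.ofReal (T ^ p * a ^ (p - 2) * (BB cl u l fun j => G j s) ^ p) := by
          apply ENNReal.ofReal_le_ofReal
          calc ∑ π, (T * hh cl u l (g s) π) ^ p = T ^ p * ∑ π, hh cl u l (g s) π ^ p := by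
                rw [Finset.mul_sum]
                exact Finset.sum_congr rfl fun π _ => Real.mul_rpow hT0 (hhn π)
            _ ≤ T ^ p * (a ^ (p - 2) * (BB cl u l fun j => G j s) ^ p) :=
                mul_le_mul_of_nonneg_left (sum_hh_nb hp cl u rt hrt a ha _ l) (by positivity)
            _ = _ := by ring
      _ = _ := by
          rw [ENNReal.ofReal_mul (by positivity), ENNReal.ofReal_rpow_of_nonneg hBn hp0.le]
  calc ∑' s, ∫⁻ x, ENNReal.ofReal ((∑ π, |cc cl u w l (g s) π x| ^ p) ^ (1 / p)) ^ p ∂(gX I)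
      ≤ ∑' s, ENNReal.ofReal (T ^ p * a ^ (p - 2)) *
          ENNReal.ofReal (BB cl u l fun j => G j s) ^ p := ENNReal.tsum_le_tsum h2
    _ = ENNReal.ofReal (T ^ p * a ^ (p - 2)) *
          ∑' s, ENNReal.ofReal (BB cl u l fun j => G j s) ^ p := ENNReal.tsum_mul_left
    _ ≤ ENNReal.ofReal (T ^ p * a ^ (p - 2)) * ENNReal.ofReal (D₁ ^ p) := by
        gcongr
        exact tsum_BB (by linarith) hD₁ cl u hu hG l
    _ = ENNReal.ofReal ((a ^ ((p - 2) / p) * D₁ * T) ^ p) := by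
        rw [← ENNReal.ofReal_mul (by positivity), Real.mul_rpow (by positivity) hT0,
          Real.mul_rpow (by positivity) hD₁, ← Real.rpow_mul ha.le, div_mul_cancel₀ _ hp0.ne']
        congr 1
        ring

end Pool.Agent.H67.NP
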