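import Pool.Agent.H67.NP.C4sum

/-!
# One step of the chain (§5)

`FF_update`, `FF_update_succ`: as functions of the block `a = x^l`,
`F^(l) = ∑_π c_π ⟨u_π,a⟩` and `F^(l+1) = ∑_π c_π ψ(⟨u_π,a⟩)` (`c_π = cc .. l g π x`, which does
not depend on `x^l`).

`chain_step`: for fixed `(s,x)` apply the one block inequality `hOB` to `c_π(x)`, `e = (∑|c_π|^p)^(1/p)`
and the block variable; then take the `L_p(s,x)` norm (`NN_add_le`, `NN_const_mul`, `NN_mono`), use
`lintegral_update_pi` to identify `‖ (∫|F^(l)(update x l a)|^p da)^(1/p) ‖ = ‖F^(l)‖`, `C3` and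
`C4sum`; finally divide by `τs^l gam^(k-1-l)`.
-/

set_option autoImplicit false

open MeasureTheory ProbabilityTheory Finset BigOperators
open scoped ENNReal NNReal

namespace Pool.Agent.H67.NP

/-- The conclusion of `one_block` for given constants. -/
def OBprop (p w τs θ M' : ℝ) : Prop :=
    ∀ (I Q : Type) [Fintype I] [Fintype Q] (u : Q → I → ℝ) (_ : ∀ π, l2 (u π) = 1)
      (μ : ℝ) (_ : 0 ≤ μ) (_ : ∀ π π', π ≠ π' → |dot (u π) (u π')| ≤ μ)
      (ε₀ : ℝ) (_ : 0 ≤ ε₀) (_ : μ ^ 2 * (1 + Fintype.card Q * μ) ≤ ε₀ ^ 2)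
      (c : Q → ℝ) (e : ℝ) (_ : ∀ π, |c π| ≤ e),
      (∫⁻ x, ‖∑ π, c π * dot (u π) x‖ₑ ^ p ∂(gI I)) ^ (1 / p) / ENNReal.ofReal (gam p)
        ≤ ENNReal.ofReal θ *
            ((∫⁻ x, ‖∑ π, c π * psi w (dot (u π) x)‖ₑ ^ p ∂(gI I)) ^ (1 / p) / ENNReal.ofReal τs)
          + ENNReal.ofReal (M' * (2 * e + 2 * ε₀ * l2 c))

variable {k : ℕ} {I Q : Fin k → Type} [∀ i, Fintype (I i)] [∀ i, Fintype (Q i)]
  [∀ i, DecidableEq (Q i)] {J : Type} [Fintype J] {R : Type} [Fintype R] [DecidableEq R]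

theorem cc_update (cl : ∀ i, J → Q i) (u : ∀ i, Q i → I i → ℝ) (w : ℝ) (l : Fin k) (g : J → ℝ)
    (π : Q l) (x : ∀ i, I i → ℝ) (a : I l → ℝ) :
    cc cl u w l g π (Function.update x l a) = cc cl u w l g π x := by
  unfold cc
  refine Finset.sum_congr rfl fun j _ => ?_
  congr 1
  refine Finset.prod_congr rfl fun i hi => ?_
  unfold zz
  rw [Function.update_of_ne (Finset.ne_of_mem_erase hi)]

theorem FF_update (cl : ∀ i, J → Q i) (u : ∀ i, Q i → I i → ℝ) (w : ℝ) (l : Fin k) (g : J → ℝ)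
    (x : ∀ i, I i → ℝ) (a : I l → ℝ) :
    FF cl u w l g (Function.update x l a) = ∑ π, cc cl u w l g π x * dot (u l π) a := by
  unfold FF
  rw [← Finset.sum_fiberwise Finset.univ (fun j => cl l j)]
  refine Finset.sum_congr rfl fun π _ => ?_
  unfold cc
  rw [Finset.sum_mul]
  refine Finset.sum_congr rfl fun j hj => ?_
  have hj' : cl l j = π := (Finset.mem_filter.1 hj).2
  rw [← Finset.mul_prod_erase Finset.univ _ (Finset.mem_univ l)]
  have h1 : chi w l l (zz cl u l j (Function.update x l a)) = dot (u l π) a := by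
    simp [chi, zz, hj']
  have h2 : ∏ i ∈ Finset.univ.erase l, chi w l i (zz cl u i j (Function.update x l a))
      = ∏ i ∈ Finset.univ.erase l, chi w l i (zz cl u i j x) := by
    refine Finset.prod_congr rfl fun i hi => ?_
    unfold zz
    rw [Function.update_of_ne (Finset.ne_of_mem_erase hi)]
  rw [h1, h2]
  ring

theorem FF_update_succ (cl : ∀ i, J → Q i) (u : ∀ i, Q i → I i → ℝ) (w : ℝ) (l : Fin k)
    (g : J → ℝ) (x : ∀ i, I i → ℝ) (a : I l → ℝ) :
    FF cl u w (l + 1) g (Function.update x l a)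
      = ∑ π, cc cl u w l g π x * psi w (dot (u l π) a) := by
  unfold FF
  rw [← Finset.sum_fiberwise Finset.univ (fun j => cl l j)]
  refine Finset.sum_congr rfl fun π _ => ?_
  unfold cc
  rw [Finset.sum_mul]
  refine Finset.sum_congr rfl fun j hj => ?_
  have hj' : cl l j = π := (Finset.mem_filter.1 hj).2
  rw [← Finset.mul_prod_erase Finset.univ _ (Finset.mem_univ l)]
  have h1 : chi w (l + 1) l (zz cl u l j (Function.update x l a)) = psi w (dot (u l π) a) := by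
    simp [chi, zz, hj']
  have h2 : ∏ i ∈ Finset.univ.erase l, chi w (l + 1) i (zz cl u i j (Function.update x l a))
      = ∏ i ∈ Finset.univ.erase l, chi w l i (zz cl u i j x) := by
    refine Finset.prod_congr rfl fun i hi => ?_
    have hne : i ≠ l := Finset.ne_of_mem_erase hi
    have hne' : (i : ℕ) ≠ (l : ℕ) := fun h => hne (Fin.ext h)
    unfold zz chi
    rw [Function.update_of_ne hne]
    have h3 : ((i : ℕ) < (l : ℕ) + 1) ↔ ((i : ℕ) < (l : ℕ)) := by omega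
    simp only [h3]
  rw [h1, h2]
  ring

theorem chain_measurable_dot {ι : Type} [Fintype ι] (v : ι → ℝ) :
    Measurable (fun x : ι → ℝ => dot v x) := by
  unfold dot; fun_prop

theorem chain_measurable_psi (w : ℝ) : Measurable (psi w) := by
  unfold psi H3; fun_prop

/-- the block integral of a family of functions is measurable in the other variables -/
theorem chain_measurable_block {p : ℝ} (cl : ∀ i, J → Q i) (u : ∀ i, Q i → I i → ℝ) (w : ℝ)
    (l : Fin k) (g : J → ℝ) (f : ℝ → ℝ) (hf : Measurable f) :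
    Measurable fun x : ∀ i, I i → ℝ =>
      (∫⁻ a, ‖∑ π, cc cl u w l g π x * f (dot (u l π) a)‖ₑ ^ p ∂(gI (I l))) ^ (1 / p) := by
  refine Measurable.pow_const ?_ _
  refine Measurable.lintegral_prod_right' (ν := gI (I l))
    (f := fun z : (∀ i, I i → ℝ) × (I l → ℝ) =>
      ‖∑ π, cc cl u w l g π z.1 * f (dot (u l π) z.2)‖ₑ ^ p) ?_
  refine Measurable.pow_const ?_ _
  refine Measurable.enorm ?_
  refine Finset.measurable_sum _ fun π _ => ?_
  exact ((measurable_cc cl u w l g π).comp measurable_fst).mul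
    (hf.comp ((chain_measurable_dot (u l π)).comp measurable_snd))

theorem chain_abs_le {Q : Type} [Fintype Q] {p : ℝ} (hp : 0 < p) (c : Q → ℝ) (π : Q) :
    |c π| ≤ (∑ π, |c π| ^ p) ^ (1 / p) := by
  have h1 : |c π| ^ p ≤ ∑ π, |c π| ^ p :=
    Finset.single_le_sum (f := fun π => |c π| ^ p)
      (fun i _ => Real.rpow_nonneg (abs_nonneg _) _) (Finset.mem_univ π)
  have h2 : |c π| = (|c π| ^ p) ^ (1 / p) := by
    rw [← Real.rpow_mul (abs_nonneg _), mul_one_div_cancel hp.ne', Real.rpow_one]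
  rw [h2]
  exact Real.rpow_le_rpow (Real.rpow_nonneg (abs_nonneg _) _) h1 (by positivity)

/-- integrating out block `l` does not change the mixed norm -/
theorem chain_NN_block {p : ℝ} (hp : 0 < p) (l : Fin k) (F : ℕ → (∀ i, I i → ℝ) → ℝ)
    (hF : ∀ s, Measurable (F s)) :
    NN p (gX I) (fun s x => (∫⁻ a, ‖F s (Function.update x l a)‖ₑ ^ p ∂(gI (I l))) ^ (1 / p))
      = NN p (gX I) (fun s x => ‖F s x‖ₑ) := by
  unfold NN
  congr 1
  refine tsum_congr fun s => ?_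
  have h1 : ∀ x : ∀ i, I i → ℝ,
      ((∫⁻ a, ‖F s (Function.update x l a)‖ₑ ^ p ∂(gI (I l))) ^ (1 / p)) ^ p
        = ∫⁻ a, ‖F s (Function.update x l a)‖ₑ ^ p ∂(gI (I l)) := by
    intro x
    rw [← ENNReal.rpow_mul, one_div_mul_cancel hp.ne', ENNReal.rpow_one]
  simp only [h1]
  exact lintegral_update_pi (fun i => gI (I i)) (fun x => ‖F s x‖ₑ ^ p)
    ((hF s).enorm.pow_const _) l

theorem chain_step {p w τs θ M' D₁ : ℝ} (hp : 2 < p) (hτ : 0 < τs) (hθ : 0 < θ) (hM' : 0 < M')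
    (hD₁ : 0 ≤ D₁) [Nonempty J]
    (hw : ∫⁻ x, ‖psi w x‖ₑ ^ p ∂(gaussianReal 0 1) = ENNReal.ofReal (τs ^ p))
    (hOB : OBprop p w τs θ M')
    (cl : ∀ i, J → Q i) (hcl : ∀ i i', i ≤ i' → ∀ j j', cl i' j = cl i' j' → cl i j = cl i j')
    (u : ∀ i, Q i → I i → ℝ) (hu : ∀ i π, l2 (u i π) = 1)
    (μ : Fin k → ℝ) (hμ0 : ∀ i, 0 ≤ μ i)
    (hμ : ∀ i π π', π ≠ π' → |dot (u i π) (u i π')| ≤ μ i) (ε₀ : ℝ) (hε₀ : 0 ≤ ε₀)
    (hε : ∀ i, μ i ^ 2 * (1 + Fintype.card (Q i) * μ i) ≤ ε₀ ^ 2) (rt : J → R)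
    (hrt : ∀ l j j', cl l j = cl l j' → rt j = rt j') {G : J → ℕ → ℝ}
    (hG : L1bd p D₁ G) (a : ℝ) (ha : 0 < a) (l : Fin k) :
    NN p (gX I) (fun s x =>
        ‖FF cl u w l (nb rt (BigS cl u rt a fun j => G j s) fun j => G j s) x‖ₑ)
        / ENNReal.ofReal (τs ^ (l : ℕ) * gam p ^ (k - l))
      ≤ ENNReal.ofReal θ * (NN p (gX I) (fun s x =>
          ‖FF cl u w (l + 1) (nb rt (BigS cl u rt a fun j => G j s) fun j => G j s) x‖ₑ)
          / ENNReal.ofReal (τs ^ ((l : ℕ) + 1) * gam p ^ (k - 1 - l)))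
        + ENNReal.ofReal (2 * M' * D₁ * (a ^ ((p - 2) / p) + ε₀)) := by
  have hp0 : 0 < p := by linarith
  have hγ : 0 < gam p := gam_pos hp0
  obtain ⟨gn, hgn⟩ : ∃ gn : ℕ → J → ℝ,
    gn = fun s => nb rt (BigS cl u rt a fun j => G j s) fun j => G j s := ⟨_, rfl⟩
  have hC3 := C3 (by linarith) hτ hD₁ hw cl u hu rt l (hrt l) hG
    (fun s => BigS cl u rt a fun j => G j s)
  have hC4 := C4sum hp hτ hD₁ hw cl hcl u hu rt hrt hG a ha l
  have hgn' : ∀ s, nb rt (BigS cl u rt a fun j => G j s) (fun j => G j s) = gn s := by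
    intro s; rw [hgn]
  simp only [hgn'] at hC3 hC4 ⊢
  obtain ⟨c, hc⟩ : ∃ c : ℕ → (∀ i, I i → ℝ) → Q l → ℝ,
    c = fun s x π => cc cl u w l (gn s) π x := ⟨_, rfl⟩
  obtain ⟨e, he⟩ : ∃ e : ℕ → (∀ i, I i → ℝ) → ℝ,
    e = fun s x => (∑ π, |c s x π| ^ p) ^ (1 / p) := ⟨_, rfl⟩
  have hcm : ∀ s π, Measurable fun x => c s x π := by
    intro s π
    rw [hc]
    exact measurable_cc cl u w l (gn s) π
  have hem : ∀ s, Measurable (e s) := by
    intro s
    rw [he]
    refine Measurable.pow_const ?_ _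
    exact Finset.measurable_sum _ fun π _ => ((measurable_norm.comp (hcm s π)).pow_const _)
  have hl2m : ∀ s, Measurable fun x => l2 (c s x) := by
    intro s
    unfold l2
    refine Measurable.sqrt ?_
    exact Finset.measurable_sum _ fun π _ => (hcm s π).pow_const _
  -- the block norms
  obtain ⟨A, hA⟩ : ∃ A : ℕ → (∀ i, I i → ℝ) → ℝ≥0∞, A = fun s x =>
    (∫⁻ a, ‖FF cl u w l (gn s) (Function.update x l a)‖ₑ ^ p ∂(gI (I l))) ^ (1 / p) := ⟨_, rfl⟩
  obtain ⟨B, hB⟩ : ∃ B : ℕ → (∀ i, I i → ℝ) → ℝ≥0∞, B = fun s x =>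
    (∫⁻ a, ‖FF cl u w (l + 1) (gn s) (Function.update x l a)‖ₑ ^ p ∂(gI (I l))) ^ (1 / p) :=
    ⟨_, rfl⟩
  have hNA : NN p (gX I) A = NN p (gX I) (fun s x => ‖FF cl u w l (gn s) x‖ₑ) := by
    rw [hA]
    exact chain_NN_block hp0 l (fun s => FF cl u w l (gn s))
      (fun s => measurable_FF cl u w l (gn s))
  have hNB : NN p (gX I) B = NN p (gX I) (fun s x => ‖FF cl u w (l + 1) (gn s) x‖ₑ) := by
    rw [hB]
    exact chain_NN_block hp0 l (fun s => FF cl u w (l + 1) (gn s))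
      (fun s => measurable_FF cl u w (l + 1) (gn s))
  have hAm : ∀ s, Measurable (A s) := by
    intro s
    rw [hA]
    simp only [FF_update]
    exact chain_measurable_block cl u w l (gn s) (fun z => z) measurable_id
  have hBm : ∀ s, Measurable (B s) := by
    intro s
    rw [hB]
    simp only [FF_update_succ]
    exact chain_measurable_block cl u w l (gn s) (psi w) (chain_measurable_psi w)
  -- pointwise inequality
  have hpt : ∀ s x, (ENNReal.ofReal (gam p))⁻¹ * A s x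
      ≤ (ENNReal.ofReal θ * (ENNReal.ofReal τs)⁻¹) * B s x
        + (ENNReal.ofReal (2 * M') * ENNReal.ofReal (e s x)
          + ENNReal.ofReal (2 * M' * ε₀) * ENNReal.ofReal (l2 (c s x))) := by
    intro s x
    have h1 := hOB (I l) (Q l) (u l) (hu l) (μ l) (hμ0 l) (hμ l) ε₀ hε₀ (hε l) (c s x) (e s x)
      (fun π => by rw [he]; exact chain_abs_le hp0 (c s x) π)
    have h2 : (∫⁻ a, ‖∑ π, c s x π * dot (u l π) a‖ₑ ^ p ∂(gI (I l))) ^ (1 / p) = A s x := by
      rw [hA, hc]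
      simp only [FF_update]
    have h3 : (∫⁻ a, ‖∑ π, c s x π * psi w (dot (u l π) a)‖ₑ ^ p ∂(gI (I l))) ^ (1 / p)
        = B s x := by
      rw [hB, hc]
      simp only [FF_update_succ]
    rw [h2, h3] at h1
    have he0 : 0 ≤ e s x := by
      rw [he]
      exact Real.rpow_nonneg (Finset.sum_nonneg fun π _ => Real.rpow_nonneg (abs_nonneg _) _) _
    have hl0 : 0 ≤ l2 (c s x) := Real.sqrt_nonneg _
    have h4 : ENNReal.ofReal (M' * (2 * e s x + 2 * ε₀ * l2 (c s x)))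
        = ENNReal.ofReal (2 * M') * ENNReal.ofReal (e s x)
          + ENNReal.ofReal (2 * M' * ε₀) * ENNReal.ofReal (l2 (c s x)) := by
      rw [← ENNReal.ofReal_mul (by positivity), ← ENNReal.ofReal_mul (by positivity),
        ← ENNReal.ofReal_add (by positivity) (by positivity)]
      congr 1
      ring
    rw [h4, div_eq_mul_inv, div_eq_mul_inv] at h1
    calc (ENNReal.ofReal (gam p))⁻¹ * A s x = A s x * (ENNReal.ofReal (gam p))⁻¹ := mul_comm _ _
      _ ≤ _ := h1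
      _ = _ := by ring
  have hγ0 : ENNReal.ofReal (gam p) ≠ 0 := by simpa using hγ
  have hτ0 : ENNReal.ofReal τs ≠ 0 := by simpa using hτ
  have hinvγ : (ENNReal.ofReal (gam p))⁻¹ ≠ ⊤ := by simpa using hγ
  have hinvτ : ENNReal.ofReal θ * (ENNReal.ofReal τs)⁻¹ ≠ ⊤ :=
    ENNReal.mul_ne_top ENNReal.ofReal_ne_top (by simpa using hτ)
  -- take norms
  have hmain : (ENNReal.ofReal (gam p))⁻¹ * NN p (gX I) A
      ≤ (ENNReal.ofReal θ * (ENNReal.ofReal τs)⁻¹) * NN p (gX I) B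
        + (ENNReal.ofReal (2 * M') * NN p (gX I) (fun s x => ENNReal.ofReal (e s x))
          + ENNReal.ofReal (2 * M' * ε₀) *
            NN p (gX I) (fun s x => ENNReal.ofReal (l2 (c s x)))) := by
    have hmB : ∀ s, Measurable fun x =>
        (ENNReal.ofReal θ * (ENNReal.ofReal τs)⁻¹) * B s x := fun s => (hBm s).const_mul _
    have hme : ∀ s, Measurable fun x =>
        ENNReal.ofReal (2 * M') * ENNReal.ofReal (e s x) :=
      fun s => (hem s).ennreal_ofReal.const_mul _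
    have hml : ∀ s, Measurable fun x =>
        ENNReal.ofReal (2 * M' * ε₀) * ENNReal.ofReal (l2 (c s x)) :=
      fun s => (hl2m s).ennreal_ofReal.const_mul _
    rw [← NN_const_mul hp0 _ hinvγ A hAm, ← NN_const_mul hp0 _ hinvτ B hBm,
      ← NN_const_mul hp0 _ ENNReal.ofReal_ne_top _ (fun s => (hem s).ennreal_ofReal),
      ← NN_const_mul hp0 _ ENNReal.ofReal_ne_top _ (fun s => (hl2m s).ennreal_ofReal)]
    refine (NN_mono hp0.le hpt).trans ?_
    refine (NN_add_le (by linarith) hmB (fun s => (hme s).add (hml s))).trans ?_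
    exact add_le_add le_rfl (NN_add_le (by linarith) hme hml)
  rw [hNA, hNB] at hmain
  have hC3' : NN p (gX I) (fun s x => ENNReal.ofReal (l2 (c s x)))
      ≤ ENNReal.ofReal (D₁ * (τs ^ (l : ℕ) * gam p ^ (k - 1 - l))) := by
    rw [hc]; exact hC3
  have hC4' : NN p (gX I) (fun s x => ENNReal.ofReal (e s x))
      ≤ ENNReal.ofReal (a ^ ((p - 2) / p) * D₁ * (τs ^ (l : ℕ) * gam p ^ (k - 1 - l))) := by
    rw [he, hc]; exact hC4
  have hK0 : 0 < τs ^ (l : ℕ) * gam p ^ (k - 1 - l) := by positivity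
  have hkl : k - (l : ℕ) = (k - 1 - l) + 1 := by have := l.2; omega
  have hden1 : τs ^ (l : ℕ) * gam p ^ (k - l)
      = (τs ^ (l : ℕ) * gam p ^ (k - 1 - l)) * gam p := by
    rw [hkl, pow_succ]; ring
  have hden2 : τs ^ ((l : ℕ) + 1) * gam p ^ (k - 1 - l)
      = (τs ^ (l : ℕ) * gam p ^ (k - 1 - l)) * τs := by
    rw [pow_succ]; ring
  rw [hden1, hden2]
  generalize τs ^ (l : ℕ) * gam p ^ (k - 1 - l) = K at hK0 hC3' hC4' ⊢
  have hK1 : ENNReal.ofReal K ≠ 0 := by simpa using hK0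
  have hK2 : (ENNReal.ofReal K)⁻¹ ≠ ⊤ := by simpa using hK0
  rw [ENNReal.ofReal_mul hK0.le, ENNReal.ofReal_mul hK0.le]
  rw [div_eq_mul_inv, div_eq_mul_inv, ENNReal.mul_inv (Or.inl hK1) (Or.inl ENNReal.ofReal_ne_top),
    ENNReal.mul_inv (Or.inl hK1) (Or.inl ENNReal.ofReal_ne_top)]
  have hfin : (ENNReal.ofReal K)⁻¹ * (ENNReal.ofReal (2 * M') *
        ENNReal.ofReal (a ^ ((p - 2) / p) * D₁ * K)
          + ENNReal.ofReal (2 * M' * ε₀) * ENNReal.ofReal (D₁ * K))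
      = ENNReal.ofReal (2 * M' * D₁ * (a ^ ((p - 2) / p) + ε₀)) := by
    have ha' : 0 ≤ a ^ ((p - 2) / p) := Real.rpow_nonneg ha.le _
    rw [← ENNReal.ofReal_inv_of_pos hK0, ← ENNReal.ofReal_mul (by positivity),
      ← ENNReal.ofReal_mul (by positivity), ← ENNReal.ofReal_add (by positivity) (by positivity),
      ← ENNReal.ofReal_mul (by positivity)]
    congr 1
    field_simp
  calc NN p (gX I) (fun s x => ‖FF cl u w l (gn s) x‖ₑ)
        * ((ENNReal.ofReal K)⁻¹ * (ENNReal.ofReal (gam p))⁻¹)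
      = (ENNReal.ofReal K)⁻¹ * ((ENNReal.ofReal (gam p))⁻¹ *
          NN p (gX I) (fun s x => ‖FF cl u w l (gn s) x‖ₑ)) := by ring
    _ ≤ (ENNReal.ofReal K)⁻¹ * ((ENNReal.ofReal θ * (ENNReal.ofReal τs)⁻¹) *
          NN p (gX I) (fun s x => ‖FF cl u w (l + 1) (gn s) x‖ₑ)
        + (ENNReal.ofReal (2 * M') * ENNReal.ofReal (a ^ ((p - 2) / p) * D₁ * K)
          + ENNReal.ofReal (2 * M' * ε₀) * ENNReal.ofReal (D₁ * K))) := by
        refine mul_le_mul_right (hmain.trans ?_) _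
        gcongr
    _ = _ := by
        rw [mul_add, hfin]
        congr 1
        ring

end Pool.Agent.H67.NP
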