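import Pool.Agent.H67.Glue

/-!
# MP_b531f7_gt, full negative answer: common definitions

The paper proof is `proofs` id 168 in the team database (sections 1-9 are quoted as §1-§9 in the
headers of the modules `Pool/Agent/H67/NP/*.lean`).
-/

set_option autoImplicit false

open MeasureTheory ProbabilityTheory Finset BigOperators
open scoped ENNReal NNReal

namespace Pool.Agent.H67.NP

noncomputable section

/-- Euclidean norm of a real vector. -/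
def l2 {I : Type} [Fintype I] (v : I → ℝ) : ℝ := √(∑ i, v i ^ 2)

/-- Inner product. -/
def dot {I : Type} [Fintype I] (u v : I → ℝ) : ℝ := ∑ i, u i * v i

/-- Uniform average over a finite type. -/
def avg {S E : Type} [Fintype S] [AddCommMonoid E] [Module ℝ E] (f : S → E) : E :=
  (Fintype.card S : ℝ)⁻¹ • ∑ s, f s

/-- Normalised `ℓ_s` norm on `J → ℝ`: `(N⁻¹ ∑ |a_j|^s)^(1/s)`. -/
def nrm {J : Type} [Fintype J] (s : ℝ) (a : J → ℝ) : ℝ :=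
  ((Fintype.card J : ℝ)⁻¹ * ∑ j, |a j| ^ s) ^ (1 / s)

/-! ### Gaussian objects -/

/-- Standard Gaussian measure on `I → ℝ`. -/
def gI (I : Type) [Fintype I] : Measure (I → ℝ) := Measure.pi fun _ => gaussianReal 0 1

instance (I : Type) [Fintype I] : IsProbabilityMeasure (gI I) := by
  unfold gI; infer_instance

/-- Product over the blocks `i : Fin k` of the standard Gaussian measures on `I i → ℝ`. -/
def gX {k : ℕ} (I : Fin k → Type) [∀ i, Fintype (I i)] : Measure (∀ i, I i → ℝ) :=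
  Measure.pi fun i => gI (I i)

instance {k : ℕ} (I : Fin k → Type) [∀ i, Fintype (I i)] : IsProbabilityMeasure (gX I) := by
  unfold gX; infer_instance

/-- `E|g|^s`. -/
def gmom (s : ℝ) : ℝ := ∫ x, |x| ^ s ∂(gaussianReal 0 1)

/-- `(E|g|^s)^(1/s)`. -/
def gam (s : ℝ) : ℝ := gmom s ^ (1 / s)

/-- Third Hermite polynomial. -/
def H3 (z : ℝ) : ℝ := z ^ 3 - 3 * z

/-- `ψ(z) = z - w H₃(z)`. -/
def psi (w z : ℝ) : ℝ := z - w * H3 z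

/-- `φ(u) = |u|^(p-2) u`. -/
def phi (p u : ℝ) : ℝ := |u| ^ (p - 2) * u

/-! ### Mixed norm over `(s, x) ∈ ℕ × X` -/

/-- `(∑_s ∫ F(s,x)^p dμ(x))^(1/p)`. -/
def NN (p : ℝ) {X : Type} [MeasurableSpace X] (μ : Measure X) (F : ℕ → X → ℝ≥0∞) : ℝ≥0∞ :=
  (∑' s, ∫⁻ x, F s x ^ p ∂μ) ^ (1 / p)

/-- Condition (L1): `∑_s |∑_j a_j G_j(s)|^p ≤ D₁^p N⁻¹ ∑_j |a_j|^p`. -/
def L1bd {J : Type} [Fintype J] (p D₁ : ℝ) (G : J → ℕ → ℝ) : Prop :=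
  ∀ a : J → ℝ, ∑' s, ‖∑ j, a j * G j s‖ₑ ^ p
    ≤ ENNReal.ofReal (D₁ ^ p / Fintype.card J) * ∑ j, ‖a j‖ₑ ^ p

/-! ### The block setting of §5 -/

section blocks

variable {k : ℕ} {I Q : Fin k → Type} [∀ i, Fintype (I i)] [∀ i, Fintype (Q i)]
  [∀ i, DecidableEq (Q i)] {J : Type} [Fintype J]

/-- `z^i_j(x) = ⟨u^i_{cl_i j}, x^i⟩`. -/
def zz (cl : ∀ i, J → Q i) (u : ∀ i, Q i → I i → ℝ) (i : Fin k) (j : J) (x : ∀ i, I i → ℝ) : ℝ :=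
  dot (u i (cl i j)) (x i)

/-- `χ^(l)_i = ψ` for `i < l` and the identity for `i ≥ l`. -/
def chi (w : ℝ) (l : ℕ) (i : Fin k) (z : ℝ) : ℝ := if (i : ℕ) < l then psi w z else z

/-- `F^(l)(x) = ∑_j g_j ∏_{i<l} ψ(z^i_j) ∏_{i≥l} z^i_j`. -/
def FF (cl : ∀ i, J → Q i) (u : ∀ i, Q i → I i → ℝ) (w : ℝ) (l : ℕ) (g : J → ℝ)
    (x : ∀ i, I i → ℝ) : ℝ :=
  ∑ j, g j * ∏ i, chi w l i (zz cl u i j x)

/-- The coefficient `c_π(x) = ∑_{cl_l j = π} g_j ∏_{i<l} ψ(z^i_j) ∏_{i>l} z^i_j` of block `l`. -/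
def cc (cl : ∀ i, J → Q i) (u : ∀ i, Q i → I i → ℝ) (w : ℝ) (l : Fin k) (g : J → ℝ) (π : Q l)
    (x : ∀ i, I i → ℝ) : ℝ :=
  ∑ j with cl l j = π, g j * ∏ i ∈ Finset.univ.erase l, chi w l i (zz cl u i j x)

/-- The unit tensor `ω̂_j(α) = ∏_i u^i_{cl_i j}(α_i)`. -/
def om (cl : ∀ i, J → Q i) (u : ∀ i, Q i → I i → ℝ) (j : J) (α : ∀ i, I i) : ℝ :=
  ∏ i, u i (cl i j) (α i)

/-- `h_π = |∑_{cl_l j = π} g_j ω̂_j|₂`. -/
def hh (cl : ∀ i, J → Q i) (u : ∀ i, Q i → I i → ℝ) (l : Fin k) (g : J → ℝ) (π : Q l) : ℝ :=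
  l2 fun α : ∀ i, I i => ∑ j with cl l j = π, g j * om cl u j α

/-- `B_l = (∑_π h_π²)^(1/2)`. -/
def BB (cl : ∀ i, J → Q i) (u : ∀ i, Q i → I i → ℝ) (l : Fin k) (g : J → ℝ) : ℝ :=
  √(∑ π, hh cl u l g π ^ 2)

variable {R : Type} [Fintype R] [DecidableEq R]

/-- `β²_{l,r} = ∑_π |∑_{cl_l j = π, rt j = r} g_j ω̂_j|₂²`. -/
def bet (cl : ∀ i, J → Q i) (u : ∀ i, Q i → I i → ℝ) (rt : J → R) (l : Fin k) (g : J → ℝ)
    (r : R) : ℝ :=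
  ∑ π, (l2 fun α : ∀ i, I i => ∑ j with (cl l j = π ∧ rt j = r), g j * om cl u j α) ^ 2

open Classical in
/-- The big root classes. -/
def BigS (cl : ∀ i, J → Q i) (u : ∀ i, Q i → I i → ℝ) (rt : J → R) (a : ℝ) (g : J → ℝ) :
    Finset R :=
  Finset.univ.filter fun r => ∃ l, a ^ 2 * BB cl u l g ^ 2 < bet cl u rt l g r

/-- Restriction of the coefficients to the classes outside `S`. -/
def nb (rt : J → R) (S : Finset R) (g : J → ℝ) : J → ℝ := fun j => if rt j ∈ S then 0 else g j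

end blocks

/-! ### Sign families and the torus (§1-§3, §8) -/

/-- `ι(v)_j = ⟨ω_j, v⟩`. -/
def iota {J 𝒜 : Type} [Fintype 𝒜] (ω : J → 𝒜 → ℤˣ) (v : 𝒜 → ℤ) : J → ℤ :=
  fun j => ∑ α, (ω j α : ℤ) * v α

/-- `⟨s, u⟩` for a sign vector and an integer vector. -/
def sdot {I : Type} [Fintype I] (s : I → ℤˣ) (u : I → ℤ) : ℤ := ∑ a, (s a : ℤ) * u a

/-- `Y_α = ∑_l ε^(l)_α`. -/
def Ysum {L : ℕ} {𝒜 : Type} (ε : Fin L → 𝒜 → ℤˣ) : 𝒜 → ℤ := fun α => ∑ l, (ε l α : ℤ)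

/-- `n^(-1/2) ⟨ω_j, w⟩`. -/
def zW {J 𝒜 : Type} [Fintype 𝒜] (ω : J → 𝒜 → ℤˣ) (j : J) (w : 𝒜 → ℝ) : ℝ :=
  (√(Fintype.card 𝒜 : ℝ))⁻¹ * ∑ α, ((ω j α : ℤ) : ℝ) * w α

/-- Box averaged discrete derivative. -/
def slp {J E : Type} [Fintype J] [DecidableEq J] [NormedAddCommGroup E] [NormedSpace ℝ E]
    (P : ℕ) (F : (J → ℤ) → E) (x : J → ℤ) (j : J) : E :=
  boxAvg P (fun z => F (z + Pi.single j 1) - F z) x

/-- cyclic distance to `0` -/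
def cyc {q : ℕ} (x : ZMod q) : ℝ := (x.valMinAbs.natAbs : ℝ)

/-- `κ_q(x) = q⁻¹ ∑_u | |x-u| - |u| |^p`. -/
def kap (p : ℝ) (q : ℕ) [NeZero q] (x : ZMod q) : ℝ :=
  (q : ℝ)⁻¹ * ∑ u : ZMod q, |cyc (x - u) - cyc u| ^ p

/-- `ρ(z) = (N⁻¹ ∑_j κ_q(z_j))^(1/p)`. -/
def rho {J : Type} [Fintype J] (p : ℝ) (q : ℕ) [NeZero q] (z : J → ZMod q) : ℝ :=
  ((Fintype.card J : ℝ)⁻¹ * ∑ j, kap p q (z j)) ^ (1 / p)

/-- reduction mod `q` -/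
def modq {J : Type} (q : ℕ) (z : J → ℤ) : J → ZMod q := fun j => ((z j : ℤ) : ZMod q)

end

end Pool.Agent.H67.NP
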