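import Pool.Agent.H67.NP.Gauss

/-!
# (G3): for `p > 2` some `ψ_w(z) = z - w H₃(z)` has smaller `L_p(Gauss)` norm than `z`  (§4)

Proof. Put `h(w) = E φ(g - w H₃(g)) H₃(g)`.  Convexity of `|·|^p`:
`|g|^p ≥ |g - wH|^p + p φ(g - wH) (wH)`, so `E|g-wH|^p ≤ gam^p - p w h(w)`.  By dominated convergence
(`|φ(g-wH)H| ≤ (|g|+|H|)^(p-1)|H|` for `w ≤ 1`, polynomial growth) `h(w) → h(0) = E φ(g) H₃(g) =
E|g|^(p+2) - 3E|g|^p = (p-2) gam^p > 0` as `w → 0`.  Choose `w` with `h(w) > 0` and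
`τs = (E|ψ_w(g)|^p)^(1/p)`.  `τs > 0` because `ψ_w ≠ 0` a.e.
-/

set_option autoImplicit false

open MeasureTheory ProbabilityTheory Finset BigOperators
open scoped ENNReal NNReal

namespace Pool.Agent.H67.NP

/-- Convexity of `|·|^p`: the tangent inequality. -/
theorem abs_rpow_tangent {p : ℝ} (hp : 1 < p) (a b : ℝ) :
    |a| ^ p + p * phi p a * (b - a) ≤ |b| ^ p := by
  rcases eq_or_ne a 0 with h0 | h0
  · subst h0
    have : (|(0 : ℝ)|) ^ p = 0 := by rw [abs_zero, Real.zero_rpow (by linarith)]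
    rw [this]
    simp only [phi, mul_zero, zero_mul, add_zero]
    positivity
  have ha : 0 < |a| := abs_pos.mpr h0
  have hsplit : |a| ^ p = |a| ^ (p - 2) * |a| ^ 2 := by
    rw [← Real.rpow_two, ← Real.rpow_add ha]; ring_nf
  have hpow : 0 < |a| ^ (p - 2) := Real.rpow_pos_of_pos ha _
  have h1 : p * phi p a * (b - a) ≤ p * |a| ^ (p - 2) * (|a| * |b| - |a| ^ 2) := by
    unfold phi
    have h2 : a * b ≤ |a| * |b| := by
      rw [← abs_mul]; exact le_abs_self _
    have h3 : |a| ^ 2 = a ^ 2 := sq_abs a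
    have h4 : 0 ≤ p * |a| ^ (p - 2) := by positivity
    have h5 : p * (|a| ^ (p - 2) * a) * (b - a) = p * |a| ^ (p - 2) * (a * b - a ^ 2) := by ring
    rw [h5, h3]
    exact mul_le_mul_of_nonneg_left (by linarith) h4
  have h2 : |a| ^ p + p * |a| ^ (p - 2) * (|a| * |b| - |a| ^ 2) =
      |a| ^ p * (1 + p * (|b| / |a| - 1)) := by
    rw [hsplit]
    field_simp
  have h3 : 1 + p * (|b| / |a| - 1) ≤ (|b| / |a|) ^ p := by
    have := one_add_mul_self_le_rpow_one_add (s := |b| / |a| - 1) (by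
      have : 0 ≤ |b| / |a| := by positivity
      linarith) hp.le
    simpa using this
  have h4 : |a| ^ p * (|b| / |a|) ^ p = |b| ^ p := by
    rw [← Real.mul_rpow (abs_nonneg _) (by positivity)]
    congr 1
    field_simp
  calc |a| ^ p + p * phi p a * (b - a)
      ≤ |a| ^ p + p * |a| ^ (p - 2) * (|a| * |b| - |a| ^ 2) := by linarith
    _ = |a| ^ p * (1 + p * (|b| / |a| - 1)) := h2
    _ ≤ |a| ^ p * (|b| / |a|) ^ p := mul_le_mul_of_nonneg_left h3 (by positivity)
    _ = |b| ^ p := h4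

theorem continuous_H3 : Continuous H3 := by
  unfold H3; fun_prop

theorem continuous_psi (w : ℝ) : Continuous (psi w) := by
  unfold psi
  have := continuous_H3
  fun_prop

theorem continuous_phi {p : ℝ} (hp : 2 < p) : Continuous (phi p) := by
  unfold phi
  exact (continuous_abs.rpow_const (fun x => Or.inr (by linarith))).mul continuous_id

theorem abs_phi {p : ℝ} (hp : 2 < p) (u : ℝ) : |phi p u| = |u| ^ (p - 1) := by
  unfold phi
  rw [abs_mul, abs_of_nonneg (Real.rpow_nonneg (abs_nonneg u) _)]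
  have h : p - 1 = (p - 2) + 1 := by ring
  rw [h, Real.rpow_add' (abs_nonneg u) (by linarith), Real.rpow_one]

theorem abs_H3_le (z : ℝ) : |H3 z| ≤ (1 + |z|) ^ 3 := by
  unfold H3
  have h1 : |z ^ 3 - 3 * z| ≤ |z ^ 3| + |3 * z| := abs_sub _ _
  rw [abs_pow, abs_mul, abs_of_pos (by norm_num : (0 : ℝ) < 3)] at h1
  have h2 := abs_nonneg z
  nlinarith [sq_nonneg |z|]

theorem abs_psi_le {w : ℝ} (hw : |w| ≤ 1) (z : ℝ) : |psi w z| ≤ 2 * (1 + |z|) ^ 3 := by
  unfold psi
  have h1 : |z - w * H3 z| ≤ |z| + |w * H3 z| := abs_sub _ _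
  rw [abs_mul] at h1
  have h2 : |w| * |H3 z| ≤ (1 + |z|) ^ 3 := by
    calc |w| * |H3 z| ≤ 1 * |H3 z| := mul_le_mul_of_nonneg_right hw (abs_nonneg _)
      _ ≤ _ := by rw [one_mul]; exact abs_H3_le z
  have h3 := abs_nonneg z
  nlinarith [sq_nonneg |z|, pow_nonneg h3 3]

theorem rpow_growth {q : ℝ} (hq : 0 ≤ q) {y z : ℝ} (hy : 0 ≤ y) (h : y ≤ 2 * (1 + |z|) ^ 3) :
    y ^ q ≤ 2 ^ ⌈q⌉₊ * (1 + |z|) ^ (3 * ⌈q⌉₊) := by
  have hz := abs_nonneg z
  have h1 : (1 : ℝ) ≤ 2 * (1 + |z|) ^ 3 := by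
    have : (1 : ℝ) ≤ (1 + |z|) ^ 3 := one_le_pow₀ (by linarith)
    linarith
  calc y ^ q ≤ (2 * (1 + |z|) ^ 3) ^ q := Real.rpow_le_rpow hy h hq
    _ ≤ (2 * (1 + |z|) ^ 3) ^ (⌈q⌉₊ : ℝ) := Real.rpow_le_rpow_of_exponent_le h1 (Nat.le_ceil q)
    _ = 2 ^ ⌈q⌉₊ * (1 + |z|) ^ (3 * ⌈q⌉₊) := by
      rw [Real.rpow_natCast, mul_pow, ← pow_mul]

theorem growth_phi_psi {p : ℝ} (hp : 2 < p) {w : ℝ} (hw : |w| ≤ 1) (z : ℝ) :
    |phi p (psi w z) * H3 z| ≤ 2 ^ ⌈p - 1⌉₊ * (1 + |z|) ^ (3 * ⌈p - 1⌉₊ + 3) := by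
  rw [abs_mul, abs_phi hp, pow_add, ← mul_assoc]
  exact mul_le_mul (rpow_growth (by linarith) (abs_nonneg _) (abs_psi_le hw z)) (abs_H3_le z)
    (abs_nonneg _) (by positivity)

theorem integrable_phi_psi {p : ℝ} (hp : 2 < p) {w : ℝ} (hw : |w| ≤ 1) :
    Integrable (fun z => phi p (psi w z) * H3 z) (gaussianReal 0 1) :=
  integrable_of_growth_real _
    (((continuous_phi hp).comp (continuous_psi w)).mul continuous_H3).measurable _ _
    (growth_phi_psi hp hw)

theorem integrable_psi_rpow {p : ℝ} (hp : 2 < p) {w : ℝ} (hw : |w| ≤ 1) :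
    Integrable (fun z => |psi w z| ^ p) (gaussianReal 0 1) := by
  refine integrable_of_growth_real _ ?_ (2 ^ ⌈p⌉₊) (3 * ⌈p⌉₊) fun z => ?_
  · exact ((continuous_psi w).abs.rpow_const fun x => Or.inr (by linarith)).measurable
  · rw [abs_of_nonneg (by positivity)]
    exact rpow_growth (by linarith) (abs_nonneg _) (abs_psi_le hw z)

/-- `h(0) = (p-2) E|g|^p`. -/
theorem integral_phi_H3_zero {p : ℝ} (hp : 2 < p) :
    ∫ z, phi p (psi 0 z) * H3 z ∂(gaussianReal 0 1) = (p - 2) * gmom p := by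
  have h1 : ∀ z : ℝ, phi p (psi 0 z) * H3 z = |z| ^ (p + 2) - 3 * |z| ^ p := by
    intro z
    have e1 : |z| ^ (p + 2) = |z| ^ (p - 2) * z ^ 4 := by
      have h : p + 2 = (p - 2) + (4 : ℕ) := by push_cast; ring
      rw [h, Real.rpow_add' (abs_nonneg z) (by push_cast; linarith), Real.rpow_natCast]
      congr 1
      rw [← abs_pow, abs_of_nonneg (by positivity)]
    have e2 : |z| ^ p = |z| ^ (p - 2) * z ^ 2 := by
      have h : p = (p - 2) + (2 : ℕ) := by push_cast; ring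
      nth_rewrite 1 [h]
      rw [Real.rpow_add' (abs_nonneg z) (by push_cast; linarith), Real.rpow_natCast, sq_abs]
    rw [e1, e2]
    unfold phi psi H3
    simp only [zero_mul, sub_zero]
    ring
  simp_rw [h1]
  rw [integral_sub (integrable_abs_rpow (by linarith))
    ((integrable_abs_rpow (by linarith)).const_mul 3), integral_const_mul]
  have h2 := gmom_add_two (s := p) (by linarith)
  unfold gmom at h2 ⊢
  rw [h2]
  ring

theorem tendsto_h {p : ℝ} (hp : 2 < p) :
    Filter.Tendsto (fun w : ℝ => ∫ z, phi p (psi w z) * H3 z ∂(gaussianReal 0 1))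
      (nhds 0) (nhds ((p - 2) * gmom p)) := by
  rw [← integral_phi_H3_zero hp]
  refine tendsto_integral_filter_of_dominated_convergence
    (fun z => 2 ^ ⌈p - 1⌉₊ * (1 + |z|) ^ (3 * ⌈p - 1⌉₊ + 3)) ?_ ?_ ?_ ?_
  · exact Filter.Eventually.of_forall fun w =>
      (((continuous_phi hp).comp (continuous_psi w)).mul continuous_H3).aestronglyMeasurable
  · have : ∀ᶠ w : ℝ in nhds 0, |w| ≤ 1 := by
      have h1 : Filter.Tendsto (fun w : ℝ => |w|) (nhds 0) (nhds 0) := by
        simpa using (continuous_abs.tendsto (0 : ℝ))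
      exact h1.eventually (eventually_le_nhds (by norm_num))
    filter_upwards [this] with w hw
    refine Filter.Eventually.of_forall fun z => ?_
    rw [Real.norm_eq_abs]
    exact growth_phi_psi hp hw z
  · exact (integrable_one_add_abs_pow _).const_mul _
  · refine Filter.Eventually.of_forall fun z => ?_
    have hc : Continuous fun w : ℝ => phi p (psi w z) * H3 z := by
      refine ((continuous_phi hp).comp ?_).mul continuous_const
      unfold psi
      fun_prop
    exact hc.tendsto 0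

theorem integral_psi_pos {p : ℝ} (hp : 2 < p) {w : ℝ} (hw0 : 0 < w) (hw : |w| ≤ 1) :
    0 < ∫ z, |psi w z| ^ p ∂(gaussianReal 0 1) := by
  rw [integral_pos_iff_support_of_nonneg (fun z => by positivity) (integrable_psi_rpow hp hw)]
  have hsub : Set.Ioo (0 : ℝ) 1 ⊆ Function.support fun z => |psi w z| ^ p := by
    intro z hz
    rw [Function.mem_support]
    have h1 : 0 < psi w z := by
      unfold psi H3
      have hz0 := hz.1
      have hz1 := hz.2
      have h3 : z ^ 3 ≤ z := by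
        nlinarith [mul_pos hz0 hz0, mul_pos hz0 (sub_pos.mpr hz1)]
      nlinarith [mul_pos hw0 hz0, mul_le_mul_of_nonneg_left h3 hw0.le]
    exact (Real.rpow_pos_of_pos (abs_pos.mpr h1.ne') _).ne'
  refine lt_of_lt_of_le ?_ (measure_mono hsub)
  rw [pos_iff_ne_zero]
  intro h0
  have h1 := (gaussianReal_absolutelyContinuous' 0 (v := 1) (by norm_num)) h0
  rw [Real.volume_Ioo] at h1
  norm_num at h1

theorem exists_w {p : ℝ} (hp : 2 < p) : ∃ w τs : ℝ, 0 < w ∧ 0 < τs ∧ τs < gam p ∧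
    ∫⁻ x, ‖psi w x‖ₑ ^ p ∂(gaussianReal 0 1) = ENNReal.ofReal (τs ^ p) := by
  have hpos : 0 < (p - 2) * gmom p := mul_pos (by linarith) (gmom_pos (by linarith))
  have hev := (tendsto_h hp).eventually (lt_mem_nhds hpos)
  obtain ⟨δ, hδ, hball⟩ := Metric.eventually_nhds_iff.mp hev
  set w := min (δ / 2) 1 with hwdef
  have hw0 : 0 < w := lt_min (by linarith) one_pos
  have hw1 : |w| ≤ 1 := by rw [abs_of_pos hw0]; exact min_le_right _ _
  have hh : 0 < ∫ z, phi p (psi w z) * H3 z ∂(gaussianReal 0 1) := by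
    refine hball ?_
    rw [Real.dist_eq, sub_zero, abs_of_pos hw0]
    exact lt_of_le_of_lt (min_le_left _ _) (by linarith)
  have hpp := integral_psi_pos hp hw0 hw1
  set E := ∫ z, |psi w z| ^ p ∂(gaussianReal 0 1) with hE
  have hlt : E < gmom p := by
    have h1 : ∀ z : ℝ, |psi w z| ^ p + p * w * (phi p (psi w z) * H3 z) ≤ |z| ^ p := by
      intro z
      have h := abs_rpow_tangent (p := p) (by linarith) (psi w z) z
      have h2 : z - psi w z = w * H3 z := by unfold psi; ring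
      rw [h2] at h
      linarith
    have h2 : ∫ z, (|psi w z| ^ p + p * w * (phi p (psi w z) * H3 z)) ∂(gaussianReal 0 1) ≤
        gmom p := by
      unfold gmom
      exact integral_mono ((integrable_psi_rpow hp hw1).add
        ((integrable_phi_psi hp hw1).const_mul _)) (integrable_abs_rpow (by linarith)) h1
    rw [integral_add (integrable_psi_rpow hp hw1) ((integrable_phi_psi hp hw1).const_mul _),
      integral_const_mul] at h2
    have h3 : 0 < p * w * ∫ z, phi p (psi w z) * H3 z ∂(gaussianReal 0 1) := by positivity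
    linarith
  have hroot : (E ^ (1 / p)) ^ p = E := by
    rw [← Real.rpow_mul hpp.le, one_div_mul_cancel (by linarith), Real.rpow_one]
  refine ⟨w, E ^ (1 / p), hw0, Real.rpow_pos_of_pos hpp _, ?_, ?_⟩
  · unfold gam
    exact Real.rpow_lt_rpow hpp.le hlt (by positivity)
  · rw [hroot, hE, ofReal_integral_eq_lintegral_ofReal (integrable_psi_rpow hp hw1)
      (Filter.Eventually.of_forall fun x => by positivity)]
    refine lintegral_congr fun x => ?_
    rw [← ENNReal.ofReal_rpow_of_nonneg (abs_nonneg _) (by linarith), Real.enorm_eq_ofReal_abs]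

end Pool.Agent.H67.NP
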