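import Pool.Agent.H67.NP.Defs

/-!
# Random sign families: (N2) (§8, level lemma)

For two different indices `(a,j) ≠ (a',j')` the map `ω ↦ ω` with the vector `ω a j` replaced by the
pointwise product `ω a j * ω a' j'` is a bijection of the sample space, so the number of `ω` with
`|⟨ω a j, ω a' j'⟩| ≥ m η` equals the number of `ω` with `|∑_x (ω a j) x| ≥ m η`, and the proportion
of the latter is at most `2 exp(-m η²/4)` (`card_filter_coord` twice, or uncurry to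
`P × Fin N → _`; `count_hoeffding_abs`, `b = 1`; compare the second half of `exists_family` in
`Pool/Agent/H67/Family.lean`).
-/

set_option autoImplicit false

open MeasureTheory ProbabilityTheory Finset BigOperators
open scoped ENNReal NNReal

namespace Pool.Agent.H67.NP

open Classical in
/-- one sign vector -/
theorem N2_one (m : ℕ) (η : ℝ) (hη0 : 0 ≤ η) (hη2 : η ≤ 2) :
    ((Finset.univ.filter fun s : Fin m → ℤˣ =>
        (m : ℝ) * η ≤ |∑ x, (((s x : ℤˣ) : ℤ) : ℝ)|).card : ℝ)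
      ≤ (2 * Real.exp (-(m : ℝ) * η ^ 2 / 4)) * Fintype.card (Fin m → ℤˣ) := by
  have h3 := count_hoeffding_abs (κ := Fin m) (S := ℤˣ) (fun u => ((u:ℤ):ℝ)) 1 one_pos
    (by intro u; rcases Int.units_eq_one_or u with h | h <;> simp [h])
    (by
      have huniv : (Finset.univ : Finset ℤˣ) = {1, -1} := by decide
      rw [huniv, Finset.sum_pair (by decide)]; simp) η hη0 hη2
  have h4 : (Fintype.card (Fin m → ℤˣ) : ℝ) = (Fintype.card ℤˣ : ℝ) ^ (Fintype.card (Fin m)) := by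
    rw [Fintype.card_fun]; push_cast; rfl
  rw [h4]
  simp only [Fintype.card_fin, mul_one] at h3 ⊢
  calc _ ≤ _ := h3
    _ = _ := by ring

open Classical in
/-- one coordinate of the family -/
theorem N2_coord (m N : ℕ) (η : ℝ) (hη0 : 0 ≤ η) (hη2 : η ≤ 2) (P : Type) [Fintype P]
    (a : P) (j : Fin N) :
    ((Finset.univ.filter fun ω : P → Fin N → Fin m → ℤˣ =>
        (m : ℝ) * η ≤ |∑ x, (((ω a j x : ℤˣ) : ℤ) : ℝ)|).card : ℝ)
      ≤ (2 * Real.exp (-(m : ℝ) * η ^ 2 / 4)) * Fintype.card (P → Fin N → Fin m → ℤˣ) := by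
  have h1 := card_filter_coord (κ := Fin N) (S := Fin m → ℤˣ)
    (fun s => (m:ℝ) * η ≤ |∑ x, (((s x : ℤˣ) : ℤ) : ℝ)|) j
  have h2 := card_filter_coord (κ := P) (S := Fin N → Fin m → ℤˣ)
    (fun s => (m:ℝ) * η ≤ |∑ x, (((s j x : ℤˣ) : ℤ) : ℝ)|) a
  have h0 := N2_one m η hη0 hη2
  have c1 : (Fintype.card (Fin N → Fin m → ℤˣ) : ℝ)
      = (Fintype.card (Fin m → ℤˣ) : ℝ) ^ (Fintype.card (Fin N)) := by
    rw [Fintype.card_fun]; push_cast; rfl
  have c2 : (Fintype.card (P → Fin N → Fin m → ℤˣ) : ℝ)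
      = (Fintype.card (Fin N → Fin m → ℤˣ) : ℝ) ^ (Fintype.card P) := by
    rw [Fintype.card_fun]; push_cast; rfl
  have p0 : (0:ℝ) < Fintype.card (Fin m → ℤˣ) := by exact_mod_cast Fintype.card_pos
  have p1 : (0:ℝ) < Fintype.card (Fin N → Fin m → ℤˣ) := by exact_mod_cast Fintype.card_pos
  rw [← c1] at h1
  rw [← c2] at h2
  have p2 : (0:ℝ) < Fintype.card (P → Fin N → Fin m → ℤˣ) := by exact_mod_cast Fintype.card_pos
  -- first
  have h5 : ((Finset.univ.filter fun s : Fin N → Fin m → ℤˣ =>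
        (m:ℝ) * η ≤ |∑ x, (((s j x : ℤˣ) : ℤ) : ℝ)|).card : ℝ)
      ≤ (2 * Real.exp (-(m : ℝ) * η ^ 2 / 4)) * Fintype.card (Fin N → Fin m → ℤˣ) := by
    refine le_of_mul_le_mul_right ?_ p0
    rw [h1]
    calc _ ≤ ((2 * Real.exp (-(m : ℝ) * η ^ 2 / 4)) * Fintype.card (Fin m → ℤˣ))
          * (Fintype.card (Fin N → Fin m → ℤˣ) : ℝ) := by
          refine mul_le_mul_of_nonneg_right h0 p1.le
      _ = _ := by ring
  refine le_of_mul_le_mul_right ?_ p1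
  rw [h2]
  calc _ ≤ ((2 * Real.exp (-(m : ℝ) * η ^ 2 / 4)) * Fintype.card (Fin N → Fin m → ℤˣ))
        * (Fintype.card (P → Fin N → Fin m → ℤˣ) : ℝ) := by
        refine mul_le_mul_of_nonneg_right h5 p2.le
    _ = _ := by ring

open Classical in
/-- one pair -/
theorem N2_pair (m N : ℕ) (η : ℝ) (hη0 : 0 ≤ η) (hη2 : η ≤ 2) (P : Type) [Fintype P]
    (a : P) (j : Fin N) (a' : P) (j' : Fin N) (hne : (a, j) ≠ (a', j')) :
    ((Finset.univ.filter fun ω : P → Fin N → Fin m → ℤˣ =>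
        (m : ℝ) * η ≤ |∑ x, (((ω a j x : ℤˣ) : ℤ) : ℝ) * (((ω a' j' x : ℤˣ) : ℤ) : ℝ)|).card : ℝ)
      ≤ (2 * Real.exp (-(m : ℝ) * η ^ 2 / 4)) * Fintype.card (P → Fin N → Fin m → ℤˣ) := by
  refine le_trans ?_ (N2_coord m N η hη0 hη2 P a j)
  -- the map
  let Φ : (P → Fin N → Fin m → ℤˣ) → (P → Fin N → Fin m → ℤˣ) := fun ω =>
    fun b i => if (b, i) = (a, j) then ω a j * ω a' j' else ω b i
  have hΦ1 : ∀ ω, Φ ω a j = ω a j * ω a' j' := by
    intro ω; simp [Φ]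
  have hΦ2 : ∀ ω b i, (b, i) ≠ (a, j) → Φ ω b i = ω b i := by
    intro ω b i h
    show (if (b, i) = (a, j) then ω a j * ω a' j' else ω b i) = ω b i
    rw [if_neg h]
  have hΦ3 : ∀ ω, Φ ω a' j' = ω a' j' := fun ω => hΦ2 ω a' j' (fun h => hne h.symm)
  have hinj : Function.Injective Φ := by
    intro ω ω' h
    have e1 : ω a' j' = ω' a' j' := by
      rw [← hΦ3 ω, ← hΦ3 ω', h]
    have e2 : ω a j = ω' a j := by
      have := congrFun (congrFun h a) j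
      rw [hΦ1, hΦ1, e1] at this
      exact mul_right_cancel this
    funext b i
    by_cases hb : (b, i) = (a, j)
    · obtain ⟨rfl, rfl⟩ := Prod.mk.inj hb
      exact e2
    · rw [← hΦ2 ω b i hb, ← hΦ2 ω' b i hb, h]
  refine Nat.cast_le.mpr (Finset.card_le_card_of_injOn Φ ?_ hinj.injOn)
  intro ω hω
  have hsum : ∑ x, (((Φ ω a j x : ℤˣ) : ℤ) : ℝ)
      = ∑ x, (((ω a j x : ℤˣ) : ℤ) : ℝ) * (((ω a' j' x : ℤˣ) : ℤ) : ℝ) := by
    refine Finset.sum_congr rfl fun x _ => ?_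
    rw [hΦ1]
    simp
  rw [Finset.mem_coe, Finset.mem_filter] at hω ⊢
  refine ⟨Finset.mem_univ _, ?_⟩
  rw [hsum]
  exact hω.2

open Classical in
theorem N2_bad (m N : ℕ) (η : ℝ) (hη0 : 0 ≤ η) (hη2 : η ≤ 2) (P : Type) [Fintype P] :
    ((Finset.univ.filter fun ω : P → Fin N → Fin m → ℤˣ =>
        ¬ ∀ (a : P) (j : Fin N) (a' : P) (j' : Fin N), (a, j) ≠ (a', j') →
          |∑ x, (((ω a j x : ℤˣ) : ℤ) : ℝ) * (((ω a' j' x : ℤˣ) : ℤ) : ℝ)| ≤ m * η).card : ℝ)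
      ≤ ((Fintype.card P * N) ^ 2 * (2 * Real.exp (-(m : ℝ) * η ^ 2 / 4)))
        * Fintype.card (P → Fin N → Fin m → ℤˣ) := by
  have hsub : (Finset.univ.filter fun ω : P → Fin N → Fin m → ℤˣ =>
        ¬ ∀ (a : P) (j : Fin N) (a' : P) (j' : Fin N), (a, j) ≠ (a', j') →
          |∑ x, (((ω a j x : ℤˣ) : ℤ) : ℝ) * (((ω a' j' x : ℤˣ) : ℤ) : ℝ)| ≤ m * η)
      ⊆ (Finset.univ.filter fun q : (P × Fin N) × (P × Fin N) => q.1 ≠ q.2).biUnion fun q =>
        Finset.univ.filter fun ω : P → Fin N → Fin m → ℤˣ =>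
        (m : ℝ) * η ≤ |∑ x, (((ω q.1.1 q.1.2 x : ℤˣ) : ℤ) : ℝ)
          * (((ω q.2.1 q.2.2 x : ℤˣ) : ℤ) : ℝ)| := by
    intro ω hω
    rw [Finset.mem_filter] at hω
    obtain ⟨-, hω⟩ := hω
    push Not at hω
    obtain ⟨a, j, a', j', hne, hlt⟩ := hω
    rw [Finset.mem_biUnion]
    refine ⟨((a, j), (a', j')), ?_, ?_⟩
    · rw [Finset.mem_filter]; exact ⟨Finset.mem_univ _, hne⟩
    · rw [Finset.mem_filter]; exact ⟨Finset.mem_univ _, hlt.le⟩
  set C : ℝ := (2 * Real.exp (-(m : ℝ) * η ^ 2 / 4)) * Fintype.card (P → Fin N → Fin m → ℤˣ)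
    with hC
  have hC0 : 0 ≤ C := by positivity
  have h1 : (((Finset.univ.filter fun q : (P × Fin N) × (P × Fin N) => q.1 ≠ q.2).biUnion fun q =>
        Finset.univ.filter fun ω : P → Fin N → Fin m → ℤˣ =>
        (m : ℝ) * η ≤ |∑ x, (((ω q.1.1 q.1.2 x : ℤˣ) : ℤ) : ℝ)
          * (((ω q.2.1 q.2.2 x : ℤˣ) : ℤ) : ℝ)|).card : ℝ)
      ≤ ∑ q ∈ (Finset.univ.filter fun q : (P × Fin N) × (P × Fin N) => q.1 ≠ q.2), C := by
    refine le_trans (Nat.cast_le.mpr Finset.card_biUnion_le) ?_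
    push_cast
    refine Finset.sum_le_sum fun q hq => ?_
    rw [Finset.mem_filter] at hq
    exact N2_pair m N η hη0 hη2 P q.1.1 q.1.2 q.2.1 q.2.2 hq.2
  refine (Nat.cast_le.mpr (Finset.card_le_card hsub)).trans (h1.trans ?_)
  rw [Finset.sum_const, nsmul_eq_mul]
  have h2 : ((Finset.univ.filter fun q : (P × Fin N) × (P × Fin N) => q.1 ≠ q.2).card : ℝ)
      ≤ (Fintype.card P * N) ^ 2 := by
    have : (Finset.univ.filter fun q : (P × Fin N) × (P × Fin N) => q.1 ≠ q.2).card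
        ≤ (Fintype.card P * N) ^ 2 := by
      refine (Finset.card_le_univ _).trans ?_
      rw [Fintype.card_prod, Fintype.card_prod, Fintype.card_fin, sq]
    exact_mod_cast this
  calc _ ≤ ((Fintype.card P * N) ^ 2 : ℝ) * C := mul_le_mul_of_nonneg_right h2 hC0
    _ = _ := by rw [hC]; ring

end Pool.Agent.H67.NP
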