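import Pool.Agent.H67.NP.Defs

/-!
# Random sign families: (N3), frame bound (§8, level lemma)

* `exp_sq_avg`: for `v ∈ ℝ^m`, `∑ v_a² ≤ 4`: `avg_s exp(⟨s,v⟩²/16) ≤ √2`.  Proof:
  `exp(x²/16) = E_g exp(g x/√8)` (`mgf_gaussianReal`), average over `s` first:
  `avg_s exp(g⟨s,v⟩/√8) = ∏ cosh(g v_a/√8) ≤ exp(g² |v|²/16) ≤ exp(g²/4)`
  (`Real.cosh_le_exp_half_sq`), `E_g exp(g²/4) = √2` (`integral_gaussian`).
* for `w ∈ ℤ^m ∩ [-m,m]^m` with `∑ (w_a/m)² ≤ 4` the proportion of `(s_j) ∈ (signs)^N` with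
  `∑_j ⟨s_j, w/m⟩² > 32 N` is at most `exp(-2N) √2^N ≤ exp(-N)` (Markov for `exp(1/16 ∑ …)`).
* if none of these happens: for a unit vector `u` take `w = ⌊m u⌋`, `|w_a| ≤ m`, `|u - w/m|_∞ ≤ 1/m`,
  so `|⟨s,u - w/m⟩| ≤ 1`, `|w/m|₂ ≤ |u|₂ + 1/√m ≤ 2`, and
  `∑_j ⟨s_j,u⟩² ≤ 2·32 N + 2N = 66 N`.  Scale.
-/

set_option autoImplicit false

open MeasureTheory ProbabilityTheory Finset BigOperators
open scoped ENNReal NNReal

namespace Pool.Agent.H67.NP

namespace N3Aux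

theorem exp_gauss (x : ℝ) :
    ∫ g, Real.exp (x / √8 * g) ∂(gaussianReal 0 1) = Real.exp (x ^ 2 / 16) := by
  have h := congrFun (mgf_id_gaussianReal (μ := 0) (v := 1)) (x / √8)
  have h8 : (√8 : ℝ) ^ 2 = 8 := Real.sq_sqrt (by norm_num)
  unfold mgf at h
  simp only [id] at h
  rw [h, NNReal.coe_one, div_pow, h8]
  congr 1
  ring

theorem integrable_expsq : Integrable (fun x : ℝ => Real.exp (x ^ 2 / 4)) (gaussianReal 0 1) := by
  rw [gaussianReal_of_var_ne_zero 0 one_ne_zero,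
    integrable_withDensity_iff_integrable_smul' (measurable_gaussianPDF 0 1)
      (ae_of_all _ fun x => gaussianPDF_lt_top)]
  have h : (fun x : ℝ => (gaussianPDF 0 1 x).toReal • Real.exp (x ^ 2 / 4)) =
      fun x => (√(2 * Real.pi))⁻¹ * Real.exp (-(1 / 4) * x ^ 2) := by
    funext x
    rw [toReal_gaussianPDF, gaussianPDFReal_def, smul_eq_mul, NNReal.coe_one, mul_assoc,
      ← Real.exp_add]
    congr 2
    · rw [mul_one]
    · ring
  rw [h]
  exact (integrable_exp_neg_mul_sq (by norm_num)).const_mul _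

theorem integral_expsq : ∫ x, Real.exp (x ^ 2 / 4) ∂(gaussianReal 0 1) = √2 := by
  rw [integral_gaussianReal_eq_integral_smul one_ne_zero]
  have h : (fun x : ℝ => gaussianPDFReal 0 1 x • Real.exp (x ^ 2 / 4)) =
      fun x => (√(2 * Real.pi))⁻¹ * Real.exp (-(1 / 4) * x ^ 2) := by
    funext x
    rw [gaussianPDFReal_def, smul_eq_mul, NNReal.coe_one, mul_assoc,
      ← Real.exp_add]
    congr 2
    · rw [mul_one]
    · ring
  rw [h, integral_const_mul, integral_gaussian]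
  have hpi := Real.pi_pos
  have h0 : √(2 * Real.pi) ≠ 0 := (Real.sqrt_pos.2 (by positivity)).ne'
  have h1 : √(Real.pi / (1 / 4)) = √(2 * Real.pi) * √2 := by
    rw [← Real.sqrt_mul (by positivity)]
    congr 1
    ring
  rw [h1, ← mul_assoc, inv_mul_cancel₀ h0, one_mul]

theorem sum_exp_signs (m : ℕ) (v : Fin m → ℝ) (c : ℝ) :
    ∑ s : Fin m → ℤˣ, Real.exp (c * ∑ a, (((s a : ℤˣ) : ℤ) : ℝ) * v a) =
      2 ^ m * ∏ a, Real.cosh (c * v a) := by
  have h1 : ∀ s : Fin m → ℤˣ, Real.exp (c * ∑ a, (((s a : ℤˣ) : ℤ) : ℝ) * v a) =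
      ∏ a, Real.exp (c * ((((s a : ℤˣ) : ℤ) : ℝ) * v a)) := by
    intro s
    rw [Finset.mul_sum, Real.exp_sum]
  rw [Finset.sum_congr rfl fun s _ => h1 s]
  have h2 := Finset.prod_univ_sum (fun _ : Fin m => (Finset.univ : Finset ℤˣ))
    (fun a (ε : ℤˣ) => Real.exp (c * (((ε : ℤ) : ℝ) * v a)))
  rw [Fintype.piFinset_univ] at h2
  rw [← h2]
  have h3 : ∀ a, ∑ ε : ℤˣ, Real.exp (c * (((ε : ℤ) : ℝ) * v a)) = 2 * Real.cosh (c * v a) := by
    intro a
    rw [show (Finset.univ : Finset ℤˣ) = {1, -1} from rfl, Finset.sum_pair (by decide),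
      Real.cosh_eq]
    push_cast
    rw [show c * (-1 * v a) = -(c * v a) by ring, show c * (1 * v a) = c * v a by ring]
    ring
  rw [Finset.prod_congr rfl fun a _ => h3 a, Finset.prod_mul_distrib, Finset.prod_const,
    Finset.card_univ, Fintype.card_fin]

theorem prod_cosh_le (m : ℕ) (v : Fin m → ℝ) (hv : ∑ a, v a ^ 2 ≤ 4) (g : ℝ) :
    ∏ a, Real.cosh (g / √8 * v a) ≤ Real.exp (g ^ 2 / 4) := by
  have h8 : (√8 : ℝ) ^ 2 = 8 := Real.sq_sqrt (by norm_num)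
  calc ∏ a, Real.cosh (g / √8 * v a)
      ≤ ∏ a, Real.exp ((g / √8 * v a) ^ 2 / 2) :=
        Finset.prod_le_prod (fun a _ => (Real.cosh_pos _).le)
          fun a _ => Real.cosh_le_exp_half_sq _
    _ = Real.exp (∑ a, (g / √8 * v a) ^ 2 / 2) := (Real.exp_sum _ _).symm
    _ ≤ _ := by
        rw [Real.exp_le_exp]
        have h1 : ∑ a, (g / √8 * v a) ^ 2 / 2 = g ^ 2 / 16 * ∑ a, v a ^ 2 := by
          rw [Finset.mul_sum]
          refine Finset.sum_congr rfl fun a _ => ?_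
          rw [mul_pow, div_pow, h8]
          ring
        rw [h1]
        nlinarith [sq_nonneg g]

end N3Aux

open N3Aux

theorem exp_sq_avg (m : ℕ) (v : Fin m → ℝ) (hv : ∑ a, v a ^ 2 ≤ 4) :
    avg (fun s : Fin m → ℤˣ => Real.exp ((∑ a, (((s a : ℤˣ) : ℤ) : ℝ) * v a) ^ 2 / 16)) ≤ √2 := by
  have hc : (Fintype.card (Fin m → ℤˣ) : ℝ) = 2 ^ m := by
    rw [Fintype.card_fun, Fintype.card_fin]
    norm_cast
  unfold avg
  rw [smul_eq_mul, hc]
  have h1 : ∀ s : Fin m → ℤˣ, Real.exp ((∑ a, (((s a : ℤˣ) : ℤ) : ℝ) * v a) ^ 2 / 16) =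
      ∫ g, Real.exp ((∑ a, (((s a : ℤˣ) : ℤ) : ℝ) * v a) / √8 * g) ∂(gaussianReal 0 1) :=
    fun s => (exp_gauss _).symm
  have hint : ∀ s : Fin m → ℤˣ, Integrable
      (fun g => Real.exp ((∑ a, (((s a : ℤˣ) : ℤ) : ℝ) * v a) / √8 * g)) (gaussianReal 0 1) :=
    fun s => integrable_exp_mul_gaussianReal _
  rw [Finset.sum_congr rfl fun s _ => h1 s, ← integral_finsetSum _ fun s _ => hint s,
    ← integral_const_mul, ← integral_expsq]
  have h2 : ∀ g : ℝ, (2 ^ m)⁻¹ * ∑ s : Fin m → ℤˣ,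
      Real.exp ((∑ a, (((s a : ℤˣ) : ℤ) : ℝ) * v a) / √8 * g) =
      ∏ a, Real.cosh (g / √8 * v a) := by
    intro g
    have h3 := sum_exp_signs m v (g / √8)
    have h4 : ∀ s : Fin m → ℤˣ, Real.exp ((∑ a, (((s a : ℤˣ) : ℤ) : ℝ) * v a) / √8 * g) =
        Real.exp (g / √8 * ∑ a, (((s a : ℤˣ) : ℤ) : ℝ) * v a) := by
      intro s
      congr 1
      ring
    rw [Finset.sum_congr rfl fun s _ => h4 s, h3, ← mul_assoc, inv_mul_cancel₀ (by positivity),
      one_mul]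
  refine integral_mono ((integrable_finsetSum _ fun s _ => hint s).const_mul _)
    integrable_expsq fun g => ?_
  simp only
  rw [h2 g]
  exact prod_cosh_le m v hv g

namespace N3Aux

theorem sum_update {κ : Type} [Fintype κ] [DecidableEq κ] {Y : κ → Type} [∀ i, Fintype (Y i)]
    (l : κ) (g : (∀ i, Y i) → ℝ) :
    ∑ x, ∑ a : Y l, g (Function.update x l a) = Fintype.card (Y l) * ∑ x, g x := by
  have h1 : ∑ x, ∑ a : Y l, g (Function.update x l a) =
      ∑ q : (∀ i, Y i) × Y l, g (Function.update q.1 l q.2) := by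
    rw [Fintype.sum_prod_type]
  have h2 : ∑ q : (∀ i, Y i) × Y l, g q.1 = Fintype.card (Y l) * ∑ x, g x := by
    rw [Fintype.sum_prod_type, Finset.mul_sum]
    refine Finset.sum_congr rfl fun x _ => ?_
    change ∑ _a : Y l, g x = _
    rw [Finset.sum_const, Finset.card_univ, nsmul_eq_mul]
  rw [h1, ← h2]
  let e : (∀ i, Y i) × Y l ≃ (∀ i, Y i) × Y l :=
    { toFun := fun q => (Function.update q.1 l q.2, q.1 l)
      invFun := fun q => (Function.update q.1 l q.2, q.1 l)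
      left_inv := by
        rintro ⟨x, a⟩
        simp
      right_inv := by
        rintro ⟨x, a⟩
        simp }
  exact Fintype.sum_equiv e _ _ fun q => rfl

/-- sum of a function of one coordinate -/
theorem sum_coord {P X : Type} [Fintype P] [DecidableEq P] [Fintype X] (a : P) (F : X → ℝ) :
    Fintype.card X * ∑ ω : P → X, F (ω a) = Fintype.card (P → X) * ∑ x, F x := by
  have h := sum_update (Y := fun _ : P => X) a (fun ω => F (ω a))
  rw [← h]
  simp only [Function.update_self]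
  rw [Finset.sum_const, Finset.card_univ, nsmul_eq_mul]

/-- the linear form -/
noncomputable def lf {m : ℕ} (s : Fin m → ℤˣ) (v : Fin m → ℝ) : ℝ := ∑ x, (((s x : ℤˣ) : ℤ) : ℝ) * v x

theorem sum_exp_le (m N : ℕ) (v : Fin m → ℝ) (hv : ∑ a, v a ^ 2 ≤ 4) (P : Type) [Fintype P]
    [DecidableEq P] (a : P) :
    ∑ ω : P → Fin N → Fin m → ℤˣ, Real.exp ((∑ j, lf (ω a j) v ^ 2) / 16) ≤
      √2 ^ N * Fintype.card (P → Fin N → Fin m → ℤˣ) := by
  have hS : (0 : ℝ) < Fintype.card (Fin m → ℤˣ) := by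
    exact_mod_cast Fintype.card_pos
  have hX : (0 : ℝ) < Fintype.card (Fin N → Fin m → ℤˣ) := by
    exact_mod_cast Fintype.card_pos
  have h1 := sum_coord (P := P) (X := Fin N → Fin m → ℤˣ) a
    (fun τ => Real.exp ((∑ j, lf (τ j) v ^ 2) / 16))
  have h2 : ∑ τ : Fin N → Fin m → ℤˣ, Real.exp ((∑ j, lf (τ j) v ^ 2) / 16) =
      (∑ s : Fin m → ℤˣ, Real.exp (lf s v ^ 2 / 16)) ^ N := by
    have h3 := Finset.prod_univ_sum (fun _ : Fin N => (Finset.univ : Finset (Fin m → ℤˣ)))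
      (fun _ s => Real.exp (lf s v ^ 2 / 16))
    rw [Fintype.piFinset_univ, Finset.prod_const, Finset.card_univ, Fintype.card_fin] at h3
    rw [h3]
    refine Finset.sum_congr rfl fun τ _ => ?_
    rw [Finset.sum_div, Real.exp_sum]
  have h4 : ∑ s : Fin m → ℤˣ, Real.exp (lf s v ^ 2 / 16) ≤
      √2 * Fintype.card (Fin m → ℤˣ) := by
    have h5 := exp_sq_avg m v hv
    unfold avg at h5
    rw [smul_eq_mul, inv_mul_le_iff₀ hS] at h5
    rw [mul_comm]
    exact h5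
  have h6 : ∑ τ : Fin N → Fin m → ℤˣ, Real.exp ((∑ j, lf (τ j) v ^ 2) / 16) ≤
      √2 ^ N * Fintype.card (Fin N → Fin m → ℤˣ) := by
    rw [h2]
    have h7 : (Fintype.card (Fin N → Fin m → ℤˣ) : ℝ) = Fintype.card (Fin m → ℤˣ) ^ N := by
      rw [Fintype.card_fun, Fintype.card_fin]
      push_cast
      rfl
    rw [h7, ← mul_pow]
    exact pow_le_pow_left₀ (Finset.sum_nonneg fun _ _ => (Real.exp_pos _).le) h4 N
  have h8 : Fintype.card (Fin N → Fin m → ℤˣ) *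
      ∑ ω : P → Fin N → Fin m → ℤˣ, Real.exp ((∑ j, lf (ω a j) v ^ 2) / 16) ≤
      Fintype.card (Fin N → Fin m → ℤˣ) *
        (√2 ^ N * Fintype.card (P → Fin N → Fin m → ℤˣ)) := by
    rw [h1]
    calc (Fintype.card (P → Fin N → Fin m → ℤˣ) : ℝ) *
          ∑ τ : Fin N → Fin m → ℤˣ, Real.exp ((∑ j, lf (τ j) v ^ 2) / 16)
        ≤ Fintype.card (P → Fin N → Fin m → ℤˣ) *
          (√2 ^ N * Fintype.card (Fin N → Fin m → ℤˣ)) :=
          mul_le_mul_of_nonneg_left h6 (Nat.cast_nonneg _)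
      _ = _ := by ring
  exact le_of_mul_le_mul_left h8 hX

theorem sqrt_two_le_exp_one : √2 ≤ Real.exp 1 := by
  have h1 : √2 ≤ 2 := by
    rw [Real.sqrt_le_left (by norm_num)]
    norm_num
  have h2 := Real.add_one_le_exp 1
  linarith

open Classical in
theorem bad_card (m N : ℕ) (v : Fin m → ℝ) (hv : ∑ a, v a ^ 2 ≤ 4) (P : Type) [Fintype P]
    (a : P) :
    ((Finset.univ.filter fun ω : P → Fin N → Fin m → ℤˣ =>
      32 * N < ∑ j, lf (ω a j) v ^ 2).card : ℝ) ≤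
      Real.exp (-(N : ℝ)) * Fintype.card (P → Fin N → Fin m → ℤˣ) := by
  have h1 := sum_exp_le m N v hv P a
  have h2 : ((Finset.univ.filter fun ω : P → Fin N → Fin m → ℤˣ =>
      32 * N < ∑ j, lf (ω a j) v ^ 2).card : ℝ) * Real.exp (2 * N) ≤
      ∑ ω : P → Fin N → Fin m → ℤˣ, Real.exp ((∑ j, lf (ω a j) v ^ 2) / 16) := by
    calc ((Finset.univ.filter fun ω : P → Fin N → Fin m → ℤˣ =>
          32 * N < ∑ j, lf (ω a j) v ^ 2).card : ℝ) * Real.exp (2 * N)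
        = ∑ _ω ∈ Finset.univ.filter fun ω : P → Fin N → Fin m → ℤˣ =>
            32 * N < ∑ j, lf (ω a j) v ^ 2, Real.exp (2 * N) := by
          rw [Finset.sum_const, nsmul_eq_mul]
      _ ≤ ∑ ω ∈ Finset.univ.filter fun ω : P → Fin N → Fin m → ℤˣ =>
            32 * N < ∑ j, lf (ω a j) v ^ 2,
            Real.exp ((∑ j, lf (ω a j) v ^ 2) / 16) := by
          refine Finset.sum_le_sum fun ω hω => ?_
          rw [Finset.mem_filter] at hω
          rw [Real.exp_le_exp]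
          linarith [hω.2]
      _ ≤ _ := Finset.sum_le_sum_of_subset_of_nonneg (Finset.filter_subset _ _)
          fun _ _ _ => (Real.exp_pos _).le
  have h3 : √2 ^ N ≤ Real.exp N := by
    have := pow_le_pow_left₀ (Real.sqrt_nonneg 2) sqrt_two_le_exp_one N
    rwa [← Real.exp_nat_mul, mul_one] at this
  have h4 : Real.exp (2 * N) = Real.exp N * Real.exp N := by
    rw [← Real.exp_add]
    congr 1
    ring
  have hE := Real.exp_pos (N : ℝ)
  have h5 : ((Finset.univ.filter fun ω : P → Fin N → Fin m → ℤˣ =>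
      32 * N < ∑ j, lf (ω a j) v ^ 2).card : ℝ) * Real.exp (2 * N) ≤
      Real.exp N * Fintype.card (P → Fin N → Fin m → ℤˣ) :=
    (h2.trans h1).trans (mul_le_mul_of_nonneg_right h3 (Nat.cast_nonneg _))
  rw [h4] at h5
  rw [Real.exp_neg, ← div_eq_inv_mul, le_div_iff₀ hE]
  have h6 : ((Finset.univ.filter fun ω : P → Fin N → Fin m → ℤˣ =>
      32 * N < ∑ j, lf (ω a j) v ^ 2).card : ℝ) * Real.exp N * Real.exp N ≤
      Fintype.card (P → Fin N → Fin m → ℤˣ) * Real.exp N := by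
    rw [mul_assoc]
    linarith
  exact le_of_mul_le_mul_right h6 hE

/-- the integer grid -/
noncomputable def grid (m : ℕ) : Finset (Fin m → ℤ) :=
  Fintype.piFinset fun _ => Finset.Icc (-(m : ℤ)) m

theorem card_grid (m : ℕ) : ((grid m).card : ℝ) = (2 * m + 1 : ℝ) ^ m := by
  unfold grid
  rw [Fintype.card_piFinset, Finset.prod_const, Finset.card_univ, Fintype.card_fin,
    Int.card_Icc]
  have : ((m : ℤ) + 1 - -(m : ℤ)).toNat = 2 * m + 1 := by omega
  rw [this]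
  push_cast
  rfl

theorem lf_add {m : ℕ} (s : Fin m → ℤˣ) (v w : Fin m → ℝ) :
    lf s (fun x => v x + w x) = lf s v + lf s w := by
  unfold lf
  rw [← Finset.sum_add_distrib]
  exact Finset.sum_congr rfl fun x _ => by ring

theorem lf_smul {m : ℕ} (s : Fin m → ℤˣ) (c : ℝ) (w : Fin m → ℝ) :
    lf s (fun x => c * w x) = c * lf s w := by
  unfold lf
  rw [Finset.mul_sum]
  exact Finset.sum_congr rfl fun x _ => by ring

theorem abs_lf_le {m : ℕ} (s : Fin m → ℤˣ) (w : Fin m → ℝ) {δ : ℝ} (h : ∀ x, |w x| ≤ δ) :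
    |lf s w| ≤ m * δ := by
  unfold lf
  refine (Finset.abs_sum_le_sum_abs _ _).trans ?_
  have h1 : ∀ x ∈ (Finset.univ : Finset (Fin m)), |(((s x : ℤˣ) : ℤ) : ℝ) * w x| ≤ δ := by
    intro x _
    rw [abs_mul]
    have h2 : |(((s x : ℤˣ) : ℤ) : ℝ)| = 1 := by
      rcases Int.units_eq_one_or (s x) with h | h <;> rw [h] <;> simp
    rw [h2, one_mul]
    exact h x
  refine (Finset.sum_le_sum h1).trans ?_
  rw [Finset.sum_const, Finset.card_univ, Fintype.card_fin, nsmul_eq_mul]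

/-- from the net to all unit vectors -/
theorem net_unit {m N : ℕ} (hm : 0 < m) (τ : Fin N → Fin m → ℤˣ)
    (hτ : ∀ w ∈ grid m, ∑ x, ((w x : ℝ) / m) ^ 2 ≤ 4 →
      ∑ j, lf (τ j) (fun x => (w x : ℝ) / m) ^ 2 ≤ 32 * N)
    (u : Fin m → ℝ) (hu : ∑ x, u x ^ 2 = 1) : ∑ j, lf (τ j) u ^ 2 ≤ 66 * N := by
  have hm' : (0 : ℝ) < m := by exact_mod_cast hm
  have hm1 : (1 : ℝ) ≤ m := by exact_mod_cast hm
  have hux : ∀ x, |u x| ≤ 1 := by
    intro x
    have h1 : u x ^ 2 ≤ 1 := by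
      rw [← hu]
      exact Finset.single_le_sum (f := fun x => u x ^ 2) (fun _ _ => sq_nonneg _)
        (Finset.mem_univ x)
    rw [abs_le]
    constructor <;> nlinarith
  let w : Fin m → ℤ := fun x => ⌊m * u x⌋
  have hw : w ∈ grid m := by
    unfold grid
    rw [Fintype.mem_piFinset]
    intro x
    rw [Finset.mem_Icc]
    have h1 := abs_le.1 (hux x)
    constructor
    · rw [Int.le_floor]
      push_cast
      nlinarith
    · have h2 : w x ≤ ⌊((m : ℤ) : ℝ)⌋ := by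
        refine Int.floor_le_floor ?_
        push_cast
        nlinarith
      rwa [Int.floor_intCast] at h2
  have hdiff : ∀ x, |u x - (w x : ℝ) / m| ≤ 1 / m := by
    intro x
    have h1 := Int.floor_le (m * u x)
    have h2 := Int.lt_floor_add_one (m * u x)
    have h3 : u x - (w x : ℝ) / m = (m * u x - w x) / m := by
      field_simp
    rw [h3, abs_div, abs_of_pos hm']
    refine div_le_div_of_nonneg_right ?_ hm'.le
    rw [abs_le]
    constructor
    · have : (w x : ℝ) ≤ m * u x := h1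
      linarith
    · have : (m * u x : ℝ) < w x + 1 := h2
      linarith
  have hw4 : ∑ x, ((w x : ℝ) / m) ^ 2 ≤ 4 := by
    have h1 : ∀ x, ((w x : ℝ) / m) ^ 2 ≤ 2 * u x ^ 2 + 2 * (1 / m) ^ 2 := by
      intro x
      have h2 := abs_le.1 (hdiff x)
      have h3 : (u x - (w x : ℝ) / m) ^ 2 ≤ (1 / m) ^ 2 := sq_le_sq' h2.1 h2.2
      nlinarith [sq_nonneg (u x + (u x - (w x : ℝ) / m))]
    refine (Finset.sum_le_sum fun x _ => h1 x).trans ?_
    rw [Finset.sum_add_distrib, ← Finset.mul_sum, hu, Finset.sum_const, Finset.card_univ,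
      Fintype.card_fin, nsmul_eq_mul]
    have h4 : (m : ℝ) * (2 * (1 / m) ^ 2) = 2 / m := by
      field_simp
    rw [h4]
    have h5 : 2 / (m : ℝ) ≤ 2 := by
      rw [div_le_iff₀ hm']
      nlinarith
    linarith
  have h32 := hτ w hw hw4
  have h1 : ∀ j, lf (τ j) u ^ 2 ≤ 2 * lf (τ j) (fun x => (w x : ℝ) / m) ^ 2 + 2 := by
    intro j
    have h2 : u = fun x => (w x : ℝ) / m + (u x - (w x : ℝ) / m) := by
      funext x
      ring
    have h3 : lf (τ j) u = lf (τ j) (fun x => (w x : ℝ) / m) +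
        lf (τ j) (fun x => u x - (w x : ℝ) / m) := by
      conv_lhs => rw [h2]
      rw [lf_add]
    have h4 : |lf (τ j) (fun x => u x - (w x : ℝ) / m)| ≤ 1 := by
      refine (abs_lf_le (τ j) _ hdiff).trans (le_of_eq ?_)
      field_simp
    have h5 := abs_le.1 h4
    rw [h3]
    nlinarith [sq_nonneg (lf (τ j) (fun x => (w x : ℝ) / m) -
      lf (τ j) (fun x => u x - (w x : ℝ) / m))]
  refine (Finset.sum_le_sum fun j _ => h1 j).trans ?_
  rw [Finset.sum_add_distrib, ← Finset.mul_sum, Finset.sum_const, Finset.card_univ,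
    Fintype.card_fin, nsmul_eq_mul]
  linarith

theorem net_all {m N : ℕ} (hm : 0 < m) (τ : Fin N → Fin m → ℤˣ)
    (hτ : ∀ w ∈ grid m, ∑ x, ((w x : ℝ) / m) ^ 2 ≤ 4 →
      ∑ j, lf (τ j) (fun x => (w x : ℝ) / m) ^ 2 ≤ 32 * N)
    (u : Fin m → ℝ) : ∑ j, lf (τ j) u ^ 2 ≤ 66 * N * ∑ x, u x ^ 2 := by
  have h0 : 0 ≤ ∑ x, u x ^ 2 := Finset.sum_nonneg fun _ _ => sq_nonneg _
  rcases h0.eq_or_lt with h | h
  · have hu : ∀ x, u x = 0 := by
      intro x
      have h1 := (Finset.sum_eq_zero_iff_of_nonneg (fun _ _ => sq_nonneg _)).1 h.symm x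
        (Finset.mem_univ x)
      exact pow_eq_zero_iff (two_ne_zero) |>.1 h1
    rw [← h, mul_zero]
    refine le_of_eq (Finset.sum_eq_zero fun j _ => ?_)
    unfold lf
    simp [hu]
  · set R := ∑ x, u x ^ 2 with hR
    have hs : √R ^ 2 = R := Real.sq_sqrt h.le
    have hs0 : √R ≠ 0 := (Real.sqrt_pos.2 h).ne'
    have h1 := net_unit hm τ hτ (fun x => (√R)⁻¹ * u x) (by
      have h2 : ∀ x, ((√R)⁻¹ * u x) ^ 2 = R⁻¹ * u x ^ 2 := by
        intro x
        rw [mul_pow, inv_pow, hs]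
      rw [Finset.sum_congr rfl fun x _ => h2 x, ← Finset.mul_sum, ← hR, inv_mul_cancel₀ h.ne'])
    have h3 : ∀ j, lf (τ j) (fun x => (√R)⁻¹ * u x) ^ 2 = R⁻¹ * lf (τ j) u ^ 2 := by
      intro j
      rw [lf_smul, mul_pow, inv_pow, hs]
    rw [Finset.sum_congr rfl fun j _ => h3 j, ← Finset.mul_sum, inv_mul_le_iff₀ h] at h1
    linarith

end N3Aux

open Classical in
theorem N3_bad (m N : ℕ) (hm : 0 < m) (P : Type) [Fintype P] :
    ((Finset.univ.filter fun ω : P → Fin N → Fin m → ℤˣ =>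
        ¬ ∀ (a : P) (u : Fin m → ℝ),
          ∑ j, (∑ x, (((ω a j x : ℤˣ) : ℤ) : ℝ) * u x) ^ 2 ≤ 66 * N * ∑ x, u x ^ 2).card : ℝ)
      ≤ (Fintype.card P * ((2 * m + 1 : ℝ) ^ m * Real.exp (-(N : ℝ))))
        * Fintype.card (P → Fin N → Fin m → ℤˣ) := by
  let G : Finset (Fin m → ℤ) := (grid m).filter fun w => ∑ x, ((w x : ℝ) / m) ^ 2 ≤ 4
  have hsub : (Finset.univ.filter fun ω : P → Fin N → Fin m → ℤˣ =>
        ¬ ∀ (a : P) (u : Fin m → ℝ),
          ∑ j, (∑ x, (((ω a j x : ℤˣ) : ℤ) : ℝ) * u x) ^ 2 ≤ 66 * N * ∑ x, u x ^ 2) ⊆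
      (Finset.univ : Finset P).biUnion fun a => G.biUnion fun w =>
        Finset.univ.filter fun ω : P → Fin N → Fin m → ℤˣ =>
          32 * N < ∑ j, lf (ω a j) (fun x => (w x : ℝ) / m) ^ 2 := by
    intro ω hω
    rw [Finset.mem_filter] at hω
    by_contra hcon
    refine hω.2 fun a u => net_all hm (ω a) (fun w hw hw4 => ?_) u
    by_contra hlt
    push Not at hlt
    refine hcon ?_
    rw [Finset.mem_biUnion]
    refine ⟨a, Finset.mem_univ a, ?_⟩
    rw [Finset.mem_biUnion]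
    refine ⟨w, Finset.mem_filter.2 ⟨hw, hw4⟩, ?_⟩
    rw [Finset.mem_filter]
    exact ⟨Finset.mem_univ _, hlt⟩
  have h1 : ((Finset.univ.filter fun ω : P → Fin N → Fin m → ℤˣ =>
        ¬ ∀ (a : P) (u : Fin m → ℝ),
          ∑ j, (∑ x, (((ω a j x : ℤˣ) : ℤ) : ℝ) * u x) ^ 2 ≤ 66 * N * ∑ x, u x ^ 2).card : ℝ) ≤
      ∑ _a : P, ∑ w ∈ G, Real.exp (-(N : ℝ)) * Fintype.card (P → Fin N → Fin m → ℤˣ) := by
    refine (Nat.cast_le.2 (Finset.card_le_card hsub)).trans ?_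
    refine (Nat.cast_le.2 Finset.card_biUnion_le).trans ?_
    rw [Nat.cast_sum]
    refine Finset.sum_le_sum fun a _ => ?_
    refine (Nat.cast_le.2 Finset.card_biUnion_le).trans ?_
    rw [Nat.cast_sum]
    refine Finset.sum_le_sum fun w hw => ?_
    exact bad_card m N _ (Finset.mem_filter.1 hw).2 P a
  refine h1.trans ?_
  rw [Finset.sum_const, Finset.card_univ, Finset.sum_const, nsmul_eq_mul, nsmul_eq_mul]
  have h2 : ((G.card : ℕ) : ℝ) ≤ (2 * m + 1 : ℝ) ^ m := by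
    rw [← card_grid]
    exact Nat.cast_le.2 (Finset.card_filter_le _ _)
  have hE := (Real.exp_pos (-(N : ℝ))).le
  calc (Fintype.card P : ℝ) *
        ((G.card : ℝ) * (Real.exp (-(N : ℝ)) * Fintype.card (P → Fin N → Fin m → ℤˣ)))
      ≤ (Fintype.card P : ℝ) * ((2 * m + 1 : ℝ) ^ m *
        (Real.exp (-(N : ℝ)) * Fintype.card (P → Fin N → Fin m → ℤˣ))) := by
        gcongr
    _ = _ := by ring

end Pool.Agent.H67.NP
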