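import Pool.Agent.H67.NP.N1
import Pool.Agent.H67.NP.N2
import Pool.Agent.H67.NP.N3

/-!
# The level lemma (§8)

`m = b^(2t)`, `N = b^(2t+1) = b m`.  Replace `ε` by `min ε 1`.  The three proportions of bad `ω` are at
most `R ((8cm/ε+2)^m 2exp(-N ε²/16))`, `(R N)² 2exp(-m η²/4)` with `η = b^(1-t)` (so `m η² = b²`,
`m η = b^(t+1)`), and `R (2m+1)^m exp(-N)`; each tends to `0` as `b → ∞`:
`(8cm/ε+2)^m exp(-b m ε²/16) = ((8cm/ε+2) exp(-b ε²/16))^m` with `m` a power of `b`, etc.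
(`eventually_pow_le_exp` in `Pool/Agent/H67/Final1.lean`).  So eventually each is `< 1/3` and a good
`ω` exists.
-/

set_option autoImplicit false

open MeasureTheory ProbabilityTheory Finset BigOperators Filter
open scoped ENNReal NNReal

namespace Pool.Agent.H67.NP

/-- A product of the shape occurring in (N1) and (N3) is small. -/
theorem level_pow_bound (b m N : ℕ) (hm : 1 ≤ m) (hN : (N : ℝ) = b * m) (X A a : ℝ) (hX : 0 ≤ X)
    (hA : 1 ≤ A) (h : X * A ≤ Real.exp (a * b)) :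
    X ^ m * Real.exp (-(N : ℝ) * a) ≤ 1 / A := by
  have hA0 : 0 < A := by linarith
  have h1 : Real.exp (-(N : ℝ) * a) = (Real.exp (-(a * b))) ^ m := by
    rw [← Real.exp_nat_mul, hN]
    congr 1
    ring
  rw [h1, ← mul_pow]
  have h2 : X * Real.exp (-(a * b)) ≤ 1 / A := by
    rw [Real.exp_neg, ← div_eq_mul_inv, div_le_div_iff₀ (Real.exp_pos _) hA0]
    linarith
  have h3 : 0 ≤ X * Real.exp (-(a * b)) := mul_nonneg hX (Real.exp_pos _).le
  have h4 : (1 : ℝ) / A ≤ 1 := by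
    rw [div_le_one hA0]
    exact hA
  calc (X * Real.exp (-(a * b))) ^ m ≤ (X * Real.exp (-(a * b))) ^ 1 :=
        pow_le_pow_of_le_one h3 (h2.trans h4) hm
    _ = X * Real.exp (-(a * b)) := pow_one _
    _ ≤ 1 / A := h2

theorem level_ev (B b : ℝ) (k : ℕ) (hb : 0 < b) :
    ∀ᶠ n : ℕ in atTop, B * (n:ℝ) ^ k ≤ Real.exp (b * n) := by
  have h1 : Tendsto (fun n : ℕ => b * (n:ℝ)) atTop atTop :=
    tendsto_natCast_atTop_atTop.const_mul_atTop hb
  have h2 := (Real.tendsto_pow_mul_exp_neg_atTop_nhds_zero k).comp h1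
  have h3 : Tendsto (fun n : ℕ => (|B| / b ^ k) *
      (((fun x : ℝ => x ^ k * Real.exp (-x)) ∘ fun n : ℕ => b * (n:ℝ)) n)) atTop (nhds 0) := by
    have := h2.const_mul (|B| / b ^ k)
    simpa using this
  have h4 : ∀ᶠ n : ℕ in atTop, (|B| / b ^ k) *
      (((fun x : ℝ => x ^ k * Real.exp (-x)) ∘ fun n : ℕ => b * (n:ℝ)) n) < 1 :=
    h3.eventually (gt_mem_nhds one_pos)
  filter_upwards [h4] with n hn
  simp only [Function.comp] at hn
  have hbk : 0 < b ^ k := by positivity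
  have e : |B| / b ^ k * ((b * (n:ℝ)) ^ k * Real.exp (-(b * n)))
      = |B| * (n:ℝ) ^ k / Real.exp (b * n) := by
    rw [Real.exp_neg, mul_pow]
    field_simp
  rw [e, div_lt_one (Real.exp_pos _)] at hn
  calc B * (n:ℝ) ^ k ≤ |B| * (n:ℝ) ^ k := by gcongr; exact le_abs_self B
    _ ≤ _ := hn.le

theorem level_union {Ω : Type} [Fintype Ω] [Nonempty Ω] (S1 S2 S3 : Finset Ω) (p1 p2 p3 : ℝ)
    (h1 : (S1.card : ℝ) ≤ p1 * Fintype.card Ω) (h2 : (S2.card : ℝ) ≤ p2 * Fintype.card Ω)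
    (h3 : (S3.card : ℝ) ≤ p3 * Fintype.card Ω) (hp1 : p1 < 1 / 3) (hp2 : p2 < 1 / 3)
    (hp3 : p3 < 1 / 3) : ∃ ω, ω ∉ S1 ∧ ω ∉ S2 ∧ ω ∉ S3 := by
  classical
  by_contra hcon
  push Not at hcon
  have hcov : (Finset.univ : Finset Ω) ⊆ (S1 ∪ S2) ∪ S3 := by
    intro ω _
    rw [Finset.mem_union, Finset.mem_union]
    by_cases a : ω ∈ S1
    · exact Or.inl (Or.inl a)
    · by_cases b : ω ∈ S2
      · exact Or.inl (Or.inr b)
      · exact Or.inr (hcon ω a b)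
  have hc := (Finset.card_le_card hcov).trans ((Finset.card_union_le _ _).trans
    (Nat.add_le_add_right (Finset.card_union_le _ _) _))
  rw [Finset.card_univ] at hc
  have hT : (0 : ℝ) < Fintype.card Ω := by exact_mod_cast Fintype.card_pos
  have hc' : (Fintype.card Ω : ℝ) ≤ S1.card + S2.card + S3.card := by exact_mod_cast hc
  have q1 := mul_lt_mul_of_pos_right hp1 hT
  have q2 := mul_lt_mul_of_pos_right hp2 hT
  have q3 := mul_lt_mul_of_pos_right hp3 hT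
  linarith

theorem level_lemma (t : ℕ) (ht : 1 ≤ t) (c ε : ℝ) (hc : 0 ≤ c) (hε : 0 < ε) (R : ℕ) :
    ∀ᶠ b : ℕ in atTop, ∀ (q : ℕ) (_ : 0 < q) (f : ℤ → ℝ), (∀ x, 0 ≤ f x) → (∀ x, f x ≤ 1) →
      (∀ x, f (x + q) = f x) → (∀ x y : ℤ, |f x - f y| ≤ c * |(x : ℝ) - y| / q) →
      ∀ (P : Type) [Fintype P], Fintype.card P ≤ R →
        ∃ y : P → Fin (b ^ (2 * t + 1)) → Fin (b ^ (2 * t)) → ℤˣ,
          (∀ (a : P) (u : Fin (b ^ (2 * t)) → ℤ), |avg (fun j => f (sdot (y a j) u))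
            - avg (fun s : Fin (b ^ (2 * t)) → ℤˣ => f (sdot s u))| ≤ ε) ∧
          (∀ a j a' j', (a, j) ≠ (a', j') →
            |∑ x, (((y a j x : ℤˣ) : ℤ) : ℝ) * (((y a' j' x : ℤˣ) : ℤ) : ℝ)| ≤ (b : ℝ) ^ (t + 1)) ∧
          (∀ (a : P) (u : Fin (b ^ (2 * t)) → ℝ),
            ∑ j, (∑ x, (((y a j x : ℤˣ) : ℤ) : ℝ) * u x) ^ 2
              ≤ 66 * (b : ℝ) ^ (2 * t + 1) * ∑ x, u x ^ 2) := by
  classical
  set ε' : ℝ := min ε 1 with hε'
  have hε'0 : 0 < ε' := lt_min hε one_pos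
  have hε'1 : ε' ≤ 1 := min_le_right _ _
  have hε'ε : ε' ≤ ε := min_le_left _ _
  set A : ℝ := 6 * R + 7 with hA
  have hA1 : 1 ≤ A := by
    have : (0 : ℝ) ≤ R := Nat.cast_nonneg R
    linarith
  have hA0 : 0 < A := by linarith
  have ev1 := level_ev ((8 * c / ε' + 2) * A) (ε' ^ 2 / 16) (2 * t)
    (by positivity)
  have ev2 := level_ev (2 * (R : ℝ) ^ 2 * 7) (1 / 4) (4 * t + 2)
    (by positivity)
  have ev3 := level_ev (3 * A) 1 (2 * t) one_pos
  filter_upwards [ev1, ev2, ev3, eventually_ge_atTop 1] with b h1 h2 h3 hb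
  intro q hq f hf0 hf1 hper hlip P _ hPR
  have hb0 : 0 < b := hb
  have hbR : (1 : ℝ) ≤ b := by exact_mod_cast hb
  have hbR0 : (0 : ℝ) < b := by linarith
  set m : ℕ := b ^ (2 * t) with hm
  set N : ℕ := b ^ (2 * t + 1) with hN
  have hm1 : 1 ≤ m := Nat.one_le_pow _ _ hb0
  have hN1 : 0 < N := Nat.pow_pos hb0
  have hmR : (m : ℝ) = (b : ℝ) ^ (2 * t) := by rw [hm]; push_cast; rfl
  have hNR : (N : ℝ) = b * m := by rw [hN, hm]; push_cast; ring
  have hmge : (1 : ℝ) ≤ m := by exact_mod_cast hm1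
  have hPle : ((Fintype.card P : ℕ) : ℝ) ≤ R := by exact_mod_cast hPR
  have hP0 : (0 : ℝ) ≤ ((Fintype.card P : ℕ) : ℝ) := Nat.cast_nonneg _
  have hR0 : (0 : ℝ) ≤ R := Nat.cast_nonneg _
  -- first proportion
  have p1 : (Fintype.card P : ℝ) * ((8 * c * m / ε' + 2) ^ m *
      (2 * Real.exp (-(N : ℝ) * ε' ^ 2 / 16))) < 1 / 3 := by
    have hX : 0 ≤ 8 * c * m / ε' + 2 := by positivity
    have hb1 : (8 * c * m / ε' + 2) * A ≤ Real.exp (ε' ^ 2 / 16 * b) := by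
      refine le_trans ?_ h1
      rw [← hmR]
      have : 8 * c * m / ε' + 2 ≤ (8 * c / ε' + 2) * m := by
        have e : (8 * c / ε' + 2) * m = 8 * c * m / ε' + 2 * m := by ring
        rw [e]
        linarith
      calc (8 * c * m / ε' + 2) * A ≤ ((8 * c / ε' + 2) * m) * A := by gcongr
        _ = (8 * c / ε' + 2) * A * m := by ring
    have hb2 := level_pow_bound b m N hm1 hNR (8 * c * m / ε' + 2) A (ε' ^ 2 / 16) hX hA1 hb1
    have e : -(N : ℝ) * ε' ^ 2 / 16 = -(N : ℝ) * (ε' ^ 2 / 16) := by ring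
    rw [e]
    calc (Fintype.card P : ℝ) * ((8 * c * m / ε' + 2) ^ m * (2 * Real.exp (-(N : ℝ) * (ε' ^ 2 / 16))))
        = 2 * (Fintype.card P : ℝ) *
          ((8 * c * m / ε' + 2) ^ m * Real.exp (-(N : ℝ) * (ε' ^ 2 / 16))) := by ring
      _ ≤ 2 * R * (1 / A) := by gcongr
      _ < 1 / 3 := by
        rw [mul_one_div, div_lt_div_iff₀ hA0 (by norm_num)]
        rw [hA]
        linarith
  -- second proportion
  set η : ℝ := b / (b : ℝ) ^ t with hη
  have hη0 : 0 ≤ η := by positivity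
  have hη2 : η ≤ 2 := by
    have h5 : η ≤ 1 := by
      rw [hη, div_le_one (by positivity)]
      calc (b : ℝ) = (b : ℝ) ^ 1 := (pow_one _).symm
        _ ≤ (b : ℝ) ^ t := pow_le_pow_right₀ hbR ht
    linarith
  have hmη : (m : ℝ) * η = (b : ℝ) ^ (t + 1) := by
    rw [hmR, hη, two_mul, pow_add, pow_succ]
    field_simp
  have hmη2 : (m : ℝ) * η ^ 2 = (b : ℝ) ^ 2 := by
    rw [hmR, hη, two_mul, pow_add]
    field_simp
  have p2 : (((Fintype.card P : ℝ) * N) ^ 2 * (2 * Real.exp (-(m : ℝ) * η ^ 2 / 4))) < 1 / 3 := by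
    have e1 : -(m : ℝ) * η ^ 2 / 4 = -((b : ℝ) ^ 2 / 4) := by
      rw [neg_mul, hmη2]
      ring
    have e2 : Real.exp (-((b : ℝ) ^ 2 / 4)) ≤ Real.exp (-(1 / 4 * b)) := by
      apply Real.exp_le_exp.2
      nlinarith
    have e3 : (N : ℝ) ^ 2 = (b : ℝ) ^ (4 * t + 2) := by
      rw [hN]
      push_cast
      rw [← pow_mul]
      congr 1
      ring
    rw [e1]
    have e4 : (2 * (R : ℝ) ^ 2 * 7) * (b : ℝ) ^ (4 * t + 2) * Real.exp (-(1 / 4 * b)) ≤ 1 := by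
      rw [Real.exp_neg, ← div_eq_mul_inv, div_le_one (Real.exp_pos _)]
      exact h2
    calc ((Fintype.card P : ℝ) * N) ^ 2 * (2 * Real.exp (-((b : ℝ) ^ 2 / 4)))
        ≤ ((R : ℝ) * N) ^ 2 * (2 * Real.exp (-(1 / 4 * b))) := by gcongr
      _ = (2 * (R : ℝ) ^ 2 * 7) * (b : ℝ) ^ (4 * t + 2) * Real.exp (-(1 / 4 * b)) / 7 := by
        rw [mul_pow, e3]
        ring
      _ ≤ 1 / 7 := by gcongr
      _ < 1 / 3 := by norm_num
  -- third proportion
  have p3 : (Fintype.card P : ℝ) * ((2 * m + 1 : ℝ) ^ m * Real.exp (-(N : ℝ))) < 1 / 3 := by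
    have hb1 : (2 * (m : ℝ) + 1) * A ≤ Real.exp (1 * b) := by
      refine le_trans ?_ h3
      rw [← hmR]
      calc (2 * (m : ℝ) + 1) * A ≤ (3 * m) * A := by
            gcongr
            linarith
        _ = 3 * A * m := by ring
    have hb2 := level_pow_bound b m N hm1 hNR (2 * m + 1) A 1 (by positivity) hA1 hb1
    rw [mul_one] at hb2
    calc (Fintype.card P : ℝ) * ((2 * m + 1 : ℝ) ^ m * Real.exp (-(N : ℝ)))
        ≤ R * (1 / A) := by gcongr
      _ < 1 / 3 := by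
        rw [mul_one_div, div_lt_div_iff₀ hA0 (by norm_num)]
        rw [hA]
        linarith
  have b1 := N1_bad m N q hq hN1 c ε' hc hε'0 hε'1 f hf0 hf1 hper hlip P
  have b2 := N2_bad m N η hη0 hη2 P
  have b3 := N3_bad m N hm1 P
  obtain ⟨ω, g1, g2, g3⟩ := level_union _ _ _ _ _ _ b1 b2 b3 p1 p2 p3
  simp only [Finset.mem_filter, Finset.mem_univ, true_and, not_not] at g1 g2 g3
  refine ⟨ω, fun a u => (g1 a u).trans hε'ε, fun a j a' j' hne => ?_, fun a u => ?_⟩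
  · rw [← hmη]
    exact g2 a j a' j' hne
  · have hNc : (N : ℝ) = (b : ℝ) ^ (2 * t + 1) := by rw [hN]; push_cast; rfl
    have := g3 a u
    rw [hNc] at this
    exact this

end Pool.Agent.H67.NP
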