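import Pool.Agent.H67.NP.C3

/-!
# The last term of the chain (§5)

`‖F^(k),nb‖ ≤ τs^k D₁ (1 + K^((p-1)/p))`:  `F^nb = F - F^b`.  `‖F‖ ≤ D₁ τs^k` by `H_scalar` with
`a_j = ∏_i ψ(z^i_j)` and `lintegral_prod_chi_all` (`l = k`).  For the big part
`F^b(s,x) = ∑_{r∈S(s)} f_r(s,x)`, `f_r = ∑_{rt j = r} G_j(s) ∏_i ψ(z^i_j)`,
`|F^b|^p ≤ K^(p-1) ∑_r |f_r|^p` and `H_scalar` with the coefficients `1[rt j = r] ∏ψ` for each `r`:
`∑_s ∫ |f_r|^p ≤ D₁^p N⁻¹ #{j : rt j = r} τs^(kp)`; sum over `r`.
-/

set_option autoImplicit false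

open MeasureTheory ProbabilityTheory Finset BigOperators
open scoped ENNReal NNReal

namespace Pool.Agent.H67.NP

variable {k : ℕ} {I Q : Fin k → Type} [∀ i, Fintype (I i)] [∀ i, Fintype (Q i)]
  [∀ i, DecidableEq (Q i)] {J : Type} [Fintype J] {R : Type} [Fintype R] [DecidableEq R]

theorem FF_top {p w τs D₁ : ℝ} (hp : 1 ≤ p) (hτ : 0 < τs) (hD₁ : 0 ≤ D₁) [Nonempty J]
    (hw : ∫⁻ x, ‖psi w x‖ₑ ^ p ∂(gaussianReal 0 1) = ENNReal.ofReal (τs ^ p))
    (cl : ∀ i, J → Q i) (u : ∀ i, Q i → I i → ℝ) (hu : ∀ i π, l2 (u i π) = 1) (rt : J → R)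
    {G : J → ℕ → ℝ} (hG : L1bd p D₁ G) (S : ℕ → Finset R) (K : ℕ) (hS : ∀ s, (S s).card ≤ K) :
    NN p (gX I) (fun s x => ‖FF cl u w k (nb rt (S s) fun j => G j s) x‖ₑ)
      ≤ ENNReal.ofReal (τs ^ k * (D₁ * (1 + (K : ℝ) ^ ((p - 1) / p)))) := by
  classical
  have hp0 : 0 < p := by linarith
  have hN0 : (0 : ℝ) < Fintype.card J := by exact_mod_cast Fintype.card_pos
  have hT0 : 0 < τs ^ k := by positivity
  -- the factor of class `j`
  set Ψ : J → (∀ i, I i → ℝ) → ℝ := fun j x => ∏ i, chi w k i (zz cl u i j x) with hΨ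
  have hΨm : ∀ j, Measurable (Ψ j) := by
    intro j
    have h := measurable_FF cl u w k (Pi.single j (1 : ℝ))
    have h2 : FF cl u w k (Pi.single j (1 : ℝ)) = Ψ j := by
      funext x
      simp only [FF, hΨ]
      rw [Finset.sum_eq_single j]
      · simp
      · intro b _ hb
        rw [Pi.single_eq_of_ne hb, zero_mul]
      · intro h; exact absurd (Finset.mem_univ j) h
    rwa [h2] at h
  have hΨp : ∀ j, ∫⁻ x, ‖Ψ j x‖ₑ ^ p ∂(gX I) = ENNReal.ofReal ((τs ^ k) ^ p) := by
    intro j
    have h := lintegral_prod_chi_all hp0 hτ hw cl u hu k le_rfl j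
    rwa [Nat.sub_self, pow_zero, mul_one] at h
  have hFF : ∀ (g : J → ℝ) (x : ∀ i, I i → ℝ), FF cl u w k g x = ∑ j, Ψ j x * g j := by
    intro g x
    simp only [FF, hΨ]
    exact Finset.sum_congr rfl fun j _ => mul_comm _ _
  -- the full sum
  have hfull : NN p (gX I) (fun s x => ‖FF cl u w k (fun j => G j s) x‖ₑ)
      ≤ ENNReal.ofReal (τs ^ k * D₁) := by
    rw [NN_le_iff hp0 _ _ (by positivity)]
    simp_rw [hFF]
    refine (H_scalar hp hG (gX I) Ψ hΨm).trans ?_
    simp_rw [hΨp]
    rw [Finset.sum_const, Finset.card_univ, nsmul_eq_mul, ← ENNReal.ofReal_natCast,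
      ← ENNReal.ofReal_mul (by positivity), ← ENNReal.ofReal_mul (by positivity)]
    apply le_of_eq
    congr 1
    rw [Real.mul_rpow hT0.le hD₁]
    field_simp
  -- the big part
  set B : ℕ → (∀ i, I i → ℝ) → ℝ :=
    fun s x => ∑ r ∈ S s, FF cl u w k (fun j => if rt j = r then G j s else 0) x with hB
  have hsplit : ∀ s x, FF cl u w k (nb rt (S s) fun j => G j s) x
      = FF cl u w k (fun j => G j s) x - B s x := by
    intro s x
    simp only [hB, hFF]
    rw [Finset.sum_comm, ← Finset.sum_sub_distrib]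
    refine Finset.sum_congr rfl fun j _ => ?_
    rw [← Finset.mul_sum, ← mul_sub]
    congr 1
    rw [Finset.sum_ite_eq]
    unfold nb
    by_cases h : rt j ∈ S s <;> simp [h]
  have hBm : ∀ s, Measurable (B s) := fun s =>
    Finset.measurable_fun_sum _ fun r _ => measurable_FF cl u w k _
  have hbig : NN p (gX I) (fun s x => ‖B s x‖ₑ)
      ≤ ENNReal.ofReal (τs ^ k * (D₁ * (K : ℝ) ^ ((p - 1) / p))) := by
    rw [NN_le_iff hp0 _ _ (by positivity)]
    -- pointwise power mean
    have hpt : ∀ s x, ‖B s x‖ₑ ^ p ≤ ENNReal.ofReal ((K : ℝ) ^ (p - 1)) *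
        ∑ r, ‖∑ j, (if rt j = r then Ψ j x else 0) * G j s‖ₑ ^ p := by
      intro s x
      have e1 : ∀ r, FF cl u w k (fun j => if rt j = r then G j s else 0) x
          = ∑ j, (if rt j = r then Ψ j x else 0) * G j s := by
        intro r
        rw [hFF]
        refine Finset.sum_congr rfl fun j _ => ?_
        by_cases h : rt j = r <;> simp [h]
      have e2 : ‖B s x‖ₑ ^ p ≤ ((S s).card : ℝ≥0∞) ^ (p - 1) *
          ∑ r ∈ S s, ‖∑ j, (if rt j = r then Ψ j x else 0) * G j s‖ₑ ^ p := by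
        calc ‖B s x‖ₑ ^ p
            ≤ (∑ r ∈ S s, ‖∑ j, (if rt j = r then Ψ j x else 0) * G j s‖ₑ) ^ p := by
              refine ENNReal.rpow_le_rpow ?_ hp0.le
              simp only [hB, e1]
              exact enorm_sum_le _ _
          _ ≤ _ := by
              exact ENNReal.rpow_sum_le_const_mul_sum_rpow (S s) _ hp
      refine e2.trans ?_
      have e3 : ((S s).card : ℝ≥0∞) ^ (p - 1) ≤ ENNReal.ofReal ((K : ℝ) ^ (p - 1)) := by
        rw [← ENNReal.ofReal_rpow_of_nonneg (by positivity) (by linarith), ENNReal.ofReal_natCast]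
        refine ENNReal.rpow_le_rpow ?_ (by linarith)
        exact_mod_cast hS s
      refine mul_le_mul' e3 ?_
      exact Finset.sum_le_sum_of_subset (Finset.subset_univ _)
    calc ∑' s, ∫⁻ x, ‖B s x‖ₑ ^ p ∂(gX I)
        ≤ ∑' s, ∫⁻ x, ENNReal.ofReal ((K : ℝ) ^ (p - 1)) *
            ∑ r, ‖∑ j, (if rt j = r then Ψ j x else 0) * G j s‖ₑ ^ p ∂(gX I) :=
          ENNReal.tsum_le_tsum fun s => lintegral_mono fun x => hpt s x
      _ = ENNReal.ofReal ((K : ℝ) ^ (p - 1)) *
            ∑ r, ∑' s, ∫⁻ x, ‖∑ j, (if rt j = r then Ψ j x else 0) * G j s‖ₑ ^ p ∂(gX I) := by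
          have hm : ∀ s r, Measurable fun x =>
              ‖∑ j, (if rt j = r then Ψ j x else 0) * G j s‖ₑ ^ p := by
            intro s r
            refine Measurable.pow_const (Measurable.enorm ?_) _
            refine Finset.measurable_fun_sum _ fun j _ => Measurable.mul_const ?_ _
            by_cases h : rt j = r
            · simpa [h] using hΨm j
            · simp [h]
          rw [← (Summable.tsum_finsetSum fun r _ => ENNReal.summable), ← ENNReal.tsum_mul_left]
          refine tsum_congr fun s => ?_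
          rw [lintegral_const_mul' _ _ ENNReal.ofReal_ne_top,
            lintegral_finsetSum _ fun r _ => hm s r]
      _ ≤ ENNReal.ofReal ((K : ℝ) ^ (p - 1)) *
            ∑ r, ENNReal.ofReal (D₁ ^ p / Fintype.card J) *
              ∑ j, if rt j = r then ENNReal.ofReal ((τs ^ k) ^ p) else 0 := by
          gcongr with r
          refine (H_scalar hp hG (gX I) (fun j x => if rt j = r then Ψ j x else 0) ?_).trans ?_
          · intro j
            by_cases h : rt j = r
            · simpa [h] using hΨm j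
            · simp [h]
          · refine mul_le_mul' le_rfl (Finset.sum_le_sum fun j _ => ?_)
            by_cases h : rt j = r
            · simp only [h, if_true]
              exact (hΨp j).le
            · simp [h, ENNReal.zero_rpow_of_pos hp0]
      _ = ENNReal.ofReal ((τs ^ k * (D₁ * (K : ℝ) ^ ((p - 1) / p))) ^ p) := by
          rw [← Finset.mul_sum, Finset.sum_comm]
          simp only [Finset.sum_ite_eq, Finset.mem_univ, if_true]
          rw [Finset.sum_const, Finset.card_univ, nsmul_eq_mul, ← ENNReal.ofReal_natCast,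
            ← ENNReal.ofReal_mul (by positivity), ← ENNReal.ofReal_mul (by positivity),
            ← ENNReal.ofReal_mul (by positivity)]
          congr 1
          rw [Real.mul_rpow hT0.le (by positivity), Real.mul_rpow hD₁ (by positivity),
            ← Real.rpow_mul (by positivity), div_mul_cancel₀ _ hp0.ne']
          field_simp
  calc NN p (gX I) (fun s x => ‖FF cl u w k (nb rt (S s) fun j => G j s) x‖ₑ)
      ≤ NN p (gX I) (fun s x => ‖FF cl u w k (fun j => G j s) x‖ₑ + ‖B s x‖ₑ) := by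
        refine NN_mono hp0.le fun s x => ?_
        rw [hsplit]
        exact enorm_sub_le
    _ ≤ NN p (gX I) (fun s x => ‖FF cl u w k (fun j => G j s) x‖ₑ)
        + NN p (gX I) (fun s x => ‖B s x‖ₑ) :=
        NN_add_le hp (fun s => (measurable_FF cl u w k _).enorm) fun s => (hBm s).enorm
    _ ≤ ENNReal.ofReal (τs ^ k * D₁)
        + ENNReal.ofReal (τs ^ k * (D₁ * (K : ℝ) ^ ((p - 1) / p))) := add_le_add hfull hbig
    _ = _ := by
        rw [← ENNReal.ofReal_add (by positivity) (by positivity)]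
        congr 1
        ring

end Pool.Agent.H67.NP
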