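import Pool.Agent.H67.NP.OneBlock
import Pool.Agent.H67.NP.Chain
import Pool.Agent.H67.NP.Top

/-!
# Theorem II, `p > 2` (§5)

Constants `w, τs, θ, M'` from `one_block`.  Iterating `chain_step` for `l = 0, …, k-1`, with
`N_l = ‖F^(l),nb‖/(τs^l gam^(k-l))`: `N_0 ≤ θ^k N_k + (2 M' D₁/(1-θ)) (a^((p-2)/p) + ε₀)` and
`N_k ≤ D₁ (1 + K^((p-1)/p))` (`FF_top`), `K = ⌊k/a²⌋` or `⌈k/a²⌉` (`card_BigS`).
Choose `a` with `(2M'D₁/(1-θ)) a^((p-2)/p) ≤ 1/60`, then `k ≥ 1` with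
`θ^k D₁ (1 + K^((p-1)/p)) ≤ 1/60` (geometric beats polynomial), then `ε₀ > 0` with
`(2M'D₁/(1-θ)) ε₀ ≤ 1/60`.  Use `rt = cl 0`, `Big s = BigS cl u rt a (G · s)`, and
`FF .. 0 (nb ..) = ∑ (if cl 0 j ∈ Big s then 0 else G j s) ∏ zz`.
-/

set_option autoImplicit false

open MeasureTheory ProbabilityTheory Finset BigOperators
open scoped ENNReal NNReal

namespace Pool.Agent.H67.NP

theorem ee_chain_abs {θ e : ℝ} (hθ0 : 0 < θ) (hθ1 : θ < 1) (he : 0 ≤ e) (k : ℕ) (c : ℕ → ℝ≥0∞)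
    (h : ∀ l, l < k → c l ≤ ENNReal.ofReal θ * c (l + 1) + ENNReal.ofReal e) :
    c 0 ≤ ENNReal.ofReal (θ ^ k) * c k + ENNReal.ofReal (e / (1 - θ)) := by
  have key : ∀ l, l ≤ k → c 0 ≤ ENNReal.ofReal (θ ^ l) * c l
      + ENNReal.ofReal (e * ∑ i ∈ Finset.range l, θ ^ i) := by
    intro l
    induction l with
    | zero => intro _; simp
    | succ l ih =>
      intro hl
      have h1 := ih (by omega)
      have h2 := h l (by omega)
      calc c 0 ≤ ENNReal.ofReal (θ ^ l) * c l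
            + ENNReal.ofReal (e * ∑ i ∈ Finset.range l, θ ^ i) := h1
        _ ≤ ENNReal.ofReal (θ ^ l) * (ENNReal.ofReal θ * c (l + 1) + ENNReal.ofReal e)
            + ENNReal.ofReal (e * ∑ i ∈ Finset.range l, θ ^ i) := by gcongr
        _ = ENNReal.ofReal (θ ^ (l + 1)) * c (l + 1)
            + ENNReal.ofReal (e * ∑ i ∈ Finset.range (l + 1), θ ^ i) := by
          have hs : 0 ≤ ∑ i ∈ Finset.range l, θ ^ i :=
            Finset.sum_nonneg fun i _ => by positivity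
          rw [mul_add, ← mul_assoc, ← ENNReal.ofReal_mul (by positivity), ← pow_succ,
            ← ENNReal.ofReal_mul (by positivity), add_assoc,
            ← ENNReal.ofReal_add (by positivity) (by positivity), Finset.sum_range_succ]
          congr 2
          ring
  refine (key k le_rfl).trans ?_
  gcongr
  have hlt : 0 < 1 - θ := by linarith
  rw [div_eq_mul_inv]
  apply mul_le_mul_of_nonneg_left _ he
  rw [geom_sum_eq (by linarith : θ ≠ 1)]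
  rw [← neg_div_neg_eq, neg_sub, neg_sub, div_eq_mul_inv]
  have hp : 0 ≤ θ ^ k := by positivity
  have hi : 0 ≤ (1 - θ)⁻¹ := by positivity
  nlinarith

theorem exists_small_a {p A : ℝ} (hp : 2 < p) (hA : 0 < A) :
    ∃ a : ℝ, 0 < a ∧ A * a ^ ((p - 2) / p) ≤ 1 / 60 := by
  have hq : 0 < (p - 2) / p := div_pos (by linarith) (by linarith)
  refine ⟨(1 / (60 * A)) ^ (1 / ((p - 2) / p)), Real.rpow_pos_of_pos (by positivity) _, ?_⟩
  rw [← Real.rpow_mul (by positivity), one_div_mul_cancel hq.ne', Real.rpow_one]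
  apply le_of_eq
  field_simp

theorem exists_large_k {p θ D₁ a : ℝ} (hp : 2 < p) (hθ0 : 0 < θ) (hθ1 : θ < 1) (hD₁ : 0 < D₁)
    (ha : 0 < a) :
    ∃ k : ℕ, 0 < k ∧
      θ ^ k * (D₁ * (1 + ((⌊(k : ℝ) / a ^ 2⌋₊ : ℕ) : ℝ) ^ ((p - 1) / p))) ≤ 1 / 60 := by
  have h1 : Filter.Tendsto (fun k : ℕ => (k : ℝ) * θ ^ k) Filter.atTop (nhds 0) :=
    tendsto_self_mul_const_pow_of_lt_one hθ0.le hθ1
  have h2 : Filter.Tendsto (fun k : ℕ => θ ^ k) Filter.atTop (nhds 0) :=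
    tendsto_pow_atTop_nhds_zero_of_lt_one hθ0.le hθ1
  have h3 : Filter.Tendsto (fun k : ℕ => (2 * D₁) * θ ^ k + (D₁ / a ^ 2) * ((k : ℝ) * θ ^ k))
      Filter.atTop (nhds 0) := by
    simpa using (h2.const_mul (2 * D₁)).add (h1.const_mul (D₁ / a ^ 2))
  have h4 := (h3.eventually (gt_mem_nhds (show (0 : ℝ) < 1 / 60 by norm_num))).and
    (Filter.eventually_gt_atTop 0)
  obtain ⟨k, hk, hk0⟩ := h4.exists
  refine ⟨k, hk0, le_trans ?_ hk.le⟩
  have hq0 : 0 ≤ (p - 1) / p := div_nonneg (by linarith) (by linarith)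
  have hq1 : (p - 1) / p ≤ 1 := by rw [div_le_one (by linarith)]; linarith
  have hK : ((⌊(k : ℝ) / a ^ 2⌋₊ : ℕ) : ℝ) ≤ k / a ^ 2 := Nat.floor_le (by positivity)
  have hK' : ((⌊(k : ℝ) / a ^ 2⌋₊ : ℕ) : ℝ) ^ ((p - 1) / p) ≤ 1 + k / a ^ 2 := by
    calc ((⌊(k : ℝ) / a ^ 2⌋₊ : ℕ) : ℝ) ^ ((p - 1) / p)
        ≤ (1 + (k : ℝ) / a ^ 2) ^ ((p - 1) / p) :=
          Real.rpow_le_rpow (by positivity) (by linarith) hq0
      _ ≤ (1 + (k : ℝ) / a ^ 2) ^ (1 : ℝ) :=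
          Real.rpow_le_rpow_of_exponent_le (by
            have : (0 : ℝ) ≤ k / a ^ 2 := by positivity
            linarith) hq1
      _ = _ := Real.rpow_one _
  have hθk : 0 ≤ θ ^ k := by positivity
  calc θ ^ k * (D₁ * (1 + ((⌊(k : ℝ) / a ^ 2⌋₊ : ℕ) : ℝ) ^ ((p - 1) / p)))
      ≤ θ ^ k * (D₁ * (1 + (1 + k / a ^ 2))) := by gcongr
    _ = _ := by ring

theorem thmII {p : ℝ} (hp : 2 < p) (D₁ : ℝ) (hD₁ : 0 < D₁) :
    ∃ (k : ℕ) (_ : NeZero k) (K : ℕ) (ε₀ : ℝ), 0 < ε₀ ∧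
      ∀ (I Q : Fin k → Type) [∀ i, Fintype (I i)] [∀ i, Fintype (Q i)] [∀ i, DecidableEq (Q i)]
        (J : Type) [Fintype J] [Nonempty J]
        (cl : ∀ i, J → Q i) (u : ∀ i, Q i → I i → ℝ) (μ : Fin k → ℝ)
        (_ : ∀ i i', i ≤ i' → ∀ j j', cl i' j = cl i' j' → cl i j = cl i j')
        (_ : ∀ i π, l2 (u i π) = 1) (_ : ∀ i, 0 ≤ μ i)
        (_ : ∀ i π π', π ≠ π' → |dot (u i π) (u i π')| ≤ μ i)
        (_ : ∀ i, μ i ^ 2 * (1 + Fintype.card (Q i) * μ i) ≤ ε₀ ^ 2)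
        (G : J → ℕ → ℝ) (_ : L1bd p D₁ G),
        ∃ Big : ℕ → Finset (Q 0), (∀ s, (Big s).card ≤ K) ∧
          NN p (gX I) (fun s x =>
            ‖∑ j, (if cl 0 j ∈ Big s then 0 else G j s) * ∏ i, zz cl u i j x‖ₑ)
            ≤ ENNReal.ofReal (gam p ^ k / 20) := by
  obtain ⟨w, τs, θ, M', hw0, hτ, hτg, hw, hθ0, hθ1, hM', hOB⟩ := one_block hp
  have h1θ : 0 < 1 - θ := by linarith
  have hgam : 0 < gam p := hτ.trans hτg
  obtain ⟨a, ha, haa⟩ := exists_small_a (A := 2 * M' * D₁ / (1 - θ)) hp (by positivity)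
  obtain ⟨k, hk, hkk⟩ := exists_large_k hp hθ0 hθ1 hD₁ ha
  have : NeZero k := ⟨hk.ne'⟩
  set ε₀ : ℝ := (1 - θ) / (120 * M' * D₁) with hε₀def
  have hε₀ : 0 < ε₀ := by positivity
  refine ⟨k, ⟨hk.ne'⟩, ⌊(k : ℝ) / a ^ 2⌋₊, ε₀, hε₀, ?_⟩
  intro I Q _ _ _ J _ _ cl u μ hcl hu hμ0 hμ hε G hG
  have hrt : ∀ (l : Fin k) (j j' : J), cl l j = cl l j' → cl 0 j = cl 0 j' :=
    fun l j j' h => hcl 0 l (Fin.zero_le l) j j' h
  refine ⟨fun s => BigS cl u (cl 0) a fun j => G j s, fun s => ?_, ?_⟩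
  · exact Nat.le_floor (card_BigS cl u (cl 0) hrt a ha fun j => G j s)
  · set c : ℕ → ℝ≥0∞ := fun l => NN p (gX I) (fun s x =>
        ‖FF cl u w l (nb (cl 0) (BigS cl u (cl 0) a fun j => G j s) fun j => G j s) x‖ₑ)
        / ENNReal.ofReal (τs ^ l * gam p ^ (k - l)) with hc
    set e : ℝ := 2 * M' * D₁ * (a ^ ((p - 2) / p) + ε₀) with he
    have he0 : 0 ≤ e := by positivity
    have hstep : ∀ l, l < k → c l ≤ ENNReal.ofReal θ * c (l + 1) + ENNReal.ofReal e := by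
      intro l hl
      have := chain_step hp hτ hθ0 hM' hD₁.le hw hOB cl hcl u hu μ hμ0 hμ ε₀ hε₀.le hε (cl 0) hrt
        hG a ha ⟨l, hl⟩
      simp only at this
      rw [show k - 1 - l = k - (l + 1) by omega] at this
      exact this
    have h0 := ee_chain_abs hθ0 hθ1 he0 k c hstep
    have hck : c k ≤ ENNReal.ofReal (D₁ * (1 + ((⌊(k : ℝ) / a ^ 2⌋₊ : ℕ) : ℝ) ^ ((p - 1) / p))) := by
      have := FF_top (p := p) (w := w) (by linarith) hτ hD₁.le hw cl u hu (cl 0) hG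
        (fun s => BigS cl u (cl 0) a fun j => G j s) ⌊(k : ℝ) / a ^ 2⌋₊
        (fun s => Nat.le_floor (card_BigS cl u (cl 0) hrt a ha fun j => G j s))
      simp only [hc]
      rw [Nat.sub_self, pow_zero, mul_one]
      apply ENNReal.div_le_of_le_mul
      rw [← ENNReal.ofReal_mul (by positivity), mul_comm _ (τs ^ k)]
      exact this
    have hc0 : c 0 ≤ ENNReal.ofReal (1 / 20) := by
      refine h0.trans ?_
      calc ENNReal.ofReal (θ ^ k) * c k + ENNReal.ofReal (e / (1 - θ))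
          ≤ ENNReal.ofReal (θ ^ k) * ENNReal.ofReal
              (D₁ * (1 + ((⌊(k : ℝ) / a ^ 2⌋₊ : ℕ) : ℝ) ^ ((p - 1) / p)))
            + ENNReal.ofReal (e / (1 - θ)) := by gcongr
        _ = ENNReal.ofReal (θ ^ k * (D₁ * (1 + ((⌊(k : ℝ) / a ^ 2⌋₊ : ℕ) : ℝ) ^ ((p - 1) / p)))
            + e / (1 - θ)) := by
          rw [← ENNReal.ofReal_mul (by positivity), ← ENNReal.ofReal_add (by positivity)
            (by positivity)]
        _ ≤ ENNReal.ofReal (1 / 20) := by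
          apply ENNReal.ofReal_le_ofReal
          have h5 : e / (1 - θ) = 2 * M' * D₁ / (1 - θ) * a ^ ((p - 2) / p)
              + 2 * M' * D₁ / (1 - θ) * ε₀ := by
            rw [he]; ring
          have h6 : 2 * M' * D₁ / (1 - θ) * ε₀ = 1 / 60 := by
            rw [hε₀def]
            field_simp
            norm_num
          rw [h5, h6]
          linarith
    have hc0' : c 0 = NN p (gX I) (fun s x =>
        ‖∑ j, (if cl 0 j ∈ (BigS cl u (cl 0) a fun j => G j s) then 0 else G j s)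
          * ∏ i, zz cl u i j x‖ₑ) / ENNReal.ofReal (gam p ^ k) := by
      simp only [hc, FF, chi, nb, Nat.not_lt_zero, if_false, pow_zero, one_mul, Nat.sub_zero]
    rw [hc0'] at hc0
    have hpos : 0 < gam p ^ k := by positivity
    have hne : ENNReal.ofReal (gam p ^ k) ≠ 0 := by
      rw [Ne, ENNReal.ofReal_eq_zero, not_le]; exact hpos
    rw [ENNReal.div_le_iff hne ENNReal.ofReal_ne_top, ← ENNReal.ofReal_mul (by norm_num)] at hc0
    convert hc0 using 2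
    ring

end Pool.Agent.H67.NP
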