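import Pool.Agent.H67.NP.Asm
import Pool.Agent.H67.NP.ThmII
import Pool.Agent.H67.NP.Level

/-!
# `p > 2` (§9)

`thmII` for `D₁ = 2 max C 1` gives `k, K, ε₀`; `assemble` (with `tensor_K`) gives `ε`.
For every `R` choose `b = g R ≥ 1` from `level_lemma` with `t = 5`, `c = p.toReal`, such that moreover
`b^(-8) + R/b ≤ ε₀²` and `8 K b^(-4) ≤ 1` (both hold eventually).  `Rs 0 = 2`,
`Rs (l+1) = Rs l * (g (Rs l))^11`, `m i = (g (Rs i))^10`, `N i = (g (Rs i))^11` (`i : Fin k`), so that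
`card (Bool × Par N i) = Rs i` (induction on `i`: `2 ∏_{i'<i} N i' = Rs i`; only `≤` is needed).
`Good i Y` := coherence `≤ b^6 = m μ_i`, `μ_i = b^(-4)` (`t+1 = 6`).  `hLin`: `thmII` with `cl = clT N`,
`u = uT Y bb`, `μ i = μ_i`: `μ²(1+|Q|μ) ≤ b^(-8) + b^(-8) · Rs i · b^11 · b^(-4) = b^(-8) + Rs i/b`
(`card (Qc N i) = card (Par N i) * N i ≤ Rs i * b^11`).
-/

set_option autoImplicit false

open MeasureTheory ProbabilityTheory Finset BigOperators Filter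
open scoped ENNReal NNReal

namespace Pool.Agent.H67.NP

/-- the sizes of the parameter sets of the levels -/
def RsH (g : ℕ → ℕ) : ℕ → ℕ
  | 0 => 2
  | l + 1 => RsH g l * (g (RsH g l)) ^ (2 * 5 + 1)

theorem RsH_eq (g : ℕ → ℕ) (l : ℕ) :
    RsH g l = 2 * ∏ i ∈ Finset.range l, (g (RsH g i)) ^ (2 * 5 + 1) := by
  induction l with
  | zero => simp [RsH]
  | succ l ih =>
    rw [Finset.prod_range_succ, ← mul_assoc, ← ih]
    rfl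

theorem prod_below {k : ℕ} (f : ℕ → ℕ) (i : Fin k) :
    ∏ i' : {i' : Fin k // i' < i}, f (i'.1 : ℕ) = ∏ l ∈ Finset.range (i : ℕ), f l := by
  refine Finset.prod_bij (fun i' _ => (i'.1 : ℕ)) ?_ ?_ ?_ ?_
  · intro a _
    exact Finset.mem_range.2 a.2
  · intro a _ b _ h
    exact Subtype.ext (Fin.ext h)
  · intro b hb
    have hb' := Finset.mem_range.1 hb
    exact ⟨⟨⟨b, hb'.trans i.2⟩, hb'⟩, Finset.mem_univ _, rfl⟩
  · intro a _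
    rfl

theorem eventually_aux (R K : ℕ) {ε₀ : ℝ} (hε₀ : 0 < ε₀) :
    ∀ᶠ b : ℕ in atTop, 1 ≤ b ∧ (((b : ℝ) ^ 4)⁻¹) ^ 2 + R * (b : ℝ)⁻¹ ≤ ε₀ ^ 2 ∧
      8 * (K : ℝ) * ((b : ℝ) ^ 4)⁻¹ ≤ 1 := by
  filter_upwards [eventually_ge_atTop 1, eventually_ge_atTop ⌈(1 + R) / ε₀ ^ 2⌉₊,
    eventually_ge_atTop (8 * K)] with b h1 h2 h3
  have hb : (1 : ℝ) ≤ b := by exact_mod_cast h1
  have hb0 : (0 : ℝ) < b := by linarith
  have hi1 : (b : ℝ)⁻¹ ≤ 1 := inv_le_one_of_one_le₀ hb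
  have hi0 : 0 < (b : ℝ)⁻¹ := inv_pos.2 hb0
  have e4 : ((b : ℝ) ^ 4)⁻¹ = (b : ℝ)⁻¹ ^ 4 := by rw [inv_pow]
  have l4 : ((b : ℝ) ^ 4)⁻¹ ≤ (b : ℝ)⁻¹ := by
    rw [e4]
    exact pow_le_of_le_one hi0.le hi1 (by norm_num)
  have l8 : (((b : ℝ) ^ 4)⁻¹) ^ 2 ≤ (b : ℝ)⁻¹ := by
    rw [e4, ← pow_mul]
    exact pow_le_of_le_one hi0.le hi1 (by norm_num)
  refine ⟨h1, ?_, ?_⟩
  · have h4 : (1 + R) / ε₀ ^ 2 ≤ (b : ℝ) := (Nat.ceil_le).1 h2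
    have h5 : (1 + R) * (b : ℝ)⁻¹ ≤ ε₀ ^ 2 := by
      rw [← div_eq_mul_inv, div_le_iff₀ hb0]
      rw [div_le_iff₀ (by positivity)] at h4
      linarith
    linarith
  · have h6 : 8 * (K : ℝ) ≤ b := by exact_mod_cast h3
    calc 8 * (K : ℝ) * ((b : ℝ) ^ 4)⁻¹ ≤ 8 * (K : ℝ) * (b : ℝ)⁻¹ := by gcongr
      _ ≤ b * (b : ℝ)⁻¹ := by gcongr
      _ = 1 := mul_inv_cancel₀ hb0.ne'

theorem bad_gt_two (p : ℝ≥0∞) [Fact (1 ≤ p)] (hp2 : 2 < p) (hp : p ≠ ⊤) (C : ℝ) : Bad p C := by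
  have hP : 2 < p.toReal := by
    have := (ENNReal.toReal_lt_toReal (by norm_num) hp).2 hp2
    simpa using this
  have hp1 : 1 < p := lt_of_lt_of_le (by norm_num) hp2.le
  have hD : 0 < 2 * max C 1 := by
    have : (1 : ℝ) ≤ max C 1 := le_max_right _ _
    linarith
  obtain ⟨k, hk, K, ε₀, hε₀, H⟩ := thmII hP (2 * max C 1) hD
  obtain ⟨ε, hε, A⟩ := assemble p hp1 hp C k (fun I _ T => tensor_K hP.le k I T)
  -- the choice of the level sizes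
  have hex : ∀ R : ℕ, ∃ b : ℕ, (1 ≤ b ∧ (((b : ℝ) ^ 4)⁻¹) ^ 2 + R * (b : ℝ)⁻¹ ≤ ε₀ ^ 2 ∧
      8 * (K : ℝ) * ((b : ℝ) ^ 4)⁻¹ ≤ 1) ∧ ∀ (q : ℕ) (_ : 0 < q) (f : ℤ → ℝ), (∀ x, 0 ≤ f x) →
      (∀ x, f x ≤ 1) → (∀ x, f (x + q) = f x) →
      (∀ x y : ℤ, |f x - f y| ≤ p.toReal * |(x : ℝ) - y| / q) →
      ∀ (P : Type) [Fintype P], Fintype.card P ≤ R →
        ∃ y : P → Fin (b ^ (2 * 5 + 1)) → Fin (b ^ (2 * 5)) → ℤˣ,
          (∀ (a : P) (u : Fin (b ^ (2 * 5)) → ℤ), |avg (fun j => f (sdot (y a j) u))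
            - avg (fun s : Fin (b ^ (2 * 5)) → ℤˣ => f (sdot s u))| ≤ ε) ∧
          (∀ a j a' j', (a, j) ≠ (a', j') →
            |∑ x, (((y a j x : ℤˣ) : ℤ) : ℝ) * (((y a' j' x : ℤˣ) : ℤ) : ℝ)|
              ≤ (b : ℝ) ^ (5 + 1)) := by
    intro R
    obtain ⟨b, hb1, hb2⟩ := ((eventually_aux R K hε₀).and
      (level_lemma 5 (by norm_num) p.toReal ε (by linarith) hε R)).exists
    refine ⟨b, hb1, fun q hq f h1 h2 h3 h4 P _ hcard => ?_⟩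
    obtain ⟨y, hy1, hy2, -⟩ := hb2 q hq f h1 h2 h3 h4 P hcard
    exact ⟨y, hy1, hy2⟩
  choose g hg using hex
  let bs : Fin k → ℕ := fun i => g (RsH g i)
  let m : Fin k → ℕ := fun i => bs i ^ (2 * 5)
  let N : Fin k → ℕ := fun i => bs i ^ (2 * 5 + 1)
  have hbs : ∀ i, 1 ≤ bs i := fun i => (hg (RsH g i)).1.1
  have hm : ∀ i, 0 < m i := fun i => pow_pos (hbs i) _
  have hN : ∀ i, 0 < N i := fun i => pow_pos (hbs i) _
  have hprod : ∀ i : Fin k, 2 * (∏ i' : {i' : Fin k // i' < i}, N i'.1) = RsH g i := by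
    intro i
    rw [RsH_eq, ← prod_below (fun l => g (RsH g l) ^ (2 * 5 + 1)) i]
  have hcardP : ∀ i : Fin k, Fintype.card (Bool × Par N i) ≤ RsH g i := by
    intro i
    rw [Fintype.card_prod, Fintype.card_bool, Fintype.card_pi]
    simp only [Fintype.card_fin]
    exact (hprod i).le
  have hcardQ : ∀ i : Fin k, (Fintype.card (Qc N i) : ℝ) ≤ RsH g i * (bs i : ℝ) ^ 11 := by
    intro i
    rw [card_Qc]
    have h1 : (∏ i' : {i' : Fin k // i' < i}, N i'.1) * N i ≤ RsH g i * bs i ^ 11 := by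
      refine Nat.mul_le_mul ?_ le_rfl
      have := hprod i
      omega
    exact_mod_cast h1
  have hμb : ∀ i, (m i : ℝ) * ((bs i : ℝ) ^ 4)⁻¹ = (bs i : ℝ) ^ (5 + 1) := by
    intro i
    have hb0 : (0 : ℝ) < bs i := by exact_mod_cast hbs i
    have : (m i : ℝ) = (bs i : ℝ) ^ 10 := by simp [m]
    rw [this]
    field_simp
  refine A K m N hm hN (((bs 0 : ℕ) : ℝ) ^ 4)⁻¹ (by positivity) (hg (RsH g (0 : Fin k))).1.2.2
    (fun i Yi => ∀ a j a' j', (a, j) ≠ (a', j') →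
        |∑ x, (((Yi a j x : ℤˣ) : ℤ) : ℝ) * (((Yi a' j' x : ℤˣ) : ℤ) : ℝ)|
          ≤ (bs i : ℝ) ^ (5 + 1)) ?_ ?_ ?_
  · intro Y0 hY0 a j a' j' hne
    rw [hμb]
    exact hY0 a j a' j' hne
  · intro i q hq f h1 h2 h3 h4
    obtain ⟨y, hy1, hy2⟩ := (hg (RsH g i)).2 q hq f h1 h2 h3 h4 (Bool × Par N i) (hcardP i)
    exact ⟨y, hy2, hy1⟩
  · intro Y hY bb G hG
    have hne : Nonempty (Leaf N) := ⟨fun i => ⟨0, hN i⟩⟩
    refine H (fun i => Fin (m i)) (Qc N) (Leaf N) (clT N) (uT Y bb)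
      (fun i => ((bs i : ℝ) ^ 4)⁻¹) (clT_refine N) (l2_uT hm Y bb) (fun i => by positivity) ?_ ?_
      G hG
    · intro i π π' hne
      exact dot_uT_le Y i (hm i) _ (by rw [hμb]; exact hY i) bb bb π π' (Or.inr hne)
    · intro i
      have hb0 : (0 : ℝ) < bs i := by exact_mod_cast hbs i
      have h1 := (hg (RsH g i)).1.2.1
      have h2 := hcardQ i
      calc (((bs i : ℝ) ^ 4)⁻¹) ^ 2 * (1 + (Fintype.card (Qc N i) : ℝ) * ((bs i : ℝ) ^ 4)⁻¹)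
          ≤ (((bs i : ℝ) ^ 4)⁻¹) ^ 2 * (1 + (RsH g i * (bs i : ℝ) ^ 11) * ((bs i : ℝ) ^ 4)⁻¹) := by
            gcongr
        _ = (((bs i : ℝ) ^ 4)⁻¹) ^ 2 + RsH g i * (bs i : ℝ)⁻¹ := by
            field_simp
        _ ≤ ε₀ ^ 2 := h1

end Pool.Agent.H67.NP
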