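import Pool.Agent.H67.NP.Gauss
import Pool.Agent.H67.NP.Cube
import Pool.Agent.H67.NP.Update

/-!
# Theorem II, `1 ≤ p < 2`, one block (§6)

`cl 0` injective, so the classes are single elements.  `g(s)^p = ∑_j |G_j(s)|^p`; (L1) for the unit
vectors gives `∑_s g(s)^p ≤ D₁^p`.  `Big s = {π : π = cl 0 j, |G_j(s)| > a g(s)}` has at most
`a^(-p)` elements.  For fixed `s` the function `∑_nb G_j z_j` is `⟨τ,x^0⟩`, `τ = ∑_nb G_j u_j`,
`‖·‖_{L_p(x)} = gam |τ|₂` (`lintegral_dot`; the product measure over `Fin 1`: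
`lintegral_update_pi` or `MeasurableEquiv.funUnique`), `|τ|₂ ≤ √B₀ (∑_nb G_j²)^(1/2)` (`synth_le`),
`∑_nb G_j² ≤ (a g)^(2-p) g^p`.
-/

set_option autoImplicit false

open MeasureTheory ProbabilityTheory Finset BigOperators
open scoped ENNReal NNReal

namespace Pool.Agent.H67.NP

/-- The `ℓ₂` norm of a sequence with small entries. -/
theorem low_l2_le {J : Type} [Fintype J] {p : ℝ} (hp1 : 1 ≤ p) (hp2 : p < 2) {a : ℝ} (ha : 0 < a)
    {P : ℝ} (hP : 0 ≤ P) (c : J → ℝ) (hc : ∀ j, |c j| ^ p ≤ a ^ p * P)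
    (hs : ∑ j, |c j| ^ p ≤ P) : l2 c ≤ a ^ ((2 - p) / 2) * P ^ (1 / p) := by
  have hp0 : 0 < p := by linarith
  have h1 : ∀ j, c j ^ 2 ≤ |c j| ^ p * (a ^ p * P) ^ ((2 - p) / p) := by
    intro j
    have e1 : c j ^ 2 = |c j| ^ p * |c j| ^ (2 - p) := by
      rw [← Real.rpow_add' (abs_nonneg _) (by linarith), show p + (2 - p) = (2 : ℝ) by ring,
        Real.rpow_two, sq_abs]
    have e2 : |c j| ^ (2 - p) = (|c j| ^ p) ^ ((2 - p) / p) := by
      rw [← Real.rpow_mul (abs_nonneg _)]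
      congr 1
      field_simp
    rw [e1, e2]
    refine mul_le_mul_of_nonneg_left ?_ (Real.rpow_nonneg (abs_nonneg _) _)
    exact Real.rpow_le_rpow (Real.rpow_nonneg (abs_nonneg _) _) (hc j)
      (div_nonneg (by linarith) hp0.le)
  have h2 : ∑ j, c j ^ 2 ≤ P * (a ^ p * P) ^ ((2 - p) / p) := by
    calc ∑ j, c j ^ 2 ≤ ∑ j, |c j| ^ p * (a ^ p * P) ^ ((2 - p) / p) :=
          Finset.sum_le_sum fun j _ => h1 j
      _ = (∑ j, |c j| ^ p) * (a ^ p * P) ^ ((2 - p) / p) := by rw [Finset.sum_mul]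
      _ ≤ _ := mul_le_mul_of_nonneg_right hs (by positivity)
  have h3 : P * (a ^ p * P) ^ ((2 - p) / p) = (a ^ ((2 - p) / 2) * P ^ (1 / p)) ^ 2 := by
    rw [Real.mul_rpow (by positivity) hP, ← Real.rpow_mul ha.le, mul_pow]
    have e1 : p * ((2 - p) / p) = 2 - p := by field_simp
    have e2 : (a ^ ((2 - p) / 2)) ^ 2 = a ^ (2 - p) := by
      rw [← Real.rpow_two, ← Real.rpow_mul ha.le]; ring_nf
    have e3 : P * P ^ ((2 - p) / p) = (P ^ (1 / p)) ^ 2 := by
      have h4 : 1 + (2 - p) / p = 1 / p * 2 := by field_simp; ring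
      rw [← Real.rpow_one_add' hP (by rw [h4]; positivity), h4, Real.rpow_mul hP, Real.rpow_two]
    rw [e1, e2, ← e3]; ring
  unfold l2
  rw [h3] at h2
  calc √(∑ j, c j ^ 2) ≤ √((a ^ ((2 - p) / 2) * P ^ (1 / p)) ^ 2) := Real.sqrt_le_sqrt h2
    _ = _ := Real.sqrt_sq (by positivity)

theorem low_enorm_rpow {p : ℝ} (hp : 0 ≤ p) (x : ℝ) : ‖x‖ₑ ^ p = ENNReal.ofReal (|x| ^ p) := by
  rw [← ENNReal.ofReal_rpow_of_nonneg (abs_nonneg x) hp, Real.enorm_eq_ofReal_abs]

/-- (L1) for the unit vectors. -/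
theorem low_sum_le {J : Type} [Fintype J] [Nonempty J] {p : ℝ} (hp : 1 ≤ p) {D₁ : ℝ}
    (hD₁ : 0 ≤ D₁) {G : J → ℕ → ℝ} (hG : L1bd p D₁ G) :
    ∑' s, ENNReal.ofReal (∑ j, |G j s| ^ p) ≤ ENNReal.ofReal (D₁ ^ p) := by
  classical
  have hp0 : 0 < p := by linarith
  have h1 : ∀ j, ∑' s, ENNReal.ofReal (|G j s| ^ p) ≤ ENNReal.ofReal (D₁ ^ p / Fintype.card J) := by
    intro j
    have h := hG (Pi.single j 1)
    have e1 : ∀ s, ∑ j', (Pi.single j 1 : J → ℝ) j' * G j' s = G j s := by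
      intro s
      rw [Finset.sum_eq_single j]
      · simp
      · intro b _ hb; simp [Pi.single_eq_of_ne hb]
      · intro h; exact absurd (Finset.mem_univ j) h
    have e2 : ∑ j', ‖(Pi.single j 1 : J → ℝ) j'‖ₑ ^ p = 1 := by
      rw [Finset.sum_eq_single j]
      · simp
      · intro b _ hb; simp [Pi.single_eq_of_ne hb, hp0]
      · intro h; exact absurd (Finset.mem_univ j) h
    simp_rw [e1] at h
    rw [e2, mul_one] at h
    simpa only [low_enorm_rpow hp0.le] using h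
  have h2 : ∀ s, ENNReal.ofReal (∑ j, |G j s| ^ p) = ∑ j, ENNReal.ofReal (|G j s| ^ p) := by
    intro s
    exact ENNReal.ofReal_sum_of_nonneg fun j _ => by positivity
  simp_rw [h2]
  rw [Summable.tsum_finsetSum fun _ _ => ENNReal.summable]
  calc ∑ j, ∑' s, ENNReal.ofReal (|G j s| ^ p)
      ≤ ∑ j : J, ENNReal.ofReal (D₁ ^ p / Fintype.card J) := Finset.sum_le_sum fun j _ => h1 j
    _ = ENNReal.ofReal (∑ _j : J, D₁ ^ p / Fintype.card J) := by
        rw [ENNReal.ofReal_sum_of_nonneg fun j _ => by positivity]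
    _ = ENNReal.ofReal (D₁ ^ p) := by
        congr 1
        have hN : (Fintype.card J : ℝ) ≠ 0 := by
          exact_mod_cast Fintype.card_ne_zero
        rw [Finset.sum_const, Finset.card_univ, nsmul_eq_mul]
        field_simp

theorem thmIIlow {p : ℝ} (hp1 : 1 ≤ p) (hp2 : p < 2) (D₁ : ℝ) (hD₁ : 0 ≤ D₁) (a : ℝ) (ha : 0 < a)
    (B₀ : ℝ) (hB₀ : 0 ≤ B₀) (hsmall : √B₀ * a ^ ((2 - p) / 2) * D₁ ≤ 1 / 20)
    (I Q : Fin 1 → Type) [∀ i, Fintype (I i)] [∀ i, Fintype (Q i)] [∀ i, DecidableEq (Q i)]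
    (J : Type) [Fintype J] [Nonempty J] (cl : ∀ i, J → Q i) (hinj : Function.Injective (cl 0))
    (u : ∀ i, Q i → I i → ℝ)
    (hfr : ∀ v : I 0 → ℝ, ∑ π, dot (u 0 π) v ^ 2 ≤ B₀ * l2 v ^ 2)
    (G : J → ℕ → ℝ) (hG : L1bd p D₁ G) :
    ∃ Big : ℕ → Finset (Q 0), (∀ s, ((Big s).card : ℝ) ≤ a ^ (-p)) ∧
      NN p (gX I) (fun s x =>
        ‖∑ j, (if cl 0 j ∈ Big s then 0 else G j s) * ∏ i, zz cl u i j x‖ₑ)
        ≤ ENNReal.ofReal (gam p ^ 1 / 20) := by
  classical
  have hp0 : 0 < p := by linarith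
  set P : ℕ → ℝ := fun s => ∑ j, |G j s| ^ p with hPdef
  have hP0 : ∀ s, 0 ≤ P s := fun s => Finset.sum_nonneg fun j _ => by positivity
  have hap : 0 < a ^ p := Real.rpow_pos_of_pos ha _
  set W : ℕ → Finset J := fun s => Finset.univ.filter fun j => a ^ p * P s < |G j s| ^ p with hW
  refine ⟨fun s => (W s).image (cl 0), ?_, ?_⟩
  · intro s
    have h1 : ((W s).card : ℝ) * (a ^ p * P s) ≤ ∑ j ∈ W s, |G j s| ^ p := by
      rw [← nsmul_eq_mul, ← Finset.sum_const]
      exact Finset.sum_le_sum fun j hj => ((Finset.mem_filter.mp hj).2).le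
    have h2 : ∑ j ∈ W s, |G j s| ^ p ≤ P s :=
      Finset.sum_le_sum_of_subset_of_nonneg (Finset.subset_univ _) fun j _ _ => by positivity
    have h3 : (((W s).image (cl 0)).card : ℝ) ≤ (W s).card := by
      exact_mod_cast Finset.card_image_le
    have h5 : ((W s).card : ℝ) ≤ a ^ (-p) := by
      rw [Real.rpow_neg ha.le]
      rcases (hP0 s).eq_or_lt with h0 | h0
      · have hemp : W s = ∅ := by
          rw [Finset.eq_empty_iff_forall_notMem]
          intro j hj
          have h4 := (Finset.mem_filter.mp hj).2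
          rw [← h0, mul_zero] at h4
          have h6 : |G j s| ^ p ≤ P s :=
            Finset.single_le_sum (f := fun j => |G j s| ^ p)
              (fun j _ => by positivity) (Finset.mem_univ j)
          rw [← h0] at h6
          linarith
        rw [hemp]
        simp only [Finset.card_empty, Nat.cast_zero]
        positivity
      · rw [← one_div, le_div_iff₀ hap]
        have h6 : ((W s).card : ℝ) * a ^ p * P s ≤ 1 * P s := by
          rw [one_mul, mul_assoc]; exact h1.trans h2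
        exact le_of_mul_le_mul_right h6 h0
    exact h3.trans h5
  · set K : ℝ := gam p * (√B₀ * a ^ ((2 - p) / 2)) with hK
    have hg := gam_pos hp0
    have hK0 : 0 ≤ K := by positivity
    have key : ∀ s, ∫⁻ x, ‖∑ j, (if cl 0 j ∈ (W s).image (cl 0) then 0 else G j s) *
        ∏ i, zz cl u i j x‖ₑ ^ p ∂(gX I) ≤ ENNReal.ofReal (K ^ p) * ENNReal.ofReal (P s) := by
      intro s
      set c : J → ℝ := fun j => if cl 0 j ∈ (W s).image (cl 0) then 0 else G j s with hc
      set τ : I 0 → ℝ := fun i => ∑ j, c j * u 0 (cl 0 j) i with hτ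
      have e1 : ∀ x : ∀ i, I i → ℝ, ∑ j, c j * ∏ i, zz cl u i j x = dot τ (x 0) := by
        intro x
        rw [hτ, dot_sum_left Finset.univ c (fun j => u 0 (cl 0 j)) (x 0)]
        refine Finset.sum_congr rfl fun j _ => ?_
        rw [Fin.prod_univ_one]
        rfl
      have e2 : ∫⁻ x, ‖∑ j, c j * ∏ i, zz cl u i j x‖ₑ ^ p ∂(gX I)
          = ENNReal.ofReal ((gam p * l2 τ) ^ p) := by
        simp_rw [e1]
        rw [← lintegral_dot τ hp0]
        have hmp : MeasurePreserving (Function.eval (0 : Fin 1)) (gX I) (gI (I 0)) := by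
          unfold gX
          exact measurePreserving_eval (fun i => gI (I i)) 0
        exact hmp.lintegral_comp (f := fun y : I 0 → ℝ => ‖dot τ y‖ₑ ^ p)
          ((measurable_dot τ).enorm.pow_const p)
      rw [e2, ← ENNReal.ofReal_mul (by positivity)]
      refine ENNReal.ofReal_le_ofReal ?_
      have hcle : ∀ j, |c j| ^ p ≤ |G j s| ^ p := by
        intro j
        simp only [hc]
        split_ifs
        · rw [abs_zero, Real.zero_rpow hp0.ne']; positivity
        · exact le_rfl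
      have hcsmall : ∀ j, |c j| ^ p ≤ a ^ p * P s := by
        intro j
        simp only [hc]
        split_ifs with h
        · rw [abs_zero, Real.zero_rpow hp0.ne']
          exact mul_nonneg hap.le (hP0 s)
        · by_contra hcon
          push Not at hcon
          exact h (Finset.mem_image_of_mem _ (Finset.mem_filter.mpr ⟨Finset.mem_univ _, hcon⟩))
      have hl2 := low_l2_le hp1 hp2 ha (hP0 s) c hcsmall
        (Finset.sum_le_sum fun j _ => hcle j)
      have hfrJ : ∀ v : I 0 → ℝ, ∑ j, dot (u 0 (cl 0 j)) v ^ 2 ≤ B₀ * l2 v ^ 2 := by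
        intro v
        refine le_trans ?_ (hfr v)
        have h1 : ∑ j, dot (u 0 (cl 0 j)) v ^ 2
            = ∑ π ∈ Finset.univ.image (cl 0), dot (u 0 π) v ^ 2 := by
          rw [Finset.sum_image fun x _ y _ h => hinj h]
        rw [h1]
        exact Finset.sum_le_sum_of_subset_of_nonneg (Finset.subset_univ _)
          fun π _ _ => sq_nonneg _
      have hsyn := synth_le (fun j => u 0 (cl 0 j)) B₀ hB₀ hfrJ c
      have hfin : gam p * l2 τ ≤ K * P s ^ (1 / p) := by
        calc gam p * l2 τ ≤ gam p * (√B₀ * l2 c) := mul_le_mul_of_nonneg_left hsyn hg.le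
          _ ≤ gam p * (√B₀ * (a ^ ((2 - p) / 2) * P s ^ (1 / p))) := by gcongr
          _ = K * P s ^ (1 / p) := by rw [hK]; ring
      calc (gam p * l2 τ) ^ p ≤ (K * P s ^ (1 / p)) ^ p :=
            Real.rpow_le_rpow (mul_nonneg hg.le (l2_nonneg τ)) hfin hp0.le
        _ = K ^ p * P s := by
            rw [Real.mul_rpow hK0 (Real.rpow_nonneg (hP0 s) _), ← Real.rpow_mul (hP0 s),
              one_div_mul_cancel hp0.ne', Real.rpow_one]
    have htot : ∑' s, ∫⁻ x, ‖∑ j, (if cl 0 j ∈ (W s).image (cl 0) then 0 else G j s) *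
        ∏ i, zz cl u i j x‖ₑ ^ p ∂(gX I) ≤ ENNReal.ofReal ((K * D₁) ^ p) := by
      calc _ ≤ ∑' s, ENNReal.ofReal (K ^ p) * ENNReal.ofReal (P s) := ENNReal.tsum_le_tsum key
        _ = ENNReal.ofReal (K ^ p) * ∑' s, ENNReal.ofReal (P s) := ENNReal.tsum_mul_left
        _ ≤ ENNReal.ofReal (K ^ p) * ENNReal.ofReal (D₁ ^ p) := by
            gcongr
            exact low_sum_le hp1 hD₁ hG
        _ = ENNReal.ofReal ((K * D₁) ^ p) := by
            rw [← ENNReal.ofReal_mul (by positivity), Real.mul_rpow hK0 hD₁]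
    unfold NN
    calc (∑' s, ∫⁻ x, ‖∑ j, (if cl 0 j ∈ (W s).image (cl 0) then 0 else G j s) *
        ∏ i, zz cl u i j x‖ₑ ^ p ∂(gX I)) ^ (1 / p)
        ≤ ENNReal.ofReal ((K * D₁) ^ p) ^ (1 / p) := ENNReal.rpow_le_rpow htot (by positivity)
      _ = ENNReal.ofReal (K * D₁) := by
          rw [ENNReal.ofReal_rpow_of_nonneg (by positivity) (by positivity),
            ← Real.rpow_mul (by positivity), mul_one_div_cancel hp0.ne', Real.rpow_one]
      _ ≤ ENNReal.ofReal (gam p ^ 1 / 20) := by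
          refine ENNReal.ofReal_le_ofReal ?_
          calc K * D₁ = gam p * (√B₀ * a ^ ((2 - p) / 2) * D₁) := by rw [hK]; ring
            _ ≤ gam p * (1 / 20) := mul_le_mul_of_nonneg_left hsmall hg.le
            _ = gam p ^ 1 / 20 := by rw [pow_one]; ring

end Pool.Agent.H67.NP
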