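import Pool.Agent.H67.NP.Asm
import Pool.Agent.H67.NP.ThmIILow
import Pool.Agent.H67.NP.Level

/-!
# `1 < p < 2` (§9)

`k = 1`; `assemble` with `tensor_K_one` gives `ε`.  `P = p.toReal`, `D₁ = 2 max C 1`.  Fix `t ≥ 2` with
`t - 1 > P/(2-P)`; `level_lemma` with `R = 2`, `c = P`.  For large `b ≥ 1`: `m = b^(2t)`, `N = b^(2t+1)`,
`B₀ = 66 b` (`∑_π ⟨u_π,v⟩² = m⁻¹ ∑_j ⟨y_j,v⟩² ≤ 66 (N/m) |v|²`; for `k = 1` `Par N 0` is a one point
type), `a` with `a^(2-P) = 1/(26400 D₁² b)`, so `√B₀ a^((2-P)/2) D₁ = 1/20`;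
`K = ⌊a^(-P)⌋ ≤ (26400 D₁² b)^(P/(2-P))`, `μ₀ = b^(1-t)`, `8 K μ₀ ≤ 1` for large `b` because
`P/(2-P) < t-1`.  `Good 0 Y` := (N2) and (N3).  `hLin`: `thmIIlow`; `clT N 0` is injective.
-/

set_option autoImplicit false

open MeasureTheory ProbabilityTheory Finset BigOperators Filter
open scoped ENNReal NNReal

namespace Pool.Agent.H67.NP

/-- the threshold `a` -/
theorem exists_a_low {P : ℝ} (hP1 : 1 < P) (hP2 : P < 2) {D₁ B₀ : ℝ} (hD : 0 < D₁) (hB : 0 < B₀) :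
    ∃ a : ℝ, 0 < a ∧ √B₀ * a ^ ((2 - P) / 2) * D₁ ≤ 1 / 20 ∧
      a ^ (-P) = (400 * D₁ ^ 2 * B₀) ^ (P / (2 - P)) := by
  have h2 : 0 < 2 - P := by linarith
  have hc : 0 < 400 * D₁ ^ 2 * B₀ := by positivity
  refine ⟨(400 * D₁ ^ 2 * B₀) ^ (-(1 / (2 - P))), Real.rpow_pos_of_pos hc _, ?_, ?_⟩
  · rw [← Real.rpow_mul hc.le]
    have e1 : -(1 / (2 - P)) * ((2 - P) / 2) = -(1 / 2) := by field_simp
    rw [e1, Real.rpow_neg hc.le, ← Real.sqrt_eq_rpow]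
    have e2 : √(400 * D₁ ^ 2 * B₀) = 20 * D₁ * √B₀ := by
      rw [Real.sqrt_mul (by positivity), Real.sqrt_mul (by norm_num), Real.sqrt_sq hD.le]
      congr 2
      rw [show (400 : ℝ) = 20 ^ 2 by norm_num]
      exact Real.sqrt_sq (by norm_num)
    rw [e2]
    have hs : 0 < √B₀ := Real.sqrt_pos.2 hB
    apply le_of_eq
    field_simp
  · rw [← Real.rpow_mul hc.le]
    congr 1
    field_simp

theorem eventually_low (s c₀ : ℝ) (hc : 0 < c₀) :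
    ∀ᶠ b : ℕ in atTop, 1 ≤ b ∧ 8 * (c₀ * b) ^ s * (((b : ℝ) ^ (⌈s⌉₊ + 1)))⁻¹ ≤ 1 := by
  filter_upwards [eventually_ge_atTop 1, eventually_ge_atTop ⌈8 * c₀ ^ s⌉₊] with b h1 h2
  refine ⟨h1, ?_⟩
  have hb : (1 : ℝ) ≤ b := by exact_mod_cast h1
  have hb0 : (0 : ℝ) < b := by linarith
  have h3 : 8 * c₀ ^ s ≤ (b : ℝ) := (Nat.ceil_le).1 h2
  rw [← div_eq_mul_inv, div_le_one (by positivity)]
  rw [Real.mul_rpow hc.le hb0.le]
  have h4 : (b : ℝ) ^ s ≤ (b : ℝ) ^ ⌈s⌉₊ := by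
    rw [← Real.rpow_natCast]
    exact Real.rpow_le_rpow_of_exponent_le hb (Nat.le_ceil s)
  have hs0 : 0 ≤ (b : ℝ) ^ s := Real.rpow_nonneg hb0.le _
  calc 8 * (c₀ ^ s * (b : ℝ) ^ s) = (8 * c₀ ^ s) * (b : ℝ) ^ s := by ring
    _ ≤ b * (b : ℝ) ^ ⌈s⌉₊ := by gcongr
    _ = (b : ℝ) ^ (⌈s⌉₊ + 1) := by ring

theorem bad_lt_two (p : ℝ≥0∞) [Fact (1 ≤ p)] (hp1 : 1 < p) (hp2 : p < 2) (C : ℝ) : Bad p C := by
  have hp : p ≠ ⊤ := ne_top_of_lt hp2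
  have hP2 : p.toReal < 2 := by
    have := (ENNReal.toReal_lt_toReal hp (by norm_num)).2 hp2
    simpa using this
  have hP1 : 1 < p.toReal := by
    have := (ENNReal.toReal_lt_toReal (by norm_num) hp).2 hp1
    simpa using this
  have hD : 0 < 2 * max C 1 := by
    have : (1 : ℝ) ≤ max C 1 := le_max_right _ _
    linarith
  set P : ℝ := p.toReal with hPdef
  set D₁ : ℝ := 2 * max C 1 with hD₁
  set s : ℝ := P / (2 - P) with hs
  obtain ⟨ε, hε, A⟩ := assemble p hp1 hp C 1 (fun I _ T => tensor_K_one (by linarith) I T)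
  set t : ℕ := ⌈s⌉₊ + 1 + 1 with ht
  obtain ⟨b, ⟨hb1, hb2⟩, hlev⟩ := ((eventually_low s (400 * D₁ ^ 2 * 66) (by positivity)).and
    (level_lemma t (by omega) P ε (by linarith) hε 2)).exists
  have hb0 : (0 : ℝ) < b := by exact_mod_cast hb1
  obtain ⟨a, ha, hsmall, haP⟩ := exists_a_low hP1 hP2 hD (B₀ := 66 * b) (by positivity)
  let m : Fin 1 → ℕ := fun _ => b ^ (2 * t)
  let N : Fin 1 → ℕ := fun _ => b ^ (2 * t + 1)
  have hm : ∀ i, 0 < m i := fun i => pow_pos hb1 _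
  have hN : ∀ i, 0 < N i := fun i => pow_pos hb1 _
  have hemp : ∀ i : Fin 1, IsEmpty {i' : Fin 1 // i' < i} := fun i => ⟨fun z => by
    have h1 := z.2
    rw [Subsingleton.elim z.1 i] at h1
    exact lt_irrefl _ h1⟩
  have hcardPar : ∀ i : Fin 1, Fintype.card (Par N i) = 1 := by
    intro i
    have := hemp i
    rw [Fintype.card_pi, Finset.prod_of_isEmpty]
  have hμb : ∀ i, (m i : ℝ) * ((b : ℝ) ^ (⌈s⌉₊ + 1))⁻¹ = (b : ℝ) ^ (t + 1) := by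
    intro i
    have h1 : (m i : ℝ) = (b : ℝ) ^ (⌈s⌉₊ + 1) * (b : ℝ) ^ (t + 1) := by
      rw [← pow_add]
      have : 2 * t = ⌈s⌉₊ + 1 + (t + 1) := by omega
      simp [m, this]
    rw [h1]
    field_simp
  refine A ⌊a ^ (-P)⌋₊ m N hm hN ((b : ℝ) ^ (⌈s⌉₊ + 1))⁻¹ (by positivity) ?_
    (fun i Yi => (∀ a j a' j', (a, j) ≠ (a', j') →
        |∑ x, (((Yi a j x : ℤˣ) : ℤ) : ℝ) * (((Yi a' j' x : ℤˣ) : ℤ) : ℝ)|
          ≤ (b : ℝ) ^ (t + 1)) ∧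
      (∀ (a : Bool × Par N i) (u : Fin (m i) → ℝ),
            ∑ j, (∑ x, (((Yi a j x : ℤˣ) : ℤ) : ℝ) * u x) ^ 2
              ≤ 66 * (b : ℝ) ^ (2 * t + 1) * ∑ x, u x ^ 2)) ?_ ?_ ?_
  · have h1 : ((⌊a ^ (-P)⌋₊ : ℕ) : ℝ) ≤ a ^ (-P) := Nat.floor_le (Real.rpow_nonneg ha.le _)
    have h2 : a ^ (-P) = (400 * D₁ ^ 2 * 66 * b) ^ s := by
      rw [haP]
      congr 1
      ring
    refine le_trans (mul_le_mul_of_nonneg_right ?_ (by positivity)) hb2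
    exact mul_le_mul_of_nonneg_left (h1.trans h2.le) (by norm_num)
  · intro Y0 hY0 a j a' j' hne
    rw [hμb 0]
    exact hY0.1 a j a' j' hne
  · intro i q hq f h1 h2 h3 h4
    have hcard : Fintype.card (Bool × Par N i) ≤ 2 := by
      rw [Fintype.card_prod, Fintype.card_bool, hcardPar i]
    obtain ⟨y, hy1, hy2, hy3⟩ := hlev q hq f h1 h2 h3 h4 (Bool × Par N i) hcard
    exact ⟨y, ⟨hy2, hy3⟩, hy1⟩
  · intro Y hY bb G hG
    have hne : Nonempty (Leaf N) := ⟨fun i => ⟨0, hN i⟩⟩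
    have hinj : Function.Injective (clT N 0) := by
      intro j j' h
      funext i
      have h1 : j 0 = j' 0 := congrArg Prod.snd h
      have h2 : i = 0 := Subsingleton.elim _ _
      subst h2
      exact h1
    have hfr : ∀ v : Fin (m 0) → ℝ, ∑ π, dot (uT Y bb 0 π) v ^ 2 ≤ 66 * b * l2 v ^ 2 := by
      intro v
      have hl2 : l2 v ^ 2 = ∑ x, v x ^ 2 := by
        unfold l2
        exact Real.sq_sqrt (Finset.sum_nonneg fun i _ => sq_nonneg _)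
      have hm0 : (0 : ℝ) < m 0 := by exact_mod_cast hm 0
      have hm0e : (m 0 : ℝ) = (b : ℝ) ^ (2 * t) := by simp [m]
      have hdot : ∀ π : Qc N 0, dot (uT Y bb 0 π) v ^ 2 =
          (m 0 : ℝ)⁻¹ * (∑ x, (((Y 0 (bb, π.1) π.2 x : ℤˣ) : ℤ) : ℝ) * v x) ^ 2 := by
        intro π
        have h1 : dot (uT Y bb 0 π) v =
            (√(m 0 : ℝ))⁻¹ * ∑ x, (((Y 0 (bb, π.1) π.2 x : ℤˣ) : ℤ) : ℝ) * v x := by
          unfold dot uT
          rw [Finset.mul_sum]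
          refine Finset.sum_congr rfl fun x _ => ?_
          ring
        rw [h1, mul_pow, inv_pow, Real.sq_sqrt hm0.le]
      rw [Finset.sum_congr rfl fun π _ => hdot π, Fintype.sum_prod_type]
      have hone : ∀ z : Par N 0, ∑ j, (m 0 : ℝ)⁻¹ *
          (∑ x, (((Y 0 (bb, z) j x : ℤˣ) : ℤ) : ℝ) * v x) ^ 2 ≤ 66 * b * l2 v ^ 2 := by
        intro z
        rw [← Finset.mul_sum]
        have h2 := (hY 0).2 (bb, z) v
        calc (m 0 : ℝ)⁻¹ * ∑ j, (∑ x, (((Y 0 (bb, z) j x : ℤˣ) : ℤ) : ℝ) * v x) ^ 2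
            ≤ (m 0 : ℝ)⁻¹ * (66 * (b : ℝ) ^ (2 * t + 1) * ∑ x, v x ^ 2) := by gcongr
          _ = 66 * b * l2 v ^ 2 := by
            rw [hl2, hm0e]
            field_simp
            ring
      refine (Finset.sum_le_card_nsmul _ _ _ fun z _ => hone z).trans ?_
      rw [Finset.card_univ, hcardPar 0, one_smul]
    obtain ⟨Big, hB1, hB2⟩ := thmIIlow hP1.le hP2 D₁ hD.le a ha (66 * b) (by positivity) hsmall
      (fun i => Fin (m i)) (Qc N) (Leaf N) (clT N) hinj (uT Y bb) hfr G hG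
    exact ⟨Big, fun r => Nat.le_floor (hB1 r), hB2⟩

end Pool.Agent.H67.NP
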