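import Pool.Agent.H67.NP.Defs

/-!
# Gaussian facts (§4, G1)

* `gmom s = E|g|^s = π^(-1/2) 2^(s/2) Γ((s+1)/2)` (Mathlib: `integral_rpow_mul_exp_neg_mul_rpow`,
  `Real.Gamma_add_one`), which gives `gmom (s+2) = (s+1) gmom s`.
* the law of `⟨v,x⟩` under the standard Gaussian measure `gI I` is `N(0,|v|²)`.
* polynomial growth implies integrability.
-/

set_option autoImplicit false

open MeasureTheory ProbabilityTheory Finset BigOperators
open scoped ENNReal NNReal

namespace Pool.Agent.H67.NP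

theorem integrable_abs_rpow {s : ℝ} (hs : 0 ≤ s) :
    Integrable (fun x : ℝ => |x| ^ s) (gaussianReal 0 1) := by
  rcases eq_or_lt_of_le hs with h0 | h0
  · subst h0
    simp
  · have h := memLp_id_gaussianReal' (μ := 0) (v := 1) (ENNReal.ofReal s) ENNReal.ofReal_ne_top
    have h2 := h.integrable_norm_rpow (by simpa using h0) ENNReal.ofReal_ne_top
    simpa [ENNReal.toReal_ofReal hs, Real.norm_eq_abs] using h2

theorem gmom_formula {s : ℝ} (hs : 0 < s) :
    gmom s = 2 * ((√(2 * Real.pi))⁻¹ *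
      ((1 / 2 : ℝ) ^ (-(s + 1) / 2) * (1 / 2) * Real.Gamma ((s + 1) / 2))) := by
  unfold gmom
  rw [integral_gaussianReal_eq_integral_smul (by norm_num)]
  have h1 : (∫ x : ℝ, gaussianPDFReal 0 1 x • |x| ^ s) =
      ∫ x : ℝ, (fun y : ℝ => (√(2 * Real.pi))⁻¹ * (y ^ s * Real.exp (-(1 / 2) * y ^ (2 : ℝ)))) |x| := by
    apply integral_congr_ae
    refine Filter.Eventually.of_forall fun x => ?_
    simp only [gaussianPDFReal, smul_eq_mul, NNReal.coe_one, mul_one, sub_zero]
    have : |x| ^ (2 : ℝ) = x ^ 2 := by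
      rw [Real.rpow_two, sq_abs]
    rw [this]
    have h3 : -x ^ 2 / 2 = -(1 / 2) * x ^ 2 := by ring
    rw [h3]; ring
  rw [h1, integral_comp_abs (f := fun y : ℝ => (√(2 * Real.pi))⁻¹ * (y ^ s * Real.exp (-(1 / 2) * y ^ (2 : ℝ))))]
  rw [integral_const_mul, integral_rpow_mul_exp_neg_mul_rpow (by norm_num) (by linarith)
    (by norm_num)]

theorem gmom_pos {s : ℝ} (hs : 0 < s) : 0 < gmom s := by
  rw [gmom_formula hs]
  have := Real.Gamma_pos_of_pos (s := (s + 1) / 2) (by linarith)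
  have := Real.pi_pos
  positivity

theorem gam_pos {s : ℝ} (hs : 0 < s) : 0 < gam s := Real.rpow_pos_of_pos (gmom_pos hs) _

theorem gam_rpow {s : ℝ} (hs : 0 < s) : gam s ^ s = gmom s := by
  unfold gam
  rw [← Real.rpow_mul (gmom_pos hs).le, one_div_mul_cancel hs.ne', Real.rpow_one]

theorem lintegral_enorm_rpow {s : ℝ} (hs : 0 < s) :
    ∫⁻ x, ‖x‖ₑ ^ s ∂(gaussianReal 0 1) = ENNReal.ofReal (gam s ^ s) := by
  rw [gam_rpow hs]
  unfold gmom
  rw [ofReal_integral_eq_lintegral_ofReal (integrable_abs_rpow hs.le)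
    (Filter.Eventually.of_forall fun x => by positivity)]
  refine lintegral_congr fun x => ?_
  rw [← ENNReal.ofReal_rpow_of_nonneg (abs_nonneg x) hs.le, Real.enorm_eq_ofReal_abs]

/-- `E|g|^(s+2) = (s+1) E|g|^s`. -/
theorem gmom_add_two {s : ℝ} (hs : 0 < s) : gmom (s + 2) = (s + 1) * gmom s := by
  rw [gmom_formula hs, gmom_formula (by linarith)]
  have h1 : (s + 2 + 1) / 2 = (s + 1) / 2 + 1 := by ring
  have h2 : -(s + 2 + 1) / 2 = -(s + 1) / 2 + (-1) := by ring
  rw [h1, h2, Real.Gamma_add_one (by linarith), Real.rpow_add (by norm_num)]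
  have h3 : (1 / 2 : ℝ) ^ (-1 : ℝ) = 2 := by
    rw [Real.rpow_neg_one]; norm_num
  rw [h3]
  ring

theorem gauss_l2_nonneg {I : Type} [Fintype I] (v : I → ℝ) : 0 ≤ l2 v := Real.sqrt_nonneg _

theorem gauss_l2_sq {I : Type} [Fintype I] (v : I → ℝ) : l2 v ^ 2 = ∑ i, v i ^ 2 :=
  Real.sq_sqrt (Finset.sum_nonneg fun _ _ => sq_nonneg _)

theorem l2_nonneg {I : Type} [Fintype I] (v : I → ℝ) : 0 ≤ l2 v := Real.sqrt_nonneg _

theorem l2_sq {I : Type} [Fintype I] (v : I → ℝ) : l2 v ^ 2 = ∑ i, v i ^ 2 := gauss_l2_sq v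

theorem measurable_dot {I : Type} [Fintype I] (v : I → ℝ) :
    Measurable (fun x : I → ℝ => dot v x) := by
  unfold dot
  fun_prop

/-- The law of `⟨v,x⟩`. -/
theorem map_dot {I : Type} [Fintype I] (v : I → ℝ) :
    (gI I).map (fun x => dot v x) = gaussianReal 0 (l2 v ^ 2).toNNReal := by
  classical
  set w : EuclideanSpace ℝ I := WithLp.toLp 2 v with hw
  have h1 : (gI I).map (fun x => dot v x) =
      (stdGaussian (EuclideanSpace ℝ I)).map (innerSL ℝ w) := by
    rw [← map_pi_eq_stdGaussian, Measure.map_map (by fun_prop) (by fun_prop)]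
    unfold gI
    congr 1
    ext x
    simp only [Function.comp_apply, innerSL_apply_apply, hw, dot]
    rw [PiLp.inner_apply]
    refine Finset.sum_congr rfl fun i _ => ?_
    simp [mul_comm]
  rw [h1, IsGaussian.map_eq_gaussianReal, integral_strongDual_stdGaussian, variance_dual_stdGaussian,
    innerSL_apply_norm]
  congr 2
  rw [EuclideanSpace.norm_eq, l2, hw]
  simp

/-- For a unit vector `v`, `⟨v,x⟩` is standard Gaussian. -/
theorem lintegral_comp_dot {I : Type} [Fintype I] (v : I → ℝ) (hv : l2 v = 1) (f : ℝ → ℝ≥0∞)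
    (hf : Measurable f) : ∫⁻ x, f (dot v x) ∂(gI I) = ∫⁻ z, f z ∂(gaussianReal 0 1) := by
  have h := map_dot v
  rw [hv] at h
  simp only [one_pow, Real.toNNReal_one] at h
  rw [← h, lintegral_map hf (measurable_dot v)]

/-- (G1) -/
theorem lintegral_dot {I : Type} [Fintype I] (v : I → ℝ) {s : ℝ} (hs : 0 < s) :
    ∫⁻ x, ‖dot v x‖ₑ ^ s ∂(gI I) = ENNReal.ofReal ((gam s * l2 v) ^ s) := by
  have hm : Measurable (fun z : ℝ => ‖z‖ₑ ^ s) := by fun_prop
  have h1 : ∫⁻ x, ‖dot v x‖ₑ ^ s ∂(gI I) =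
      ∫⁻ z, ‖z‖ₑ ^ s ∂(gaussianReal 0 (l2 v ^ 2).toNNReal) := by
    rw [← map_dot v, lintegral_map hm (measurable_dot v)]
  have h2 : gaussianReal 0 (l2 v ^ 2).toNNReal = (gaussianReal 0 1).map (l2 v * ·) := by
    rw [gaussianReal_map_const_mul, mul_zero, mul_one]
    congr 1
    ext
    simp [gauss_l2_nonneg]
  rw [h1, h2, lintegral_map hm (by fun_prop)]
  have h3 : ∀ z : ℝ, ‖l2 v * z‖ₑ ^ s = ENNReal.ofReal (l2 v ^ s) * ‖z‖ₑ ^ s := by
    intro z
    rw [enorm_mul, ENNReal.mul_rpow_of_nonneg _ _ hs.le, Real.enorm_eq_ofReal (gauss_l2_nonneg v),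
      ENNReal.ofReal_rpow_of_nonneg (gauss_l2_nonneg v) hs.le]
  simp_rw [h3]
  rw [lintegral_const_mul _ hm, lintegral_enorm_rpow hs, ← ENNReal.ofReal_mul
    (Real.rpow_nonneg (gauss_l2_nonneg v) _), Real.mul_rpow (gam_pos hs).le (gauss_l2_nonneg v)]
  ring_nf

/-- Powers of `1 + |x_i|` are integrable. -/
theorem integrable_one_add_abs_pow (n : ℕ) :
    Integrable (fun x : ℝ => (1 + |x|) ^ n) (gaussianReal 0 1) := by
  have h1 : ∀ x : ℝ, (1 + |x|) ^ n = ∑ k ∈ Finset.range (n + 1), (n.choose k : ℝ) * |x| ^ (k : ℝ) := by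
    intro x
    rw [add_comm, add_pow]
    refine Finset.sum_congr rfl fun k _ => ?_
    rw [Real.rpow_natCast]; ring
  simp_rw [h1]
  exact integrable_finsetSum _ fun k _ => (integrable_abs_rpow (Nat.cast_nonneg k)).const_mul _

/-- Functions of polynomial growth are integrable. -/
theorem integrable_of_growth {I : Type} [Fintype I] (f : (I → ℝ) → ℝ) (hf : Measurable f)
    (C : ℝ) (n : ℕ) (h : ∀ x, |f x| ≤ C * (1 + ∑ i, |x i|) ^ n) : Integrable f (gI I) := by
  have hC : 0 ≤ C := by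
    have := (abs_nonneg _).trans (h 0)
    simpa using this
  have hprod : Integrable (fun x : I → ℝ => ∏ i, (1 + |x i|) ^ n) (gI I) := by
    unfold gI
    exact Integrable.fintype_prod (f := fun _ (y : ℝ) => (1 + |y|) ^ n)
      fun i => integrable_one_add_abs_pow n
  refine (hprod.const_mul C).mono' hf.aestronglyMeasurable (Filter.Eventually.of_forall fun x => ?_)
  rw [Real.norm_eq_abs]
  refine (h x).trans ?_
  refine mul_le_mul_of_nonneg_left ?_ hC
  rw [Finset.prod_pow]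
  refine pow_le_pow_left₀ (by positivity) ?_ n
  have : ∀ S : Finset I, 1 + ∑ i ∈ S, |x i| ≤ ∏ i ∈ S, (1 + |x i|) := by
    classical
    intro S
    induction S using Finset.induction_on with
    | empty => simp
    | insert a S ha ih =>
      rw [Finset.sum_insert ha, Finset.prod_insert ha]
      have h1 : 0 ≤ |x a| := abs_nonneg _
      have h2 : 0 ≤ ∑ i ∈ S, |x i| := Finset.sum_nonneg fun _ _ => abs_nonneg _
      nlinarith [mul_nonneg h1 h2, mul_le_mul_of_nonneg_left ih h1]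
  exact this Finset.univ

/-- The same on the line. -/
theorem integrable_of_growth_real (f : ℝ → ℝ) (hf : Measurable f)
    (C : ℝ) (n : ℕ) (h : ∀ x, |f x| ≤ C * (1 + |x|) ^ n) : Integrable f (gaussianReal 0 1) := by
  refine ((integrable_one_add_abs_pow n).const_mul C).mono' hf.aestronglyMeasurable
    (Filter.Eventually.of_forall fun x => ?_)
  rw [Real.norm_eq_abs]
  exact h x

end Pool.Agent.H67.NP
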