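import Pool.Agent.H67.NP.Gauss

/-!
# (H): (L1) for random and for Hilbert valued coefficients (§4)

* `H_scalar`: Tonelli (`lintegral_tsum`, pointwise (L1)).
* `H_vec`: for `v ∈ ℝ^I`, `∫⁻ ‖dot v g‖ₑ^p dgI(g) = ofReal ((gam p * l2 v)^p)` (`lintegral_dot`);
  apply `H_scalar` on `X × (I → ℝ)` (or on `gI I` for every fixed `x`, then integrate over `x`)
  with `a_j(x,g) = ⟨a_j(x), g⟩` and cancel `gam^p > 0`.
* `H_const`: the case of constant vectors.
-/

set_option autoImplicit false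

open MeasureTheory ProbabilityTheory Finset BigOperators
open scoped ENNReal NNReal

namespace Pool.Agent.H67.NP

theorem H_scalar {J : Type} [Fintype J] {p D₁ : ℝ} (hp : 1 ≤ p) {G : J → ℕ → ℝ}
    (hG : L1bd p D₁ G) {X : Type} [MeasurableSpace X] (μ : Measure X) (a : J → X → ℝ)
    (ha : ∀ j, Measurable (a j)) :
    ∑' s, ∫⁻ x, ‖∑ j, a j x * G j s‖ₑ ^ p ∂μ
      ≤ ENNReal.ofReal (D₁ ^ p / Fintype.card J) * ∑ j, ∫⁻ x, ‖a j x‖ₑ ^ p ∂μ := by
  have hm : ∀ j, Measurable fun x => ‖a j x‖ₑ ^ p := fun j => (ha j).enorm.pow_const p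
  have hm2 : ∀ s, Measurable fun x => ‖∑ j, a j x * G j s‖ₑ ^ p := fun s =>
    (Finset.measurable_fun_sum Finset.univ
      (fun j _ => (ha j).mul_const (G j s))).enorm.pow_const p
  rw [← lintegral_tsum fun s => (hm2 s).aemeasurable]
  calc ∫⁻ x, ∑' s, ‖∑ j, a j x * G j s‖ₑ ^ p ∂μ
      ≤ ∫⁻ x, ENNReal.ofReal (D₁ ^ p / Fintype.card J) * ∑ j, ‖a j x‖ₑ ^ p ∂μ :=
        lintegral_mono fun x => hG fun j => a j x
    _ = ENNReal.ofReal (D₁ ^ p / Fintype.card J) * ∫⁻ x, ∑ j, ‖a j x‖ₑ ^ p ∂μ :=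
        lintegral_const_mul _ (Finset.measurable_fun_sum Finset.univ fun j _ => hm j)
    _ = _ := by rw [lintegral_finsetSum _ fun j _ => hm j]

theorem dot_comb {J : Type} [Fintype J] {I : Type} [Fintype I] (c : J → ℝ) (a : J → I → ℝ)
    (x : I → ℝ) : ∑ j, dot (a j) x * c j = dot (fun i => ∑ j, c j * a j i) x := by
  unfold dot
  simp_rw [Finset.sum_mul]
  rw [Finset.sum_comm]
  exact Finset.sum_congr rfl fun i _ => Finset.sum_congr rfl fun j _ => by ring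

theorem l2_nonneg' {I : Type} [Fintype I] (v : I → ℝ) : 0 ≤ l2 v := Real.sqrt_nonneg _

theorem ofReal_gam_mul {p : ℝ} (hp : 1 ≤ p) {I : Type} [Fintype I] (v : I → ℝ) :
    ENNReal.ofReal ((gam p * l2 v) ^ p) = ENNReal.ofReal (gam p) ^ p * ENNReal.ofReal (l2 v) ^ p := by
  have hp0 : 0 < p := by linarith
  have hg := gam_pos hp0
  rw [← ENNReal.ofReal_rpow_of_nonneg (mul_nonneg hg.le (l2_nonneg' v)) hp0.le,
    ENNReal.ofReal_mul hg.le, ENNReal.mul_rpow_of_nonneg _ _ hp0.le]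

theorem H_const {J : Type} [Fintype J] {p D₁ : ℝ} (hp : 1 ≤ p) {G : J → ℕ → ℝ}
    (hG : L1bd p D₁ G) {I : Type} [Fintype I] (a : J → I → ℝ) :
    ∑' s, ENNReal.ofReal (l2 fun i => ∑ j, G j s * a j i) ^ p
      ≤ ENNReal.ofReal (D₁ ^ p / Fintype.card J) * ∑ j, ENNReal.ofReal (l2 (a j)) ^ p := by
  have hp0 : 0 < p := by linarith
  have hg := gam_pos hp0
  have hmeas : ∀ v : I → ℝ, Measurable fun x : I → ℝ => dot v x := fun v => by
    unfold dot
    exact Finset.measurable_fun_sum _ fun i _ => (measurable_pi_apply i).const_mul _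
  have h := H_scalar hp hG (gI I) (fun j x => dot (a j) x) (fun j => hmeas (a j))
  have h1 : ∀ s, ∫⁻ x, ‖∑ j, dot (a j) x * G j s‖ₑ ^ p ∂(gI I)
      = ENNReal.ofReal (gam p) ^ p * ENNReal.ofReal (l2 fun i => ∑ j, G j s * a j i) ^ p := by
    intro s
    rw [← ofReal_gam_mul hp, ← lintegral_dot _ hp0]
    refine lintegral_congr fun x => ?_
    rw [dot_comb (fun j => G j s) a x]
  have h2 : ∀ j, ∫⁻ x, ‖dot (a j) x‖ₑ ^ p ∂(gI I)
      = ENNReal.ofReal (gam p) ^ p * ENNReal.ofReal (l2 (a j)) ^ p := by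
    intro j
    rw [← ofReal_gam_mul hp, ← lintegral_dot _ hp0]
  simp_rw [h1, h2] at h
  rw [ENNReal.tsum_mul_left, ← Finset.mul_sum, mul_left_comm] at h
  have hc0 : ENNReal.ofReal (gam p) ^ p ≠ 0 := by
    simp [ENNReal.rpow_eq_zero_iff, hg, not_lt.mpr hp0.le]
  have hct : ENNReal.ofReal (gam p) ^ p ≠ ∞ := ENNReal.rpow_ne_top_of_nonneg hp0.le ENNReal.ofReal_ne_top
  exact (ENNReal.mul_le_mul_iff_right hc0 hct).mp h

theorem H_vec {J : Type} [Fintype J] {p D₁ : ℝ} (hp : 1 ≤ p) {G : J → ℕ → ℝ}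
    (hG : L1bd p D₁ G) {I : Type} [Fintype I] {X : Type} [MeasurableSpace X] (μ : Measure X)
    (a : J → X → I → ℝ) (ha : ∀ j i, Measurable fun x => a j x i) :
    ∑' s, ∫⁻ x, ENNReal.ofReal (l2 fun i => ∑ j, G j s * a j x i) ^ p ∂μ
      ≤ ENNReal.ofReal (D₁ ^ p / Fintype.card J)
        * ∑ j, ∫⁻ x, ENNReal.ofReal (l2 (a j x)) ^ p ∂μ := by
  have hl2 : ∀ f : X → I → ℝ, (∀ i, Measurable fun x => f x i) →
      Measurable fun x => ENNReal.ofReal (l2 (f x)) ^ p := by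
    intro f hf
    unfold l2
    exact ((Real.continuous_sqrt.measurable.comp
      (Finset.measurable_fun_sum _ fun i _ => (hf i).pow_const 2)).ennreal_ofReal).pow_const p
  have hm : ∀ j, Measurable fun x => ENNReal.ofReal (l2 (a j x)) ^ p := fun j => hl2 _ (ha j)
  have hm2 : ∀ s, Measurable fun x => ENNReal.ofReal (l2 fun i => ∑ j, G j s * a j x i) ^ p :=
    fun s => hl2 (fun x i => ∑ j, G j s * a j x i) fun i =>
      Finset.measurable_fun_sum _ fun j _ => (ha j i).const_mul _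
  rw [← lintegral_tsum fun s => (hm2 s).aemeasurable]
  calc ∫⁻ x, ∑' s, ENNReal.ofReal (l2 fun i => ∑ j, G j s * a j x i) ^ p ∂μ
      ≤ ∫⁻ x, ENNReal.ofReal (D₁ ^ p / Fintype.card J)
          * ∑ j, ENNReal.ofReal (l2 (a j x)) ^ p ∂μ :=
        lintegral_mono fun x => H_const hp hG fun j => a j x
    _ = ENNReal.ofReal (D₁ ^ p / Fintype.card J)
          * ∫⁻ x, ∑ j, ENNReal.ofReal (l2 (a j x)) ^ p ∂μ :=
        lintegral_const_mul _ (Finset.measurable_fun_sum Finset.univ fun j _ => hm j)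
    _ = _ := by rw [lintegral_finsetSum _ fun j _ => hm j]

end Pool.Agent.H67.NP
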