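import Pool.Agent.H67.NP.Gauss

/-!
# (G2): `E φ(⟨τ,x⟩) H₃(⟨u,x⟩)`  (§4)

Proof. For `τ = 0` both sides vanish. Otherwise let `e = τ/|τ|`, `ρ = ⟨u,e⟩`, `X = ⟨e,x⟩`,
`V = ⟨u,x⟩ - ρ X = ⟨u - ρ e, x⟩`. `(X,V)` is jointly Gaussian (linear image of `x`) with covariance
`⟨e,u-ρe⟩ = 0`, hence independent (`HasGaussianLaw.indepFun_of_covariance_eq_zero`), `X` is
standard, `V ∼ N(0,1-ρ²)`.  `φ(⟨τ,x⟩) = |τ|^(p-1) φ(X)` and
`H₃(ρX+V) = ρ³X³ + 3ρ²X²V + 3ρXV² + V³ - 3ρX - 3V`.  The terms with odd powers of `V` have mean `0`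
(`E V = E V³ = 0`), `E V² = 1-ρ²`, `E φ(X)X = gam^p`, `E φ(X)X³ = gmom (p+2) = (p+1) gam^p`.
Total: `ρ³(p+1)gam^p + 3ρ(1-ρ²)gam^p - 3ρ gam^p = (p-2) gam^p ρ³`.
(Alternatively rotate: use `stdGaussian_map` and two coordinates.)
-/

set_option autoImplicit false

open MeasureTheory ProbabilityTheory Finset BigOperators
open scoped ENNReal NNReal

namespace Pool.Agent.H67.NP

section aux

variable {I : Type} [Fintype I]

theorem herm_measurable_dot (v : I → ℝ) : Measurable (fun x : I → ℝ => dot v x) := by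
  unfold dot; fun_prop

theorem herm_l2_sq (v : I → ℝ) : l2 v ^ 2 = ∑ i, v i ^ 2 := by
  unfold l2
  exact Real.sq_sqrt (Finset.sum_nonneg fun i _ => sq_nonneg _)

theorem herm_hasGaussianLaw_gI : HasGaussianLaw (fun x : I → ℝ => x) (gI I) := by
  have h := iIndepFun.hasGaussianLaw (P := gI I) (X := fun (i : I) (x : I → ℝ) => x i) ?_ ?_
  · exact h
  · intro i
    have : (gI I).map (fun x : I → ℝ => x i) = gaussianReal 0 1 := by
      unfold gI
      exact (measurePreserving_eval (fun _ : I => gaussianReal 0 1) i).map_eq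
    exact ⟨by rw [this]; infer_instance⟩
  · exact iIndepFun_pi (μ := fun _ : I => gaussianReal 0 1) (X := fun _ => id)
      (fun i => aemeasurable_id)

/-- the linear functional `⟨v, ·⟩` -/
noncomputable def hermCLM (v : I → ℝ) : (I → ℝ) →L[ℝ] ℝ :=
  ∑ i, v i • ContinuousLinearMap.proj (R := ℝ) (φ := fun _ : I => ℝ) i

theorem hermCLM_apply (v x : I → ℝ) : hermCLM v x = dot v x := by
  simp [hermCLM, dot]

theorem herm_gaussian_dot (v : I → ℝ) : HasGaussianLaw (fun x : I → ℝ => dot v x) (gI I) :=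
  ⟨by rw [map_dot]; infer_instance⟩

theorem herm_gaussian_pair (a b : I → ℝ) :
    HasGaussianLaw (fun x : I → ℝ => (dot a x, dot b x)) (gI I) := by
  have h := herm_hasGaussianLaw_gI (I := I) |>.map_fun ((hermCLM a).prod (hermCLM b))
  have h2 : (fun x : I → ℝ => ((hermCLM a).prod (hermCLM b)) x)
      = fun x : I → ℝ => (dot a x, dot b x) := by
    funext x
    simp [hermCLM_apply]
  rwa [h2] at h

theorem herm_variance_dot (v : I → ℝ) : Var[fun x : I → ℝ => dot v x; gI I] = l2 v ^ 2 := by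
  have h : Var[id; (gI I).map (fun x : I → ℝ => dot v x)] = Var[fun x : I → ℝ => dot v x; gI I] :=
    variance_id_map (herm_measurable_dot v).aemeasurable
  rw [← h, map_dot, variance_id_gaussianReal, Real.coe_toNNReal _ (sq_nonneg _)]

theorem herm_indep {a b : I → ℝ} (hab : dot a b = 0) :
    IndepFun (fun x : I → ℝ => dot a x) (fun x : I → ℝ => dot b x) (gI I) := by
  refine (herm_gaussian_pair a b).indepFun_of_covariance_eq_zero ?_
  have h1 := variance_fun_add (μ := gI I) (herm_gaussian_dot a).memLp_two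
    (herm_gaussian_dot b).memLp_two
  have h2 : (fun x : I → ℝ => dot a x + dot b x) = fun x : I → ℝ => dot (fun i => a i + b i) x := by
    funext x
    simp only [dot, add_mul, Finset.sum_add_distrib]
  rw [h2, herm_variance_dot, herm_variance_dot, herm_variance_dot, herm_l2_sq, herm_l2_sq,
    herm_l2_sq] at h1
  have h3 : ∑ i, (a i + b i) ^ 2 = ∑ i, a i ^ 2 + 2 * dot a b + ∑ i, b i ^ 2 := by
    simp only [dot, Finset.mul_sum, ← Finset.sum_add_distrib]
    exact Finset.sum_congr rfl fun i _ => by ring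
  rw [hab] at h3
  linarith

theorem herm_integral_dot_pow (v : I → ℝ) (j : ℕ) :
    ∫ x, dot v x ^ j ∂(gI I) = ∫ z, z ^ j ∂(gaussianReal 0 (l2 v ^ 2).toNNReal) := by
  rw [← map_dot v, integral_map (herm_measurable_dot v).aemeasurable]
  exact (measurable_id.pow_const j).aestronglyMeasurable

theorem herm_odd_moment (s : ℝ≥0) (j : ℕ) (hj : Odd j) :
    ∫ z, z ^ j ∂(gaussianReal 0 s) = 0 := by
  have h1 : ∫ z, z ^ j ∂(gaussianReal 0 s) = ∫ z, (-z) ^ j ∂(gaussianReal 0 s) := by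
    conv_lhs => rw [← neg_zero (G := ℝ), ← gaussianReal_map_neg]
    rw [integral_map (by fun_prop)]
    exact (measurable_id.pow_const j).aestronglyMeasurable
  simp only [hj.neg_pow, integral_neg] at h1
  linarith

theorem herm_second_moment (v : I → ℝ) : ∫ x, dot v x ^ 2 ∂(gI I) = l2 v ^ 2 := by
  have h1 := herm_variance_dot v
  have h0 : ∫ x, dot v x ∂(gI I) = 0 := by
    have := herm_integral_dot_pow v 1
    simp only [pow_one] at this
    rw [this]
    simp
  rw [variance_of_integral_eq_zero (herm_measurable_dot v).aemeasurable h0] at h1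
  exact h1

theorem herm_measurable_phi (p : ℝ) : Measurable (phi p) := by
  unfold phi
  fun_prop

theorem herm_phi_mul_self {p : ℝ} (hp : 2 < p) (z : ℝ) : phi p z * z = |z| ^ p := by
  unfold phi
  rcases eq_or_ne z 0 with rfl | hz
  · simp [Real.zero_rpow (by linarith : p ≠ 0)]
  · have h1 : (0 : ℝ) < |z| := abs_pos.2 hz
    have h2 : |z| ^ (p - 2) * z * z = |z| ^ (p - 2) * |z| ^ (2 : ℝ) := by
      rw [Real.rpow_two, sq_abs]; ring
    rw [h2, ← Real.rpow_add h1]
    congr 1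
    ring

theorem herm_phi_mul_cube {p : ℝ} (hp : 2 < p) (z : ℝ) : phi p z * z ^ 3 = |z| ^ (p + 2) := by
  have h := herm_phi_mul_self hp z
  have h2 : phi p z * z ^ 3 = (phi p z * z) * z ^ 2 := by ring
  rw [h2, h]
  rcases eq_or_ne z 0 with rfl | hz
  · simp [Real.zero_rpow (by linarith : p + 2 ≠ 0)]
  · have h1 : (0 : ℝ) < |z| := abs_pos.2 hz
    rw [Real.rpow_add h1, Real.rpow_two, sq_abs]

theorem herm_abs_phi_pow {p : ℝ} (hp : 2 < p) (z : ℝ) (i : ℕ) :
    |phi p z * z ^ i| = |z| ^ (p - 1 + i) := by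
  unfold phi
  rcases eq_or_ne z 0 with rfl | hz
  · have : p - 1 + (i : ℝ) ≠ 0 := by
      have := Nat.cast_nonneg (α := ℝ) i
      linarith
    simp [Real.zero_rpow this]
  · have h1 : (0 : ℝ) < |z| := abs_pos.2 hz
    rw [abs_mul, abs_mul, abs_pow, abs_of_nonneg (Real.rpow_nonneg (abs_nonneg z) _),
      ← Real.rpow_natCast, Real.rpow_add h1]
    congr 1
    have h3 : |z| ^ (p - 2) * |z| = |z| ^ (p - 2) * |z| ^ (1 : ℝ) := by rw [Real.rpow_one]
    rw [h3, ← Real.rpow_add h1]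
    congr 1
    ring

theorem herm_integrable_phi_pow {p : ℝ} (hp : 2 < p) (i : ℕ) :
    Integrable (fun z : ℝ => phi p z * z ^ i) (gaussianReal 0 1) := by
  have h0 : 0 ≤ p - 1 + (i : ℝ) := by
    have := Nat.cast_nonneg (α := ℝ) i
    linarith
  refine (integrable_abs_rpow h0).mono' ?_ ?_
  · exact ((herm_measurable_phi p).mul (measurable_id.pow_const i)).aestronglyMeasurable
  · refine Filter.Eventually.of_forall fun z => ?_
    rw [Real.norm_eq_abs, herm_abs_phi_pow hp]

theorem herm_integrable_dot_pow (v : I → ℝ) (j : ℕ) :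
    Integrable (fun x : I → ℝ => dot v x ^ j) (gI I) := by
  have h := (herm_gaussian_dot v).memLp (p := (j : ℝ≥0∞)) (ENNReal.natCast_ne_top j)
  rcases Nat.eq_zero_or_pos j with rfl | hj
  · simp
  · have h2 := h.integrable_norm_pow (by omega)
    refine h2.mono' ((herm_measurable_dot v).pow_const j).aestronglyMeasurable ?_
    exact Filter.Eventually.of_forall fun x => by rw [norm_pow]

theorem herm_map_unit {e : I → ℝ} (he : l2 e = 1) :
    (gI I).map (fun x => dot e x) = gaussianReal 0 1 := by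
  rw [map_dot, he]
  simp

theorem herm_term {p : ℝ} (hp : 2 < p) {e v : I → ℝ} (he : l2 e = 1) (hev : dot e v = 0)
    (i j : ℕ) :
    Integrable (fun x : I → ℝ => (phi p (dot e x) * dot e x ^ i) * dot v x ^ j) (gI I) ∧
    ∫ x, (phi p (dot e x) * dot e x ^ i) * dot v x ^ j ∂(gI I)
      = (∫ z, phi p z * z ^ i ∂(gaussianReal 0 1)) * ∫ x, dot v x ^ j ∂(gI I) := by
  have hind := herm_indep hev
  have hm1 : Measurable (fun z : ℝ => phi p z * z ^ i) :=
    (herm_measurable_phi p).mul (measurable_id.pow_const i)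
  have hm2 : Measurable (fun z : ℝ => z ^ j) := measurable_id.pow_const j
  have hI1 : Integrable (fun x : I → ℝ => phi p (dot e x) * dot e x ^ i) (gI I) := by
    have h := herm_integrable_phi_pow hp i
    rw [← herm_map_unit he] at h
    exact h.comp_measurable (herm_measurable_dot e)
  constructor
  · exact (hind.comp hm1 hm2).integrable_mul hI1 (herm_integrable_dot_pow v j)
  · have h3 := hind.integral_fun_comp_mul_comp (f := fun z : ℝ => phi p z * z ^ i)
      (g := fun z : ℝ => z ^ j) (herm_measurable_dot e).aemeasurable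
      (herm_measurable_dot v).aemeasurable hm1.aestronglyMeasurable hm2.aestronglyMeasurable
    refine h3.trans ?_
    congr 1
    rw [← herm_map_unit he, integral_map (herm_measurable_dot e).aemeasurable]
    exact hm1.aestronglyMeasurable

end aux

theorem integral_phi_H3 {I : Type} [Fintype I] {p : ℝ} (hp : 2 < p) (u τ : I → ℝ)
    (hu : l2 u = 1) :
    ∫ x, phi p (dot τ x) * H3 (dot u x) ∂(gI I)
      = (p - 2) * gam p ^ p * l2 τ ^ (p - 1) * (dot u τ / l2 τ) ^ 3 := by
  by_cases hτ : l2 τ = 0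
  · have h0 : ∀ i, τ i = 0 := by
      have h1 := herm_l2_sq τ
      rw [hτ] at h1
      have h2 : ∑ i, τ i ^ 2 = 0 := by rw [← h1]; norm_num
      intro i
      have h3 := (Finset.sum_eq_zero_iff_of_nonneg (fun i _ => sq_nonneg (τ i))).1 h2 i
        (Finset.mem_univ i)
      exact pow_eq_zero_iff (two_ne_zero) |>.1 h3
    have h4 : ∀ x, dot τ x = 0 := fun x => by simp [dot, h0]
    simp [h4, phi, hτ]
  have ht : 0 < l2 τ := lt_of_le_of_ne (Real.sqrt_nonneg _) (Ne.symm hτ)
  generalize htt : l2 τ = t at ht hτ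
  obtain ⟨e, hedef⟩ : ∃ e : I → ℝ, e = fun i => τ i / t := ⟨_, rfl⟩
  obtain ⟨ρ, hρ⟩ : ∃ ρ, ρ = dot u τ / t := ⟨_, rfl⟩
  obtain ⟨v, hvdef⟩ : ∃ v : I → ℝ, v = fun i => u i - ρ * e i := ⟨_, rfl⟩
  have hτ2 : ∑ i, τ i ^ 2 = t ^ 2 := by rw [← htt, herm_l2_sq]
  have hu2 : ∑ i, u i ^ 2 = 1 := by rw [← herm_l2_sq, hu]; norm_num
  have hee : ∑ i, e i ^ 2 = 1 := by
    rw [hedef]
    simp only [div_pow]
    rw [← Finset.sum_div, hτ2]
    field_simp
  have he : l2 e = 1 := by
    unfold l2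
    rw [hee, Real.sqrt_one]
  have hue : ∑ i, u i * e i = ρ := by
    rw [hedef, hρ]
    simp only [dot, Finset.sum_div, mul_div_assoc]
  have hev : dot e v = 0 := by
    have h1 : dot e v = ∑ i, u i * e i - ρ * ∑ i, e i ^ 2 := by
      rw [hvdef]
      simp only [dot, Finset.mul_sum, ← Finset.sum_sub_distrib]
      exact Finset.sum_congr rfl fun i _ => by ring
    rw [h1, hue, hee]
    ring
  have hv2 : l2 v ^ 2 = 1 - ρ ^ 2 := by
    have h1 : ∑ i, v i ^ 2 = ∑ i, u i ^ 2 - 2 * ρ * (∑ i, u i * e i) + ρ ^ 2 * ∑ i, e i ^ 2 := by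
      rw [hvdef]
      simp only [Finset.mul_sum, ← Finset.sum_sub_distrib, ← Finset.sum_add_distrib]
      exact Finset.sum_congr rfl fun i _ => by ring
    rw [herm_l2_sq, h1, hu2, hue, hee]
    ring
  have hτe : ∀ x, dot τ x = t * dot e x := by
    intro x
    rw [hedef]
    simp only [dot, Finset.mul_sum]
    exact Finset.sum_congr rfl fun i _ => by field_simp
  have hux : ∀ x, dot u x = ρ * dot e x + dot v x := by
    intro x
    rw [hvdef]
    simp only [dot, Finset.mul_sum, ← Finset.sum_add_distrib]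
    exact Finset.sum_congr rfl fun i _ => by ring
  have hphi : ∀ z : ℝ, phi p (t * z) = t ^ (p - 1) * phi p z := by
    intro z
    unfold phi
    rw [abs_mul, abs_of_pos ht, Real.mul_rpow ht.le (abs_nonneg z)]
    have h1 : t ^ (p - 1) = t ^ (p - 2) * t := by
      rw [← Real.rpow_add_one ht.ne']
      congr 1
      ring
    rw [h1]
    ring
  have hpt : ∀ x : I → ℝ, phi p (dot τ x) * H3 (dot u x)
      = (t ^ (p - 1) * ρ ^ 3) * ((phi p (dot e x) * dot e x ^ 3) * dot v x ^ 0)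
        + (t ^ (p - 1) * (3 * ρ ^ 2)) * ((phi p (dot e x) * dot e x ^ 2) * dot v x ^ 1)
        + (t ^ (p - 1) * (3 * ρ)) * ((phi p (dot e x) * dot e x ^ 1) * dot v x ^ 2)
        + t ^ (p - 1) * ((phi p (dot e x) * dot e x ^ 0) * dot v x ^ 3)
        + (t ^ (p - 1) * (-3 * ρ)) * ((phi p (dot e x) * dot e x ^ 1) * dot v x ^ 0)
        + (t ^ (p - 1) * (-3)) * ((phi p (dot e x) * dot e x ^ 0) * dot v x ^ 1) := by
    intro x
    rw [hτe, hux, hphi]
    unfold H3
    ring
  have T := fun i j => herm_term hp he hev i j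
  simp only [hpt]
  have i1 := ((T 3 0).1.const_mul (t ^ (p - 1) * ρ ^ 3))
  have i2 := ((T 2 1).1.const_mul (t ^ (p - 1) * (3 * ρ ^ 2)))
  have i3 := ((T 1 2).1.const_mul (t ^ (p - 1) * (3 * ρ)))
  have i4 := ((T 0 3).1.const_mul (t ^ (p - 1)))
  have i5 := ((T 1 0).1.const_mul (t ^ (p - 1) * (-3 * ρ)))
  have i6 := ((T 0 1).1.const_mul (t ^ (p - 1) * (-3)))
  have j2 := i1.fun_add i2
  have j3 := j2.fun_add i3
  have j4 := j3.fun_add i4
  have j5 := j4.fun_add i5
  rw [integral_add j5 i6, integral_add j4 i5, integral_add j3 i4, integral_add j2 i3,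
    integral_add i1 i2]
  simp only [integral_const_mul]
  rw [(T 3 0).2, (T 2 1).2, (T 1 2).2, (T 0 3).2, (T 1 0).2, (T 0 1).2]
  have v0 : ∫ x, dot v x ^ 0 ∂(gI I) = 1 := by simp
  have v1 : ∫ x, dot v x ^ 1 ∂(gI I) = 0 := by
    rw [herm_integral_dot_pow]
    exact herm_odd_moment _ 1 odd_one
  have v3 : ∫ x, dot v x ^ 3 ∂(gI I) = 0 := by
    rw [herm_integral_dot_pow]
    exact herm_odd_moment _ 3 (by decide)
  have v2 : ∫ x, dot v x ^ 2 ∂(gI I) = 1 - ρ ^ 2 := by
    rw [herm_second_moment, hv2]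
  have m1 : ∫ z, phi p z * z ^ 1 ∂(gaussianReal 0 1) = gmom p := by
    simp only [pow_one, herm_phi_mul_self hp]
    rfl
  have m3 : ∫ z, phi p z * z ^ 3 ∂(gaussianReal 0 1) = (p + 1) * gmom p := by
    simp only [herm_phi_mul_cube hp]
    exact gmom_add_two (by linarith)
  rw [v0, v1, v2, v3, m1, m3, gam_rpow (by linarith), hρ]
  ring

end Pool.Agent.H67.NP
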