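import Pool.Agent.H67.NP.Cube

/-!
# Khinchine inequality, its dual form, and the `ℓ_p`-valued version (§3, 3.3)

* `khinchine`: for `|u|₂ = 1`: `avg exp(±∑ u_i ε_i) = ∏ cosh u_i ≤ exp(1/2)`
  (`Real.cosh_le_exp_half_sq`), and `|x|^s ≤ 1 + (2m)! cosh x` with `2m ≥ s`.  Scale.
* `dual_khinchine`: for `w ∈ ℝ^𝒜`: `∑_α w_α avg(Y_α f) = avg((∑_α w_α Y_α) f)
  ≤ (avg|∑ w_α Y_α|^{p'})^{1/p'} (avg|f|^p)^{1/p}` (Hölder for finite sums,
  `Real.inner_le_Lp_mul_Lq`), Khinchine for the `L × 𝒜` signs with coefficients `w_α`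
  (`ℓ₂` norm `√L |w|₂`; index type `Fin L × 𝒜`, curry).  Take `w = (avg(Y_α f))_α`.
* `bessel_lp`: apply it in every coordinate `s` of `ℓ_p` and sum over `s`
  (`lp` norm: `lp.norm_rpow_eq_tsum`, `lp.hasSum_norm`), `avg ‖f ε‖^p ≤ Rr^p`.
-/

set_option autoImplicit false

open MeasureTheory ProbabilityTheory Finset BigOperators
open scoped ENNReal NNReal

namespace Pool.Agent.H67.NP

theorem khin_avg_real {S : Type} [Fintype S] (f : S → ℝ) :
    avg f = (Fintype.card S : ℝ)⁻¹ * ∑ s, f s := by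
  unfold avg; rw [smul_eq_mul]

theorem khin_avg_mono {S : Type} [Fintype S] {f g : S → ℝ} (h : ∀ s, f s ≤ g s) :
    avg f ≤ avg g := by
  rw [khin_avg_real, khin_avg_real]
  exact mul_le_mul_of_nonneg_left (Finset.sum_le_sum fun s _ => h s) (by positivity)

theorem khin_avg_mul_left {S : Type} [Fintype S] (c : ℝ) (f : S → ℝ) :
    avg (fun s => c * f s) = c * avg f := by
  rw [khin_avg_real, khin_avg_real, ← Finset.mul_sum]; ring

theorem khin_avg_equiv {S T : Type} [Fintype S] [Fintype T] (e : S ≃ T) (f : T → ℝ) :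
    avg (fun s => f (e s)) = avg f := by
  rw [khin_avg_real, khin_avg_real, Fintype.card_congr e, Equiv.sum_comp e f]

/-- the Laplace transform of a sign sum -/
theorem khin_exp {I : Type} [Fintype I] [DecidableEq I] (u : I → ℝ) :
    avg (fun ε : I → ℤˣ => Real.exp (∑ i, u i * (((ε i : ℤˣ) : ℤ) : ℝ))) = ∏ i, Real.cosh (u i) := by
  rw [khin_avg_real]
  have h1 : ∑ ε : I → ℤˣ, Real.exp (∑ i, u i * (((ε i : ℤˣ) : ℤ) : ℝ))
      = ∏ i, ∑ e : ℤˣ, Real.exp (u i * ((e : ℤ) : ℝ)) := by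
    rw [Finset.prod_univ_sum, Fintype.piFinset_univ]
    exact Finset.sum_congr rfl fun ε _ => Real.exp_sum _ _
  have h2 : ∀ i, ∑ e : ℤˣ, Real.exp (u i * ((e : ℤ) : ℝ)) = 2 * Real.cosh (u i) := by
    intro i
    have huniv : (Finset.univ : Finset ℤˣ) = {1, -1} := by decide
    rw [huniv, Finset.sum_pair (by decide), Real.cosh_eq]
    simp
    ring
  rw [h1, Finset.prod_congr rfl fun i _ => h2 i, Finset.prod_mul_distrib, Finset.prod_const,
    Fintype.card_fun, Fintype.card_units_int, Finset.card_univ]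
  push_cast
  rw [← mul_assoc, inv_mul_cancel₀ (by positivity), one_mul]

theorem khin_cosh {I : Type} [Fintype I] [DecidableEq I] (u : I → ℝ) :
    avg (fun ε : I → ℤˣ => Real.cosh (∑ i, u i * (((ε i : ℤˣ) : ℤ) : ℝ)))
      ≤ Real.exp (l2 u ^ 2 / 2) := by
  have h1 : avg (fun ε : I → ℤˣ => Real.cosh (∑ i, u i * (((ε i : ℤˣ) : ℤ) : ℝ)))
      = ∏ i, Real.cosh (u i) := by
    have ha := khin_exp u
    have hb := khin_exp (fun i => -u i)
    simp only [Real.cosh_neg] at hb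
    rw [khin_avg_real] at ha hb ⊢
    have : ∑ ε : I → ℤˣ, Real.cosh (∑ i, u i * (((ε i : ℤˣ) : ℤ) : ℝ))
        = (∑ ε : I → ℤˣ, Real.exp (∑ i, u i * (((ε i : ℤˣ) : ℤ) : ℝ))
          + ∑ ε : I → ℤˣ, Real.exp (∑ i, (-u i) * (((ε i : ℤˣ) : ℤ) : ℝ))) / 2 := by
      rw [← Finset.sum_add_distrib, Finset.sum_div]
      refine Finset.sum_congr rfl fun ε _ => ?_
      rw [Real.cosh_eq]
      congr 3
      rw [← Finset.sum_neg_distrib]
      exact Finset.sum_congr rfl fun i _ => by ring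
    rw [this]
    linarith
  rw [h1, l2_sq, Finset.sum_div, Real.exp_sum]
  exact Finset.prod_le_prod (fun i _ => (Real.cosh_pos _).le) fun i _ => Real.cosh_le_exp_half_sq _

theorem khin_pointwise {s : ℝ} (hs : 0 < s) : ∃ K : ℝ, 0 < K ∧ ∀ x : ℝ, |x| ^ s ≤ K * Real.cosh x := by
  obtain ⟨m, hm⟩ := exists_nat_ge s
  refine ⟨1 + 2 * (m.factorial : ℝ), by positivity, fun x => ?_⟩
  have hc : 1 ≤ Real.cosh x := Real.one_le_cosh x
  have hf : (0:ℝ) < m.factorial := by exact_mod_cast m.factorial_pos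
  rcases le_total |x| 1 with h | h
  · have : |x| ^ s ≤ 1 := Real.rpow_le_one (abs_nonneg x) h hs.le
    nlinarith
  · have h1 : |x| ^ s ≤ |x| ^ m := by
      rw [← Real.rpow_natCast]
      exact Real.rpow_le_rpow_of_exponent_le h hm
    have h2 := Real.pow_div_factorial_le_exp |x| (abs_nonneg x) m
    rw [div_le_iff₀ hf] at h2
    have h3 : Real.exp |x| ≤ 2 * Real.cosh x := by
      rw [← Real.cosh_abs, Real.cosh_eq]
      have := Real.exp_pos (-|x|)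
      linarith
    nlinarith

theorem khinchine {s : ℝ} (hs : 0 < s) : ∃ K : ℝ, 0 < K ∧
    ∀ (I : Type) [Fintype I] [DecidableEq I] (u : I → ℝ),
      avg (fun ε : I → ℤˣ => |∑ i, u i * (((ε i : ℤˣ) : ℤ) : ℝ)| ^ s) ≤ K * l2 u ^ s := by
  obtain ⟨K0, hK0, hK⟩ := khin_pointwise hs
  refine ⟨K0 * Real.exp (1 / 2), by positivity, fun I _ _ u => ?_⟩
  rcases (l2_nonneg u).eq_or_lt with h0 | h0
  · have hu : ∀ i, u i = 0 := by
      intro i
      have h1 : ∑ i, u i ^ 2 = 0 := by rw [← l2_sq, ← h0]; norm_num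
      have h2 := (Finset.sum_eq_zero_iff_of_nonneg (fun i _ => sq_nonneg (u i))).mp h1 i
        (Finset.mem_univ i)
      exact pow_eq_zero_iff (two_ne_zero) |>.mp h2
    have h3 : ∀ ε : I → ℤˣ, |∑ i, u i * (((ε i : ℤˣ) : ℤ) : ℝ)| ^ s = 0 := by
      intro ε
      simp only [hu, zero_mul, Finset.sum_const_zero, abs_zero]
      exact Real.zero_rpow hs.ne'
    rw [khin_avg_real, Finset.sum_congr rfl fun ε _ => h3 ε]
    rw [← h0, Real.zero_rpow hs.ne']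
    simp
  · set r := l2 u with hr
    have h1 : ∀ ε : I → ℤˣ, |∑ i, u i * (((ε i : ℤˣ) : ℤ) : ℝ)| ^ s
        ≤ (r ^ s * K0) * Real.cosh (∑ i, (u i / r) * (((ε i : ℤˣ) : ℤ) : ℝ)) := by
      intro ε
      have e1 : ∑ i, u i * (((ε i : ℤˣ) : ℤ) : ℝ)
          = r * ∑ i, (u i / r) * (((ε i : ℤˣ) : ℤ) : ℝ) := by
        rw [Finset.mul_sum]
        refine Finset.sum_congr rfl fun i _ => ?_
        field_simp
      rw [e1, abs_mul, abs_of_pos h0, Real.mul_rpow h0.le (abs_nonneg _), mul_assoc]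
      exact mul_le_mul_of_nonneg_left (hK _) (Real.rpow_nonneg h0.le _)
    have h2 : l2 (fun i => u i / r) = 1 := by
      have : (fun i => u i / r) = fun i => r⁻¹ * u i := by
        funext i; rw [div_eq_inv_mul]
      rw [this, l2_smul, ← hr, abs_of_pos (by positivity), inv_mul_cancel₀ h0.ne']
    calc avg (fun ε : I → ℤˣ => |∑ i, u i * (((ε i : ℤˣ) : ℤ) : ℝ)| ^ s)
        ≤ avg (fun ε : I → ℤˣ =>
            (r ^ s * K0) * Real.cosh (∑ i, (u i / r) * (((ε i : ℤˣ) : ℤ) : ℝ))) :=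
          khin_avg_mono h1
      _ = (r ^ s * K0) * avg (fun ε : I → ℤˣ =>
            Real.cosh (∑ i, (u i / r) * (((ε i : ℤˣ) : ℤ) : ℝ))) := khin_avg_mul_left _ _
      _ ≤ (r ^ s * K0) * Real.exp (1 / 2) := by
          refine mul_le_mul_of_nonneg_left ?_ (by positivity)
          have := khin_cosh (fun i => u i / r)
          rw [h2] at this
          simpa using this
      _ = _ := by ring

/-- Hölder for averages -/
theorem khin_holder {S : Type} [Fintype S] {p q : ℝ} (hpq : p.HolderConjugate q) (f g : S → ℝ) :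
    avg (fun s => f s * g s)
      ≤ (avg fun s => |f s| ^ p) ^ (1 / p) * (avg fun s => |g s| ^ q) ^ (1 / q) := by
  rw [khin_avg_real, khin_avg_real, khin_avg_real]
  have h := Real.inner_le_Lp_mul_Lq Finset.univ f g hpq
  set A := ∑ s, |f s| ^ p with hA
  set B := ∑ s, |g s| ^ q with hB
  have hA0 : 0 ≤ A := Finset.sum_nonneg fun _ _ => by positivity
  have hB0 : 0 ≤ B := Finset.sum_nonneg fun _ _ => by positivity
  set N : ℝ := (Fintype.card S : ℝ)⁻¹ with hN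
  have hN0 : 0 ≤ N := by positivity
  rw [Real.mul_rpow hN0 hA0, Real.mul_rpow hN0 hB0]
  have hNN : N ^ (1 / p) * N ^ (1 / q) = N := by
    rcases hN0.eq_or_lt with h0 | h0
    · rw [← h0, Real.zero_rpow (by have := hpq.pos; positivity), zero_mul]
    · rw [← Real.rpow_add h0, hpq.one_div_add_one_div, div_one, Real.rpow_one]
  calc N * ∑ s, f s * g s ≤ N * (A ^ (1 / p) * B ^ (1 / q)) := mul_le_mul_of_nonneg_left h hN0
    _ = (N ^ (1 / p) * N ^ (1 / q)) * (A ^ (1 / p) * B ^ (1 / q)) := by rw [hNN]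
    _ = _ := by ring

theorem dual_khinchine {p : ℝ} (hp : 1 < p) : ∃ K : ℝ, 0 < K ∧
    ∀ (𝒜 : Type) [Fintype 𝒜] [DecidableEq 𝒜] (L : ℕ) (_ : 0 < L)
      (f : (Fin L → 𝒜 → ℤˣ) → ℝ),
      (l2 fun α => avg (fun ε : Fin L → 𝒜 → ℤˣ => (((Ysum ε α : ℤ) : ℝ) / L) * f ε))
        ≤ K / √L * (avg fun ε => |f ε| ^ p) ^ (1 / p) := by
  obtain ⟨q, hpq⟩ : ∃ q : ℝ, Real.HolderConjugate q p := ⟨_, (Real.HolderConjugate.conjExponent hp).symm⟩
  obtain ⟨K, hK0, hK⟩ := khinchine hpq.pos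
  refine ⟨K ^ (1 / q), by positivity, fun 𝒜 _ _ L hL f => ?_⟩
  set c : 𝒜 → ℝ := fun α => avg (fun ε : Fin L → 𝒜 → ℤˣ => (((Ysum ε α : ℤ) : ℝ) / L) * f ε)
    with hc
  have hLr : (0:ℝ) < L := by exact_mod_cast hL
  have hsL : 0 < √(L:ℝ) := Real.sqrt_pos.mpr hLr
  set F := (avg fun ε => |f ε| ^ p) ^ (1 / p) with hF
  -- the pairing
  have h1 : l2 c ^ 2 = avg (fun ε : Fin L → 𝒜 → ℤˣ =>
      (∑ α, c α * (((Ysum ε α : ℤ) : ℝ) / L)) * f ε) := by
    rw [l2_sq, khin_avg_real]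
    have : ∀ α, c α ^ 2 = c α * ((Fintype.card (Fin L → 𝒜 → ℤˣ) : ℝ)⁻¹ *
        ∑ ε : Fin L → 𝒜 → ℤˣ, (((Ysum ε α : ℤ) : ℝ) / L) * f ε) := by
      intro α
      rw [pow_two]
      congr 1
    rw [Finset.sum_congr rfl fun α _ => this α]
    simp_rw [Finset.mul_sum, Finset.sum_mul]
    rw [Finset.sum_comm]
    refine Finset.sum_congr rfl fun ε _ => ?_
    rw [Finset.mul_sum]
    exact Finset.sum_congr rfl fun α _ => by ring
  have h2 : ∀ ε : Fin L → 𝒜 → ℤˣ, ∑ α, c α * (((Ysum ε α : ℤ) : ℝ) / L)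
      = ∑ i : Fin L × 𝒜, (c i.2 / L) * (((Equiv.curry (Fin L) 𝒜 ℤˣ).symm ε i : ℤ) : ℝ) := by
    intro ε
    rw [Fintype.sum_prod_type_right]
    refine Finset.sum_congr rfl fun α _ => ?_
    unfold Ysum
    push_cast
    rw [Finset.sum_div, Finset.mul_sum]
    refine Finset.sum_congr rfl fun l _ => ?_
    simp only [Equiv.curry_symm_apply, Function.uncurry]
    ring
  have h3 : l2 (fun i : Fin L × 𝒜 => c i.2 / L) = l2 c / √L := by
    unfold l2
    rw [Fintype.sum_prod_type]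
    simp only [Finset.sum_const, Finset.card_univ, Fintype.card_fin, nsmul_eq_mul]
    rw [← Real.sqrt_div (Finset.sum_nonneg fun _ _ => sq_nonneg _)]
    congr 1
    rw [Finset.mul_sum, Finset.sum_div]
    refine Finset.sum_congr rfl fun α _ => ?_
    field_simp
  have h4 : (avg fun ε : Fin L → 𝒜 → ℤˣ => |∑ α, c α * (((Ysum ε α : ℤ) : ℝ) / L)| ^ q)
      ≤ K * (l2 c / √L) ^ q := by
    have e1 : (avg fun ε : Fin L → 𝒜 → ℤˣ => |∑ α, c α * (((Ysum ε α : ℤ) : ℝ) / L)| ^ q)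
        = avg (fun ε' : Fin L × 𝒜 → ℤˣ =>
          |∑ i : Fin L × 𝒜, (c i.2 / L) * (((ε' i : ℤˣ) : ℤ) : ℝ)| ^ q) := by
      rw [← khin_avg_equiv (Equiv.curry (Fin L) 𝒜 ℤˣ).symm]
      congr 1
      funext ε
      rw [h2 ε]
    rw [e1, ← h3]
    exact hK (Fin L × 𝒜) _
  have h5 : l2 c ^ 2 ≤ (K * (l2 c / √L) ^ q) ^ (1 / q) * F := by
    rw [h1]
    refine (khin_holder hpq _ _).trans ?_
    refine mul_le_mul_of_nonneg_right ?_ ?_
    · refine Real.rpow_le_rpow ?_ h4 (by have := hpq.pos; positivity)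
      rw [khin_avg_real]
      positivity
    · rw [khin_avg_real]; positivity
  have h6 : (K * (l2 c / √L) ^ q) ^ (1 / q) = K ^ (1 / q) * (l2 c / √L) := by
    have hx : 0 ≤ l2 c / √L := div_nonneg (l2_nonneg c) hsL.le
    rw [Real.mul_rpow hK0.le (by positivity), ← Real.rpow_mul hx, mul_one_div,
      div_self hpq.pos.ne', Real.rpow_one]
  rw [h6] at h5
  have hF0 : 0 ≤ F := by rw [hF, khin_avg_real]; positivity
  rcases (l2_nonneg c).eq_or_lt with h0 | h0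
  · rw [← h0]; positivity
  · have h7 : l2 c * l2 c ≤ l2 c * (K ^ (1 / q) / √L * F) := by
      calc l2 c * l2 c = l2 c ^ 2 := by ring
        _ ≤ K ^ (1 / q) * (l2 c / √L) * F := h5
        _ = _ := by ring
    exact le_of_mul_le_mul_left h7 h0

theorem bessel_lp (p : ℝ≥0∞) [Fact (1 ≤ p)] (hp1 : 1 < p) (hp : p ≠ ⊤) : ∃ K : ℝ, 0 < K ∧
    ∀ (𝒜 : Type) [Fintype 𝒜] [DecidableEq 𝒜] (L : ℕ) (_ : 0 < L)
      (f : (Fin L → 𝒜 → ℤˣ) → lp (fun _ : ℕ => ℝ) p) (Rr : ℝ) (_ : ∀ ε, ‖f ε‖ ≤ Rr),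
      ∑' s : ℕ, ENNReal.ofReal (l2 fun α =>
          (avg (fun ε : Fin L → 𝒜 → ℤˣ => (((Ysum ε α : ℤ) : ℝ) / L) • f ε) :
            lp (fun _ : ℕ => ℝ) p) s) ^ p.toReal
        ≤ ENNReal.ofReal ((K / √L * Rr) ^ p.toReal) := by
  have hr1 : 1 < p.toReal := by
    rw [← ENNReal.toReal_one]
    exact (ENNReal.toReal_lt_toReal ENNReal.one_ne_top hp).mpr hp1
  have hr0 : 0 < p.toReal := by linarith
  obtain ⟨K, hK0, hK⟩ := dual_khinchine hr1
  refine ⟨K, hK0, fun 𝒜 _ _ L hL f Rr hf => ?_⟩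
  have hLr : (0:ℝ) < L := by exact_mod_cast hL
  have hsL : 0 < √(L:ℝ) := Real.sqrt_pos.mpr hLr
  have hR0 : 0 ≤ Rr := (norm_nonneg _).trans (hf fun _ _ => 1)
  set r := p.toReal with hr
  set N : ℝ := (Fintype.card (Fin L → 𝒜 → ℤˣ) : ℝ) with hN
  have hN0 : 0 < N := by
    rw [hN]; exact_mod_cast Fintype.card_pos
  -- coordinates of the average
  have h1 : ∀ (s : ℕ) (α : 𝒜),
      (avg (fun ε : Fin L → 𝒜 → ℤˣ => (((Ysum ε α : ℤ) : ℝ) / L) • f ε) :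
            lp (fun _ : ℕ => ℝ) p) s
        = avg (fun ε : Fin L → 𝒜 → ℤˣ => (((Ysum ε α : ℤ) : ℝ) / L) * f ε s) := by
    intro s α
    rw [khin_avg_real]
    unfold avg
    rw [lp.coeFn_smul, Pi.smul_apply, smul_eq_mul, lp.coeFn_sum, Finset.sum_apply]
    congr 1
  have h2 : ∀ s : ℕ, ENNReal.ofReal (l2 fun α =>
          (avg (fun ε : Fin L → 𝒜 → ℤˣ => (((Ysum ε α : ℤ) : ℝ) / L) • f ε) :
            lp (fun _ : ℕ => ℝ) p) s) ^ r
      ≤ ENNReal.ofReal ((K / √L) ^ r * (N⁻¹ * ∑ ε, ‖f ε s‖ ^ r)) := by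
    intro s
    simp only [h1 s]
    rw [ENNReal.ofReal_rpow_of_nonneg (l2_nonneg _) hr0.le]
    apply ENNReal.ofReal_le_ofReal
    have h3 := hK 𝒜 L hL (fun ε => f ε s)
    have h4 := Real.rpow_le_rpow (l2_nonneg _) h3 hr0.le
    refine h4.trans (le_of_eq ?_)
    have hav : 0 ≤ avg (fun ε : Fin L → 𝒜 → ℤˣ => |f ε s| ^ r) := by
      rw [khin_avg_real]; positivity
    rw [Real.mul_rpow (by positivity) (by positivity), ← Real.rpow_mul hav,
      one_div_mul_cancel hr0.ne', Real.rpow_one, khin_avg_real]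
    rfl
  have h3 : HasSum (fun s : ℕ => (K / √L) ^ r * (N⁻¹ * ∑ ε, ‖f ε s‖ ^ r))
      ((K / √L) ^ r * (N⁻¹ * ∑ ε, ‖f ε‖ ^ r)) := by
    refine HasSum.mul_left _ (HasSum.mul_left _ ?_)
    exact hasSum_sum fun ε _ => lp.hasSum_norm hr0 (f ε)
  calc ∑' s : ℕ, ENNReal.ofReal (l2 fun α =>
          (avg (fun ε : Fin L → 𝒜 → ℤˣ => (((Ysum ε α : ℤ) : ℝ) / L) • f ε) :
            lp (fun _ : ℕ => ℝ) p) s) ^ r
      ≤ ∑' s : ℕ, ENNReal.ofReal ((K / √L) ^ r * (N⁻¹ * ∑ ε, ‖f ε s‖ ^ r)) :=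
        ENNReal.tsum_le_tsum h2
    _ = ENNReal.ofReal (∑' s : ℕ, (K / √L) ^ r * (N⁻¹ * ∑ ε, ‖f ε s‖ ^ r)) := by
        rw [ENNReal.ofReal_tsum_of_nonneg (fun s => by positivity) h3.summable]
    _ = ENNReal.ofReal ((K / √L) ^ r * (N⁻¹ * ∑ ε, ‖f ε‖ ^ r)) := by rw [h3.tsum_eq]
    _ ≤ ENNReal.ofReal ((K / √L * Rr) ^ r) := by
        apply ENNReal.ofReal_le_ofReal
        rw [Real.mul_rpow (by positivity) hR0]
        refine mul_le_mul_of_nonneg_left ?_ (by positivity)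
        have : ∑ ε : Fin L → 𝒜 → ℤˣ, ‖f ε‖ ^ r ≤ ∑ _ε : Fin L → 𝒜 → ℤˣ, Rr ^ r :=
          Finset.sum_le_sum fun ε _ => Real.rpow_le_rpow (norm_nonneg _) (hf ε) hr0.le
        rw [Finset.sum_const, nsmul_eq_mul, Finset.card_univ, ← hN] at this
        calc N⁻¹ * ∑ ε, ‖f ε‖ ^ r ≤ N⁻¹ * (N * Rr ^ r) :=
              mul_le_mul_of_nonneg_left this (by positivity)
          _ = Rr ^ r := by rw [← mul_assoc, inv_mul_cancel₀ hN0.ne', one_mul]

end Pool.Agent.H67.NP
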