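import Pool.Agent.H67.NP.Defs

/-!
# The averaged gradient `τ` and the regression gradient `t` (§3, 3.2)

`avg` over `Ω = Fin L → 𝒜 → ℤˣ`.  `Ysum ε α / L = L⁻¹ ∑_l ε^(l)_α`.  Fix `l`; the map flipping the sign
`e = ε l α` is an involution of `Ω` and changes `Y = Ysum ε` into `Y - 2 e e_α`, so with
`U = boxAvg P F ∘ iota ω`: `avg (e • U(v+Y)) = ½ avg (e • (U(v+Y) - U(v+Y-2e e_α)))`.  `linearise`
(Box.lean) at `x = iota ω (v+Y)`, `c = -2e iota ω (e_α)`, `c_j = -2e ω_j(α)`, `l1 c = 2N`: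
`U(v+Y) - U(v+Y-2e e_α) = 2e ∑_j ω_j(α) G_j(x) + err`, `‖err‖ ≤ (2κ/P)(2N)²`.
-/

set_option autoImplicit false

open MeasureTheory ProbabilityTheory Finset BigOperators
open scoped ENNReal NNReal

namespace Pool.Agent.H67.NP

/-- Flip the sign `ε l α`. -/
def ttflp {L : ℕ} {𝒜 : Type} [DecidableEq 𝒜] (l : Fin L) (α : 𝒜) (ε : Fin L → 𝒜 → ℤˣ) :
    Fin L → 𝒜 → ℤˣ :=
  Function.update ε l (Function.update (ε l) α (-(ε l α)))

theorem ttflp_flp {L : ℕ} {𝒜 : Type} [DecidableEq 𝒜] (l : Fin L) (α : 𝒜) :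
    Function.Involutive (ttflp (L := L) l α) := by
  intro ε
  unfold ttflp
  funext i a
  by_cases hi : i = l
  · subst hi
    by_cases ha : a = α
    · subst ha
      simp
    · simp
  · simp [hi]

theorem ttflp_self {L : ℕ} {𝒜 : Type} [DecidableEq 𝒜] (l : Fin L) (α : 𝒜)
    (ε : Fin L → 𝒜 → ℤˣ) : ttflp l α ε l α = -(ε l α) := by
  simp [ttflp]

theorem tt_Ysum_flp {L : ℕ} {𝒜 : Type} [DecidableEq 𝒜] (l : Fin L) (α : 𝒜)
    (ε : Fin L → 𝒜 → ℤˣ) :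
    Ysum (ttflp l α ε) = Ysum ε + Pi.single α (-2 * ((ε l α : ℤˣ) : ℤ)) := by
  funext a
  unfold Ysum
  rw [Pi.add_apply, ← Finset.add_sum_erase Finset.univ _ (Finset.mem_univ l),
    ← Finset.add_sum_erase Finset.univ (fun i => ((ε i a : ℤˣ) : ℤ)) (Finset.mem_univ l)]
  have h1 : ∑ i ∈ Finset.univ.erase l, ((ttflp l α ε i a : ℤˣ) : ℤ)
      = ∑ i ∈ Finset.univ.erase l, ((ε i a : ℤˣ) : ℤ) := by
    refine Finset.sum_congr rfl fun i hi => ?_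
    have : i ≠ l := Finset.ne_of_mem_erase hi
    simp [ttflp, this]
  rw [h1]
  by_cases ha : a = α
  · subst ha
    rw [ttflp_self, Pi.single_eq_same]
    push_cast
    ring
  · have h2 : ttflp l α ε l a = ε l a := by simp [ttflp, ha]
    rw [h2, Pi.single_eq_of_ne ha]
    ring

theorem tt_iota_add {J 𝒜 : Type} [Fintype 𝒜] (ω : J → 𝒜 → ℤˣ) (v w : 𝒜 → ℤ) :
    iota ω (v + w) = iota ω v + iota ω w := by
  funext j
  simp only [iota, Pi.add_apply, mul_add, Finset.sum_add_distrib]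

theorem tt_iota_single {J 𝒜 : Type} [Fintype 𝒜] [DecidableEq 𝒜] (ω : J → 𝒜 → ℤˣ) (α : 𝒜) (c : ℤ)
    (j : J) : iota ω (Pi.single α c) j = ((ω j α : ℤˣ) : ℤ) * c := by
  simp only [iota]
  rw [Finset.sum_eq_single α]
  · rw [Pi.single_eq_same]
  · intro b _ hb
    rw [Pi.single_eq_of_ne hb, mul_zero]
  · intro h
    exact absurd (Finset.mem_univ α) h

theorem tt_unit_sq (u : ℤˣ) : (((u : ℤˣ) : ℤ) : ℝ) * (((u : ℤˣ) : ℤ) : ℝ) = 1 := by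
  rcases Int.units_eq_one_or u with h | h <;> simp [h]

theorem t_tau_pt {J 𝒜 : Type} [Fintype J] [DecidableEq J] [Fintype 𝒜] [DecidableEq 𝒜]
    {E : Type} [NormedAddCommGroup E] [NormedSpace ℝ E] {P L : ℕ} (hP : 0 < P)
    (F : (J → ℤ) → E) (κ : ℝ) (hF : ∀ z i, ‖F (z + Pi.single i 1) - F z‖ ≤ κ)
    (ω : J → 𝒜 → ℤˣ) (v : 𝒜 → ℤ) (α : 𝒜) (l : Fin L) (ε : Fin L → 𝒜 → ℤˣ) :
    ‖(((ε l α : ℤˣ) : ℤ) : ℝ) • boxAvg P F (iota ω (v + Ysum ε))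
        + (((ttflp l α ε l α : ℤˣ) : ℤ) : ℝ) • boxAvg P F (iota ω (v + Ysum (ttflp l α ε)))
        - (2 : ℝ) • ∑ j, (((ω j α : ℤˣ) : ℤ) : ℝ) • slp P F (iota ω (v + Ysum ε)) j‖
      ≤ 8 * κ * (Fintype.card J : ℝ) ^ 2 / P := by
  set x := iota ω (v + Ysum ε) with hx
  set c : J → ℤ := iota ω (Pi.single α (-2 * ((ε l α : ℤˣ) : ℤ))) with hc
  have hxc : iota ω (v + Ysum (ttflp l α ε)) = x + c := by
    rw [tt_Ysum_flp, ← add_assoc, tt_iota_add]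
  have hcj : ∀ j, c j = -2 * ((ε l α : ℤˣ) : ℤ) * ((ω j α : ℤˣ) : ℤ) := by
    intro j
    rw [hc, tt_iota_single]
    ring
  have hl1 : (l1 c : ℝ) = 2 * Fintype.card J := by
    have : l1 c = 2 * Fintype.card J := by
      unfold l1
      rw [Finset.sum_congr rfl (g := fun _ => 2)]
      · simp [mul_comm]
      · intro j _
        rw [hcj]
        rcases Int.units_eq_one_or (ε l α) with h | h <;>
          rcases Int.units_eq_one_or (ω j α) with h' | h' <;> simp [h, h']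
    rw [this]
    push_cast
    ring
  have hlin := linearise hP F κ hF x c
  rw [hl1] at hlin
  set e : ℝ := (((ε l α : ℤˣ) : ℤ) : ℝ) with he
  have hee : e * e = 1 := tt_unit_sq _
  have hflp : (((ttflp l α ε l α : ℤˣ) : ℤ) : ℝ) = -e := by
    rw [ttflp_self]
    push_cast
    rfl
  have habs : ‖(-e : ℝ)‖ = 1 := by
    rw [he]
    rcases Int.units_eq_one_or (ε l α) with h | h <;> simp [h]
  have hsum : ∑ j, (c j : ℝ) • boxAvg P (fun z => F (z + Pi.single j 1) - F z) x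
      = (-2 * e) • ∑ j, (((ω j α : ℤˣ) : ℤ) : ℝ) • slp P F x j := by
    rw [Finset.smul_sum]
    refine Finset.sum_congr rfl fun j _ => ?_
    rw [smul_smul, hcj]
    unfold slp
    congr 1
    push_cast
    rfl
  rw [hsum] at hlin
  have key : e • boxAvg P F x + (-e) • boxAvg P F (x + c)
        - (2 : ℝ) • ∑ j, (((ω j α : ℤˣ) : ℤ) : ℝ) • slp P F x j
      = (-e) • (boxAvg P F (x + c) - boxAvg P F x
          - (-2 * e) • ∑ j, (((ω j α : ℤˣ) : ℤ) : ℝ) • slp P F x j) := by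
    have h2 : (-e) * (-2 * e) = 2 := by linarith
    rw [smul_sub, smul_sub, smul_smul (-e) (-2 * e), h2]
    rw [neg_smul e (boxAvg P F x)]
    abel
  rw [hflp, hxc, key, norm_smul, habs, one_mul]
  refine hlin.trans (le_of_eq ?_)
  ring

theorem t_tau_l {J 𝒜 : Type} [Fintype J] [DecidableEq J] [Fintype 𝒜] [DecidableEq 𝒜]
    {E : Type} [NormedAddCommGroup E] [NormedSpace ℝ E] {P L : ℕ} (hP : 0 < P)
    (F : (J → ℤ) → E) (κ : ℝ) (hF : ∀ z i, ‖F (z + Pi.single i 1) - F z‖ ≤ κ)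
    (ω : J → 𝒜 → ℤˣ) (v : 𝒜 → ℤ) (α : 𝒜) (l : Fin L) :
    ‖∑ ε : Fin L → 𝒜 → ℤˣ, (((ε l α : ℤˣ) : ℤ) : ℝ) • boxAvg P F (iota ω (v + Ysum ε))
        - ∑ ε : Fin L → 𝒜 → ℤˣ,
          ∑ j, (((ω j α : ℤˣ) : ℤ) : ℝ) • slp P F (iota ω (v + Ysum ε)) j‖
      ≤ Fintype.card (Fin L → 𝒜 → ℤˣ) * (4 * κ * (Fintype.card J : ℝ) ^ 2 / P) := by
  set h : (Fin L → 𝒜 → ℤˣ) → E := fun ε =>
    (((ε l α : ℤˣ) : ℤ) : ℝ) • boxAvg P F (iota ω (v + Ysum ε)) with hh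
  set g : (Fin L → 𝒜 → ℤˣ) → E := fun ε =>
    ∑ j, (((ω j α : ℤˣ) : ℤ) : ℝ) • slp P F (iota ω (v + Ysum ε)) j with hg
  have h1 : ∑ ε, h (ttflp l α ε) = ∑ ε, h ε :=
    Equiv.sum_comp (ttflp_flp l α).toPerm h
  have h2 : (2 : ℝ) • (∑ ε, h ε - ∑ ε, g ε) = ∑ ε, (h ε + h (ttflp l α ε) - (2 : ℝ) • g ε) := by
    rw [Finset.sum_sub_distrib, Finset.sum_add_distrib, h1, ← Finset.smul_sum, smul_sub, two_smul,
      two_smul]
  have h3 : ‖∑ ε, (h ε + h (ttflp l α ε) - (2 : ℝ) • g ε)‖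
      ≤ Fintype.card (Fin L → 𝒜 → ℤˣ) * (8 * κ * (Fintype.card J : ℝ) ^ 2 / P) := by
    refine (norm_sum_le _ _).trans ?_
    refine (Finset.sum_le_sum fun ε _ => t_tau_pt hP F κ hF ω v α l ε).trans ?_
    rw [Finset.sum_const, Finset.card_univ, nsmul_eq_mul]
  rw [← h2, norm_smul] at h3
  have h4 : ‖(2 : ℝ)‖ = 2 := by norm_num
  rw [h4] at h3
  have h5 : (Fintype.card (Fin L → 𝒜 → ℤˣ) : ℝ) * (8 * κ * (Fintype.card J : ℝ) ^ 2 / P)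
      = 2 * (Fintype.card (Fin L → 𝒜 → ℤˣ) * (4 * κ * (Fintype.card J : ℝ) ^ 2 / P)) := by ring
  rw [h5] at h3
  linarith

theorem t_tau {J 𝒜 : Type} [Fintype J] [DecidableEq J] [Fintype 𝒜] [DecidableEq 𝒜]
    {E : Type} [NormedAddCommGroup E] [NormedSpace ℝ E] {P L : ℕ} (hP : 0 < P) (hL : 0 < L)
    (F : (J → ℤ) → E) (κ : ℝ) (hF : ∀ z i, ‖F (z + Pi.single i 1) - F z‖ ≤ κ)
    (ω : J → 𝒜 → ℤˣ) (v : 𝒜 → ℤ) (α : 𝒜) :
    ‖avg (fun ε : Fin L → 𝒜 → ℤˣ =>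
          (((Ysum ε α : ℤ) : ℝ) / L) • boxAvg P F (iota ω (v + Ysum ε)))
        - ∑ j, (((ω j α : ℤˣ) : ℤ) : ℝ) •
            avg (fun ε : Fin L → 𝒜 → ℤˣ => slp P F (iota ω (v + Ysum ε)) j)‖
      ≤ 4 * κ * (Fintype.card J : ℝ) ^ 2 / P := by
  have hLR : (0 : ℝ) < L := by exact_mod_cast hL
  set M : ℝ := ((Fintype.card (Fin L → 𝒜 → ℤˣ) : ℕ) : ℝ) with hM
  have hMpos : 0 < M := by
    rw [hM]
    exact_mod_cast Fintype.card_pos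
  set B : ℝ := 4 * κ * (Fintype.card J : ℝ) ^ 2 / P with hB
  have e1 : avg (fun ε : Fin L → 𝒜 → ℤˣ =>
        (((Ysum ε α : ℤ) : ℝ) / L) • boxAvg P F (iota ω (v + Ysum ε)))
      = (M⁻¹ * (L : ℝ)⁻¹) • ∑ l : Fin L, ∑ ε : Fin L → 𝒜 → ℤˣ,
          (((ε l α : ℤˣ) : ℤ) : ℝ) • boxAvg P F (iota ω (v + Ysum ε)) := by
    have e0 : ∀ ε : Fin L → 𝒜 → ℤˣ,
        (((Ysum ε α : ℤ) : ℝ) / L) • boxAvg P F (iota ω (v + Ysum ε))
        = (L : ℝ)⁻¹ • ∑ l : Fin L, (((ε l α : ℤˣ) : ℤ) : ℝ) • boxAvg P F (iota ω (v + Ysum ε)) := by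
      intro ε
      rw [← Finset.sum_smul, smul_smul]
      congr 1
      simp only [Ysum]
      push_cast
      rw [div_eq_inv_mul]
    unfold avg
    rw [mul_smul, Finset.sum_comm]
    simp_rw [e0]
    rw [← Finset.smul_sum]
  have e2 : ∑ j, (((ω j α : ℤˣ) : ℤ) : ℝ) •
        avg (fun ε : Fin L → 𝒜 → ℤˣ => slp P F (iota ω (v + Ysum ε)) j)
      = (M⁻¹ * (L : ℝ)⁻¹) • ∑ l : Fin L, ∑ ε : Fin L → 𝒜 → ℤˣ,
          ∑ j, (((ω j α : ℤˣ) : ℤ) : ℝ) • slp P F (iota ω (v + Ysum ε)) j := by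
    unfold avg
    rw [Finset.sum_const, Finset.card_univ, Fintype.card_fin, ← Nat.cast_smul_eq_nsmul ℝ, smul_smul,
      mul_assoc, inv_mul_cancel₀ hLR.ne', mul_one, Finset.sum_comm, Finset.smul_sum]
    refine Finset.sum_congr rfl fun j _ => ?_
    rw [smul_comm, Finset.smul_sum]
  rw [e1, e2, ← smul_sub, ← Finset.sum_sub_distrib, norm_smul]
  have h1 : ‖(M⁻¹ * (L : ℝ)⁻¹)‖ = M⁻¹ * (L : ℝ)⁻¹ := Real.norm_of_nonneg (by positivity)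
  rw [h1]
  have h2 : ‖∑ l : Fin L, (∑ ε : Fin L → 𝒜 → ℤˣ,
          (((ε l α : ℤˣ) : ℤ) : ℝ) • boxAvg P F (iota ω (v + Ysum ε))
        - ∑ ε : Fin L → 𝒜 → ℤˣ,
          ∑ j, (((ω j α : ℤˣ) : ℤ) : ℝ) • slp P F (iota ω (v + Ysum ε)) j)‖ ≤ L * (M * B) := by
    refine (norm_sum_le _ _).trans ?_
    refine (Finset.sum_le_sum fun l _ => t_tau_l hP F κ hF ω v α l).trans ?_
    rw [Finset.sum_const, Finset.card_univ, Fintype.card_fin, nsmul_eq_mul]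
  calc M⁻¹ * (L : ℝ)⁻¹ * _ ≤ M⁻¹ * (L : ℝ)⁻¹ * (L * (M * B)) := by gcongr
    _ = B := by field_simp

end Pool.Agent.H67.NP
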