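import Pool.Agent.H67.NP.Slope
import Pool.Agent.H67.NP.TTau
import Pool.Agent.H67.NP.Khin

/-!
# Theorem I: definitions and (L1) (§3)

`Gb .. j = avg_ε slp P F (iota ω (v + Y_ε)) j`, `tau .. α = ∑_j ω_j(α) Gb_j`,
`XiA .. = avg_ε boxAvg P F (iota ω (v + Y_ε))`.

* `L1bd_Gb`: averages of `slope_L1`; the `lp` norm as a sum
  (`lp_enorm_rpow`: `∑' s, ‖f s‖ₑ^p = ‖f‖ₑ^p`, from `lp.norm_rpow_eq_tsum`/`lp.hasSum_norm`) and
  `(2D nrm p a)^p = ((2D)^p/N) ∑ |a_j|^p`.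
* `XiA_linearise`: `linearise` (Box.lean) averaged over `ε`;
  `l1 (iota ω w) ≤ N ∑_α |w_α|`.
* `sum_iota_Gb`: `∑_j ι(w)_j Gb_j = ∑_α w_α tau_α`.
* `norm_tau_le`: `‖tau α‖ ≤ 2D` from `slope_L1` with `a_j = ω_j(α)`, `nrm = 1`.
-/

set_option autoImplicit false

open MeasureTheory ProbabilityTheory Finset BigOperators
open scoped ENNReal NNReal

namespace Pool.Agent.H67.NP

section defs

variable {J 𝒜 : Type} [Fintype J] [DecidableEq J] [Fintype 𝒜] [DecidableEq 𝒜]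
variable {E : Type} [NormedAddCommGroup E] [NormedSpace ℝ E]

noncomputable def Gb (P L : ℕ) (F : (J → ℤ) → E) (ω : J → 𝒜 → ℤˣ) (v : 𝒜 → ℤ) (j : J) : E :=
  avg (fun ε : Fin L → 𝒜 → ℤˣ => slp P F (iota ω (v + Ysum ε)) j)

noncomputable def tau (P L : ℕ) (F : (J → ℤ) → E) (ω : J → 𝒜 → ℤˣ) (v : 𝒜 → ℤ) (α : 𝒜) : E :=
  ∑ j, (((ω j α : ℤˣ) : ℤ) : ℝ) • Gb P L F ω v j

noncomputable def XiA (P L : ℕ) (F : (J → ℤ) → E) (ω : J → 𝒜 → ℤˣ) (v : 𝒜 → ℤ) : E :=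
  avg (fun ε : Fin L → 𝒜 → ℤˣ => boxAvg P F (iota ω (v + Ysum ε)))

end defs

theorem ic_norm_avg_le {S E : Type} [Fintype S] [NormedAddCommGroup E] [NormedSpace ℝ E]
    (f : S → E) (C : ℝ) (hC : 0 ≤ C) (h : ∀ s, ‖f s‖ ≤ C) : ‖avg f‖ ≤ C := by
  unfold avg
  rw [norm_smul, norm_inv, Real.norm_natCast]
  rcases Nat.eq_zero_or_pos (Fintype.card S) with h0 | h0
  · rw [h0]; simpa using hC
  · have hN : (0:ℝ) < Fintype.card S := by exact_mod_cast h0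
    rw [inv_mul_le_iff₀ hN]
    refine (norm_sum_le _ _).trans ((Finset.sum_le_sum fun s _ => h s).trans (le_of_eq ?_))
    rw [Finset.sum_const, nsmul_eq_mul, Finset.card_univ]

theorem ic_sum_smul_avg {S E : Type} [Fintype S] [NormedAddCommGroup E] [NormedSpace ℝ E]
    {J : Type} [Fintype J] (a : J → ℝ) (g : S → J → E) :
    ∑ j, a j • avg (fun s => g s j) = avg (fun s => ∑ j, a j • g s j) := by
  unfold avg
  rw [Finset.sum_comm, Finset.smul_sum]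
  refine Finset.sum_congr rfl fun j _ => ?_
  rw [smul_comm, Finset.smul_sum]

theorem ic_avg_sub {S E : Type} [Fintype S] [NormedAddCommGroup E] [NormedSpace ℝ E]
    (f g : S → E) : avg f - avg g = avg (fun s => f s - g s) := by
  unfold avg
  rw [← smul_sub, Finset.sum_sub_distrib]

theorem ic_iota_smul {J 𝒜 : Type} [Fintype 𝒜] (ω : J → 𝒜 → ℤˣ) (c : ℤ) (w : 𝒜 → ℤ) :
    iota ω (c • w) = c • iota ω w := by
  funext j
  simp only [iota, Pi.smul_apply, smul_eq_mul, Finset.mul_sum]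
  exact Finset.sum_congr rfl fun α _ => by ring

theorem lp_enorm_rpow (p : ℝ≥0∞) [Fact (1 ≤ p)] (hp : p ≠ ⊤) (f : lp (fun _ : ℕ => ℝ) p) :
    ∑' s, ‖f s‖ₑ ^ p.toReal = ‖f‖ₑ ^ p.toReal := by
  have hr1 : 1 ≤ p.toReal := by
    rw [← ENNReal.toReal_one]
    exact (ENNReal.toReal_le_toReal ENNReal.one_ne_top hp).mpr Fact.out
  have hr0 : 0 < p.toReal := by linarith
  have h1 : ∀ s, ‖f s‖ₑ ^ p.toReal = ENNReal.ofReal (‖f s‖ ^ p.toReal) := by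
    intro s
    rw [← ofReal_norm, ENNReal.ofReal_rpow_of_nonneg (norm_nonneg _) hr0.le]
  simp_rw [h1]
  have h2 := lp.hasSum_norm hr0 f
  rw [← ENNReal.ofReal_tsum_of_nonneg (fun s => by positivity) h2.summable, h2.tsum_eq,
    ← ENNReal.ofReal_rpow_of_nonneg (norm_nonneg _) hr0.le, ofReal_norm]

variable {J 𝒜 : Type} [Fintype J] [DecidableEq J] [Nonempty J] [Fintype 𝒜] [DecidableEq 𝒜]

theorem L1bd_Gb (p : ℝ≥0∞) [Fact (1 ≤ p)] (hp : p ≠ ⊤) {D : ℝ} (hD : 0 ≤ D)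
    (F : (J → ℤ) → lp (fun _ : ℕ => ℝ) p)
    (hF : ∀ z z' : J → ℤ, ‖F z - F z'‖ ≤ D * nrm p.toReal (fun j => ((z j - z' j : ℤ) : ℝ)))
    (P L : ℕ) (hP : 8 * (Fintype.card J : ℝ) ^ 2 * (4 * Fintype.card J + 1) ^ 2 ≤ P) (hL : 0 < L)
    (ω : J → 𝒜 → ℤˣ) (v : 𝒜 → ℤ) :
    L1bd p.toReal (2 * D) (fun j s => (Gb P L F ω v j : lp (fun _ : ℕ => ℝ) p) s) := by
  have hr1 : 1 ≤ p.toReal := by
    rw [← ENNReal.toReal_one]
    exact (ENNReal.toReal_le_toReal ENNReal.one_ne_top hp).mpr Fact.out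
  have hr0 : 0 < p.toReal := by linarith
  have hN : (0:ℝ) < Fintype.card J := by exact_mod_cast Fintype.card_pos
  intro a
  have h1 : ∀ s, ∑ j, a j * (Gb P L F ω v j : lp (fun _ : ℕ => ℝ) p) s
      = (∑ j, a j • Gb P L F ω v j : lp (fun _ : ℕ => ℝ) p) s := by
    intro s
    rw [lp.coeFn_sum, Finset.sum_apply]
    refine Finset.sum_congr rfl fun j _ => ?_
    rw [lp.coeFn_smul, Pi.smul_apply, smul_eq_mul]
  simp_rw [h1]
  rw [lp_enorm_rpow p hp]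
  have h2 : ‖∑ j, a j • Gb P L F ω v j‖ ≤ 2 * D * nrm p.toReal a := by
    have : ∑ j, a j • Gb P L F ω v j = avg (fun ε : Fin L → 𝒜 → ℤˣ =>
        ∑ j, a j • slp P F (iota ω (v + Ysum ε)) j) :=
      ic_sum_smul_avg a (fun (ε : Fin L → 𝒜 → ℤˣ) j => slp P F (iota ω (v + Ysum ε)) j)
    rw [this]
    exact ic_norm_avg_le _ _ (mul_nonneg (by positivity) (nrm_nonneg _ _))
      fun ε => slope_L1 hr1 hD F hF P hP _ a
  have h3 : (2 * D * nrm p.toReal a) ^ p.toReal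
      = (2 * D) ^ p.toReal / Fintype.card J * ∑ j, |a j| ^ p.toReal := by
    have h0 : 0 ≤ (Fintype.card J : ℝ)⁻¹ * ∑ j, |a j| ^ p.toReal := by positivity
    rw [Real.mul_rpow (by positivity) (nrm_nonneg _ _)]
    unfold nrm
    rw [← Real.rpow_mul h0, one_div_mul_cancel hr0.ne', Real.rpow_one]
    ring
  calc ‖∑ j, a j • Gb P L F ω v j‖ₑ ^ p.toReal
      ≤ ENNReal.ofReal (2 * D * nrm p.toReal a) ^ p.toReal := by
        refine ENNReal.rpow_le_rpow ?_ hr0.le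
        rw [← ofReal_norm]
        exact ENNReal.ofReal_le_ofReal h2
    _ = ENNReal.ofReal ((2 * D) ^ p.toReal / Fintype.card J * ∑ j, |a j| ^ p.toReal) := by
        rw [ENNReal.ofReal_rpow_of_nonneg (mul_nonneg (by positivity) (nrm_nonneg _ _)) hr0.le, h3]
    _ = ENNReal.ofReal ((2 * D) ^ p.toReal / Fintype.card J) * ∑ j, ‖a j‖ₑ ^ p.toReal := by
        rw [ENNReal.ofReal_mul (by positivity),
          ENNReal.ofReal_sum_of_nonneg (fun j _ => by positivity)]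
        congr 1
        refine Finset.sum_congr rfl fun j _ => ?_
        rw [Real.enorm_eq_ofReal_abs, ENNReal.ofReal_rpow_of_nonneg (abs_nonneg _) hr0.le]

variable {E : Type} [NormedAddCommGroup E] [NormedSpace ℝ E]

omit [Nonempty J] in
theorem sum_iota_Gb (P L : ℕ) (F : (J → ℤ) → E) (ω : J → 𝒜 → ℤˣ) (v w : 𝒜 → ℤ) :
    ∑ j, ((iota ω w j : ℤ) : ℝ) • Gb P L F ω v j = ∑ α, ((w α : ℤ) : ℝ) • tau P L F ω v α := by
  unfold tau iota
  simp_rw [Finset.smul_sum]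
  rw [Finset.sum_comm]
  refine Finset.sum_congr rfl fun j _ => ?_
  rw [Int.cast_sum, Finset.sum_smul]
  refine Finset.sum_congr rfl fun α _ => ?_
  rw [smul_smul, Int.cast_mul, mul_comm]

theorem norm_tau_le {p : ℝ} (hp : 1 ≤ p) {D : ℝ} (hD : 0 ≤ D) (F : (J → ℤ) → E)
    (hF : ∀ z z' : J → ℤ, ‖F z - F z'‖ ≤ D * nrm p (fun j => ((z j - z' j : ℤ) : ℝ)))
    (P L : ℕ) (hP : 8 * (Fintype.card J : ℝ) ^ 2 * (4 * Fintype.card J + 1) ^ 2 ≤ P) (hL : 0 < L)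
    (ω : J → 𝒜 → ℤˣ) (v : 𝒜 → ℤ) (α : 𝒜) : ‖tau P L F ω v α‖ ≤ 2 * D := by
  have _ := hL
  have h1 : tau P L F ω v α = avg (fun ε : Fin L → 𝒜 → ℤˣ =>
        ∑ j, (((ω j α : ℤˣ) : ℤ) : ℝ) • slp P F (iota ω (v + Ysum ε)) j) :=
    ic_sum_smul_avg (fun j => (((ω j α : ℤˣ) : ℤ) : ℝ))
      (fun (ε : Fin L → 𝒜 → ℤˣ) j => slp P F (iota ω (v + Ysum ε)) j)
  rw [h1]
  refine ic_norm_avg_le _ _ (by positivity) fun ε => ?_
  refine (slope_L1 hp hD F hF P hP _ _).trans ?_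
  have h2 : nrm p (fun j => (((ω j α : ℤˣ) : ℤ) : ℝ)) ≤ 1 := by
    refine nrm_le hp fun j => ?_
    rcases Int.units_eq_one_or (ω j α) with h | h <;> simp [h]
  nlinarith

theorem XiA_linearise {p : ℝ} (hp : 1 ≤ p) {D : ℝ} (hD : 0 ≤ D) (F : (J → ℤ) → E)
    (hF : ∀ z z' : J → ℤ, ‖F z - F z'‖ ≤ D * nrm p (fun j => ((z j - z' j : ℤ) : ℝ)))
    (P L : ℕ) (hP : 0 < P) (hL : 0 < L) (ω : J → 𝒜 → ℤˣ) (v w : 𝒜 → ℤ) :
    ‖XiA P L F ω (v + w) - XiA P L F ω v - ∑ α, ((w α : ℤ) : ℝ) • tau P L F ω v α‖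
      ≤ 2 * D / P * (Fintype.card J * ∑ α, |((w α : ℤ) : ℝ)|) ^ 2 := by
  have _ := hL
  have hPr : (0:ℝ) < P := by exact_mod_cast hP
  have h1 : ∑ α, ((w α : ℤ) : ℝ) • tau P L F ω v α
      = avg (fun ε : Fin L → 𝒜 → ℤˣ =>
        ∑ j, ((iota ω w j : ℤ) : ℝ) • slp P F (iota ω (v + Ysum ε)) j) := by
    rw [← sum_iota_Gb]
    exact ic_sum_smul_avg (fun j => ((iota ω w j : ℤ) : ℝ))
      (fun (ε : Fin L → 𝒜 → ℤˣ) j => slp P F (iota ω (v + Ysum ε)) j)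
  unfold XiA
  rw [h1, ic_avg_sub, ic_avg_sub]
  refine ic_norm_avg_le _ _ (by positivity) fun ε => ?_
  have h2 : iota ω (v + w + Ysum ε) = iota ω (v + Ysum ε) + iota ω w := by
    rw [← tt_iota_add]; congr 1; abel
  rw [h2]
  have h3 := linearise hP F D (unit_step hp hD F hF) (iota ω (v + Ysum ε)) (iota ω w)
  refine h3.trans ?_
  have h4 : (l1 (iota ω w) : ℝ) ≤ Fintype.card J * ∑ α, |((w α : ℤ) : ℝ)| := by
    unfold l1
    push_cast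
    have h5 : ∀ j : J, |((iota ω w j : ℤ) : ℝ)| ≤ ∑ α, |((w α : ℤ) : ℝ)| := by
      intro j
      unfold iota
      push_cast
      refine (Finset.abs_sum_le_sum_abs _ _).trans (Finset.sum_le_sum fun α _ => ?_)
      rw [abs_mul]
      have : |(((ω j α : ℤˣ) : ℤ) : ℝ)| = 1 := by
        rcases Int.units_eq_one_or (ω j α) with h | h <;> simp [h]
      rw [this, one_mul]
    calc ∑ j, ((iota ω w j).natAbs : ℝ) = ∑ j, |((iota ω w j : ℤ) : ℝ)| := by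
          refine Finset.sum_congr rfl fun j _ => ?_
          rw [Nat.cast_natAbs]; push_cast; rfl
      _ ≤ ∑ _j : J, ∑ α, |((w α : ℤ) : ℝ)| := Finset.sum_le_sum fun j _ => h5 j
      _ = Fintype.card J * ∑ α, |((w α : ℤ) : ℝ)| := by
          rw [Finset.sum_const, nsmul_eq_mul, Finset.card_univ]
  have h6 : (0:ℝ) ≤ l1 (iota ω w) := by positivity
  refine mul_le_mul_of_nonneg_left ?_ (by positivity)
  exact pow_le_pow_left₀ h6 h4 2

omit [Nonempty J] in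
theorem XiA_periodic (q : ℕ) (F : (J → ℤ) → E) (hper : ∀ z w : J → ℤ, F (z + (q : ℤ) • w) = F z)
    (P L : ℕ) (ω : J → 𝒜 → ℤˣ) (v w : 𝒜 → ℤ) :
    XiA P L F ω (v + (q : ℤ) • w) = XiA P L F ω v := by
  unfold XiA
  congr 1
  funext ε
  have h2 : iota ω (v + (q : ℤ) • w + Ysum ε) = iota ω (v + Ysum ε) + (q : ℤ) • iota ω w := by
    rw [← ic_iota_smul, ← tt_iota_add]; congr 1; abel
  rw [h2]
  unfold boxAvg
  congr 1
  refine Finset.sum_congr rfl fun z _ => ?_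
  rw [add_right_comm]
  exact hper _ _

end Pool.Agent.H67.NP
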