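import Pool.Agent.H67.NP.ICore
import Pool.Agent.H67.NP.Smooth
import Pool.Agent.H67.NP.Update

/-!
# Theorem I, (L2) (§3)

For every `s`: `∑_j G_j(s) zW ω j w - ∑_j G'_j(s) zW ω' j w = dot T_s w`,
`T_s(α) = n^(-1/2) (tau_α(s) - tau'_α(s))`; by `hK` its `p`-th moment is at most `(g₀ |T_s|₂)^p`.
`|tau(s)-tau'(s)|₂ ≤ |t(s)-t'(s)|₂ + ∑_α |t_α(s)-tau_α(s)| + ∑_α |t'_α(s)-tau'_α(s)|`, where
`t_α = avg ((Y_α/L) • boxAvg P F (iota ω (v+Y)))`, `t'_α` similarly.  `ℓ_p(s)` Minkowski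
(`NN_add_le` with the one point space, or any other way): the first term is at most
`K'/√L (D r + 2 D P) ≤ √n/40` by `hbes` for `f ε = boxAvg P F (iota ω (v+Y)) - boxAvg P F' (iota ω' (v+Y))`,
`‖f ε‖ ≤ D r + 2 D P` (`box_cost` twice and `hglue`); the others are at most `n · 4 D N²/P` each
(`t_tau` with `κ = D`, `unit_step`; `lp_enorm_rpow`), together `≤ √n/40`.
-/

set_option autoImplicit false

open MeasureTheory ProbabilityTheory Finset BigOperators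
open scoped ENNReal NNReal

namespace Pool.Agent.H67.NP

/-- The conclusion of `bessel_lp` for the constant `K`. -/
def BesselProp (p : ℝ≥0∞) [Fact (1 ≤ p)] (K : ℝ) : Prop :=
    ∀ (𝒜 : Type) [Fintype 𝒜] [DecidableEq 𝒜] (L : ℕ) (_ : 0 < L)
      (f : (Fin L → 𝒜 → ℤˣ) → lp (fun _ : ℕ => ℝ) p) (Rr : ℝ) (_ : ∀ ε, ‖f ε‖ ≤ Rr),
      ∑' s : ℕ, ENNReal.ofReal (l2 fun α =>
          (avg (fun ε : Fin L → 𝒜 → ℤˣ => (((Ysum ε α : ℤ) : ℝ) / L) • f ε) :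
            lp (fun _ : ℕ => ℝ) p) s) ^ p.toReal
        ≤ ENNReal.ofReal ((K / √L * Rr) ^ p.toReal)

section mink

/-- The `ℓ_r` norm of a sequence. -/
noncomputable def ilM (r : ℝ) (F : ℕ → ℝ≥0∞) : ℝ≥0∞ := (∑' s, F s ^ r) ^ (1 / r)

theorem ilM_mono {r : ℝ} (hr : 0 < r) {F G : ℕ → ℝ≥0∞} (h : ∀ s, F s ≤ G s) :
    ilM r F ≤ ilM r G := by
  unfold ilM
  refine ENNReal.rpow_le_rpow (ENNReal.tsum_le_tsum fun s => ?_) (by positivity)
  exact ENNReal.rpow_le_rpow (h s) hr.le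

theorem ilM_add {r : ℝ} (hr : 1 ≤ r) (F G : ℕ → ℝ≥0∞) :
    ilM r (fun s => F s + G s) ≤ ilM r F + ilM r G := by
  have h2 := ENNReal.lintegral_Lp_add_le (μ := (Measure.count : Measure ℕ)) (f := F) (g := G)
    (measurable_of_countable _).aemeasurable (measurable_of_countable _).aemeasurable hr
  rw [lintegral_count, lintegral_count, lintegral_count] at h2
  simp only [Pi.add_apply] at h2
  exact h2

theorem ilM_sum {r : ℝ} (hr : 1 ≤ r) {ι : Type} (S : Finset ι) (F : ι → ℕ → ℝ≥0∞) :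
    ilM r (fun s => ∑ i ∈ S, F i s) ≤ ∑ i ∈ S, ilM r (F i) := by
  classical
  induction S using Finset.induction_on with
  | empty =>
    have h1 : ∀ s : ℕ, ((0 : ℝ≥0∞)) ^ r = 0 := fun _ => ENNReal.zero_rpow_of_pos (by linarith)
    have h2 : (0 : ℝ≥0∞) ^ (1 / r) = 0 := ENNReal.zero_rpow_of_pos (by positivity)
    simp only [Finset.sum_empty, ilM, h1 0, tsum_zero, h2, le_refl]
  | insert i S hi ih =>
    simp only [Finset.sum_insert hi]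
    exact (ilM_add hr _ _).trans (add_le_add le_rfl ih)

theorem ilM_const_mul {r : ℝ} (hr : 0 < r) (c : ℝ≥0∞) (F : ℕ → ℝ≥0∞) :
    ilM r (fun s => c * F s) = c * ilM r F := by
  unfold ilM
  simp_rw [ENNReal.mul_rpow_of_nonneg _ _ hr.le]
  rw [ENNReal.tsum_mul_left, ENNReal.mul_rpow_of_nonneg _ _ (by positivity), ← ENNReal.rpow_mul,
    mul_one_div_cancel hr.ne', ENNReal.rpow_one]

theorem ilM_le_of {r : ℝ} (hr : 0 < r) {F : ℕ → ℝ≥0∞} {C : ℝ} (hC : 0 ≤ C)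
    (h : ∑' s, F s ^ r ≤ ENNReal.ofReal (C ^ r)) : ilM r F ≤ ENNReal.ofReal C := by
  unfold ilM
  rw [one_div, ENNReal.rpow_inv_le_iff hr, ENNReal.ofReal_rpow_of_nonneg hC hr.le]
  exact h

theorem ilM_lp (p : ℝ≥0∞) [Fact (1 ≤ p)] (hp : p ≠ ⊤) (hr : 0 < p.toReal)
    (f : lp (fun _ : ℕ => ℝ) p) : ilM p.toReal (fun s => ‖f s‖ₑ) = ‖f‖ₑ := by
  unfold ilM
  rw [lp_enorm_rpow p hp, ← ENNReal.rpow_mul, mul_one_div_cancel hr.ne', ENNReal.rpow_one]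

end mink

theorem il_l2_sum_le {I : Type} [Fintype I] (v : I → ℝ) : l2 v ≤ ∑ i, |v i| := by
  apply le_of_sq_le_sq _ (Finset.sum_nonneg fun _ _ => abs_nonneg _)
  rw [l2_sq, pow_two, Finset.sum_mul_sum]
  refine Finset.sum_le_sum fun i _ => ?_
  rw [← sq_abs, pow_two]
  exact Finset.single_le_sum (f := fun j => |v i| * |v j|)
    (fun j _ => mul_nonneg (abs_nonneg _) (abs_nonneg _)) (Finset.mem_univ i)

/-- `l2` of a sum of three vectors -/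
theorem il_l2_split {I : Type} [Fintype I] (d a b b' : I → ℝ) (h : ∀ i, d i = a i - b i + b' i) :
    l2 d ≤ l2 a + ∑ i, |b i| + ∑ i, |b' i| := by
  have h1 : d = fun i => a i + (-b i + b' i) := by
    funext i; rw [h i]; ring
  have h2 : l2 (fun i => -b i + b' i) ≤ ∑ i, |b i| + ∑ i, |b' i| := by
    refine (il_l2_sum_le _).trans ?_
    rw [← Finset.sum_add_distrib]
    refine Finset.sum_le_sum fun i _ => ?_
    refine (abs_add_le _ _).trans ?_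
    rw [abs_neg]
  rw [h1]
  have := l2_add_le a (fun i => -b i + b' i)
  linarith

/-- the coordinates of `tau` -/
theorem il_tau_coord (p : ℝ≥0∞) [Fact (1 ≤ p)] {J 𝒜 : Type} [Fintype J] [DecidableEq J]
    [Fintype 𝒜] [DecidableEq 𝒜] (P L : ℕ) (F : (J → ℤ) → lp (fun _ : ℕ => ℝ) p)
    (ω : J → 𝒜 → ℤˣ) (v : 𝒜 → ℤ) (α : 𝒜) (s : ℕ) :
    (tau P L F ω v α : lp (fun _ : ℕ => ℝ) p) s
      = ∑ j, (((ω j α : ℤˣ) : ℤ) : ℝ) * (Gb P L F ω v j : lp (fun _ : ℕ => ℝ) p) s := by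
  unfold tau
  rw [lp.coeFn_sum, Finset.sum_apply]
  refine Finset.sum_congr rfl fun j _ => ?_
  rw [lp.coeFn_smul, Pi.smul_apply, smul_eq_mul]

theorem il_sum_zW (p : ℝ≥0∞) [Fact (1 ≤ p)] {J 𝒜 : Type} [Fintype J] [DecidableEq J]
    [Fintype 𝒜] [DecidableEq 𝒜] (P L : ℕ) (F : (J → ℤ) → lp (fun _ : ℕ => ℝ) p)
    (ω : J → 𝒜 → ℤˣ) (v : 𝒜 → ℤ) (w : 𝒜 → ℝ) (s : ℕ) :
    ∑ j, (Gb P L F ω v j : lp (fun _ : ℕ => ℝ) p) s * zW ω j w
      = (√(Fintype.card 𝒜 : ℝ))⁻¹ *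
        ∑ α, (tau P L F ω v α : lp (fun _ : ℕ => ℝ) p) s * w α := by
  simp_rw [il_tau_coord]
  unfold zW
  simp_rw [Finset.sum_mul, Finset.mul_sum]
  rw [Finset.sum_comm]
  refine Finset.sum_congr rfl fun α _ => ?_
  refine Finset.sum_congr rfl fun j _ => ?_
  ring

theorem L2_bound (p : ℝ≥0∞) [Fact (1 ≤ p)] (hp : p ≠ ⊤) {D g₀ K r : ℝ} (hD : 0 ≤ D)
    (hg₀ : 0 < g₀) (hK : 0 < K) (hr : 0 ≤ r) (hbes : BesselProp p K)
    {J 𝒜 : Type} [Fintype J] [DecidableEq J] [Nonempty J] [Fintype 𝒜] [DecidableEq 𝒜]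
    [Nonempty 𝒜] {Ω : Type} [MeasurableSpace Ω] (Pm : Measure Ω) [IsProbabilityMeasure Pm]
    (W : Ω → 𝒜 → ℝ) (hW : Measurable W)
    (hWK : ∀ T : 𝒜 → ℝ, ∫⁻ x, ‖dot T (W x)‖ₑ ^ p.toReal ∂Pm
      ≤ ENNReal.ofReal ((g₀ * l2 T) ^ p.toReal))
    (P L : ℕ) (hP0 : 0 < P) (hL : 0 < L)
    (hPn : 8 * (Fintype.card 𝒜 : ℝ) * D * (Fintype.card J : ℝ) ^ 2 / P
      ≤ √(Fintype.card 𝒜 : ℝ) / 40)
    (hKL : K / √L * (D * r + 2 * D * P) ≤ √(Fintype.card 𝒜 : ℝ) / 40)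
    (ω ω' : J → 𝒜 → ℤˣ) (F F' : (J → ℤ) → lp (fun _ : ℕ => ℝ) p)
    (hF : ∀ z z' : J → ℤ, ‖F z - F z'‖ ≤ D * nrm p.toReal (fun j => ((z j - z' j : ℤ) : ℝ)))
    (hF' : ∀ z z' : J → ℤ, ‖F' z - F' z'‖ ≤ D * nrm p.toReal (fun j => ((z j - z' j : ℤ) : ℝ)))
    (hglue : ∀ v : 𝒜 → ℤ, ‖F (iota ω v) - F' (iota ω' v)‖ ≤ D * r) (v : 𝒜 → ℤ) :
    NN p.toReal Pm (fun s x =>
        ‖∑ j, (Gb P L F ω v j : lp (fun _ : ℕ => ℝ) p) s * zW ω j (W x)
          - ∑ j, (Gb P L F' ω' v j : lp (fun _ : ℕ => ℝ) p) s * zW ω' j (W x)‖ₑ)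
      ≤ ENNReal.ofReal (g₀ / 20) := by
  have hr1 : 1 ≤ p.toReal := by
    rw [← ENNReal.toReal_one]
    exact (ENNReal.toReal_le_toReal ENNReal.one_ne_top hp).mpr Fact.out
  have hr0 : 0 < p.toReal := by linarith
  set R := p.toReal with hR
  have hn : (0:ℝ) < Fintype.card 𝒜 := by exact_mod_cast Fintype.card_pos
  have hsn : 0 < √(Fintype.card 𝒜 : ℝ) := Real.sqrt_pos.mpr hn
  have hLr : (0:ℝ) < L := by exact_mod_cast hL
  have hsL : 0 < √(L:ℝ) := Real.sqrt_pos.mpr hLr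
  have hPr : (0:ℝ) < P := by exact_mod_cast hP0
  -- the differences
  set δ : ℕ → 𝒜 → ℝ := fun s α => (tau P L F ω v α : lp (fun _ : ℕ => ℝ) p) s
    - (tau P L F' ω' v α : lp (fun _ : ℕ => ℝ) p) s with hδ
  set T : ℕ → 𝒜 → ℝ := fun s α => (√(Fintype.card 𝒜 : ℝ))⁻¹ * δ s α with hT
  have e1 : ∀ s x, ∑ j, (Gb P L F ω v j : lp (fun _ : ℕ => ℝ) p) s * zW ω j (W x)
          - ∑ j, (Gb P L F' ω' v j : lp (fun _ : ℕ => ℝ) p) s * zW ω' j (W x)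
      = dot (T s) (W x) := by
    intro s x
    rw [il_sum_zW, il_sum_zW, ← mul_sub, ← Finset.sum_sub_distrib, Finset.mul_sum]
    unfold dot
    refine Finset.sum_congr rfl fun α _ => ?_
    simp only [hT, hδ]
    ring
  simp only [e1]
  -- the regression gradients
  set t : 𝒜 → lp (fun _ : ℕ => ℝ) p := fun α => avg (fun ε : Fin L → 𝒜 → ℤˣ =>
          (((Ysum ε α : ℤ) : ℝ) / L) • boxAvg P F (iota ω (v + Ysum ε))) with ht
  set t' : 𝒜 → lp (fun _ : ℕ => ℝ) p := fun α => avg (fun ε : Fin L → 𝒜 → ℤˣ =>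
          (((Ysum ε α : ℤ) : ℝ) / L) • boxAvg P F' (iota ω' (v + Ysum ε))) with ht'
  set f : (Fin L → 𝒜 → ℤˣ) → lp (fun _ : ℕ => ℝ) p := fun ε =>
    boxAvg P F (iota ω (v + Ysum ε)) - boxAvg P F' (iota ω' (v + Ysum ε)) with hf
  have htt : ∀ α, avg (fun ε : Fin L → 𝒜 → ℤˣ => (((Ysum ε α : ℤ) : ℝ) / L) • f ε)
      = t α - t' α := by
    intro α
    simp only [ht, ht', hf]
    unfold avg
    rw [← smul_sub, ← Finset.sum_sub_distrib]
    congr 1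
    exact Finset.sum_congr rfl fun ε _ => smul_sub _ _ _
  have hfn : ∀ ε, ‖f ε‖ ≤ D * r + 2 * D * P := by
    intro ε
    have h1 := box_cost hr1 hD F hF P hP0 (iota ω (v + Ysum ε))
    have h2 := box_cost hr1 hD F' hF' P hP0 (iota ω' (v + Ysum ε))
    have h3 := hglue (v + Ysum ε)
    have h4 : f ε = (boxAvg P F (iota ω (v + Ysum ε)) - F (iota ω (v + Ysum ε)))
        - (boxAvg P F' (iota ω' (v + Ysum ε)) - F' (iota ω' (v + Ysum ε)))
        + (F (iota ω (v + Ysum ε)) - F' (iota ω' (v + Ysum ε))) := by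
      simp only [hf]; abel
    rw [h4]
    have h5 := norm_add_le ((boxAvg P F (iota ω (v + Ysum ε)) - F (iota ω (v + Ysum ε)))
        - (boxAvg P F' (iota ω' (v + Ysum ε)) - F' (iota ω' (v + Ysum ε))))
        (F (iota ω (v + Ysum ε)) - F' (iota ω' (v + Ysum ε)))
    have h6 := norm_sub_le (boxAvg P F (iota ω (v + Ysum ε)) - F (iota ω (v + Ysum ε)))
        (boxAvg P F' (iota ω' (v + Ysum ε)) - F' (iota ω' (v + Ysum ε)))
    linarith
  have hmain : ilM R (fun s => ENNReal.ofReal (l2 fun α => (t α - t' α : lp (fun _ : ℕ => ℝ) p) s))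
      ≤ ENNReal.ofReal (√(Fintype.card 𝒜 : ℝ) / 40) := by
    have h1 := hbes 𝒜 L hL f _ hfn
    simp only [htt] at h1
    refine (ilM_le_of hr0 ?_ h1).trans (ENNReal.ofReal_le_ofReal hKL)
    have : 0 ≤ D * r + 2 * D * P := by positivity
    positivity
  have hb : ∀ α, ‖t α - tau P L F ω v α‖ ≤ 4 * D * (Fintype.card J : ℝ) ^ 2 / P := by
    intro α
    exact t_tau hP0 hL F D (unit_step hr1 hD F hF) ω v α
  have hb' : ∀ α, ‖t' α - tau P L F' ω' v α‖ ≤ 4 * D * (Fintype.card J : ℝ) ^ 2 / P := by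
    intro α
    exact t_tau hP0 hL F' D (unit_step hr1 hD F' hF') ω' v α
  set C : ℝ := 4 * D * (Fintype.card J : ℝ) ^ 2 / P with hC
  have hC0 : 0 ≤ C := by positivity
  -- splitting
  have hsplit : ∀ s, l2 (δ s) ≤ l2 (fun α => (t α - t' α : lp (fun _ : ℕ => ℝ) p) s)
      + ∑ α, |(t α - tau P L F ω v α : lp (fun _ : ℕ => ℝ) p) s|
      + ∑ α, |(t' α - tau P L F' ω' v α : lp (fun _ : ℕ => ℝ) p) s| := by
    intro s
    refine il_l2_split _ _ _ _ fun α => ?_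
    simp only [hδ, lp.coeFn_sub, Pi.sub_apply]
    ring
  have hl2T : ∀ s, ENNReal.ofReal (g₀ * l2 (T s)) ≤ ENNReal.ofReal (g₀ / √(Fintype.card 𝒜 : ℝ)) *
      (ENNReal.ofReal (l2 fun α => (t α - t' α : lp (fun _ : ℕ => ℝ) p) s)
      + (∑ α, ‖(t α - tau P L F ω v α : lp (fun _ : ℕ => ℝ) p) s‖ₑ
      + ∑ α, ‖(t' α - tau P L F' ω' v α : lp (fun _ : ℕ => ℝ) p) s‖ₑ)) := by
    intro s
    have h1 : g₀ * l2 (T s) = (g₀ / √(Fintype.card 𝒜 : ℝ)) * l2 (δ s) := by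
      simp only [hT]
      rw [l2_smul, abs_of_pos (by positivity)]
      ring
    rw [h1, ENNReal.ofReal_mul (by positivity)]
    refine mul_le_mul' le_rfl ?_
    refine (ENNReal.ofReal_le_ofReal (hsplit s)).trans ?_
    rw [add_assoc, ENNReal.ofReal_add (l2_nonneg _) (add_nonneg
      (Finset.sum_nonneg fun _ _ => abs_nonneg _) (Finset.sum_nonneg fun _ _ => abs_nonneg _)),
      ENNReal.ofReal_add (Finset.sum_nonneg fun _ _ => abs_nonneg _)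
      (Finset.sum_nonneg fun _ _ => abs_nonneg _),
      ENNReal.ofReal_sum_of_nonneg (fun _ _ => abs_nonneg _),
      ENNReal.ofReal_sum_of_nonneg (fun _ _ => abs_nonneg _)]
    simp only [Real.enorm_eq_ofReal_abs]
    exact le_rfl
  have hE : ∀ (u : 𝒜 → lp (fun _ : ℕ => ℝ) p) (_ : ∀ α, ‖u α‖ ≤ C),
      ilM R (fun s => ∑ α, ‖(u α) s‖ₑ) ≤ ENNReal.ofReal (Fintype.card 𝒜 * C) := by
    intro u hu
    refine (ilM_sum hr1 _ _).trans ?_
    calc ∑ α, ilM R (fun s => ‖(u α) s‖ₑ) = ∑ α, ‖u α‖ₑ :=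
          Finset.sum_congr rfl fun α _ => ilM_lp p hp hr0 (u α)
      _ ≤ ∑ _α : 𝒜, ENNReal.ofReal C := by
          refine Finset.sum_le_sum fun α _ => ?_
          rw [← ofReal_norm]
          exact ENNReal.ofReal_le_ofReal (hu α)
      _ = ENNReal.ofReal (Fintype.card 𝒜 * C) := by
          rw [Finset.sum_const, nsmul_eq_mul, Finset.card_univ, ENNReal.ofReal_mul (by positivity),
            ENNReal.ofReal_natCast]
  -- assembling
  have hNN : NN R Pm (fun s x => ‖dot (T s) (W x)‖ₑ) ≤ ilM R (fun s => ENNReal.ofReal (g₀ * l2 (T s))) := by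
    unfold NN ilM
    refine ENNReal.rpow_le_rpow (ENNReal.tsum_le_tsum fun s => ?_) (by positivity)
    refine (hWK (T s)).trans (le_of_eq ?_)
    rw [ENNReal.ofReal_rpow_of_nonneg (mul_nonneg hg₀.le (l2_nonneg _)) hr0.le]
  refine hNN.trans ((ilM_mono hr0 hl2T).trans ?_)
  rw [ilM_const_mul hr0]
  have h7 : ilM R (fun s =>
      ENNReal.ofReal (l2 fun α => (t α - t' α : lp (fun _ : ℕ => ℝ) p) s)
      + (∑ α, ‖(t α - tau P L F ω v α : lp (fun _ : ℕ => ℝ) p) s‖ₑ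
      + ∑ α, ‖(t' α - tau P L F' ω' v α : lp (fun _ : ℕ => ℝ) p) s‖ₑ))
      ≤ ENNReal.ofReal (√(Fintype.card 𝒜 : ℝ) / 40) + (ENNReal.ofReal (Fintype.card 𝒜 * C)
        + ENNReal.ofReal (Fintype.card 𝒜 * C)) := by
    refine (ilM_add hr1 _ _).trans (add_le_add hmain ?_)
    refine (ilM_add hr1 _ _).trans (add_le_add (hE _ hb) (hE _ hb'))
  refine (mul_le_mul' le_rfl h7).trans ?_
  rw [← ENNReal.ofReal_add (by positivity) (by positivity),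
    ← ENNReal.ofReal_add (by positivity) (by positivity), ← ENNReal.ofReal_mul (by positivity)]
  apply ENNReal.ofReal_le_ofReal
  have h8 : (Fintype.card 𝒜 : ℝ) * C + Fintype.card 𝒜 * C ≤ √(Fintype.card 𝒜 : ℝ) / 40 := by
    refine le_trans (le_of_eq ?_) hPn
    rw [hC]; ring
  calc g₀ / √(Fintype.card 𝒜 : ℝ) * (√(Fintype.card 𝒜 : ℝ) / 40
        + ((Fintype.card 𝒜 : ℝ) * C + Fintype.card 𝒜 * C))
      ≤ g₀ / √(Fintype.card 𝒜 : ℝ) * (√(Fintype.card 𝒜 : ℝ) / 40 + √(Fintype.card 𝒜 : ℝ) / 40) := by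
        refine mul_le_mul_of_nonneg_left ?_ (by positivity)
        linarith
    _ = g₀ / 20 := by
        field_simp
        ring

end Pool.Agent.H67.NP
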