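import Pool.Agent.H67.NP.Defs

/-!
# Random sign families: (N1) (§8, level lemma)

`net`: if `c m = 0` take `T = {0}`; otherwise `s = max 1 ⌊ε q/(4 c m)⌋`, `W = ⌈q/s⌉`, `T = {s·w : w ∈ [0,W)^m}`.
`q/s ≤ 8cm/ε + 1`, so `W ≤ 8cm/ε + 2`.  For `u` reduce mod `q` (`f` is periodic, so
`f(⟨y,u⟩) = f(⟨y,u mod q⟩)`) and round down to multiples of `s`: the error in each coordinate is at
most `s-1`, so `|f(⟨y,u⟩) - f(⟨y,u'⟩)| ≤ c m (s-1)/q ≤ ε/4`.

`N1_bad`: for fixed `c ∈ P` and fixed net point `u'` the proportion of `ω` with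
`|avg_j f(⟨ω c j,u'⟩) - avg_s f(⟨s,u'⟩)| > ε/2` is at most `2exp(-N ε²/16)`
(`count_hoeffding_abs` in `Pool/Agent/H67/Signs.lean` with `b = 1`, `δ = ε/2`;
`card_filter_coord` in `Family.lean` for the coordinate `c`); union over `P × T`.  If none of these
happens then (N1) holds: `ε/4 + ε/2 + ε/4`.
-/

set_option autoImplicit false

open MeasureTheory ProbabilityTheory Finset BigOperators
open scoped ENNReal NNReal

namespace Pool.Agent.H67.NP

theorem n1_sdot_sub {m : ℕ} (s : Fin m → ℤˣ) (u v : Fin m → ℤ) :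
    sdot s u - sdot s v = ∑ i, (s i : ℤ) * (u i - v i) := by
  unfold sdot
  rw [← Finset.sum_sub_distrib]
  exact Finset.sum_congr rfl fun i _ => by ring

theorem n1_abs_unit (s : ℤˣ) : |((s : ℤ) : ℝ)| = 1 := by
  rcases Int.units_eq_one_or s with rfl | rfl <;> simp

theorem net (m q : ℕ) (hq : 0 < q) (c ε : ℝ) (hc : 0 ≤ c) (hε : 0 < ε)
    (f : ℤ → ℝ) (hper : ∀ x, f (x + q) = f x)
    (hlip : ∀ x y : ℤ, |f x - f y| ≤ c * |(x : ℝ) - y| / q) :
    ∃ T : Finset (Fin m → ℤ), (T.card : ℝ) ≤ (8 * c * m / ε + 2) ^ m ∧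
      ∀ u : Fin m → ℤ, ∃ u' ∈ T, ∀ s : Fin m → ℤˣ, |f (sdot s u) - f (sdot s u')| ≤ ε / 4 := by
  have hq' : (0 : ℝ) < q := by exact_mod_cast hq
  rcases eq_or_ne (c * m) 0 with hcm | hcm
  · refine ⟨{0}, ?_, fun u => ⟨0, Finset.mem_singleton_self _, fun s => ?_⟩⟩
    · rw [Finset.card_singleton]
      have h1 : (1 : ℝ) ≤ 8 * c * m / ε + 2 := by
        have : 0 ≤ 8 * c * m / ε := by positivity
        linarith
      simpa using one_le_pow₀ (n := m) h1
    · rcases mul_eq_zero.1 hcm with h | h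
      · have h1 := hlip (sdot s u) (sdot s 0)
        rw [h] at h1
        have h2 : (0 : ℝ) * |((sdot s u : ℤ) : ℝ) - ((sdot s 0 : ℤ) : ℝ)| / q = 0 := by simp
        rw [h2] at h1
        linarith
      · have hm : m = 0 := by exact_mod_cast h
        subst hm
        have : sdot s u = sdot s 0 := by simp [sdot]
        rw [this, sub_self, abs_zero]
        positivity
  · have hcm' : 0 < c * m := lt_of_le_of_ne (by positivity) (Ne.symm hcm)
    have hc' : 0 < c := by
      rcases hc.lt_or_eq with h | h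
      · exact h
      · rw [← h] at hcm'; simp at hcm'
    have hm' : (0 : ℝ) < m := by
      rcases (Nat.cast_nonneg (α := ℝ) m).lt_or_eq with h | h
      · exact h
      · rw [← h] at hcm'; simp at hcm'
    obtain ⟨X, hX⟩ : ∃ X : ℝ, X = ε * q / (4 * (c * m)) := ⟨_, rfl⟩
    have hX0 : 0 < X := by rw [hX]; positivity
    obtain ⟨r, hr⟩ : ∃ r : ℕ, r = max 1 ⌊X⌋₊ := ⟨_, rfl⟩
    have hr1 : 1 ≤ r := by rw [hr]; exact le_max_left _ _
    have hr1' : (1 : ℝ) ≤ r := by exact_mod_cast hr1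
    have hrX : X / 2 ≤ r := by
      have h1 : (⌊X⌋₊ : ℝ) ≤ r := by rw [hr]; exact_mod_cast le_max_right _ _
      have h2 := Nat.lt_floor_add_one X
      by_cases h3 : X ≤ 2
      · linarith
      · push Not at h3
        linarith
    have hrX' : (r : ℝ) - 1 ≤ X := by
      rcases max_choice 1 ⌊X⌋₊ with h | h
      · rw [hr, h]; simp; exact hX0.le
      · rw [hr, h]
        have := Nat.floor_le hX0.le
        linarith
    obtain ⟨W, hW⟩ : ∃ W : ℕ, W = (q - 1) / r + 1 := ⟨_, rfl⟩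
    have hWb : (W : ℝ) ≤ 8 * c * m / ε + 2 := by
      have h1 : (((q - 1) / r : ℕ) : ℝ) ≤ ((q - 1 : ℕ) : ℝ) / r := Nat.cast_div_le
      have h2 : ((q - 1 : ℕ) : ℝ) ≤ q := by exact_mod_cast Nat.sub_le q 1
      have h3 : ((q - 1 : ℕ) : ℝ) / r ≤ q / (X / 2) := by
        have : (0 : ℝ) < X / 2 := by positivity
        gcongr
      have h4 : (q : ℝ) / (X / 2) = 8 * c * m / ε := by
        rw [hX]
        field_simp
        ring
      rw [hW]
      push_cast
      linarith
    refine ⟨(Finset.univ : Finset (Fin m → Fin W)).image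
      (fun w i => ((r * (w i : ℕ) : ℕ) : ℤ)), ?_, fun u => ?_⟩
    · have h1 : (((Finset.univ : Finset (Fin m → Fin W)).image
        (fun w i => ((r * (w i : ℕ) : ℕ) : ℤ))).card : ℝ) ≤ (W : ℝ) ^ m := by
        have h2 := Finset.card_image_le (s := (Finset.univ : Finset (Fin m → Fin W)))
          (f := (fun w i => ((r * (w i : ℕ) : ℕ) : ℤ)))
        rw [Finset.card_univ, Fintype.card_fun, Fintype.card_fin, Fintype.card_fin] at h2
        exact_mod_cast h2
      refine h1.trans ?_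
      gcongr
    · have hqz : (0 : ℤ) < q := by exact_mod_cast hq
      have hrz : (0 : ℤ) < r := by exact_mod_cast hr1
      have hb1 : ∀ i, 0 ≤ u i % (q : ℤ) := fun i => Int.emod_nonneg _ hqz.ne'
      have hb2 : ∀ i, u i % (q : ℤ) < q := fun i => Int.emod_lt_of_pos _ hqz
      have hlt : ∀ i, (u i % (q : ℤ)).toNat / r < W := by
        intro i
        rw [hW]
        have h1 : (u i % (q : ℤ)).toNat ≤ q - 1 := by
          have := hb2 i
          have := hb1 i
          omega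
        exact Nat.lt_succ_of_le (Nat.div_le_div_right h1)
      refine ⟨fun i => ((r * ((u i % (q : ℤ)).toNat / r) : ℕ) : ℤ),
        Finset.mem_image.2 ⟨fun i => ⟨_, hlt i⟩, Finset.mem_univ _, rfl⟩, fun s => ?_⟩
      have hper' : Function.Periodic f (q : ℤ) := hper
      have h1 : f (sdot s u) = f (sdot s (fun i => u i % (q : ℤ))) := by
        have h2 : sdot s u = sdot s (fun i => u i % (q : ℤ))
            + (∑ i, (s i : ℤ) * (u i / (q : ℤ))) * (q : ℤ) := by
          unfold sdot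
          rw [Finset.sum_mul, ← Finset.sum_add_distrib]
          refine Finset.sum_congr rfl fun i _ => ?_
          have h3 := Int.emod_add_mul_ediv (u i) (q : ℤ)
          calc (s i : ℤ) * u i = (s i : ℤ) * (u i % (q : ℤ) + (q : ℤ) * (u i / (q : ℤ))) := by
                rw [h3]
            _ = _ := by ring
        rw [h2]
        exact hper'.int_mul _ _
      rw [h1]
      refine (hlip _ _).trans ?_
      have h5 : |((sdot s (fun i => u i % (q : ℤ)) : ℤ) : ℝ)
          - ((sdot s (fun i => ((r * ((u i % (q : ℤ)).toNat / r) : ℕ) : ℤ)) : ℤ) : ℝ)|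
          ≤ m * X := by
        rw [← Int.cast_sub, n1_sdot_sub]
        push_cast
        refine (Finset.abs_sum_le_sum_abs _ _).trans ?_
        have h6 : ∀ i ∈ (Finset.univ : Finset (Fin m)),
            |((s i : ℤ) : ℝ) * (((u i % (q : ℤ) : ℤ) : ℝ)
              - (r : ℝ) * (((u i % (q : ℤ)).toNat / r : ℕ) : ℝ))| ≤ X := by
          intro i _
          rw [abs_mul, n1_abs_unit, one_mul]
          have h7 : ((u i % (q : ℤ)).toNat : ℤ) = u i % (q : ℤ) := Int.toNat_of_nonneg (hb1 i)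
          have h8 := Nat.mod_add_div (u i % (q : ℤ)).toNat r
          have h9 := Nat.mod_lt (u i % (q : ℤ)).toNat hr1
          have h10 : ((u i % (q : ℤ) : ℤ) : ℝ) = (((u i % (q : ℤ)).toNat : ℕ) : ℝ) := by
            have := congrArg (Int.cast : ℤ → ℝ) h7
            push_cast at this
            exact this.symm
          rw [h10]
          have h11 : (((u i % (q : ℤ)).toNat : ℕ) : ℝ)
              = (((u i % (q : ℤ)).toNat % r : ℕ) : ℝ)
                + (r : ℝ) * (((u i % (q : ℤ)).toNat / r : ℕ) : ℝ) := by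
            exact_mod_cast h8.symm
          have h12 : (((u i % (q : ℤ)).toNat % r : ℕ) : ℝ) ≤ (r : ℝ) - 1 := by
            have h13 : (u i % (q : ℤ)).toNat % r + 1 ≤ r := h9
            have h14 : (((u i % (q : ℤ)).toNat % r : ℕ) : ℝ) + 1 ≤ r := by exact_mod_cast h13
            linarith
          have h15 : (0 : ℝ) ≤ (((u i % (q : ℤ)).toNat % r : ℕ) : ℝ) := Nat.cast_nonneg _
          rw [abs_le]
          constructor <;> linarith
        refine (Finset.sum_le_sum h6).trans ?_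
        rw [Finset.sum_const, Finset.card_univ, Fintype.card_fin, nsmul_eq_mul]
      calc c * |((sdot s (fun i => u i % (q : ℤ)) : ℤ) : ℝ)
          - ((sdot s (fun i => ((r * ((u i % (q : ℤ)).toNat / r) : ℕ) : ℤ)) : ℤ) : ℝ)| / q
          ≤ c * (m * X) / q := by gcongr
        _ = ε / 4 := by
            rw [hX]
            field_simp

theorem n1_avg_sub_le {S : Type} [Fintype S] (f g : S → ℝ) (δ : ℝ) (hδ : 0 ≤ δ)
    (h : ∀ s, |f s - g s| ≤ δ) : |avg f - avg g| ≤ δ := by
  unfold avg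
  rw [← smul_sub, ← Finset.sum_sub_distrib, smul_eq_mul, abs_mul, abs_inv, Nat.abs_cast]
  have h1 : |∑ s, (f s - g s)| ≤ Fintype.card S * δ := by
    refine (Finset.abs_sum_le_sum_abs _ _).trans ?_
    refine (Finset.sum_le_sum fun s _ => h s).trans ?_
    rw [Finset.sum_const, Finset.card_univ, nsmul_eq_mul]
  rcases (Nat.cast_nonneg (α := ℝ) (Fintype.card S)).lt_or_eq with h0 | h0
  · calc ((Fintype.card S : ℝ))⁻¹ * |∑ s, (f s - g s)|
        ≤ ((Fintype.card S : ℝ))⁻¹ * (Fintype.card S * δ) := by gcongr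
      _ = δ := by field_simp
  · rw [← h0]; simpa using hδ

open Classical in
theorem N1_bad (m N q : ℕ) (hq : 0 < q) (hN : 0 < N) (c ε : ℝ) (hc : 0 ≤ c) (hε : 0 < ε)
    (hε1 : ε ≤ 1) (f : ℤ → ℝ) (hf0 : ∀ x, 0 ≤ f x) (hf1 : ∀ x, f x ≤ 1)
    (hper : ∀ x, f (x + q) = f x)
    (hlip : ∀ x y : ℤ, |f x - f y| ≤ c * |(x : ℝ) - y| / q)
    (P : Type) [Fintype P] :
    ((Finset.univ.filter fun ω : P → Fin N → Fin m → ℤˣ =>
        ¬ ∀ (a : P) (u : Fin m → ℤ), |avg (fun j => f (sdot (ω a j) u))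
          - avg (fun s : Fin m → ℤˣ => f (sdot s u))| ≤ ε).card : ℝ)
      ≤ (Fintype.card P * ((8 * c * m / ε + 2) ^ m * (2 * Real.exp (-(N : ℝ) * ε ^ 2 / 16))))
        * Fintype.card (P → Fin N → Fin m → ℤˣ) := by
  obtain ⟨T, hT1, hT2⟩ := net m q hq c ε hc hε f hper hlip
  have hN' : (0 : ℝ) < N := by exact_mod_cast hN
  obtain ⟨A, hA⟩ : ∃ A : (Fin m → ℤ) → ℝ,
    A = fun u => avg (fun s : Fin m → ℤˣ => f (sdot s u)) := ⟨_, rfl⟩
  obtain ⟨X, hX⟩ : ∃ X : (Fin m → ℤ) → (Fin m → ℤˣ) → ℝ,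
    X = fun u s => f (sdot s u) - A u := ⟨_, rfl⟩
  have hScard : (0 : ℝ) < Fintype.card (Fin m → ℤˣ) := by exact_mod_cast Fintype.card_pos
  have hAsum : ∀ u, ∑ s : Fin m → ℤˣ, f (sdot s u) = Fintype.card (Fin m → ℤˣ) * A u := by
    intro u
    rw [hA]
    unfold avg
    simp only [smul_eq_mul]
    field_simp
  have hA0 : ∀ u, 0 ≤ A u ∧ A u ≤ 1 := by
    intro u
    have h1 := hAsum u
    have h2 : 0 ≤ ∑ s : Fin m → ℤˣ, f (sdot s u) := Finset.sum_nonneg fun s _ => hf0 _
    have h3 : ∑ s : Fin m → ℤˣ, f (sdot s u) ≤ Fintype.card (Fin m → ℤˣ) := by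
      refine (Finset.sum_le_sum fun s _ => hf1 _).trans ?_
      rw [Finset.sum_const, Finset.card_univ, nsmul_eq_mul, mul_one]
    rw [h1] at h2 h3
    constructor
    · exact nonneg_of_mul_nonneg_right h2 hScard
    · exact (mul_le_iff_le_one_right hScard).1 h3
  have hXb : ∀ u s, |X u s| ≤ 1 := by
    intro u s
    rw [hX]
    have h1 := hA0 u
    have h2 := hf0 (sdot s u)
    have h3 := hf1 (sdot s u)
    rw [abs_le]
    constructor <;> simp only <;> linarith [h1.1, h1.2]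
  have hXm : ∀ u, ∑ s, X u s = 0 := by
    intro u
    rw [hX]
    simp only [Finset.sum_sub_distrib, hAsum, Finset.sum_const, Finset.card_univ, nsmul_eq_mul]
    ring
  obtain ⟨E, hE⟩ : ∃ E : (Fin m → ℤ) → (Fin N → Fin m → ℤˣ) → Prop,
    E = fun u η => (Fintype.card (Fin N) : ℝ) * 1 * (ε / 2) ≤ |∑ j, X u (η j)| := ⟨_, rfl⟩
  have hcount : ∀ u, ((Finset.univ.filter fun η : Fin N → Fin m → ℤˣ => E u η).card : ℝ)
      ≤ 2 * ((Fintype.card (Fin m → ℤˣ) : ℝ) ^ N * Real.exp (-(N : ℝ) * ε ^ 2 / 16)) := by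
    intro u
    have h1 := count_hoeffding_abs (κ := Fin N) (X u) 1 one_pos (hXb u) (hXm u) (ε / 2)
      (by linarith) (by linarith)
    rw [Fintype.card_fin] at h1
    have h2 : -(N : ℝ) * (ε / 2) ^ 2 / 4 = -(N : ℝ) * ε ^ 2 / 16 := by ring
    rw [h2] at h1
    rw [hE]
    simp only [Fintype.card_fin]
    convert! h1
  have hS' : (Fintype.card (Fin N → Fin m → ℤˣ) : ℝ) = (Fintype.card (Fin m → ℤˣ) : ℝ) ^ N := by
    rw [Fintype.card_fun, Fintype.card_fin]
    push_cast
    rfl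
  have hS'pos : (0 : ℝ) < Fintype.card (Fin N → Fin m → ℤˣ) := by exact_mod_cast Fintype.card_pos
  have hcoord : ∀ (a : P) (u : Fin m → ℤ),
      ((Finset.univ.filter fun ω : P → Fin N → Fin m → ℤˣ => E u (ω a)).card : ℝ)
        ≤ (2 * Real.exp (-(N : ℝ) * ε ^ 2 / 16)) * Fintype.card (P → Fin N → Fin m → ℤˣ) := by
    intro a u
    have h1 := card_filter_coord (κ := P) (S := Fin N → Fin m → ℤˣ) (fun η => E u η) a
    have h2 : (Fintype.card (P → Fin N → Fin m → ℤˣ) : ℝ)
        = (Fintype.card (Fin N → Fin m → ℤˣ) : ℝ) ^ (Fintype.card P) := by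
      rw [Fintype.card_fun]
      push_cast
      rfl
    rw [h2]
    have h3 := hcount u
    rw [← hS'] at h3
    have h4 : ((Finset.univ.filter fun ω : P → Fin N → Fin m → ℤˣ => E u (ω a)).card : ℝ)
        * (Fintype.card (Fin N → Fin m → ℤˣ))
        ≤ ((2 * Real.exp (-(N : ℝ) * ε ^ 2 / 16))
          * (Fintype.card (Fin N → Fin m → ℤˣ) : ℝ) ^ (Fintype.card P))
          * (Fintype.card (Fin N → Fin m → ℤˣ)) := by
      rw [h1]
      have h5 : (0 : ℝ) ≤ (Fintype.card (Fin N → Fin m → ℤˣ) : ℝ) ^ (Fintype.card P) := by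
        positivity
      calc ((Finset.univ.filter fun η : Fin N → Fin m → ℤˣ => E u η).card : ℝ)
            * (Fintype.card (Fin N → Fin m → ℤˣ) : ℝ) ^ (Fintype.card P)
          ≤ (2 * ((Fintype.card (Fin N → Fin m → ℤˣ) : ℝ) * Real.exp (-(N : ℝ) * ε ^ 2 / 16)))
            * (Fintype.card (Fin N → Fin m → ℤˣ) : ℝ) ^ (Fintype.card P) :=
            mul_le_mul_of_nonneg_right h3 h5
        _ = _ := by ring
    exact le_of_mul_le_mul_right h4 hS'pos
  have hsub : (Finset.univ.filter fun ω : P → Fin N → Fin m → ℤˣ =>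
        ¬ ∀ (a : P) (u : Fin m → ℤ), |avg (fun j => f (sdot (ω a j) u))
          - avg (fun s : Fin m → ℤˣ => f (sdot s u))| ≤ ε)
      ⊆ (Finset.univ : Finset P).biUnion fun a => T.biUnion fun u =>
        Finset.univ.filter fun ω : P → Fin N → Fin m → ℤˣ => E u (ω a) := by
    intro ω hω
    rw [Finset.mem_filter] at hω
    by_contra hcon
    refine hω.2 fun a u => ?_
    obtain ⟨u', hu', hs⟩ := hT2 u
    have h1 : ¬ E u' (ω a) := by
      intro h
      refine hcon ?_
      rw [Finset.mem_biUnion]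
      refine ⟨a, Finset.mem_univ _, ?_⟩
      rw [Finset.mem_biUnion]
      exact ⟨u', hu', Finset.mem_filter.2 ⟨Finset.mem_univ _, h⟩⟩
    rw [hE] at h1
    push Not at h1
    rw [Fintype.card_fin, mul_one] at h1
    have h2 : ∑ j, X u' (ω a j) = N * (avg (fun j => f (sdot (ω a j) u')) - A u') := by
      rw [hX]
      unfold avg
      simp only [Finset.sum_sub_distrib, Finset.sum_const, Finset.card_univ, nsmul_eq_mul,
        smul_eq_mul, Fintype.card_fin]
      field_simp
    rw [h2, abs_mul, Nat.abs_cast] at h1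
    have h3 : |avg (fun j => f (sdot (ω a j) u')) - A u'| < ε / 2 := by
      exact lt_of_mul_lt_mul_left h1 hN'.le
    have h4 : |avg (fun j => f (sdot (ω a j) u)) - avg (fun j => f (sdot (ω a j) u'))| ≤ ε / 4 :=
      n1_avg_sub_le _ _ _ (by linarith) fun j => hs (ω a j)
    have h5 : |avg (fun s : Fin m → ℤˣ => f (sdot s u)) - A u'| ≤ ε / 4 := by
      rw [hA]
      exact n1_avg_sub_le _ _ _ (by linarith) fun s => hs s
    rw [abs_le] at h4 h5 ⊢
    rw [abs_lt] at h3
    constructor <;> linarith [h3.1, h3.2, h4.1, h4.2, h5.1, h5.2]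
  have hΩ : (0 : ℝ) ≤ Fintype.card (P → Fin N → Fin m → ℤˣ) := Nat.cast_nonneg _
  have hexp : (0 : ℝ) ≤ 2 * Real.exp (-(N : ℝ) * ε ^ 2 / 16) := by positivity
  calc ((Finset.univ.filter fun ω : P → Fin N → Fin m → ℤˣ =>
        ¬ ∀ (a : P) (u : Fin m → ℤ), |avg (fun j => f (sdot (ω a j) u))
          - avg (fun s : Fin m → ℤˣ => f (sdot s u))| ≤ ε).card : ℝ)
      ≤ (((Finset.univ : Finset P).biUnion fun a => T.biUnion fun u =>
        Finset.univ.filter fun ω : P → Fin N → Fin m → ℤˣ => E u (ω a)).card : ℝ) := by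
        exact_mod_cast Finset.card_le_card hsub
    _ ≤ ∑ a : P, ∑ u ∈ T,
        ((Finset.univ.filter fun ω : P → Fin N → Fin m → ℤˣ => E u (ω a)).card : ℝ) := by
        have h1 := Finset.card_biUnion_le (s := (Finset.univ : Finset P))
          (t := fun a => T.biUnion fun u =>
            Finset.univ.filter fun ω : P → Fin N → Fin m → ℤˣ => E u (ω a))
        have h2 : ∀ a ∈ (Finset.univ : Finset P), (T.biUnion fun u =>
            Finset.univ.filter fun ω : P → Fin N → Fin m → ℤˣ => E u (ω a)).card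
            ≤ ∑ u ∈ T, (Finset.univ.filter fun ω : P → Fin N → Fin m → ℤˣ => E u (ω a)).card :=
          fun a _ => Finset.card_biUnion_le
        exact_mod_cast h1.trans (Finset.sum_le_sum h2)
    _ ≤ ∑ a : P, ∑ u ∈ T,
        (2 * Real.exp (-(N : ℝ) * ε ^ 2 / 16)) * Fintype.card (P → Fin N → Fin m → ℤˣ) :=
        Finset.sum_le_sum fun a _ => Finset.sum_le_sum fun u _ => hcoord a u
    _ = (Fintype.card P * (T.card * (2 * Real.exp (-(N : ℝ) * ε ^ 2 / 16))))
        * Fintype.card (P → Fin N → Fin m → ℤˣ) := by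
        rw [Finset.sum_const, Finset.sum_const, Finset.card_univ, nsmul_eq_mul, nsmul_eq_mul]
        ring
    _ ≤ _ := by gcongr

end Pool.Agent.H67.NP
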