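import Pool.Agent.H67.NP.Hermite
import Pool.Agent.H67.NP.ExistsW
import Pool.Agent.H67.NP.Cube

/-!
# (OB): the one block inequality (§4)

Take `w, τs` from `exists_w`, `γ = gam p`.  Choose `lam ∈ (0,1)` with
`θ := (1-lam)^(-1/p) τs/γ < 1` and `M' := p w (p-2)/lam`.

Let `S = ∑ c_π z_π = ⟨τ,x⟩`, `τ = ∑ c_π u_π`, `T = ∑ c_π ψ_w(z_π) = S - w ∑ c_π H₃(z_π)`,
`U = ‖S‖_p = γ|τ|` (G1), `V = ‖T‖_p`.  By `abs_rpow_tangent` (a = S, b = T), integrating,
`E|T|^p ≥ E|S|^p - p w ∑ c_π E φ(S) H₃(z_π)`, and by (G2)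
`E φ(S)H₃(z_π) = (p-2) γ^p |τ|^(p-1) (⟨u_π,τ⟩/|τ|)³`.  By (D) (`sum_cube_le`, `v = τ/|τ|`)
`U^p ≤ V^p + p w (p-2) γ U^(p-1) e'` with `e' = 2e + 2 ε₀ |c|₂`
(`μ √(1+|Q|μ) ≤ ε₀` by hypothesis).  Either the last term is `≤ lam U^p`, and then
`U ≤ (1-lam)^(-1/p) V`, or `U < p w (p-2) γ e'/lam`.  So `U ≤ (1-lam)^(-1/p) V + γ M' e'`; divide
by `γ`.  If `τ = 0` then `U = 0`.
-/

set_option autoImplicit false

open MeasureTheory ProbabilityTheory Finset BigOperators
open scoped ENNReal NNReal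

namespace Pool.Agent.H67.NP

section growth

variable {I : Type} [Fintype I]

/-- measurable and of polynomial growth -/
private def Gr (f : (I → ℝ) → ℝ) : Prop :=
  Measurable f ∧ ∃ (C : ℝ) (n : ℕ), 0 ≤ C ∧ ∀ x, |f x| ≤ C * (1 + ∑ i, |x i|) ^ n

private theorem one_le_s (x : I → ℝ) : 1 ≤ 1 + ∑ i, |x i| := by
  have : 0 ≤ ∑ i, |x i| := Finset.sum_nonneg fun _ _ => abs_nonneg _
  linarith

private theorem Gr.integrable {f : (I → ℝ) → ℝ} (hf : Gr f) : Integrable f (gI I) := by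
  obtain ⟨hm, C, n, -, h⟩ := hf
  exact integrable_of_growth f hm C n h

private theorem Gr.add {f g : (I → ℝ) → ℝ} (hf : Gr f) (hg : Gr g) :
    Gr (fun x => f x + g x) := by
  obtain ⟨hm, C, n, hC, h⟩ := hf
  obtain ⟨hm', C', n', hC', h'⟩ := hg
  refine ⟨hm.add hm', C + C', n + n', by positivity, fun x => ?_⟩
  have h1 := one_le_s x
  have h2 : (1 + ∑ i, |x i|) ^ n ≤ (1 + ∑ i, |x i|) ^ (n + n') :=
    pow_le_pow_right₀ h1 (Nat.le_add_right _ _)
  have h3 : (1 + ∑ i, |x i|) ^ n' ≤ (1 + ∑ i, |x i|) ^ (n + n') :=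
    pow_le_pow_right₀ h1 (Nat.le_add_left _ _)
  calc |f x + g x| ≤ |f x| + |g x| := abs_add_le _ _
    _ ≤ C * (1 + ∑ i, |x i|) ^ n + C' * (1 + ∑ i, |x i|) ^ n' := add_le_add (h x) (h' x)
    _ ≤ C * (1 + ∑ i, |x i|) ^ (n + n') + C' * (1 + ∑ i, |x i|) ^ (n + n') :=
        add_le_add (mul_le_mul_of_nonneg_left h2 hC) (mul_le_mul_of_nonneg_left h3 hC')
    _ = _ := by ring

private theorem Gr.mul {f g : (I → ℝ) → ℝ} (hf : Gr f) (hg : Gr g) :
    Gr (fun x => f x * g x) := by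
  obtain ⟨hm, C, n, hC, h⟩ := hf
  obtain ⟨hm', C', n', hC', h'⟩ := hg
  refine ⟨hm.mul hm', C * C', n + n', by positivity, fun x => ?_⟩
  rw [abs_mul]
  calc |f x| * |g x| ≤ (C * (1 + ∑ i, |x i|) ^ n) * (C' * (1 + ∑ i, |x i|) ^ n') :=
        mul_le_mul (h x) (h' x) (abs_nonneg _) ((abs_nonneg _).trans (h x))
    _ = _ := by ring

private theorem Gr.const (c : ℝ) : Gr (fun _ : I → ℝ => c) :=
  ⟨measurable_const, |c|, 0, abs_nonneg _, fun x => by simp⟩

private theorem Gr.dot (v : I → ℝ) : Gr (fun x : I → ℝ => dot v x) := by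
  refine ⟨measurable_dot v, ∑ i, |v i|, 1, Finset.sum_nonneg fun _ _ => abs_nonneg _,
    fun x => ?_⟩
  unfold NP.dot
  rw [pow_one]
  calc |∑ i, v i * x i| ≤ ∑ i, |v i * x i| := Finset.abs_sum_le_sum_abs _ _
    _ ≤ ∑ i, |v i| * (1 + ∑ i, |x i|) := by
        refine Finset.sum_le_sum fun i _ => ?_
        rw [abs_mul]
        refine mul_le_mul_of_nonneg_left ?_ (abs_nonneg _)
        have := Finset.single_le_sum (f := fun i => |x i|) (fun _ _ => abs_nonneg _)
          (Finset.mem_univ i)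
        linarith
    _ = _ := by rw [Finset.sum_mul]

private theorem Gr.sum {Q : Type} (S : Finset Q) {f : Q → (I → ℝ) → ℝ} (hf : ∀ π, Gr (f π)) :
    Gr (fun x => ∑ π ∈ S, f π x) := by
  classical
  induction S using Finset.induction_on with
  | empty => simpa using Gr.const (I := I) 0
  | insert a S ha ih =>
    simp_rw [Finset.sum_insert ha]
    exact (hf a).add ih

private theorem Gr.rpow {f : (I → ℝ) → ℝ} (hf : Gr f) {r : ℝ} (hr : 0 ≤ r) :
    Gr (fun x => |f x| ^ r) := by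
  obtain ⟨hm, C, n, hC, h⟩ := hf
  refine ⟨(hm.abs).pow_const r, C ^ r, ⌈n * r⌉₊, by positivity, fun x => ?_⟩
  have h1 := one_le_s x
  rw [abs_of_nonneg (by positivity)]
  calc |f x| ^ r ≤ (C * (1 + ∑ i, |x i|) ^ n) ^ r := Real.rpow_le_rpow (abs_nonneg _) (h x) hr
    _ = C ^ r * ((1 + ∑ i, |x i|) ^ (n * r)) := by
        rw [Real.mul_rpow hC (by positivity), ← Real.rpow_natCast, ← Real.rpow_mul (by positivity)]
    _ ≤ C ^ r * ((1 + ∑ i, |x i|) ^ (⌈n * r⌉₊ : ℝ)) := by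
        refine mul_le_mul_of_nonneg_left ?_ (by positivity)
        exact Real.rpow_le_rpow_of_exponent_le h1 (Nat.le_ceil _)
    _ = _ := by rw [Real.rpow_natCast]

private theorem Gr.H3 {f : (I → ℝ) → ℝ} (hf : Gr f) : Gr (fun x => H3 (f x)) := by
  have h := ((hf.mul (hf.mul hf)).add ((Gr.const (I := I) (-3)).mul hf))
  refine ⟨?_, ?_⟩
  · have := hf.1
    unfold NP.H3
    fun_prop
  · obtain ⟨-, C, n, hC, h⟩ := h
    refine ⟨C, n, hC, fun x => ?_⟩
    refine le_of_eq_of_le ?_ (h x)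
    unfold NP.H3
    congr 1
    ring

private theorem Gr.psi {f : (I → ℝ) → ℝ} (hf : Gr f) (w : ℝ) : Gr (fun x => psi w (f x)) := by
  have h := hf.add ((Gr.const (I := I) (-w)).mul hf.H3)
  refine ⟨?_, ?_⟩
  · have := hf.H3.1
    have := hf.1
    unfold NP.psi
    fun_prop
  · obtain ⟨-, C, n, hC, h⟩ := h
    refine ⟨C, n, hC, fun x => ?_⟩
    refine le_of_eq_of_le ?_ (h x)
    unfold NP.psi
    congr 1
    ring

private theorem Gr.phi {f : (I → ℝ) → ℝ} (hf : Gr f) {p : ℝ} (hp : 2 < p) :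
    Gr (fun x => phi p (f x)) := by
  unfold NP.phi
  exact (hf.rpow (by linarith)).mul hf

private theorem Gr.lintegral {f : (I → ℝ) → ℝ} (hf : Gr f) {p : ℝ} (hp : 0 < p) :
    ∫⁻ x, ‖f x‖ₑ ^ p ∂(gI I) = ENNReal.ofReal (∫ x, |f x| ^ p ∂(gI I)) := by
  rw [ofReal_integral_eq_lintegral_ofReal (hf.rpow hp.le).integrable
    (Filter.Eventually.of_forall fun x => by positivity)]
  refine lintegral_congr fun x => ?_
  rw [← ENNReal.ofReal_rpow_of_nonneg (abs_nonneg _) hp.le, Real.enorm_eq_ofReal_abs]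

end growth

theorem one_block {p : ℝ} (hp : 2 < p) : ∃ w τs θ M' : ℝ, 0 < w ∧ 0 < τs ∧ τs < gam p ∧
    (∫⁻ x, ‖psi w x‖ₑ ^ p ∂(gaussianReal 0 1) = ENNReal.ofReal (τs ^ p)) ∧
    0 < θ ∧ θ < 1 ∧ 0 < M' ∧
    ∀ (I Q : Type) [Fintype I] [Fintype Q] (u : Q → I → ℝ) (_ : ∀ π, l2 (u π) = 1)
      (μ : ℝ) (_ : 0 ≤ μ) (_ : ∀ π π', π ≠ π' → |dot (u π) (u π')| ≤ μ)
      (ε₀ : ℝ) (_ : 0 ≤ ε₀) (_ : μ ^ 2 * (1 + Fintype.card Q * μ) ≤ ε₀ ^ 2)
      (c : Q → ℝ) (e : ℝ) (_ : ∀ π, |c π| ≤ e),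
      (∫⁻ x, ‖∑ π, c π * dot (u π) x‖ₑ ^ p ∂(gI I)) ^ (1 / p) / ENNReal.ofReal (gam p)
        ≤ ENNReal.ofReal θ *
            ((∫⁻ x, ‖∑ π, c π * psi w (dot (u π) x)‖ₑ ^ p ∂(gI I)) ^ (1 / p) / ENNReal.ofReal τs)
          + ENNReal.ofReal (M' * (2 * e + 2 * ε₀ * l2 c)) := by
  have hp0 : 0 < p := by linarith
  obtain ⟨w, τs, hw, hτ, hτγ, hint⟩ := exists_w hp
  set γ := gam p with hγ
  have hγ0 : 0 < γ := gam_pos hp0
  set ρ := (τs / γ) ^ p with hρ
  have hρ0 : 0 < ρ := Real.rpow_pos_of_pos (by positivity) _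
  have hρ1 : ρ < 1 := Real.rpow_lt_one (by positivity) ((div_lt_one hγ0).2 hτγ) hp0
  set lam := (1 - ρ) / 2 with hlam
  have hlam0 : 0 < lam := by rw [hlam]; linarith
  have h1lam : 0 < 1 - lam := by rw [hlam]; linarith
  have h1lam' : ρ < 1 - lam := by rw [hlam]; linarith
  set κ := (1 - lam) ^ (-(1 / p)) with hκ
  have hκ0 : 0 < κ := Real.rpow_pos_of_pos h1lam _
  have hκp : κ ^ p = (1 - lam)⁻¹ := by
    rw [hκ, ← Real.rpow_mul h1lam.le]
    have : -(1 / p) * p = -1 := by field_simp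
    rw [this, Real.rpow_neg_one]
  refine ⟨w, τs, κ * (τs / γ), p * w * (p - 2) / lam, hw, hτ, hτγ, hint, by positivity, ?_, ?_, ?_⟩
  · have h1 : (κ * (τs / γ)) ^ p < 1 := by
      rw [Real.mul_rpow hκ0.le (by positivity), hκp, ← hρ]
      rw [inv_mul_lt_iff₀ h1lam]
      linarith
    by_contra hcon
    push Not at hcon
    exact absurd h1 (not_lt.2 (Real.one_le_rpow hcon hp0.le))
  · have : 0 < p - 2 := by linarith
    positivity
  intro I Q _ _ u hu μ hμ0 hμ ε₀ hε₀ hμε c e he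
  set e' := 2 * e + 2 * ε₀ * l2 c with he'
  set τ : I → ℝ := fun i => ∑ π, c π * u π i with hτdef
  have hl2c : 0 ≤ l2 c := Real.sqrt_nonneg _
  -- the linear combination
  have hS : ∀ x, ∑ π, c π * dot (u π) x = dot τ x := by
    intro x
    simp only [dot, hτdef, Finset.mul_sum, Finset.sum_mul]
    rw [Finset.sum_comm]
    refine Finset.sum_congr rfl fun i _ => Finset.sum_congr rfl fun π _ => ?_
    ring
  have hτn : 0 ≤ l2 τ := Real.sqrt_nonneg _
  have hA : (∫⁻ x, ‖∑ π, c π * dot (u π) x‖ₑ ^ p ∂(gI I)) ^ (1 / p) / ENNReal.ofReal γ =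
      ENNReal.ofReal (l2 τ) := by
    simp_rw [hS]
    rw [lintegral_dot τ hp0, ENNReal.ofReal_rpow_of_nonneg (by positivity) (by positivity),
      ← Real.rpow_mul (by positivity), mul_one_div_cancel hp0.ne', Real.rpow_one,
      ← ENNReal.ofReal_div_of_pos hγ0, mul_div_cancel_left₀ _ hγ0.ne']
  set T : (I → ℝ) → ℝ := fun x => ∑ π, c π * psi w (dot (u π) x) with hT
  have hTGr : Gr T := Gr.sum _ fun π => (Gr.const (c π)).mul ((Gr.dot (u π)).psi w)
  set ET := ∫ x, |T x| ^ p ∂(gI I) with hET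
  have hET0 : 0 ≤ ET := integral_nonneg fun x => by positivity
  have hB : ∫⁻ x, ‖∑ π, c π * psi w (dot (u π) x)‖ₑ ^ p ∂(gI I) = ENNReal.ofReal ET :=
    hTGr.lintegral hp0
  rw [hA, hB, ENNReal.ofReal_rpow_of_nonneg hET0 (by positivity), ← ENNReal.ofReal_div_of_pos hτ,
    ← ENNReal.ofReal_mul (by positivity)]
  have he'0 : ∀ π : Q, 0 ≤ e := fun π => (abs_nonneg _).trans (he π)
  -- the trivial case
  rcases eq_or_lt_of_le hτn with h0 | hτpos
  · rw [← h0]
    simp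
  -- now `τ ≠ 0`, hence `Q` is nonempty
  have hQ : Nonempty Q := by
    by_contra hQ
    rw [not_nonempty_iff] at hQ
    have : l2 τ = 0 := by
      simp [l2, hτdef]
    linarith
  obtain ⟨π₀⟩ := hQ
  have he0 : 0 ≤ e := he'0 π₀
  have he'' : 0 ≤ e' := by positivity
  rw [← ENNReal.ofReal_add (by positivity) (by
    have : 0 < p - 2 := by linarith
    positivity)]
  apply ENNReal.ofReal_le_ofReal
  -- real computation
  set U := γ * l2 τ with hU
  have hU0 : 0 < U := by positivity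
  have hSGr : Gr (fun x : I → ℝ => dot τ x) := Gr.dot τ
  have hES : ∫ x, |dot τ x| ^ p ∂(gI I) = U ^ p := by
    have h1 := lintegral_dot τ hp0
    rw [hSGr.lintegral hp0] at h1
    have h2 : 0 ≤ ∫ x, |dot τ x| ^ p ∂(gI I) := integral_nonneg fun x => by positivity
    have h3 := congrArg ENNReal.toReal h1
    rwa [ENNReal.toReal_ofReal h2, ENNReal.toReal_ofReal (by positivity)] at h3
  have hphiGr : Gr (fun x : I → ℝ => phi p (dot τ x)) := hSGr.phi hp
  have hint1 : ∀ π, Integrable (fun x => phi p (dot τ x) * H3 (dot (u π) x)) (gI I) :=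
    fun π => (hphiGr.mul (Gr.dot (u π)).H3).integrable
  have htan : ∀ x, |dot τ x| ^ p - p * w * ∑ π, c π * (phi p (dot τ x) * H3 (dot (u π) x)) ≤
      |T x| ^ p := by
    intro x
    have h1 := abs_rpow_tangent (p := p) (by linarith) (dot τ x) (T x)
    have h2 : T x - dot τ x = - (w * ∑ π, c π * H3 (dot (u π) x)) := by
      rw [hT, ← hS x, ← Finset.sum_sub_distrib, Finset.mul_sum, ← Finset.sum_neg_distrib]
      refine Finset.sum_congr rfl fun π _ => ?_
      unfold psi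
      ring
    rw [h2] at h1
    refine le_trans (le_of_eq ?_) h1
    have h3 : ∑ π, c π * (phi p (dot τ x) * H3 (dot (u π) x)) =
        phi p (dot τ x) * ∑ π, c π * H3 (dot (u π) x) := by
      rw [Finset.mul_sum]
      refine Finset.sum_congr rfl fun π _ => ?_
      ring
    rw [h3]
    ring
  have hint2 : Integrable (fun x => ∑ π, c π * (phi p (dot τ x) * H3 (dot (u π) x))) (gI I) :=
    integrable_finsetSum _ fun π _ => (hint1 π).const_mul _
  have hmain : U ^ p - p * w * ∑ π, c π * ((p - 2) * γ ^ p * l2 τ ^ (p - 1) *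
      (dot (u π) τ / l2 τ) ^ 3) ≤ ET := by
    have h1 := integral_mono (((hSGr.rpow hp0.le).integrable).sub (hint2.const_mul (p * w)))
      (hTGr.rpow hp0.le).integrable htan
    simp only [Pi.sub_apply] at h1
    rw [integral_sub ((hSGr.rpow hp0.le).integrable) (hint2.const_mul (p * w)),
      integral_const_mul, integral_finsetSum _ (fun π _ => (hint1 π).const_mul _), hES] at h1
    simp_rw [integral_const_mul, integral_phi_H3 hp (u _) τ (hu _)] at h1
    exact h1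
  -- the cube sum
  set v : I → ℝ := fun i => (l2 τ)⁻¹ * τ i with hv
  have hv1 : l2 v = 1 := by
    rw [hv, l2_smul, abs_of_pos (by positivity), inv_mul_cancel₀ hτpos.ne']
  have hdv : ∀ π, dot (u π) v = dot (u π) τ / l2 τ := by
    intro π
    simp only [dot, hv]
    rw [Finset.sum_div]
    refine Finset.sum_congr rfl fun i _ => ?_
    rw [div_eq_mul_inv]
    ring
  have hcube := sum_cube_le u hu μ hμ0 hμ v hv1 c e he he0
  have hμε' : μ * √(1 + Fintype.card Q * μ) ≤ ε₀ := by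
    have h1 : μ * √(1 + Fintype.card Q * μ) = √(μ ^ 2 * (1 + Fintype.card Q * μ)) := by
      rw [Real.sqrt_mul (sq_nonneg _), Real.sqrt_sq hμ0]
    rw [h1]
    calc √(μ ^ 2 * (1 + Fintype.card Q * μ)) ≤ √(ε₀ ^ 2) := Real.sqrt_le_sqrt hμε
      _ = ε₀ := Real.sqrt_sq hε₀
  have hcube' : ∑ π, |c π| * |dot (u π) v| ^ 3 ≤ e' := by
    refine hcube.trans ?_
    have : 2 * μ * √(1 + Fintype.card Q * μ) * l2 c ≤ 2 * ε₀ * l2 c := by
      have := mul_le_mul_of_nonneg_right hμε' hl2c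
      nlinarith
    rw [he']
    linarith
  have hsum : ∑ π, c π * ((p - 2) * γ ^ p * l2 τ ^ (p - 1) * (dot (u π) τ / l2 τ) ^ 3) ≤
      (p - 2) * γ ^ p * l2 τ ^ (p - 1) * e' := by
    have h1 : ∑ π, c π * ((p - 2) * γ ^ p * l2 τ ^ (p - 1) * (dot (u π) τ / l2 τ) ^ 3) =
        (p - 2) * γ ^ p * l2 τ ^ (p - 1) * ∑ π, c π * (dot (u π) v) ^ 3 := by
      rw [Finset.mul_sum]
      refine Finset.sum_congr rfl fun π _ => ?_
      rw [hdv]
      ring
    rw [h1]
    refine mul_le_mul_of_nonneg_left ?_ (by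
      have : 0 < p - 2 := by linarith
      positivity)
    refine le_trans (Finset.sum_le_sum fun π _ => ?_) hcube'
    calc c π * (dot (u π) v) ^ 3 ≤ |c π * (dot (u π) v) ^ 3| := le_abs_self _
      _ = _ := by rw [abs_mul, abs_pow]
  have hγp : γ ^ p = γ * γ ^ (p - 1) := by
    rw [Real.rpow_sub_one hγ0.ne']
    field_simp
  have hUp : U ^ p = U * U ^ (p - 1) := by
    rw [Real.rpow_sub_one hU0.ne']
    field_simp
  set Kc := p * w * (p - 2) * γ * e' with hKc
  have hfin : U ^ p - Kc * U ^ (p - 1) ≤ ET := by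
    refine le_trans ?_ hmain
    have h1 := mul_le_mul_of_nonneg_left hsum (show 0 ≤ p * w by positivity)
    have h2 : p * w * ((p - 2) * γ ^ p * l2 τ ^ (p - 1) * e') = Kc * U ^ (p - 1) := by
      rw [hKc, hU, Real.mul_rpow hγ0.le hτn, hγp]
      ring
    linarith
  have hUp1 : 0 < U ^ (p - 1) := by positivity
  -- final dichotomy
  have hgoal : U ≤ κ * ET ^ (1 / p) + Kc / lam := by
    have hKc0 : 0 ≤ Kc := by
      have : 0 < p - 2 := by linarith
      positivity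
    have hκE : 0 ≤ κ * ET ^ (1 / p) := by positivity
    by_cases hcase : Kc * U ^ (p - 1) ≤ lam * U ^ p
    · have h1 : (1 - lam) * U ^ p ≤ ET := by linarith
      have h2 : U ^ p ≤ (κ * ET ^ (1 / p)) ^ p := by
        rw [Real.mul_rpow hκ0.le (by positivity), hκp, ← Real.rpow_mul hET0,
          one_div_mul_cancel hp0.ne', Real.rpow_one]
        rw [le_inv_mul_iff₀ h1lam]
        exact h1
      have h3 : U ≤ κ * ET ^ (1 / p) := by
        by_contra hcon
        push Not at hcon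
        exact absurd h2 (not_le.2 (Real.rpow_lt_rpow hκE hcon hp0))
      have : 0 ≤ Kc / lam := by positivity
      linarith
    · push Not at hcase
      rw [hUp] at hcase
      have h1 : lam * U < Kc := by
        by_contra hcon
        push Not at hcon
        have := mul_le_mul_of_nonneg_right hcon hUp1.le
        nlinarith
      have h2 : U ≤ Kc / lam := by
        rw [le_div_iff₀ hlam0]
        linarith
      linarith
  have hτU : l2 τ = U / γ := by
    rw [hU]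
    field_simp
  rw [hτU, div_le_iff₀ hγ0]
  refine hgoal.trans (le_of_eq ?_)
  rw [hKc]
  field_simp

end Pool.Agent.H67.NP
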